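import Pool.Agent.Helper6K9.EH.AveC

set_option autoImplicit false

/-! # [AVE]: averaging -/

namespace Pool.Agent.Helper6K9.EH

open Set Filter Topology Pool.Agent.Helper6K9.ES
open scoped ContDiff

namespace AveL

theorem cont_aux {α γ l : ℝ} {f0 f1 f2 f3 f4 f5 f6 f7 f8 : E 1 → ℝ} (h0 : Continuous f0)
    (h1 : Continuous f1) (h2 : Continuous f2) (h3 : Continuous f3) (h4 : Continuous f4)
    (h5 : Continuous f5) (h6 : Continuous f6) (h7 : Continuous f7) (h8 : Continuous f8) :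
    ContinuousOn (fun z : ℝ × ℝ × E 1 => (z.1 - (α * f0 z.2.2 * z.1⁻¹ -
      α * (f1 z.2.2 + z.2.1 * f2 z.2.2) * z.1⁻¹ ^ 2 +
      (α ^ 2 * f0 z.2.2 ^ 2 / 2 + α * (f3 z.2.2 + z.2.1 * (f4 z.2.2 + f5 z.2.2) +
        z.2.1 ^ 2 * f6 z.2.2) + α * γ * f2 z.2.2 ^ 2 / 2 + α * l ^ 2 * f7 z.2.2 * f8 z.2.2) *
        z.1⁻¹ ^ 3), z.2.1 - γ * f2 z.2.2 * z.1⁻¹)) {z | 0 < z.1} := by
  have c1 : ContinuousOn (fun z : ℝ × ℝ × E 1 => z.1⁻¹) {z | 0 < z.1} :=
    continuousOn_fst.inv₀ fun z hz => ne_of_gt hz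
  fun_prop

theorem contJw {α γ b l c : ℝ} {k : ℝ → ℝ} {F : E 1 → ℝ} (hk : Prof k c) (hF : Sm F) :
    ContinuousOn (fun z : ℝ × ℝ × E 1 => (z.1 - Xf α γ b l k F z.1 z.2.1 z.2.2,
      z.2.1 - Yf γ b F z.1 z.2.1 z.2.2)) {z | 0 < z.1} := by
  have s1 : Sm (an F) := sm_an hF
  have s2 : Sm (an (an F)) := sm_an s1
  exact cont_aux hF.1.continuous (sm_dT s1).1.continuous (sm_dY b s1).1.continuous
    (sm_dT (sm_dT s2)).1.continuous (sm_dY b (sm_dT s2)).1.continuous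
    (sm_dT (sm_dY b s2)).1.continuous (sm_dY b (sm_dY b s2)).1.continuous
    (sm_kap hk).1.continuous (sm_dY b s2).1.continuous

theorem near {α γ b l c : ℝ} {k : ℝ → ℝ} {F : E 1 → ℝ} (hk : Prof k c) (hF : Sm F) :
    ∃ C V₀ : ℝ, 1 ≤ C ∧ 1 ≤ V₀ ∧ NearId (fun v q p => v - Xf α γ b l k F v q p)
      (fun v q p => q - Yf γ b F v q p) C V₀ := by
  obtain ⟨A, hA, hX⟩ := uoX (ι := Unit) (α := α) (γ := γ) (b := b) (l := l) (Q := 2) hk hF
  obtain ⟨B, hB, hY⟩ := uoY (ι := Unit) (γ := γ) (b := b) (Q := 2) hF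
  refine ⟨A + B + 1, 1, by linarith, le_rfl, fun v q p hv hq => ?_,
    fun V v v' q q' p p' hV hv hv' hq hq' hp => ?_, ?_⟩
  · have h1 := (hX () v v v q q p p hv le_rfl le_rfl hq hq rfl).1
    have h2 := (hY () v v v q q p p hv le_rfl le_rfl hq hq rfl).1
    rw [pow_one] at h1 h2
    have hv0 : 0 < v := by linarith
    have h3 : A / v ≤ (A + B + 1) / v := by gcongr; linarith
    have h4 : B / v ≤ (A + B + 1) / v := by gcongr; linarith
    rw [sub_sub_cancel_left, sub_sub_cancel_left, abs_neg, abs_neg]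
    exact ⟨h1.trans h3, h2.trans h4⟩
  · have h1 := (hX () V v v' q q' p p' hV hv hv' hq hq' hp).2
    have h2 := (hY () V v v' q q' p p' hV hv hv' hq hq' hp).2
    rw [pow_one] at h1 h2
    have hv0 : 0 < V := by linarith
    have hd := dd_nonneg v q p v' q' p'
    have h3 : A / V * dd v q p v' q' p' ≤ (A + B + 1) / V * dd v q p v' q' p' := by
      gcongr
      linarith
    have h4 : B / V * dd v q p v' q' p' ≤ (A + B + 1) / V * dd v q p v' q' p' := by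
      gcongr
      linarith
    have e : ∀ x y : ℝ, |-x - -y| = |x - y| := fun x y => by rw [← neg_sub', abs_neg]
    rw [sub_sub_cancel_left, sub_sub_cancel_left, sub_sub_cancel_left, sub_sub_cancel_left, e, e]
    exact ⟨h1.trans h3, h2.trans h4⟩
  · exact contJw hk hF

theorem dX_le {K : E 1 → ℝ} (hK : Small K 1) (i : Fin (1 + 1)) (p : E 1) : |dX i K p| ≤ 1 := by
  have h1 := (fderiv ℝ K p).le_opNorm (Pi.single i 1, 0)
  have h2 := (hK p).2.1
  rw [Real.norm_eq_abs] at h1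
  refine h1.trans ?_
  have := mul_le_mul h2 (norm_dir i) (norm_nonneg _) zero_le_one
  linarith

theorem dY_le {K : E 1 → ℝ} (b : ℝ) (hK : Small K 1) (p : E 1) : |dY b K p| ≤ 1 + |b| := by
  unfold dY
  refine (abs_add_le _ _).trans ?_
  rw [abs_mul]
  have h1 := dX_le hK 1 p
  have h2 := dX_le hK 0 p
  have h3 := mul_le_mul_of_nonneg_left h2 (abs_nonneg b)
  linarith

theorem pt_per {K : E 1 → ℝ} (hK : Per K) (i : Fin (1 + 1)) (b x y t : ℝ) (N : ℤ) :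
    dX i K (pt (x - b * (y - N) + b * (y - N)) (y - N) t) = dX i K (pt x y t) := by
  have h1 := OpsL.dir_per hK (Pi.single i 1, 0) (pt x y t) ![0, -N] 0
  have e : ((pt x y t).1 + (fun i => ((![0, -N] : Fin 2 → ℤ) i : ℝ)), (pt x y t).2 + ((0 : ℤ) : ℝ)) =
      pt (x - b * (y - N) + b * (y - N)) (y - N) t := by
    unfold pt
    ext j
    · fin_cases j
      · simp
      · simp [sub_eq_add_neg]
    · simp
  rw [e] at h1
  exact h1

/-- the errors along the solutions -/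
theorem errs {α γ b l c : ℝ} {k : ℝ → ℝ} {F : E 1 → ℝ} (hk : Prof k c) (hF : Sm F)
    (h0 : ∀ p, av F p = 0) {K f : E 1 → ℝ} (χ ps cb : ℝ → ℝ) (hK : Per K)
    (hγ : γ ≠ 0)
    (hf : ∀ p, dX 0 f p = dX 0 F p + dX 0 K p ∧
        dX 1 f p = dX 1 F p + l ^ 2 / γ * k (p.1 1) * deriv k (p.1 1) + dX 1 K p)
    {p₀ p₁ v q : ℝ → ℝ → ℝ} (N : ℤ) (s : ℝ) (hT : Tr α γ b f (p₀ s) (p₁ s) (v s) (q s)) (t : ℝ)
    (hv0 : v s t ≠ 0) :
    let e := mkEnv α γ b l c k χ ps cb K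
    let G := mkFam b (fun v q p => v - Xf α γ b l k F v q p)
      (fun v q p => q - Yf γ b F v q p) p₀ p₁ v q N
    let P := pt (p₀ s t) (p₁ s t) t
    (DifferentiableAt ℝ (G.X s) t ∧ DifferentiableAt ℝ (G.J s) t ∧
      DifferentiableAt ℝ (G.Y s) t ∧ DifferentiableAt ℝ (G.w s) t) ∧
    eX G s t = Xf α γ b l k F (v s t) (q s t) P ∧ eY G s t = Yf γ b F (v s t) (q s t) P ∧
    ew e G s t = Wf α γ b F K (v s t) (q s t) P ∧
    eJ e G s t = J1 α γ b F K (v s t) (q s t) P + J3 α γ b l k F K (v s t) (q s t) P ∧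
    e.Kx (G.X s t) (G.Y s t) t = dX 0 K P ∧ e.Ky (G.X s t) (G.Y s t) t = dY b K P := by
  intro e G P
  obtain ⟨hp0, hp1, hv, hq⟩ := hT t
  obtain ⟨hJ, hw⟩ := traj hk hF h0 hγ hf hT t hv0
  have dXt : HasDerivAt (G.X s) (v s t) t := by
    have h1 := hp0.sub ((hp1.sub_const (N : ℝ)).const_mul b)
    exact h1.congr_deriv (by ring)
  have dYt : HasDerivAt (G.Y s) (q s t) t := hp1.sub_const (N : ℝ)
  have dJt : HasDerivAt (G.J s) (α * dX 0 K P + (J1 α γ b F K (v s t) (q s t) P +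
      J3 α γ b l k F K (v s t) (q s t) P)) t := hJ
  have dwt : HasDerivAt (G.w s) (l ^ 2 * kap k P + γ * dY b K P +
      Wf α γ b F K (v s t) (q s t) P) t := hw
  have eKx : e.Kx (G.X s t) (G.Y s t) t = dX 0 K P := pt_per hK 0 b (p₀ s t) (p₁ s t) t N
  have eKy : e.Ky (G.X s t) (G.Y s t) t = dY b K P := by
    have h1 := pt_per hK 0 b (p₀ s t) (p₁ s t) t N
    have h2 := pt_per hK 1 b (p₀ s t) (p₁ s t) t N
    show dX 1 K _ + b * dX 0 K _ = dX 1 K P + b * dX 0 K P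
    exact congrArg₂ (fun x y => x + b * y) h2 h1
  have ek : k (p₁ s t - N) * deriv k (p₁ s t - N) = kap k P := by
    have h1 := kap_per hk (p₁ s t) (-N)
    rw [Int.cast_neg, ← sub_eq_add_neg] at h1
    rw [h1]
    rfl
  refine ⟨⟨dXt.differentiableAt, dJt.differentiableAt, dYt.differentiableAt,
    dwt.differentiableAt⟩, ?_, ?_, ?_, ?_, eKx, eKy⟩
  · unfold eX
    rw [dXt.deriv]
    show v s t - (v s t - Xf α γ b l k F (v s t) (q s t) P) = _
    ring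
  · unfold eY
    rw [dYt.deriv]
    show q s t - (q s t - Yf γ b F (v s t) (q s t) P) = _
    ring
  · unfold ew
    rw [dwt.deriv, eKy]
    show l ^ 2 * kap k P + γ * dY b K P + Wf α γ b F K (v s t) (q s t) P -
      (l ^ 2 * k (p₁ s t - N) * deriv k (p₁ s t - N) + γ * dY b K P) = _
    rw [mul_assoc (l ^ 2), ek]
    ring
  · unfold eJ
    rw [dJt.deriv, eKx]
    show α * dX 0 K P + (J1 α γ b F K (v s t) (q s t) P + J3 α γ b l k F K (v s t) (q s t) P) -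
      α * dX 0 K P = _
    ring

/-- the state stays in the range of the estimates -/
theorem stay {v : ℝ → ℝ} {g : ℝ → ℝ} {M k₂ T : ℝ} (hv : ∀ t, HasDerivAt v (g t) t)
    (hg : ∀ t, |g t| ≤ M) (hM : 0 ≤ M) {t : ℝ} (ht : t ∈ Icc T (T + k₂)) :
    |v t - v T| ≤ M * k₂ := by
  have h1 := Convex.norm_image_sub_le_of_norm_hasDerivWithin_le (s := (univ : Set ℝ)) (f := v)
    (f' := g) (x := T) (y := t) (fun x _ => (hv x).hasDerivWithinAt) (fun x _ => hg x)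
    convex_univ (mem_univ _) (mem_univ _)
  rw [Real.norm_eq_abs, Real.norm_eq_abs, abs_of_nonneg (by linarith [ht.1] : 0 ≤ t - T)] at h1
  exact h1.trans (mul_le_mul_of_nonneg_left (by linarith [ht.2]) hM)

/-- the distance of the states is comparable with the distance in the new coordinates -/
theorem dd_le {b v q v' q' X X' x₀ x₁ x₀' x₁' J J' w w' Y Y' r : ℝ}
    {x y x' y' : ℝ}
    (hd : |v - v'| + |q - q'| + |x₀ - x₀'| + |x₁ - x₁'| = r)
    (hJ : J = v - x) (hJ' : J' = v' - x') (hw : w = q - y) (hw' : w' = q' - y')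
    (hX : X = x₀ - b * Y) (hX' : X' = x₀' - b * Y') (hY : Y - Y' = x₁ - x₁')
    (hx : |x - x'| ≤ 1 / 4 * r) (hy : |y - y'| ≤ 1 / 4 * r) :
    r ≤ 2 * (1 + |b|) * (|X - X'| + |J - J'| + |Y - Y'| + |w - w'|) := by
  have h1 : |v - v'| ≤ |J - J'| + |x - x'| := by
    have e : v - v' = (J - J') + (x - x') := by rw [hJ, hJ']; ring
    rw [e]
    exact abs_add_le _ _
  have h2 : |q - q'| ≤ |w - w'| + |y - y'| := by
    have e : q - q' = (w - w') + (y - y') := by rw [hw, hw']; ring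
    rw [e]
    exact abs_add_le _ _
  have h3 : |x₀ - x₀'| ≤ |X - X'| + |b| * |Y - Y'| := by
    have e : x₀ - x₀' = (X - X') + b * (Y - Y') := by rw [hX, hX']; ring
    rw [e, ← abs_mul]
    exact abs_add_le _ _
  rw [← hY] at hd
  have h4 := abs_nonneg (X - X')
  have h5 := abs_nonneg (J - J')
  have h6 := abs_nonneg (Y - Y')
  have h7 := abs_nonneg (w - w')
  have h8 := abs_nonneg b
  have h9 := mul_nonneg h8 h4
  have h10 := mul_nonneg h8 h5
  have h11 := mul_nonneg h8 h7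
  nlinarith

theorem J1_le {α γ b CF CG U v q : ℝ} {F K : E 1 → ℝ} {p : E 1} (hα : 0 < α) (hγ : 0 < γ)
    (hbF : ∀ p, |F p| ≤ CF) (hbG : ∀ p, |dY b (an F) p| ≤ CG) (hCF : 0 ≤ CF) (hCG : 0 ≤ CG)
    (hU : 0 < U) (hv : U ≤ v) :
    |J1 α γ b F K v q p| ≤ (α ^ 2 * CF + α * γ * CG) / U ^ 2 * (|dX 0 K p| + |dY b K p|) := by
  unfold J1
  have hv0 : 0 < v := by linarith
  have h1 : v⁻¹ ^ 2 ≤ 1 / U ^ 2 := by
    rw [inv_pow, ← one_div]
    exact one_div_le_one_div_of_le (by positivity) (pow_le_pow_left₀ hU.le hv 2)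
  have h2 : |α ^ 2 * F p * dX 0 K p + α * γ * dY b K p * dY b (an F) p| ≤
      (α ^ 2 * CF + α * γ * CG) * (|dX 0 K p| + |dY b K p|) := by
    refine (abs_add_le _ _).trans ?_
    rw [abs_mul, abs_mul, abs_mul, abs_mul, abs_of_pos (by positivity : 0 < α ^ 2),
      abs_of_pos (by positivity : 0 < α * γ)]
    have h3 := abs_nonneg (dX 0 K p)
    have h4 := abs_nonneg (dY b K p)
    have h5 : α ^ 2 * |F p| * |dX 0 K p| ≤ α ^ 2 * CF * |dX 0 K p| := by
      gcongr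
      exact hbF p
    have h6 : α * γ * |dY b K p| * |dY b (an F) p| ≤ α * γ * |dY b K p| * CG := by
      gcongr
      exact hbG p
    have h7 : 0 ≤ α ^ 2 * CF * |dY b K p| := by positivity
    have h8 : 0 ≤ α * γ * CG * |dX 0 K p| := by positivity
    nlinarith
  rw [abs_mul, abs_of_pos (by positivity : 0 < v⁻¹ ^ 2)]
  have h9 := mul_le_mul h2 h1 (by positivity) (by positivity)
  refine h9.trans (le_of_eq ?_)
  ring

theorem ae_main {α γ b l c : ℝ} {k : ℝ → ℝ} {F : E 1 → ℝ} (hα : 0 < α) (hγ : 0 < γ)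
    (hk : Prof k c) (hF : Sm F) (h0 : ∀ p, av F p = 0) (k₂ : ℝ) (hk₂ : 0 ≤ k₂) :
    ∃ C V₀ : ℝ, 1 ≤ C ∧ 1 ≤ V₀ ∧
    ∀ (K f : E 1 → ℝ) (χ ps cb : ℝ → ℝ), ContDiff ℝ 2 K → Per K → Small K 1 →
      (∀ p, dX 0 f p = dX 0 F p + dX 0 K p ∧
        dX 1 f p = dX 1 F p + l ^ 2 / γ * k (p.1 1) * deriv k (p.1 1) + dX 1 K p) →
      ∀ p₀ p₁ v q : ℝ → ℝ → ℝ, (∀ s, Tr α γ b f (p₀ s) (p₁ s) (v s) (q s)) →
        (∀ t, Continuous (fun s => p₀ s t) ∧ Continuous (fun s => p₁ s t) ∧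
          Continuous (fun s => v s t) ∧ Continuous (fun s => q s t)) →
        ∀ (N : ℤ) (a₁ a₂ : ℝ), AE (mkEnv α γ b l c k χ ps cb K)
          (mkFam b (fun v q p => v - Xf α γ b l k F v q p) (fun v q p => q - Yf γ b F v q p)
            p₀ p₁ v q N)
          (Pv v q) C V₀ k₂ a₁ a₂ := by
  obtain ⟨Cx, hCx, hbx⟩ := CmpL.per_bd (sm_dX 0 hF).1.continuous (sm_dX 0 hF).2
  obtain ⟨Cy, hCy, hby⟩ := CmpL.per_bd (sm_dY b hF).1.continuous (sm_dY b hF).2
  obtain ⟨Ck, hCk, hbk⟩ := CmpL.per_bd (sm_kap hk).1.continuous (sm_kap hk).2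
  obtain ⟨CF, hCF, hbF⟩ := CmpL.per_bd hF.1.continuous hF.2
  obtain ⟨CG, hCG, hbG⟩ := CmpL.per_bd (sm_dY b (sm_an hF)).1.continuous (sm_dY b (sm_an hF)).2
  obtain ⟨M, hM⟩ : ∃ M, M = α * (Cx + 1) + γ * (Cy + (1 + |b|)) + l ^ 2 * Ck := ⟨_, rfl⟩
  have hb0 := abs_nonneg b
  have hM0 : 0 ≤ M := by rw [hM]; positivity
  obtain ⟨Q, hQ⟩ : ∃ Q, Q = 2 + M * k₂ := ⟨_, rfl⟩
  obtain ⟨A, hA, hX⟩ := uoX (ι := Unit) (α := α) (γ := γ) (b := b) (l := l) (Q := Q) hk hF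
  obtain ⟨B, hB, hY⟩ := uoY (ι := Unit) (γ := γ) (b := b) (Q := Q) hF
  obtain ⟨D, hD, hW⟩ := uoW (α := α) (γ := γ) (b := b) (Q := Q) hF
  obtain ⟨E₁, hE₁, hJ1⟩ := uoJ1 (α := α) (γ := γ) (b := b) (Q := Q) hF
  obtain ⟨E₃, hE₃, hJ3⟩ := uoJ3 (α := α) (γ := γ) (b := b) (l := l) (Q := Q) hk hF
  obtain ⟨c₀, hc₀⟩ : ∃ c₀, c₀ = α ^ 2 * CF + α * γ * CG := ⟨_, rfl⟩
  have hc0 : 0 ≤ c₀ := by rw [hc₀]; positivity
  obtain ⟨R, hR⟩ : ∃ R, R = A + B + D + E₁ + E₃ + c₀ := ⟨_, rfl⟩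
  have hR0 : 0 ≤ R := by rw [hR]; positivity
  obtain ⟨C, hC⟩ : ∃ C, C = 1 + 16 * (1 + |b|) * R := ⟨_, rfl⟩
  have hbR : 0 ≤ |b| * R := by positivity
  have hC1 : 1 ≤ C := by rw [hC]; nlinarith
  have hCR : 16 * R ≤ C := by rw [hC]; nlinarith
  refine ⟨C, 2 + 2 * (M * k₂) + 8 * (A + B), hC1, ?_, ?_⟩
  · have : 0 ≤ M * k₂ := by positivity
    linarith
  intro K f χ ps cb hK2 hKp hKs hf p₀ p₁ v q hT hcont N a₁ a₂ V T a' b' hV hT0 ha hab hb hP
  have hMk : 0 ≤ M * k₂ := by positivity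
  have hV0 : 0 < V := by linarith
  have hV1 : 1 ≤ V := by linarith
  have hVh : 1 ≤ V / 2 := by linarith
  have hgx : ∀ p, |α * dX 0 f p| ≤ M := by
    intro p
    rw [(hf p).1, abs_mul, abs_of_pos hα]
    have h1 := (abs_add_le (dX 0 F p) (dX 0 K p)).trans (add_le_add (hbx p) (dX_le hKs 0 p))
    have h2 := mul_le_mul_of_nonneg_left h1 hα.le
    have h3 : 0 ≤ γ * (Cy + (1 + |b|)) + l ^ 2 * Ck := by positivity
    linarith
  have hgy : ∀ p, |γ * (dX 1 f p + b * dX 0 f p)| ≤ M := by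
    intro p
    have e : γ * (dX 1 f p + b * dX 0 f p) = γ * (dY b F p + dY b K p) + l ^ 2 * kap k p := by
      rw [(hf p).1, (hf p).2]
      unfold dY kap
      field_simp
      ring
    rw [e]
    have h1 := (abs_add_le (dY b F p) (dY b K p)).trans (add_le_add (hby p) (dY_le b hKs p))
    have h2 := mul_le_mul_of_nonneg_left h1 hγ.le
    have h3 : 0 ≤ α * (Cx + 1) := by positivity
    have h4 := mul_le_mul_of_nonneg_left (hbk p) (sq_nonneg l)
    refine (abs_add_le _ _).trans ?_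
    rw [abs_mul, abs_mul, abs_of_pos hγ, abs_of_nonneg (sq_nonneg l)]
    linarith
  have hr : ∀ s ∈ Icc a' b', ∀ t ∈ Icc T (T + k₂), V / 2 ≤ v s t ∧ |q s t| ≤ Q := by
    intro s hs t ht
    obtain ⟨hp1, hp2⟩ := hP s hs
    have h1 := stay (v := v s) (g := fun t => α * dX 0 f (pt (p₀ s t) (p₁ s t) t))
      (fun t => (hT s t).2.2.1) (fun t => hgx _) hM0 ht
    have h2 := stay (v := q s) (g := fun t => γ * (dX 1 f (pt (p₀ s t) (p₁ s t) t) +
      b * dX 0 f (pt (p₀ s t) (p₁ s t) t))) (fun t => (hT s t).2.2.2) (fun t => hgy _) hM0 ht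
    constructor
    · have := neg_abs_le (v s t - v s T)
      linarith
    · have h3 := abs_sub_abs_le_abs_sub (q s t) (q s T)
      rw [hQ]
      linarith
  have e1 : ∀ x : ℝ, x / (V / 2) ^ 1 = 2 * x / V := fun x => by field_simp
  have e2 : ∀ x : ℝ, x / (V / 2) ^ 2 = 4 * x / V ^ 2 := fun x => by field_simp; ring
  have e3 : ∀ x : ℝ, x / (V / 2) ^ 3 = 8 * x / V ^ 3 := fun x => by field_simp; ring
  have hAV : 2 * A / V ≤ 1 / 4 := by
    rw [div_le_iff₀ hV0]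
    linarith
  have hBV : 2 * B / V ≤ 1 / 4 := by
    rw [div_le_iff₀ hV0]
    linarith
  obtain ⟨Kk, hKk⟩ : ∃ Kk : KK, Kk.1 = K := ⟨⟨K, hK2, hKs⟩, rfl⟩
  have bX : ∀ s ∈ Icc a' b', ∀ t ∈ Icc T (T + k₂),
      |Xf α γ b l k F (v s t) (q s t) (pt (p₀ s t) (p₁ s t) t)| ≤ 2 * A / V ∧
      |Yf γ b F (v s t) (q s t) (pt (p₀ s t) (p₁ s t) t)| ≤ 2 * B / V := by
    intro s hs t ht
    obtain ⟨h1, h2⟩ := hr s hs t ht
    have h3 := (hX () (V / 2) _ _ _ _ (pt (p₀ s t) (p₁ s t) t) (pt (p₀ s t) (p₁ s t) t)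
      hVh h1 h1 h2 h2 rfl).1
    have h4 := (hY () (V / 2) _ _ _ _ (pt (p₀ s t) (p₁ s t) t) (pt (p₀ s t) (p₁ s t) t)
      hVh h1 h1 h2 h2 rfl).1
    rw [e1] at h3 h4
    exact ⟨h3, h4⟩
  have hCV : ∀ x : ℝ, x ≤ C → x / V ≤ C / V := fun x hx => by gcongr
  have hAR : A ≤ R := by rw [hR]; linarith
  have hBR : B ≤ R := by rw [hR]; linarith
  have hDR : D ≤ R := by rw [hR]; linarith
  have hE₁R : E₁ + E₃ ≤ R := by rw [hR]; linarith
  have hE₃R : E₃ ≤ R := by rw [hR]; linarith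
  have hcR : c₀ ≤ R := by rw [hR]; linarith
  constructor
  · refine ⟨fun s hs t ht => ?_, fun s hs t ht => ?_, fun s hs s' hs' t ht => ?_,
      fun t ht => ?_⟩
    · have hv0 : v s t ≠ 0 := by
        have := (hr s hs t ht).1
        linarith
      exact (errs hk hF h0 χ ps cb hKp hγ.ne' hf N s (hT s) t hv0).1
    · obtain ⟨h1, h2⟩ := hr s hs t ht
      have hv0 : v s t ≠ 0 := by linarith
      obtain ⟨-, eeX, eeY, eew, eeJ, eKx, eKy⟩ :=
        errs hk hF h0 χ ps cb hKp hγ.ne' hf N s (hT s) t hv0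
      rw [eeX, eeY, eew, eeJ, eKx, eKy]
      have h3 := (hW Kk (V / 2) _ _ _ _ (pt (p₀ s t) (p₁ s t) t) (pt (p₀ s t) (p₁ s t) t)
        hVh h1 h1 h2 h2 rfl).1
      have h4 := (hJ3 Kk (V / 2) _ _ _ _ (pt (p₀ s t) (p₁ s t) t) (pt (p₀ s t) (p₁ s t) t)
        hVh h1 h1 h2 h2 rfl).1
      have h5 := J1_le (b := b) (q := q s t) (K := K) (p := pt (p₀ s t) (p₁ s t) t) hα hγ hbF hbG
        hCF hCG (by linarith : 0 < V / 2) h1
      simp only [hKk] at h3 h4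
      rw [e1] at h3
      rw [e3] at h4
      rw [← hc₀, e2] at h5
      refine ⟨(bX s hs t ht).1.trans (hCV _ (by linarith)),
        (bX s hs t ht).2.trans (hCV _ (by linarith)), h3.trans (hCV _ (by linarith)), ?_⟩
      refine (abs_add_le _ _).trans ?_
      have h6 : 4 * c₀ / V ^ 2 ≤ (C / V) ^ 2 := by
        rw [div_pow]
        gcongr
        have h8 : C ≤ C ^ 2 := le_self_pow₀ hC1 (by norm_num)
        linarith
      have h7 : 8 * E₃ / V ^ 3 ≤ (C / V) ^ 3 := by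
        rw [div_pow]
        gcongr
        have h8 : C ≤ C ^ 3 := le_self_pow₀ hC1 (by norm_num)
        linarith
      have h8 : 0 ≤ |dX 0 K (pt (p₀ s t) (p₁ s t) t)| + |dY b K (pt (p₀ s t) (p₁ s t) t)| := by
        positivity
      have h9 := mul_le_mul_of_nonneg_right h6 h8
      linarith
    · obtain ⟨h1, h2⟩ := hr s hs t ht
      obtain ⟨h1', h2'⟩ := hr s' hs' t ht
      have hv0 : v s t ≠ 0 := by linarith
      have hv0' : v s' t ≠ 0 := by linarith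
      obtain ⟨-, eeX, eeY, eew, eeJ, -, -⟩ :=
        errs hk hF h0 χ ps cb hKp hγ.ne' hf N s (hT s) t hv0
      obtain ⟨-, eeX', eeY', eew', eeJ', -, -⟩ :=
        errs hk hF h0 χ ps cb hKp hγ.ne' hf N s' (hT s') t hv0'
      rw [eeX, eeY, eew, eeJ, eeX', eeY', eew', eeJ']
      have g1 := (hX () (V / 2) _ _ _ _ (pt (p₀ s t) (p₁ s t) t) (pt (p₀ s' t) (p₁ s' t) t)
        hVh h1 h1' h2 h2' rfl).2
      have g2 := (hY () (V / 2) _ _ _ _ (pt (p₀ s t) (p₁ s t) t) (pt (p₀ s' t) (p₁ s' t) t)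
        hVh h1 h1' h2 h2' rfl).2
      have g3 := (hW Kk (V / 2) _ _ _ _ (pt (p₀ s t) (p₁ s t) t) (pt (p₀ s' t) (p₁ s' t) t)
        hVh h1 h1' h2 h2' rfl).2
      have g4 := (hJ1 Kk (V / 2) _ _ _ _ (pt (p₀ s t) (p₁ s t) t) (pt (p₀ s' t) (p₁ s' t) t)
        hVh h1 h1' h2 h2' rfl).2
      have g5 := (hJ3 Kk (V / 2) _ _ _ _ (pt (p₀ s t) (p₁ s t) t) (pt (p₀ s' t) (p₁ s' t) t)
        hVh h1 h1' h2 h2' rfl).2
      simp only [hKk] at g3 g4 g5
      rw [e1] at g1 g2 g3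
      rw [e2] at g4
      rw [e3] at g5
      obtain ⟨r, hr'⟩ : ∃ r, r = dd (v s t) (q s t) (pt (p₀ s t) (p₁ s t) t) (v s' t) (q s' t)
        (pt (p₀ s' t) (p₁ s' t) t) := ⟨_, rfl⟩
      have hr0 : 0 ≤ r := by
        rw [hr']
        exact dd_nonneg _ _ _ _ _ _
      rw [← hr'] at g1 g2 g3 g4 g5
      obtain ⟨G, hG⟩ : ∃ G, G = mkFam b (fun v q p => v - Xf α γ b l k F v q p)
        (fun v q p => q - Yf γ b F v q p) p₀ p₁ v q N := ⟨_, rfl⟩
      have g6 : r ≤ 2 * (1 + |b|) * dst G s s' t := by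
        rw [hG]
        refine dd_le (b := b) (v := v s t) (v' := v s' t) (q := q s t) (q' := q s' t)
          (x₀ := p₀ s t) (x₀' := p₀ s' t) (x₁ := p₁ s t) (x₁' := p₁ s' t)
          (Y := p₁ s t - N) (Y' := p₁ s' t - N)
          (x := Xf α γ b l k F (v s t) (q s t) (pt (p₀ s t) (p₁ s t) t))
          (x' := Xf α γ b l k F (v s' t) (q s' t) (pt (p₀ s' t) (p₁ s' t) t))
          (y := Yf γ b F (v s t) (q s t) (pt (p₀ s t) (p₁ s t) t))
          (y' := Yf γ b F (v s' t) (q s' t) (pt (p₀ s' t) (p₁ s' t) t))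
          ?_ rfl rfl rfl rfl rfl rfl (by ring) ?_ ?_
        · rw [hr']
          rfl
        · exact g1.trans (mul_le_mul_of_nonneg_right hAV hr0)
        · exact g2.trans (mul_le_mul_of_nonneg_right hBV hr0)
      rw [← hG]
      have hdst : 0 ≤ dst G s s' t := by
        unfold dst
        positivity
      have key : ∀ x : ℝ, 0 ≤ x → x ≤ 8 * R → x / V * r ≤ C / V * dst G s s' t := by
        intro x hx0 hx
        have k1 : x / V * r ≤ x / V * (2 * (1 + |b|) * dst G s s' t) :=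
          mul_le_mul_of_nonneg_left g6 (by positivity)
        have k2 : x / V * (2 * (1 + |b|) * dst G s s' t) =
            (x * (2 * (1 + |b|))) / V * dst G s s' t := by ring
        have k3 : x * (2 * (1 + |b|)) ≤ C := by
          have k5 := mul_le_mul_of_nonneg_right hx (by positivity : 0 ≤ 2 * (1 + |b|))
          rw [hC]
          linarith
        have k4 := mul_le_mul_of_nonneg_right (hCV _ k3) hdst
        linarith
      refine ⟨g1.trans (key _ (by positivity) (by linarith)),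
        g2.trans (key _ (by positivity) (by linarith)),
        g3.trans (key _ (by positivity) (by linarith)), ?_⟩
      have g7 : 4 * E₁ / V ^ 2 * r ≤ 4 * E₁ / V * r := by
        have : 4 * E₁ / V ^ 2 ≤ 4 * E₁ / V :=
          div_le_div_of_nonneg_left (by positivity) hV0 (le_self_pow₀ hV1 (by norm_num))
        exact mul_le_mul_of_nonneg_right this hr0
      have g8 : 8 * E₃ / V ^ 3 * r ≤ 8 * E₃ / V * r := by
        have : 8 * E₃ / V ^ 3 ≤ 8 * E₃ / V :=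
          div_le_div_of_nonneg_left (by positivity) hV0 (le_self_pow₀ hV1 (by norm_num))
        exact mul_le_mul_of_nonneg_right this hr0
      have g9 := key (4 * E₁ + 8 * E₃) (by positivity) (by linarith)
      have g10 : (4 * E₁ + 8 * E₃) / V * r = 4 * E₁ / V * r + 8 * E₃ / V * r := by ring
      rw [add_sub_add_comm]
      refine (abs_add_le _ _).trans ?_
      linarith
    · obtain ⟨c1, c2, c3, c4⟩ := hcont t
      have c5 : ContinuousOn (fun s => (v s t, q s t, pt (p₀ s t) (p₁ s t) t)) (Icc a' b') := by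
        refine Continuous.continuousOn ?_
        unfold pt
        fun_prop
      have c6 : MapsTo (fun s => (v s t, q s t, pt (p₀ s t) (p₁ s t) t)) (Icc a' b')
          {z : ℝ × ℝ × E 1 | 0 < z.1} := by
        intro s hs
        have := (hr s hs t ht).1
        show 0 < v s t
        linarith
      have c7 := (contJw (α := α) (γ := γ) (b := b) (l := l) hk hF).comp c5 c6
      refine ⟨?_, c7.fst, ?_, c7.snd⟩
      · refine Continuous.continuousOn ?_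
        show Continuous fun s => p₀ s t - b * (p₁ s t - N)
        fun_prop
      · refine Continuous.continuousOn ?_
        show Continuous fun s => p₁ s t - N
        fun_prop
  · intro s hs t ht V' hV' hJ hw
    obtain ⟨h1, h2⟩ := bX s hs t ht
    have hJ' : V' + 1 ≤ v s t - Xf α γ b l k F (v s t) (q s t) (pt (p₀ s t) (p₁ s t) t) := hJ
    have hw' : |q s t - Yf γ b F (v s t) (q s t) (pt (p₀ s t) (p₁ s t) t)| ≤ 1 := hw
    have h3 := abs_le.1 (h1.trans hAV)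
    have h4 := abs_le.1 (h2.trans hBV)
    have h5 := abs_le.1 hw'
    refine ⟨by linarith, abs_le.2 ⟨by linarith, by linarith⟩⟩

end AveL

open AveL in
theorem ave : S_AVE := fun α γ b l _ k F hα hγ _ _ hk hF h0 =>
  ⟨fun v q p => v - Xf α γ b l k F v q p, fun v q p => q - Yf γ b F v q p, near hk hF,
    fun k₂ hk₂ => ae_main hα hγ hk hF h0 k₂ hk₂⟩

end Pool.Agent.Helper6K9.EH
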