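import Pool.Agent.Helper6K9.EH.Stm
import Pool.Agent.Helper6K9.ES.Ops
import Pool.Agent.Helper6K9.ES.Cmp

set_option autoImplicit false

/-! # [AVE], part 1: the operators, the chain rule, the derivative of the adiabatic invariant -/

namespace Pool.Agent.Helper6K9.EH

open Set Filter Topology Pool.Agent.Helper6K9.ES
open scoped ContDiff

namespace AveL

/-- the derivative in the direction of the sheared slow coordinate -/
noncomputable def dY (b : ℝ) (F : E 1 → ℝ) (p : E 1) : ℝ := dX 1 F p + b * dX 0 F p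

theorem sm_add {F G : E 1 → ℝ} (hF : Sm F) (hG : Sm G) : Sm fun p => F p + G p :=
  ⟨hF.1.add hG.1, fun p k l => by
    show F _ + G _ = F p + G p
    rw [hF.2 p k l, hG.2 p k l]⟩

theorem sm_smul {F : E 1 → ℝ} (c : ℝ) (hF : Sm F) : Sm fun p => c * F p :=
  ⟨contDiff_const.mul hF.1, fun p k l => by
    show c * F _ = c * F p
    rw [hF.2 p k l]⟩

theorem sm_dX {F : E 1 → ℝ} (i : Fin (1 + 1)) (hF : Sm F) : Sm (dX i F) := (ops 1 F hF).1 i

theorem sm_dT {F : E 1 → ℝ} (hF : Sm F) : Sm (dT F) := (ops 1 F hF).2.1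

theorem sm_an {F : E 1 → ℝ} (hF : Sm F) : Sm (an F) := (ops 1 F hF).2.2.2.1

theorem sm_dY {F : E 1 → ℝ} (b : ℝ) (hF : Sm F) : Sm (dY b F) :=
  sm_add (sm_dX 1 hF) (sm_smul b (sm_dX 0 hF))

/-- linearity of weighted averages -/
theorem aw_lin {w : ℝ → ℝ} (hw : Continuous w) {F G : E 1 → ℝ} (hF : Continuous F)
    (hG : Continuous G) (b : ℝ) (p : E 1) :
    OpsL.aw w (fun p => F p + b * G p) p = OpsL.aw w F p + b * OpsL.aw w G p := by
  unfold OpsL.aw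
  rw [← intervalIntegral.integral_const_mul, ← intervalIntegral.integral_add]
  · exact intervalIntegral.integral_congr fun s _ => by ring
  · exact (hw.mul (hF.comp (by fun_prop))).intervalIntegrable _ _
  · exact (continuous_const.mul (hw.mul (hG.comp (by fun_prop)))).intervalIntegrable _ _

theorem dY_an {F : E 1 → ℝ} (b : ℝ) (hF : Sm F) : dY b (an F) = an (dY b F) := by
  obtain ⟨h1, -, -, -, -, -, h2, -⟩ := ops 1 F hF
  funext p
  unfold dY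
  rw [h2, h2, OpsL.an_eq, OpsL.an_eq, OpsL.an_eq]
  exact (aw_lin (by fun_prop) (h1 1).1.continuous (h1 0).1.continuous b p).symm

theorem av_dY {F : E 1 → ℝ} (b : ℝ) (hF : Sm F) (h0 : ∀ p, av F p = 0) : ∀ p, av (dY b F) p = 0 := by
  obtain ⟨h1, -, -, -, h2, -, -, -, -, h3, -⟩ := ops 1 F hF
  intro p
  have h4 : av (dY b F) p = av (dX 1 F) p + b * av (dX 0 F) p := by
    rw [OpsL.av_eq, OpsL.av_eq, OpsL.av_eq]
    exact aw_lin (by fun_prop) (h1 1).1.continuous (h1 0).1.continuous b p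
  have h5 : av F = fun _ => 0 := funext h0
  rw [h4, h3, ← h2, h5]
  simp [dX]

theorem av_dT {F : E 1 → ℝ} (hF : Sm F) (h0 : ∀ p, av F p = 0) : ∀ p, av (dT F) p = 0 := by
  obtain ⟨-, -, -, -, -, h2, -⟩ := ops 1 F hF
  intro p
  have h5 : av F = fun _ => 0 := funext h0
  rw [← h2, h5]
  simp [dT]

theorem dT_an {F : E 1 → ℝ} (hF : Sm F) : dT (an F) = an (dT F) := (ops 1 F hF).2.2.2.2.2.2.2.1

theorem av_an {F : E 1 → ℝ} (hF : Sm F) : ∀ p, av (an F) p = 0 :=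
  (ops 1 F hF).2.2.2.2.2.2.2.2.2.2.2

/-- the antiderivative -/
theorem x_an {F : E 1 → ℝ} (hF : Sm F) (h0 : ∀ p, av F p = 0) (p : E 1) : dX 0 (an F) p = F p := by
  rw [(ops 1 F hF).2.2.2.2.2.2.2.2.1 p, h0, sub_zero]

theorem pt_hasDerivAt {p₀ p₁ : ℝ → ℝ} {u w t : ℝ} (h0 : HasDerivAt p₀ u t)
    (h1 : HasDerivAt p₁ w t) :
    HasDerivAt (fun t => pt (p₀ t) (p₁ t) t) ((![u, w], 1) : E 1) t := by
  have h2 : HasDerivAt (fun t => (![p₀ t, p₁ t] : Fin 2 → ℝ)) ![u, w] t := by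
    rw [hasDerivAt_pi]
    intro i
    fin_cases i
    · exact h0
    · exact h1
  exact h2.prodMk (hasDerivAt_id t)

/-- the chain rule -/
theorem chain (b : ℝ) {p₀ p₁ : ℝ → ℝ} {v q t : ℝ} (h0 : HasDerivAt p₀ (v + b * q) t)
    (h1 : HasDerivAt p₁ q t) {G : E 1 → ℝ}
    (hG : Sm G) :
    HasDerivAt (fun t => G (pt (p₀ t) (p₁ t) t)) (v * dX 0 G (pt (p₀ t) (p₁ t) t) +
      (q * dY b G (pt (p₀ t) (p₁ t) t) + dT G (pt (p₀ t) (p₁ t) t))) t := by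
  have h2 : HasFDerivAt G (fderiv ℝ G (pt (p₀ t) (p₁ t) t)) (pt (p₀ t) (p₁ t) t) :=
    (hG.1.differentiable (by simp) _).hasFDerivAt
  have h3 := HasFDerivAt.comp_hasDerivAt (f := fun t => pt (p₀ t) (p₁ t) t) t h2
    (pt_hasDerivAt h0 h1)
  rw [CmpL.fderiv_split] at h3
  refine h3.congr_deriv ?_
  rw [Fin.sum_univ_two]
  simp only [Matrix.cons_val_zero, Matrix.cons_val_one, dY]
  ring

/-- the adiabatic invariant as a function of the values -/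
noncomputable def JJ (α γ l v q F G1 G2 H0 H1 H2 H3 κ : ℝ) : ℝ :=
  v - α * F * v⁻¹ + α * (G1 + q * G2) * v⁻¹ ^ 2 -
    (α ^ 2 * F ^ 2 / 2 + α * (H0 + q * H1 + q ^ 2 * H2) + α * γ * G2 ^ 2 / 2 +
      α * l ^ 2 * κ * H3) * v⁻¹ ^ 3

/-- the derivative of the adiabatic invariant -/
theorem derJ {α γ l : ℝ} {v q F G1 G2 H0 H1 H2 H3 κ : ℝ → ℝ}
    {t Kx Ky Fx Fy Ft G1y G1t G2y G2t H0s H1s H2s H3s κs : ℝ}
    (hv : HasDerivAt v (α * (Fx + Kx)) t) (hq : HasDerivAt q (γ * (Fy + Ky) + l ^ 2 * κ t) t)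
    (hF : HasDerivAt F (v t * Fx + (q t * Fy + Ft)) t)
    (hG1 : HasDerivAt G1 (v t * Ft + (q t * G1y + G1t)) t)
    (hG2 : HasDerivAt G2 (v t * Fy + (q t * G2y + G2t)) t)
    (hH0 : HasDerivAt H0 (v t * G1t + H0s) t)
    (hH1 : HasDerivAt H1 (v t * (G1y + G2t) + H1s) t)
    (hH2 : HasDerivAt H2 (v t * G2y + H2s) t)
    (hH3 : HasDerivAt H3 (v t * G2 t + H3s) t)
    (hκ : HasDerivAt κ κs t) (hv0 : v t ≠ 0) :
    HasDerivAt (fun t => JJ α γ l (v t) (q t) (F t) (G1 t) (G2 t) (H0 t) (H1 t) (H2 t) (H3 t) (κ t))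
      (α * Kx + ((α ^ 2 * F t * Kx + α * γ * Ky * G2 t) * (v t)⁻¹ ^ 2 +
        (3 * α * (α ^ 2 * F t ^ 2 / 2 + α * (H0 t + q t * H1 t + q t ^ 2 * H2 t) +
          α * γ * G2 t ^ 2 / 2 + α * l ^ 2 * κ t * H3 t) * (Fx + Kx) * (v t)⁻¹ -
        2 * α ^ 2 * (G1 t + q t * G2 t) * (Fx + Kx) -
        (α ^ 2 * F t * (q t * Fy + Ft) +
          α * (H0s + (γ * (Fy + Ky) + l ^ 2 * κ t) * H1 t + q t * H1s +
            2 * q t * (γ * (Fy + Ky) + l ^ 2 * κ t) * H2 t + q t ^ 2 * H2s) +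
          α * γ * G2 t * (q t * G2y + G2t) + α * l ^ 2 * (κs * H3 t + κ t * H3s))) *
          (v t)⁻¹ ^ 3)) t := by
  have hi : HasDerivAt (fun t => (v t)⁻¹) (-(α * (Fx + Kx)) / v t ^ 2) t := hv.inv hv0
  have hB := (((hF.pow 2).const_mul (α ^ 2)).div_const 2).add
    ((((hH0.add (hq.mul hH1)).add ((hq.pow 2).mul hH2)).const_mul α).add
      ((((hG2.pow 2).const_mul (α * γ)).div_const 2).add
        (((hκ.const_mul (α * l ^ 2)).mul hH3))))
  have h := ((hv.sub ((hF.const_mul α).mul hi)).add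
    (((hG1.add (hq.mul hG2)).const_mul α).mul (hi.pow 2))).sub (hB.mul (hi.pow 3))
  have h' := h.congr_of_eventuallyEq (f₁ := fun t => JJ α γ l (v t) (q t) (F t) (G1 t) (G2 t)
    (H0 t) (H1 t) (H2 t) (H3 t) (κ t)) (Filter.Eventually.of_forall fun t => by
      simp only [JJ, Pi.add_apply, Pi.mul_apply, Pi.sub_apply, Pi.pow_apply]
      ring)
  refine h'.congr_deriv ?_
  have e2 : ((2 : ℕ) : ℝ) = 2 := by norm_num
  have e3 : ((3 : ℕ) : ℝ) = 3 := by norm_num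
  have f2 : 2 - 1 = 1 := rfl
  have f3 : 3 - 1 = 2 := rfl
  simp only [Pi.add_apply, Pi.mul_apply, Pi.sub_apply, Pi.pow_apply, e2, e3, f2, f3, pow_one]
  field_simp
  ring

/-- the corrected slow velocity -/
theorem derw {α γ l : ℝ} {v q G2 : ℝ → ℝ} {t Kx Ky Fx Fy G2y G2t κ : ℝ}
    (hv : HasDerivAt v (α * (Fx + Kx)) t) (hq : HasDerivAt q (γ * (Fy + Ky) + l ^ 2 * κ) t)
    (hG2 : HasDerivAt G2 (v t * Fy + (q t * G2y + G2t)) t) (hv0 : v t ≠ 0) :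
    HasDerivAt (fun t => q t - γ * G2 t * (v t)⁻¹)
      (l ^ 2 * κ + γ * Ky + (γ * α * G2 t * (Fx + Kx) * (v t)⁻¹ - γ * (q t * G2y + G2t)) *
        (v t)⁻¹) t := by
  have hi : HasDerivAt (fun t => (v t)⁻¹) (-(α * (Fx + Kx)) / v t ^ 2) t := hv.inv hv0
  have h := hq.sub ((hG2.const_mul γ).mul hi)
  refine h.congr_deriv ?_
  field_simp
  ring

end AveL

end Pool.Agent.Helper6K9.EH
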