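import Pool.Agent.Helper6K9.EH.AveA

set_option autoImplicit false

/-! # [AVE], part 2: size and Lipschitz constants -/

namespace Pool.Agent.Helper6K9.EH

open Set Filter Topology Pool.Agent.Helper6K9.ES
open scoped ContDiff

namespace AveL

/-- the distance of two states -/
noncomputable def dd (v q : ℝ) (p : E 1) (v' q' : ℝ) (p' : E 1) : ℝ :=
  |v - v'| + |q - q'| + |p.1 0 - p'.1 0| + |p.1 1 - p'.1 1|

theorem dd_nonneg (v q : ℝ) (p : E 1) (v' q' : ℝ) (p' : E 1) : 0 ≤ dd v q p v' q' p' := by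
  unfold dd
  positivity

/-- Families of functions whose size and Lipschitz constant is `O(V ^ (-n))` for `v ≥ V`,
`|q| ≤ Q`, uniformly in the index. -/
def UO {ι : Type} (Q : ℝ) (n : ℕ) (Φ : ι → ℝ → ℝ → E 1 → ℝ) : Prop :=
  ∃ C : ℝ, 0 ≤ C ∧ ∀ (i : ι) (V v v' q q' : ℝ) (p p' : E 1), 1 ≤ V → V ≤ v → V ≤ v' →
    |q| ≤ Q → |q'| ≤ Q → p.2 = p'.2 → |Φ i v q p| ≤ C / V ^ n ∧
      |Φ i v q p - Φ i v' q' p'| ≤ C / V ^ n * dd v q p v' q' p'

section

variable {ι : Type} {Q : ℝ} {n m : ℕ} {Φ Ψ : ι → ℝ → ℝ → E 1 → ℝ}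

theorem UO.mono (h : UO Q n Φ) (hmn : m ≤ n) : UO Q m Φ := by
  obtain ⟨C, hC, h⟩ := h
  refine ⟨C, hC, fun i V v v' q q' p p' hV hv hv' hq hq' hp => ?_⟩
  obtain ⟨h1, h2⟩ := h i V v v' q q' p p' hV hv hv' hq hq' hp
  have h3 : C / V ^ n ≤ C / V ^ m :=
    div_le_div_of_nonneg_left hC (by positivity) (pow_le_pow_right₀ hV hmn)
  exact ⟨h1.trans h3, h2.trans (mul_le_mul_of_nonneg_right h3 (dd_nonneg _ _ _ _ _ _))⟩

theorem UO.add (h : UO Q n Φ) (h' : UO Q n Ψ) : UO Q n fun i v q p => Φ i v q p + Ψ i v q p := by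
  obtain ⟨C, hC, h⟩ := h
  obtain ⟨C', hC', h'⟩ := h'
  refine ⟨C + C', add_nonneg hC hC', fun i V v v' q q' p p' hV hv hv' hq hq' hp => ?_⟩
  obtain ⟨h1, h2⟩ := h i V v v' q q' p p' hV hv hv' hq hq' hp
  obtain ⟨h3, h4⟩ := h' i V v v' q q' p p' hV hv hv' hq hq' hp
  constructor
  · rw [add_div]
    exact (abs_add_le _ _).trans (add_le_add h1 h3)
  · rw [add_div, add_mul]
    have e : Φ i v q p + Ψ i v q p - (Φ i v' q' p' + Ψ i v' q' p') =
        (Φ i v q p - Φ i v' q' p') + (Ψ i v q p - Ψ i v' q' p') := by ring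
    rw [e]
    exact (abs_add_le _ _).trans (add_le_add h2 h4)

theorem UO.mul (h : UO Q n Φ) (h' : UO Q m Ψ) :
    UO Q (n + m) fun i v q p => Φ i v q p * Ψ i v q p := by
  obtain ⟨C, hC, h⟩ := h
  obtain ⟨C', hC', h'⟩ := h'
  refine ⟨2 * (C * C'), by positivity, fun i V v v' q q' p p' hV hv hv' hq hq' hp => ?_⟩
  obtain ⟨h1, h2⟩ := h i V v v' q q' p p' hV hv hv' hq hq' hp
  obtain ⟨h3, h4⟩ := h' i V v v' q q' p p' hV hv hv' hq hq' hp
  obtain ⟨h5, -⟩ := h' i V v' v q' q p' p hV hv' hv hq' hq hp.symm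
  have hVn : (0 : ℝ) < V ^ n := by positivity
  have hVm : (0 : ℝ) < V ^ m := by positivity
  have e0 : C / V ^ n * (C' / V ^ m) = C * C' / V ^ (n + m) := by
    rw [pow_add]
    field_simp
  have e1 : 0 ≤ C * C' / V ^ (n + m) := by positivity
  have e2 : 2 * (C * C') / V ^ (n + m) = 2 * (C * C' / V ^ (n + m)) := by ring
  have hd := dd_nonneg v q p v' q' p'
  constructor
  · rw [abs_mul, e2]
    have := mul_le_mul h1 h3 (abs_nonneg _) (by positivity)
    rw [e0] at this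
    linarith
  · have e : Φ i v q p * Ψ i v q p - Φ i v' q' p' * Ψ i v' q' p' =
        Φ i v q p * (Ψ i v q p - Ψ i v' q' p') + (Φ i v q p - Φ i v' q' p') * Ψ i v' q' p' := by
      ring
    rw [e]
    refine (abs_add_le _ _).trans ?_
    rw [abs_mul, abs_mul, e2]
    have f1 := mul_le_mul h1 h4 (abs_nonneg _) (by positivity)
    have f2 := mul_le_mul h2 h5 (abs_nonneg _) (by positivity)
    have f3 : C / V ^ n * (C' / V ^ m * dd v q p v' q' p') =
        C * C' / V ^ (n + m) * dd v q p v' q' p' := by rw [← e0]; ring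
    have f4 : C / V ^ n * dd v q p v' q' p' * (C' / V ^ m) =
        C * C' / V ^ (n + m) * dd v q p v' q' p' := by rw [← e0]; ring
    rw [f3] at f1
    rw [f4] at f2
    linarith

theorem UO.mul0 (h : UO Q 0 Φ) (h' : UO Q 0 Ψ) : UO Q 0 fun i v q p => Φ i v q p * Ψ i v q p :=
  h.mul h'

theorem UO.const (c : ℝ) : UO Q 0 fun (_ : ι) _ _ _ => c := by
  refine ⟨|c|, abs_nonneg _, fun i V v v' q q' p p' hV hv hv' hq hq' hp => ⟨by simp, ?_⟩⟩
  rw [sub_self, abs_zero]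
  have := dd_nonneg v q p v' q' p'
  positivity

theorem UO.smul (c : ℝ) (h : UO Q n Φ) : UO Q n fun i v q p => c * Φ i v q p := by
  have := (UO.const (ι := ι) (Q := Q) c).mul h
  rwa [zero_add] at this

theorem UO.sub (h : UO Q n Φ) (h' : UO Q n Ψ) : UO Q n fun i v q p => Φ i v q p - Ψ i v q p := by
  have := h.add (h'.smul (-1))
  refine (funext fun i => funext fun v => funext fun q => funext fun p => ?_ :
    (fun i v q p => Φ i v q p - Ψ i v q p) = fun i v q p => Φ i v q p + -1 * Ψ i v q p) ▸ this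
  ring

theorem UO.q : UO Q 0 fun (_ : ι) _ q _ => q := by
  refine ⟨|Q| + 1, by positivity, fun i V v v' q q' p p' hV hv hv' hq hq' hp => ?_⟩
  rw [pow_zero, div_one]
  have h1 := le_abs_self Q
  refine ⟨by linarith, ?_⟩
  have h2 : |q - q'| ≤ dd v q p v' q' p' := by
    unfold dd
    have := abs_nonneg (v - v')
    have := abs_nonneg (p.1 0 - p'.1 0)
    have := abs_nonneg (p.1 1 - p'.1 1)
    linarith
  have h3 := dd_nonneg v q p v' q' p'
  have h4 := abs_nonneg Q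
  nlinarith

theorem UO.inv : UO Q 1 fun (_ : ι) v _ _ => v⁻¹ := by
  refine ⟨1, zero_le_one, fun i V v v' q q' p p' hV hv hv' hq hq' hp => ?_⟩
  have hV0 : (0 : ℝ) < V := by linarith
  have hv0 : 0 < v := by linarith
  have hv0' : 0 < v' := by linarith
  rw [pow_one]
  constructor
  · rw [abs_of_pos (inv_pos.2 hv0), ← one_div]
    exact one_div_le_one_div_of_le hV0 hv
  · have e : v⁻¹ - v'⁻¹ = (v' - v) * (v⁻¹ * v'⁻¹) := by
      field_simp
    rw [e, abs_mul, abs_sub_comm v' v, abs_of_pos (by positivity : 0 < v⁻¹ * v'⁻¹)]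
    have h1 : v⁻¹ ≤ 1 := inv_le_one_of_one_le₀ (by linarith)
    have h2 : v'⁻¹ ≤ 1 / V := by
      rw [← one_div]
      exact one_div_le_one_div_of_le hV0 hv'
    have h3 : |v - v'| ≤ dd v q p v' q' p' := by
      unfold dd
      have := abs_nonneg (q - q')
      have := abs_nonneg (p.1 0 - p'.1 0)
      have := abs_nonneg (p.1 1 - p'.1 1)
      linarith
    have h4 : v⁻¹ * v'⁻¹ ≤ 1 / V := by
      have := mul_le_mul h1 h2 (by positivity) zero_le_one
      linarith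
    rw [mul_comm]
    exact mul_le_mul h4 h3 (abs_nonneg _) (by positivity)

theorem UO.inv2 : UO Q 2 fun (_ : ι) v _ _ => v⁻¹ ^ 2 := by
  have := (UO.inv (ι := ι) (Q := Q)).mul UO.inv
  simpa [pow_two] using this

theorem UO.inv3 : UO Q 3 fun (_ : ι) v _ _ => v⁻¹ ^ 3 := by
  have := (UO.inv2 (ι := ι) (Q := Q)).mul UO.inv
  simp only [← pow_succ] at this
  exact this

end

/-- mean value inequality -/
theorem mvt {W : Type} [NormedAddCommGroup W] [NormedSpace ℝ W] {G : E 1 → W} {C : ℝ}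
    (hG : Differentiable ℝ G) (hC : ∀ p, ‖fderiv ℝ G p‖ ≤ C) (hC0 : 0 ≤ C) (p p' : E 1)
    (h : p.2 = p'.2) : ‖G p - G p'‖ ≤ C * (|p.1 0 - p'.1 0| + |p.1 1 - p'.1 1|) := by
  have h1 := Convex.norm_image_sub_le_of_norm_fderiv_le (𝕜 := ℝ) (s := (univ : Set (E 1)))
    (f := G) (x := p') (y := p) (fun x _ => hG x) (fun x _ => hC x) convex_univ (mem_univ _)
    (mem_univ _)
  refine h1.trans (mul_le_mul_of_nonneg_left ?_ hC0)
  rw [Prod.norm_def]
  have e2 : (p - p').2 = 0 := by rw [Prod.snd_sub, h, sub_self]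
  rw [e2, norm_zero]
  refine max_le ?_ (by positivity)
  rw [pi_norm_le_iff_of_nonneg (by positivity)]
  intro i
  rw [Prod.fst_sub, Pi.sub_apply, Real.norm_eq_abs]
  have h2 := abs_nonneg (p.1 0 - p'.1 0)
  have h3 := abs_nonneg (p.1 1 - p'.1 1)
  fin_cases i
  · simp only [Fin.zero_eta]
    linarith
  · simp only [Fin.mk_one]
    linarith

theorem uo_of {ι : Type} {Q C : ℝ} {G : ι → E 1 → ℝ} (hC : 0 ≤ C) (h1 : ∀ i p, |G i p| ≤ C)
    (h2 : ∀ i (p p' : E 1), p.2 = p'.2 →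
      |G i p - G i p'| ≤ C * (|p.1 0 - p'.1 0| + |p.1 1 - p'.1 1|)) :
    UO Q 0 fun i _ _ p => G i p := by
  refine ⟨C, hC, fun i V v v' q q' p p' hV hv hv' hq hq' hp => ?_⟩
  rw [pow_zero, div_one]
  refine ⟨h1 i p, (h2 i p p' hp).trans (mul_le_mul_of_nonneg_left ?_ hC)⟩
  unfold dd
  have := abs_nonneg (v - v')
  have := abs_nonneg (q - q')
  linarith

theorem norm_dir (i : Fin (1 + 1)) : ‖((Pi.single i 1, 0) : E 1)‖ ≤ 1 := by
  rw [Prod.norm_def, norm_zero]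
  refine max_le ?_ zero_le_one
  rw [pi_norm_le_iff_of_nonneg zero_le_one]
  intro j
  by_cases h : j = i
  · subst h
    simp
  · simp [h]

/-- smooth periodic functions -/
theorem UO.sm {ι : Type} {Q : ℝ} {G : E 1 → ℝ} (hG : Sm G) : UO Q 0 fun (_ : ι) _ _ p => G p := by
  obtain ⟨C, hC, hb⟩ := CmpL.per_bd hG.1.continuous hG.2
  obtain ⟨C₀, hC₀, hb₀⟩ := CmpL.per_bd (sm_dX 0 hG).1.continuous (sm_dX 0 hG).2
  obtain ⟨C₁, hC₁, hb₁⟩ := CmpL.per_bd (sm_dX 1 hG).1.continuous (sm_dX 1 hG).2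
  obtain ⟨C₂, hC₂, hb₂⟩ := CmpL.per_bd (sm_dT hG).1.continuous (sm_dT hG).2
  refine uo_of (C := C + (C₀ + C₁ + C₂)) (by positivity) (fun _ p => (hb p).trans (by linarith))
    (fun _ p p' hp => ?_)
  have h1 : ∀ p, ‖fderiv ℝ G p‖ ≤ C + (C₀ + C₁ + C₂) := by
    intro p
    refine ContinuousLinearMap.opNorm_le_bound _ (by positivity) fun w => ?_
    obtain ⟨x, t⟩ := w
    rw [CmpL.fderiv_split, Fin.sum_univ_two, Real.norm_eq_abs]
    have n1 : ∀ i, |x i| ≤ ‖((x, t) : E 1)‖ := fun i =>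
      (norm_le_pi_norm x i).trans (norm_fst_le (x, t))
    have n2 : |t| ≤ ‖((x, t) : E 1)‖ := norm_snd_le (x, t)
    have n3 := norm_nonneg ((x, t) : E 1)
    have a1 : |dX 0 G p * x 0| ≤ C₀ * ‖((x, t) : E 1)‖ := by
      rw [abs_mul]
      exact mul_le_mul (hb₀ p) (n1 0) (abs_nonneg _) hC₀
    have a2 : |dX 1 G p * x 1| ≤ C₁ * ‖((x, t) : E 1)‖ := by
      rw [abs_mul]
      exact mul_le_mul (hb₁ p) (n1 1) (abs_nonneg _) hC₁
    have a3 : |dT G p * t| ≤ C₂ * ‖((x, t) : E 1)‖ := by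
      rw [abs_mul]
      exact mul_le_mul (hb₂ p) n2 (abs_nonneg _) hC₂
    have a4 := (abs_add_le (dX 0 G p * x 0 + dX 1 G p * x 1) (dT G p * t)).trans
      (add_le_add (abs_add_le _ _) le_rfl)
    have a5 : 0 ≤ C * ‖((x, t) : E 1)‖ := mul_nonneg hC n3
    nlinarith
  have h2 := mvt (hG.1.differentiable (by simp)) h1 (by positivity) p p' hp
  rwa [Real.norm_eq_abs] at h2

/-- the tube potentials -/
def KK : Type := {K : E 1 → ℝ // ContDiff ℝ 2 K ∧ Small K 1}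

theorem UO.dXK {Q : ℝ} (i : Fin (1 + 1)) : UO Q 0 fun (K : KK) _ _ p => dX i K.1 p := by
  refine uo_of zero_le_one (fun K p => ?_) (fun K p p' hp => ?_)
  · have h1 := (fderiv ℝ K.1 p).le_opNorm (Pi.single i 1, 0)
    have h2 := (K.2.2 p).2.1
    rw [Real.norm_eq_abs] at h1
    refine h1.trans ?_
    have := mul_le_mul h2 (norm_dir i) (norm_nonneg _) zero_le_one
    linarith
  · have h0 : Differentiable ℝ (fderiv ℝ K.1) :=
      (K.2.1.fderiv_right (m := 1) (by norm_num)).differentiable (by norm_num)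
    have h1 := mvt h0 (fun p => (K.2.2 p).2.2) zero_le_one p p' hp
    have h2 := (fderiv ℝ K.1 p - fderiv ℝ K.1 p').le_opNorm (Pi.single i 1, 0)
    rw [Real.norm_eq_abs] at h2
    refine h2.trans ?_
    have h3 := norm_nonneg (fderiv ℝ K.1 p - fderiv ℝ K.1 p')
    have := mul_le_mul h1 (norm_dir i) (norm_nonneg _) (h3.trans h1)
    linarith

theorem UO.dYK {Q : ℝ} (b : ℝ) : UO Q 0 fun (K : KK) _ _ p => dY b K.1 p :=
  (UO.dXK 1).add ((UO.dXK 0).smul b)

end AveL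

end Pool.Agent.Helper6K9.EH
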