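import Pool.Agent.Helper6K9.EH.AveB

set_option autoImplicit false

/-! # [AVE], part 3: the corrections and their derivatives along the solutions -/

namespace Pool.Agent.Helper6K9.EH

open Set Filter Topology Pool.Agent.Helper6K9.ES
open scoped ContDiff

namespace AveL

theorem UO.congr {ι : Type} {Q : ℝ} {n : ℕ} {Φ Ψ : ι → ℝ → ℝ → E 1 → ℝ} (h : UO Q n Φ)
    (e : ∀ i v q p, Φ i v q p = Ψ i v q p) : UO Q n Ψ := by
  have h1 : Φ = Ψ := by
    funext i v q p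
    exact e i v q p
  exact h1 ▸ h

/-- the force of the profile -/
noncomputable def kap (k : ℝ → ℝ) (p : E 1) : ℝ := k (p.1 1) * deriv k (p.1 1)

theorem kap_per {k : ℝ → ℝ} {c : ℝ} (hk : Prof k c) (y : ℝ) (n : ℤ) :
    k (y + n) * deriv k (y + n) = k y * deriv k y := by
  have h0 : Function.Periodic (fun y => k y * deriv k y) 1 := by
    intro y
    have h1 : deriv k (y + 1) = - deriv k y := by
      have e : (fun y => k (y + 1)) = fun y => - k y := funext hk.anti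
      have h2 := congrArg (fun g => deriv g y) e
      simp only [deriv_comp_add_const, deriv.fun_neg] at h2
      exact h2
    show k (y + 1) * deriv k (y + 1) = k y * deriv k y
    rw [hk.anti, h1]
    ring
  have h3 := h0.int_mul n y
  simpa using h3

theorem sm_kap {k : ℝ → ℝ} {c : ℝ} (hk : Prof k c) : Sm (kap k) := by
  constructor
  · have h1 : ContDiff ℝ ∞ (deriv k) := (contDiff_infty_iff_deriv.1 hk.smooth).2
    have h2 : ContDiff ℝ ∞ fun p : E 1 => p.1 1 := by fun_prop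
    exact (hk.smooth.comp h2).mul (h1.comp h2)
  · intro p m n
    exact kap_per hk _ _

theorem dX_kap {k : ℝ → ℝ} {c : ℝ} (hk : Prof k c) (p : E 1) : dX 0 (kap k) p = 0 := by
  have h1 := OpsL.line_deriv (sm_kap hk).1 p 0
  rw [zero_smul, add_zero] at h1
  have h2 : (fun s : ℝ => kap k (p + s • OpsL.u0 1)) = fun _ => kap k p := by
    funext s
    unfold kap OpsL.u0
    simp
  rw [h2] at h1
  exact h1.unique (hasDerivAt_const _ _)

section words

variable {F : E 1 → ℝ}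

theorem xT (hF : Sm F) (h0 : ∀ p, av F p = 0) (p : E 1) : dX 0 (dT (an F)) p = dT F p := by
  rw [dT_an hF]
  exact x_an (sm_dT hF) (av_dT hF h0) p

theorem xY (b : ℝ) (hF : Sm F) (h0 : ∀ p, av F p = 0) (p : E 1) :
    dX 0 (dY b (an F)) p = dY b F p := by
  rw [dY_an b hF]
  exact x_an (sm_dY b hF) (av_dY b hF h0) p

theorem xTT (hF : Sm F) (h0 : ∀ p, av F p = 0) (p : E 1) :
    dX 0 (dT (dT (an F))) p = dT (dT F) p := by
  rw [dT_an hF]
  exact xT (sm_dT hF) (av_dT hF h0) p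

theorem xYT (b : ℝ) (hF : Sm F) (h0 : ∀ p, av F p = 0) (p : E 1) :
    dX 0 (dY b (dT (an F))) p = dY b (dT F) p := by
  rw [dT_an hF]
  exact xY b (sm_dT hF) (av_dT hF h0) p

theorem xTY (b : ℝ) (hF : Sm F) (h0 : ∀ p, av F p = 0) (p : E 1) :
    dX 0 (dT (dY b (an F))) p = dT (dY b F) p := by
  rw [dY_an b hF]
  exact xT (sm_dY b hF) (av_dY b hF h0) p

theorem xYY (b : ℝ) (hF : Sm F) (h0 : ∀ p, av F p = 0) (p : E 1) :
    dX 0 (dY b (dY b (an F))) p = dY b (dY b F) p := by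
  rw [dY_an b hF]
  exact xY b (sm_dY b hF) (av_dY b hF h0) p

end words

section corrections

variable (α γ b l : ℝ) (k : ℝ → ℝ) (F : E 1 → ℝ)

/-- the coefficient of the third order -/
noncomputable def Bf (_v q : ℝ) (p : E 1) : ℝ :=
  α ^ 2 * F p ^ 2 / 2 + α * (dT (dT (an (an F))) p +
    q * (dY b (dT (an (an F))) p + dT (dY b (an (an F))) p) + q ^ 2 * dY b (dY b (an (an F))) p) +
    α * γ * dY b (an F) p ^ 2 / 2 + α * l ^ 2 * kap k p * dY b (an (an F)) p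

/-- `v` minus the adiabatic invariant -/
noncomputable def Xf (v q : ℝ) (p : E 1) : ℝ :=
  α * F p * v⁻¹ - α * (dT (an F) p + q * dY b (an F) p) * v⁻¹ ^ 2 +
    Bf α γ b l k F v q p * v⁻¹ ^ 3

/-- `q` minus the corrected slow velocity -/
noncomputable def Yf (v _q : ℝ) (p : E 1) : ℝ := γ * dY b (an F) p * v⁻¹

/-- the error of the corrected slow velocity -/
noncomputable def Wf (K : E 1 → ℝ) (v q : ℝ) (p : E 1) : ℝ :=
  (γ * α * dY b (an F) p * (dX 0 F p + dX 0 K p) * v⁻¹ -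
    γ * (q * dY b (dY b (an F)) p + dT (dY b (an F)) p)) * v⁻¹

/-- the main error of the adiabatic invariant -/
noncomputable def J1 (K : E 1 → ℝ) (v _q : ℝ) (p : E 1) : ℝ :=
  (α ^ 2 * F p * dX 0 K p + α * γ * dY b K p * dY b (an F) p) * v⁻¹ ^ 2

/-- the small error of the adiabatic invariant -/
noncomputable def J3 (K : E 1 → ℝ) (v q : ℝ) (p : E 1) : ℝ :=
  (3 * α * Bf α γ b l k F v q p * (dX 0 F p + dX 0 K p) * v⁻¹ -
    2 * α ^ 2 * (dT (an F) p + q * dY b (an F) p) * (dX 0 F p + dX 0 K p) -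
    (α ^ 2 * F p * (q * dY b F p + dT F p) +
      α * ((q * dY b (dT (dT (an (an F)))) p + dT (dT (dT (an (an F)))) p) +
        (γ * (dY b F p + dY b K p) + l ^ 2 * kap k p) *
          (dY b (dT (an (an F))) p + dT (dY b (an (an F))) p) +
        q * ((q * dY b (dY b (dT (an (an F)))) p + dT (dY b (dT (an (an F)))) p) +
          (q * dY b (dT (dY b (an (an F)))) p + dT (dT (dY b (an (an F)))) p)) +
        2 * q * (γ * (dY b F p + dY b K p) + l ^ 2 * kap k p) * dY b (dY b (an (an F))) p +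
        q ^ 2 * (q * dY b (dY b (dY b (an (an F)))) p + dT (dY b (dY b (an (an F)))) p)) +
      α * γ * dY b (an F) p * (q * dY b (dY b (an F)) p + dT (dY b (an F)) p) +
      α * l ^ 2 * ((q * dY b (kap k) p + dT (kap k) p) * dY b (an (an F)) p +
        kap k p * (q * dY b (dY b (an (an F))) p + dT (dY b (an (an F))) p)))) * v⁻¹ ^ 3

variable {α γ b l k F}

/-- the derivatives along the solutions -/
theorem traj {c : ℝ} (hk : Prof k c) (hF : Sm F) (h0 : ∀ p, av F p = 0) {K f : E 1 → ℝ}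
    (hγ : γ ≠ 0)
    (hf : ∀ p, dX 0 f p = dX 0 F p + dX 0 K p ∧
        dX 1 f p = dX 1 F p + l ^ 2 / γ * k (p.1 1) * deriv k (p.1 1) + dX 1 K p)
    {p₀ p₁ v q : ℝ → ℝ} (hT : Tr α γ b f p₀ p₁ v q) (t : ℝ) (hv0 : v t ≠ 0) :
    HasDerivAt (fun t => v t - Xf α γ b l k F (v t) (q t) (pt (p₀ t) (p₁ t) t))
      (α * dX 0 K (pt (p₀ t) (p₁ t) t) + (J1 α γ b F K (v t) (q t) (pt (p₀ t) (p₁ t) t) +
        J3 α γ b l k F K (v t) (q t) (pt (p₀ t) (p₁ t) t))) t ∧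
    HasDerivAt (fun t => q t - Yf γ b F (v t) (q t) (pt (p₀ t) (p₁ t) t))
      (l ^ 2 * kap k (pt (p₀ t) (p₁ t) t) + γ * dY b K (pt (p₀ t) (p₁ t) t) +
        Wf α γ b F K (v t) (q t) (pt (p₀ t) (p₁ t) t)) t := by
  obtain ⟨hp0, hp1, hv, hq⟩ := hT t
  have hv' : HasDerivAt v (α * (dX 0 F (pt (p₀ t) (p₁ t) t) + dX 0 K (pt (p₀ t) (p₁ t) t))) t :=
    hv.congr_deriv (by rw [(hf _).1])
  have hq' : HasDerivAt q (γ * (dY b F (pt (p₀ t) (p₁ t) t) + dY b K (pt (p₀ t) (p₁ t) t)) +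
      l ^ 2 * kap k (pt (p₀ t) (p₁ t) t)) t := hq.congr_deriv (by
    rw [(hf _).1, (hf _).2]
    unfold dY kap
    field_simp
    ring)
  have s1 : Sm (an F) := sm_an hF
  have a1 : ∀ p, av (an F) p = 0 := av_an hF
  have s2 : Sm (an (an F)) := sm_an s1
  have cF := chain b hp0 hp1 hF
  have cG1 := chain b hp0 hp1 (sm_dT s1)
  have cG2 := chain b hp0 hp1 (sm_dY b s1)
  have cH0 := chain b hp0 hp1 (sm_dT (sm_dT s2))
  have cH1 := (chain b hp0 hp1 (sm_dY b (sm_dT s2))).add (chain b hp0 hp1 (sm_dT (sm_dY b s2)))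
  have cH2 := chain b hp0 hp1 (sm_dY b (sm_dY b s2))
  have cH3 := chain b hp0 hp1 (sm_dY b s2)
  have cκ := chain b hp0 hp1 (sm_kap hk)
  rw [xT hF h0] at cG1
  rw [xY b hF h0] at cG2
  rw [xTT s1 a1] at cH0
  rw [xYT b s1 a1, xTY b s1 a1] at cH1
  rw [xYY b s1 a1] at cH2
  rw [xY b s1 a1] at cH3
  rw [dX_kap hk, mul_zero, zero_add] at cκ
  constructor
  · have h := derJ (α := α) (γ := γ) (l := l) hv' hq' cF cG1 cG2 cH0
      (cH1.congr_deriv (g' := v t * (dY b (dT (an F)) (pt (p₀ t) (p₁ t) t) +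
        dT (dY b (an F)) (pt (p₀ t) (p₁ t) t)) +
        ((q t * dY b (dY b (dT (an (an F)))) (pt (p₀ t) (p₁ t) t) +
          dT (dY b (dT (an (an F)))) (pt (p₀ t) (p₁ t) t)) +
        (q t * dY b (dT (dY b (an (an F)))) (pt (p₀ t) (p₁ t) t) +
          dT (dT (dY b (an (an F)))) (pt (p₀ t) (p₁ t) t)))) (by ring)) cH2 cH3 cκ hv0
    refine (h.congr_of_eventuallyEq (Eventually.of_forall fun t => ?_)).congr_deriv ?_
    · simp only [Xf, Bf, JJ, Pi.add_apply]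
      ring
    · simp only [J1, J3, Bf, Pi.add_apply]
  · have h := derw (α := α) (γ := γ) (l := l) hv' hq' cG2 hv0
    exact h

end corrections

section sizes

variable {ι : Type} {α γ b l c Q : ℝ} {k : ℝ → ℝ} {F : E 1 → ℝ}

theorem uoch {G : E 1 → ℝ} (hG : Sm G) :
    UO Q 0 fun (_ : ι) _ q p => q * dY b G p + dT G p :=
  (UO.q.mul0 (UO.sm (sm_dY b hG))).add (UO.sm (sm_dT hG))

theorem uoB (hk : Prof k c) (hF : Sm F) : UO Q 0 fun (_ : ι) v q p => Bf α γ b l k F v q p := by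
  have s1 : Sm (an F) := sm_an hF
  have s2 : Sm (an (an F)) := sm_an s1
  have uq : UO Q 0 fun (_ : ι) _ q _ => q := UO.q
  have uF : UO Q 0 fun (_ : ι) _ _ p => F p := UO.sm hF
  have uG2 : UO Q 0 fun (_ : ι) _ _ p => dY b (an F) p := UO.sm (sm_dY b s1)
  have uH0 : UO Q 0 fun (_ : ι) _ _ p => dT (dT (an (an F))) p := UO.sm (sm_dT (sm_dT s2))
  have uH1 : UO Q 0 fun (_ : ι) _ _ p => dY b (dT (an (an F))) p := UO.sm (sm_dY b (sm_dT s2))
  have uH1' : UO Q 0 fun (_ : ι) _ _ p => dT (dY b (an (an F))) p := UO.sm (sm_dT (sm_dY b s2))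
  have uH2 : UO Q 0 fun (_ : ι) _ _ p => dY b (dY b (an (an F))) p := UO.sm (sm_dY b (sm_dY b s2))
  have uH3 : UO Q 0 fun (_ : ι) _ _ p => dY b (an (an F)) p := UO.sm (sm_dY b s2)
  have uk : UO Q 0 fun (_ : ι) _ _ p => kap k p := UO.sm (sm_kap hk)
  refine (((((uF.mul0 uF).smul (α ^ 2 / 2)).add (((uH0.add (uq.mul0 (uH1.add uH1'))).add
    ((uq.mul0 uq).mul0 uH2)).smul α)).add ((uG2.mul0 uG2).smul (α * γ / 2))).add
    ((uk.mul0 uH3).smul (α * l ^ 2))).congr fun _ v q p => ?_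
  unfold Bf
  ring

theorem uoX (hk : Prof k c) (hF : Sm F) : UO Q 1 fun (_ : ι) v q p => Xf α γ b l k F v q p := by
  have s1 : Sm (an F) := sm_an hF
  have uq : UO Q 0 fun (_ : ι) _ q _ => q := UO.q
  have uF : UO Q 0 fun (_ : ι) _ _ p => F p := UO.sm hF
  have uG1 : UO Q 0 fun (_ : ι) _ _ p => dT (an F) p := UO.sm (sm_dT s1)
  have uG2 : UO Q 0 fun (_ : ι) _ _ p => dY b (an F) p := UO.sm (sm_dY b s1)
  have uB : UO Q 0 fun (_ : ι) v q p => Bf α γ b l k F v q p := uoB hk hF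
  have i1 : UO Q 1 fun (_ : ι) v _ _ => v⁻¹ := UO.inv
  have i2 : UO Q 2 fun (_ : ι) v _ _ => v⁻¹ ^ 2 := UO.inv2
  have i3 : UO Q 3 fun (_ : ι) v _ _ => v⁻¹ ^ 3 := UO.inv3
  have h1 : UO Q 1 fun (_ : ι) v _ p => α * F p * v⁻¹ := (uF.smul α).mul i1
  have h2 : UO Q 1 fun (_ : ι) v q p => α * (dT (an F) p + q * dY b (an F) p) * v⁻¹ ^ 2 :=
    (((uG1.add (uq.mul0 uG2)).smul α).mul i2).mono (by norm_num)
  have h3 : UO Q 1 fun (_ : ι) v q p => Bf α γ b l k F v q p * v⁻¹ ^ 3 :=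
    (uB.mul i3).mono (by norm_num)
  exact (h1.sub h2).add h3

theorem uoY (hF : Sm F) : UO Q 1 fun (_ : ι) v q p => Yf γ b F v q p := by
  have uG2 : UO Q 0 fun (_ : ι) _ _ p => dY b (an F) p := UO.sm (sm_dY b (sm_an hF))
  exact (uG2.smul γ).mul UO.inv

theorem uoW (hF : Sm F) : UO Q 1 fun (K : KK) v q p => Wf α γ b F K.1 v q p := by
  have s1 : Sm (an F) := sm_an hF
  have uG2 : UO Q 0 fun (_ : KK) _ _ p => dY b (an F) p := UO.sm (sm_dY b s1)
  have uFx : UO Q 0 fun (_ : KK) _ _ p => dX 0 F p := UO.sm (sm_dX 0 hF)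
  have uKx : UO Q 0 fun (K : KK) _ _ p => dX 0 K.1 p := UO.dXK 0
  have uc : UO Q 0 fun (_ : KK) _ q p => q * dY b (dY b (an F)) p + dT (dY b (an F)) p :=
    uoch (sm_dY b s1)
  have h1 : UO Q 0 fun (K : KK) v _ p =>
      γ * α * (dY b (an F) p * (dX 0 F p + dX 0 K.1 p)) * v⁻¹ :=
    (((uG2.mul0 (uFx.add uKx)).smul (γ * α)).mul UO.inv).mono (by norm_num)
  have h2 : UO Q 1 fun (K : KK) v q p => (γ * α * (dY b (an F) p * (dX 0 F p + dX 0 K.1 p)) * v⁻¹ -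
      γ * (q * dY b (dY b (an F)) p + dT (dY b (an F)) p)) * v⁻¹ :=
    (h1.sub (uc.smul γ)).mul UO.inv
  refine h2.congr fun K v q p => ?_
  unfold Wf
  ring

theorem uoJ1 (hF : Sm F) : UO Q 2 fun (K : KK) v q p => J1 α γ b F K.1 v q p := by
  have s1 : Sm (an F) := sm_an hF
  have uF : UO Q 0 fun (_ : KK) _ _ p => F p := UO.sm hF
  have uG2 : UO Q 0 fun (_ : KK) _ _ p => dY b (an F) p := UO.sm (sm_dY b s1)
  have uKx : UO Q 0 fun (K : KK) _ _ p => dX 0 K.1 p := UO.dXK 0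
  have uKy : UO Q 0 fun (K : KK) _ _ p => dY b K.1 p := UO.dYK b
  have h1 : UO Q 2 fun (K : KK) v _ p =>
      (α ^ 2 * (F p * dX 0 K.1 p) + α * γ * (dY b K.1 p * dY b (an F) p)) * v⁻¹ ^ 2 :=
    (((uF.mul0 uKx).smul (α ^ 2)).add ((uKy.mul0 uG2).smul (α * γ))).mul UO.inv2
  refine h1.congr fun K v q p => ?_
  unfold J1
  ring

theorem uoJ3 (hk : Prof k c) (hF : Sm F) :
    UO Q 3 fun (K : KK) v q p => J3 α γ b l k F K.1 v q p := by
  have s1 : Sm (an F) := sm_an hF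
  have s2 : Sm (an (an F)) := sm_an s1
  have uq : UO Q 0 fun (_ : KK) _ q _ => q := UO.q
  have uF : UO Q 0 fun (_ : KK) _ _ p => F p := UO.sm hF
  have uFy : UO Q 0 fun (_ : KK) _ _ p => dY b F p := UO.sm (sm_dY b hF)
  have uG1 : UO Q 0 fun (_ : KK) _ _ p => dT (an F) p := UO.sm (sm_dT s1)
  have uG2 : UO Q 0 fun (_ : KK) _ _ p => dY b (an F) p := UO.sm (sm_dY b s1)
  have uH1 : UO Q 0 fun (_ : KK) _ _ p => dY b (dT (an (an F))) p := UO.sm (sm_dY b (sm_dT s2))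
  have uH1' : UO Q 0 fun (_ : KK) _ _ p => dT (dY b (an (an F))) p := UO.sm (sm_dT (sm_dY b s2))
  have uH2 : UO Q 0 fun (_ : KK) _ _ p => dY b (dY b (an (an F))) p :=
    UO.sm (sm_dY b (sm_dY b s2))
  have uH3 : UO Q 0 fun (_ : KK) _ _ p => dY b (an (an F)) p := UO.sm (sm_dY b s2)
  have uk : UO Q 0 fun (_ : KK) _ _ p => kap k p := UO.sm (sm_kap hk)
  have uB : UO Q 0 fun (_ : KK) v q p => Bf α γ b l k F v q p := uoB hk hF
  have uFx : UO Q 0 fun (_ : KK) _ _ p => dX 0 F p := UO.sm (sm_dX 0 hF)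
  have uKx : UO Q 0 fun (K : KK) _ _ p => dX 0 K.1 p := UO.dXK 0
  have uKy : UO Q 0 fun (K : KK) _ _ p => dY b K.1 p := UO.dYK b
  have u1 : UO Q 0 fun (K : KK) _ _ p => dX 0 F p + dX 0 K.1 p := uFx.add uKx
  have u2 : UO Q 0 fun (K : KK) _ _ p =>
      γ * (dY b F p + dY b K.1 p) + l ^ 2 * kap k p :=
    ((uFy.add uKy).smul γ).add (uk.smul (l ^ 2))
  have t1 := (((uB.mul0 u1).smul (3 * α)).mul (UO.inv (ι := KK) (Q := Q))).mono
    (by norm_num : 0 ≤ 0 + 1)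
  have t2 := ((uG1.add (uq.mul0 uG2)).mul0 u1).smul (2 * α ^ 2)
  have t3 := (uF.mul0 (uoch (ι := KK) (Q := Q) (b := b) hF)).smul (α ^ 2)
  have t4 := (((((uoch (ι := KK) (Q := Q) (b := b) (sm_dT (sm_dT s2))).add
    (u2.mul0 (uH1.add uH1'))).add
    (uq.mul0 ((uoch (ι := KK) (Q := Q) (b := b) (sm_dY b (sm_dT s2))).add
      (uoch (ι := KK) (Q := Q) (b := b) (sm_dT (sm_dY b s2)))))).add
    (((uq.mul0 u2).mul0 uH2).smul 2)).add
    ((uq.mul0 uq).mul0 (uoch (ι := KK) (Q := Q) (b := b) (sm_dY b (sm_dY b s2))))).smul α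
  have t5 := (uG2.mul0 (uoch (ι := KK) (Q := Q) (b := b) (sm_dY b s1))).smul (α * γ)
  have t6 := (((uoch (ι := KK) (Q := Q) (b := b) (sm_kap hk)).mul0 uH3).add
    (uk.mul0 (uoch (ι := KK) (Q := Q) (b := b) (sm_dY b s2)))).smul (α * l ^ 2)
  have h1 := ((t1.sub t2).sub (((t3.add t4).add t5).add t6)).mul (UO.inv3 (ι := KK) (Q := Q))
  refine UO.congr (n := 3) h1 fun K v q p => ?_
  unfold J3
  ring

end sizes

end AveL

end Pool.Agent.Helper6K9.EH
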