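import Pool.Agent.Helper6K9.EH.Stm
import Pool.Agent.Helper6K9.ES.Ct
import Pool.Agent.Helper6K9.ES.Mol
import Pool.Agent.Helper6K9.ES.Red

set_option autoImplicit false

/-!
# The theorem in adapted coordinates: assembly
-/

namespace Pool.Agent.Helper6K9.EH

open Set Filter Topology Pool.Agent.Helper6K9.ES
open scoped ContDiff

namespace CtL

theorem k_int {k : ℝ → ℝ} {c : ℝ} (hk : Prof k c) (y : ℝ) (n : ℤ) : k (y + n) ^ 2 = k y ^ 2 := by
  have h1 : Function.Periodic (fun y => k y ^ 2) 1 := by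
    intro y
    simp only [hk.anti, neg_sq]
  have h2 := h1.int_mul n y
  simpa using h2

/-- the slow potential -/
noncomputable def gs (k : ℝ → ℝ) (p : E 1) : ℝ := k (p.1 1) ^ 2 / 2

theorem gs_smooth {k : ℝ → ℝ} {c : ℝ} (hk : Prof k c) : ContDiff ℝ ∞ (gs k) := by
  have h1 : ContDiff ℝ ∞ (fun p : E 1 => p.1 1) := by fun_prop
  exact ((hk.smooth.comp h1).pow 2).div_const 2

theorem gs_per {k : ℝ → ℝ} {c : ℝ} (hk : Prof k c) : Per (gs k) := by
  intro p m l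
  unfold gs
  simp only [Pi.add_apply, k_int hk]

theorem gs_der {k : ℝ → ℝ} {c : ℝ} (hk : Prof k c) (p : E 1) :
    dX 0 (gs k) p = 0 ∧ dX 1 (gs k) p = k (p.1 1) * deriv k (p.1 1) := by
  have h1 : HasFDerivAt (fun p : E 1 => p.1 1)
      ((ContinuousLinearMap.proj (R := ℝ) (φ := fun _ : Fin (1 + 1) => ℝ) 1).comp
        (ContinuousLinearMap.fst ℝ (Q 1) ℝ)) p :=
    ((ContinuousLinearMap.proj (R := ℝ) (φ := fun _ : Fin (1 + 1) => ℝ) 1).comp
        (ContinuousLinearMap.fst ℝ (Q 1) ℝ)).hasFDerivAt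
  have h2 : HasDerivAt k (deriv k (p.1 1)) (p.1 1) :=
    (hk.smooth.differentiable (by norm_num) _).hasDerivAt
  have h3 := h2.comp_hasFDerivAt p h1
  have h4 := (h3.pow 2).mul_const (1 / 2 : ℝ)
  have h5 : gs k = fun p => (k ∘ fun p : E 1 => p.1 1) p ^ 2 * (1 / 2) := by
    funext p
    unfold gs
    simp only [Function.comp]
    ring
  unfold dX
  rw [h5, h4.fderiv]
  constructor
  · simp
  · simp
    ring

theorem small_mono {F : E 1 → ℝ} {a b : ℝ} (h : Small F a) (hab : a ≤ b) : Small F b := fun p =>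
  ⟨(h p).1.trans hab, (h p).2.1.trans hab, (h p).2.2.trans hab⟩

theorem small_of_per {F : E 1 → ℝ} (hF : ContDiff ℝ ∞ F) (hp : Per F) :
    ∃ C : ℝ, 0 ≤ C ∧ Small F C := by
  have h1 : ContDiff ℝ 2 F := contDiff_infty.1 hF 2
  have h2 : ContDiff ℝ 1 (fderiv ℝ F) := h1.fderiv_right (by norm_num)
  obtain ⟨c0, hc0, b0⟩ := MolL.bdd_per F hF.continuous hp
  obtain ⟨c1, hc1, b1⟩ := MolL.bdd_per (fderiv ℝ F) h2.continuous (MolL.per_fderiv F hp)
  obtain ⟨c2, hc2, b2⟩ := MolL.bdd_per (fderiv ℝ (fderiv ℝ F))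
    (h2.continuous_fderiv (by norm_num)) (MolL.per_fderiv _ (MolL.per_fderiv F hp))
  refine ⟨c0 + c1 + c2, by positivity, fun p => ⟨?_, ?_, ?_⟩⟩
  · have := b0 p
    rw [Real.norm_eq_abs] at this
    linarith
  · linarith [b1 p]
  · linarith [b2 p]

theorem small_cmul {F : E 1 → ℝ} {a : ℝ} (hF : ContDiff ℝ 2 F) (h : Small F a) {r : ℝ} (hr : 0 ≤ r) :
    Small (fun p => r * F p) (r * a) := by
  have d1 : Differentiable ℝ F := hF.differentiable (by norm_num)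
  have h2 : ContDiff ℝ 1 (fderiv ℝ F) := hF.fderiv_right (by norm_num)
  have d2 : Differentiable ℝ (fderiv ℝ F) := h2.differentiable (by norm_num)
  have e1 : fderiv ℝ (fun p => r * F p) = fun p => r • fderiv ℝ F p := by
    funext p
    exact fderiv_const_mul (d1 p) r
  intro p
  refine ⟨?_, ?_, ?_⟩
  · rw [abs_mul, abs_of_nonneg hr]
    exact mul_le_mul_of_nonneg_left (h p).1 hr
  · rw [e1, norm_smul, Real.norm_eq_abs, abs_of_nonneg hr]
    exact mul_le_mul_of_nonneg_left (h p).2.1 hr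
  · rw [e1]
    have : fderiv ℝ (fun p => r • fderiv ℝ F p) p = r • fderiv ℝ (fderiv ℝ F) p :=
      fderiv_const_smul (d2 p) r
    rw [this]
    refine (ContinuousLinearMap.opNorm_le_bound _ (mul_nonneg hr ((abs_nonneg _).trans (h p).1))
      fun x => ?_)
    have h3 : (r • fderiv ℝ (fderiv ℝ F) p) x = r • (fderiv ℝ (fderiv ℝ F) p x) := rfl
    rw [h3, norm_smul, Real.norm_eq_abs, abs_of_nonneg hr, mul_assoc]
    refine mul_le_mul_of_nonneg_left ?_ hr
    exact (ContinuousLinearMap.le_opNorm _ _).trans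
      (mul_le_mul_of_nonneg_right (h p).2.2 (norm_nonneg _))

/-- `Kx`, `Ky` of the environment -/
theorem inv_entries {A : Matrix (Fin (1 + 1)) (Fin (1 + 1)) ℝ} (hA : A.PosDef) :
    0 < A 0 0 ∧ 0 < A 0 0 * A 1 1 - A 0 1 ^ 2 ∧ A 1 0 = A 0 1 := by
  have hs : A.IsSymm := by
    have := hA.isHermitian.eq
    rwa [Matrix.conjTranspose_eq_transpose_of_trivial] at this
  have h10 : A 1 0 = A 0 1 := hs.apply 0 1
  have h1 := hA.diag_pos (i := 0)
  have h2 := hA.det_pos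
  rw [Matrix.det_fin_two] at h2
  refine ⟨h1, ?_, h10⟩
  rw [h10] at h2
  nlinarith

/-- the solutions of the first order system are solutions of the second order equation -/
theorem sol_of_tr {A : Matrix (Fin (1 + 1)) (Fin (1 + 1)) ℝ} (hA : A.PosDef) (f : E 1 → ℝ)
    (p₀ p₁ v q : ℝ → ℝ)
    (h : Tr (1 / A 0 0) (A 0 0 / (A 0 0 * A 1 1 - A 0 1 ^ 2)) (-(A 0 1 / A 0 0)) f p₀ p₁ v q) :
    Sol A f (fun t => ![p₀ t, p₁ t]) univ := by
  obtain ⟨ha, hd, hs⟩ := inv_entries hA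
  set b := -(A 0 1 / A 0 0) with hb
  have e0 : (fun u => (![p₀ u, p₁ u] : Q 1) 0) = p₀ := rfl
  have e1 : (fun u => (![p₀ u, p₁ u] : Q 1) 1) = p₁ := rfl
  have d0 : deriv p₀ = fun t => v t + b * q t := funext fun t => (h t).1.deriv
  have d1 : deriv p₁ = q := funext fun t => (h t).2.1.deriv
  intro t _
  obtain ⟨h0, h1, hv, hq⟩ := h t
  have h00 : HasDerivAt (fun t => v t + b * q t) (1 / A 0 0 * dX 0 f (pt (p₀ t) (p₁ t) t) +
      b * (A 0 0 / (A 0 0 * A 1 1 - A 0 1 ^ 2) * (dX 1 f (pt (p₀ t) (p₁ t) t) +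
      b * dX 0 f (pt (p₀ t) (p₁ t) t)))) t := hv.add (hq.const_mul b)
  refine ⟨fun i => ?_, fun i => ?_, fun i => ?_⟩
  · fin_cases i
    · exact h0.differentiableAt
    · exact h1.differentiableAt
  · fin_cases i
    · change DifferentiableAt ℝ (deriv p₀) t
      rw [d0]
      exact h00.differentiableAt
    · change DifferentiableAt ℝ (deriv p₁) t
      rw [d1]
      exact hq.differentiableAt
  · have k0 : deriv (deriv p₀) t = 1 / A 0 0 * dX 0 f (pt (p₀ t) (p₁ t) t) +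
      b * (A 0 0 / (A 0 0 * A 1 1 - A 0 1 ^ 2) * (dX 1 f (pt (p₀ t) (p₁ t) t) +
      b * dX 0 f (pt (p₀ t) (p₁ t) t))) := by
      rw [d0]
      exact h00.deriv
    have k1 : deriv (deriv p₁) t = A 0 0 / (A 0 0 * A 1 1 - A 0 1 ^ 2) *
        (dX 1 f (pt (p₀ t) (p₁ t) t) + b * dX 0 f (pt (p₀ t) (p₁ t) t)) := by
      rw [d1]
      exact hq.deriv
    have hsum : ∀ i, ∑ j, A i j * deriv (deriv fun u => (![p₀ u, p₁ u] : Q 1) j) t =
        A i 0 * deriv (deriv p₀) t + A i 1 * deriv (deriv p₁) t := by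
      intro i
      rw [Fin.sum_univ_two]
      rfl
    rw [hsum, k0, k1]
    have ha' : A 0 0 ≠ 0 := ha.ne'
    have hd' : A 0 0 * A 1 1 - A 0 1 ^ 2 ≠ 0 := hd.ne'
    have hpt : ((![p₀ t, p₁ t], t) : E 1) = pt (p₀ t) (p₁ t) t := rfl
    rw [hpt]
    fin_cases i
    · change A 0 0 * _ + A 0 1 * _ = dX 0 f _
      rw [hb]
      field_simp
      ring
    · change A 1 0 * _ + A 1 1 * _ = dX 1 f _
      rw [hb, hs]
      field_simp
      ring

end CtL

open CtL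

theorem ct1 (prof : S_PROF) (hom : S_HOM) (pot : S_POT) (env : S_ENV) (step : S_STEP)
    (iter : S_ITER) (flow : S_FLOW) (ave : S_AVE) (start : S_START) (ops : S_OPS) : S_CT1 := by
  intro A h ε hε hA hh hav
  obtain ⟨ha, hd, hs⟩ := inv_entries hA
  set α : ℝ := 1 / A 0 0 with hα
  set γ : ℝ := A 0 0 / (A 0 0 * A 1 1 - A 0 1 ^ 2) with hγ
  set b : ℝ := -(A 0 1 / A 0 0) with hb
  have α0 : 0 < α := by positivity
  have γ0 : 0 < γ := by positivity
  obtain ⟨k, c, hk⟩ := prof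
  have hc1 : c ≤ 1 := by
    have h1 := hk.le_one (1 / 2)
    rw [hk.plat (1 / 2) (by norm_num)] at h1
    exact (le_abs_self c).trans h1
  -- the constant `l`
  obtain ⟨Cg, hCg, hgs⟩ := small_of_per (gs_smooth hk) (gs_per hk)
  obtain ⟨l, l0, l1, l2⟩ : ∃ l : ℝ, 0 < l ∧ l ≤ 1 / 2 ∧ l ^ 2 / γ * Cg ≤ ε / 2 := by
    have h1 : Tendsto (fun l : ℝ => l ^ 2 / γ * Cg) (𝓝[>] 0) (𝓝 ((0 : ℝ) ^ 2 / γ * Cg)) := by
      refine Tendsto.mono_left (Continuous.tendsto ?_ 0) nhdsWithin_le_nhds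
      fun_prop
    have h2 : ∀ᶠ l : ℝ in 𝓝[>] 0, l ^ 2 / γ * Cg < ε / 2 := by
      refine h1.eventually (gt_mem_nhds ?_)
      simp
      exact hε
    have h3 : ∀ᶠ l : ℝ in 𝓝[>] 0, l < 1 / 2 :=
      mem_nhdsWithin_of_mem_nhds (gt_mem_nhds (by norm_num))
    have h4 : ∀ᶠ l : ℝ in 𝓝[>] 0, 0 < l := self_mem_nhdsWithin
    obtain ⟨l, h5, h6, h7⟩ := (h2.and (h3.and h4)).exists
    exact ⟨l, h7, h6.le, h5.le⟩
  -- the potential
  have hu : 0 < l * c := mul_pos l0 hk.cpos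
  have hu1 : l * c ≤ 1 := by nlinarith [hk.cpos]
  have hb2 : 0 < 1 / (4 * (1 + |b|) ^ 2) := by positivity
  obtain ⟨j₀, K, χ, ps, cb, hj0, hshp, hK, hKp, hKs, hvan, htube⟩ :=
    pot b (l * c) (min (ε / 2) (1 / (4 * (1 + |b|) ^ 2))) hu hu1 (lt_min (half_pos hε) hb2)
  have hKs1 : Small K (ε / 2) := small_mono hKs (min_le_left _ _)
  have hKs2 : Small K (1 / (4 * (1 + |b|) ^ 2)) := small_mono hKs (min_le_right _ _)
  have hKs3 : Small K 1 := by
    refine small_mono hKs2 ?_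
    rw [div_le_one (by positivity)]
    nlinarith [abs_nonneg b]
  have henv := env α γ b l c k χ ps cb K j₀ α0 γ0 l0 l1 hk hj0 hshp hK hKp hKs2 hvan htube
  set e := mkEnv α γ b l c k χ ps cb K with he
  -- the averaged part
  obtain ⟨o1, o2, o3, o4, o5, o6, o7, o8, o9, o10, o11, o12⟩ := ops 1 h hh
  set F : E 1 → ℝ := fun p => h p - av h p with hF
  have hFs : Sm F := ⟨hh.1.sub o3.1, fun p m l => by simp only [hF, hh.2 p m l, o3.2 p m l]⟩
  have hF0 : ∀ p, av F p = 0 := by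
    intro p
    have i1 : ∀ G : E 1 → ℝ, Continuous G → IntervalIntegrable
        (fun s : ℝ => G (p.1 + s • Pi.single (0 : Fin (1 + 1)) (1 : ℝ), p.2))
        MeasureTheory.volume 0 1 := by
      intro G hG
      refine Continuous.intervalIntegrable ?_ _ _
      fun_prop
    have h1 : av F p = av h p - av (av h) p :=
      intervalIntegral.integral_sub (i1 h hh.1.continuous) (i1 (av h) o3.1.continuous)
    rw [h1, o11, sub_self]
  have hdF : ∀ i p, dX i F p = dX i h p := by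
    intro i p
    have h1 : DifferentiableAt ℝ h p := hh.1.differentiable (by norm_num) p
    have h2 : DifferentiableAt ℝ (av h) p := o3.1.differentiable (by norm_num) p
    have h3 : dX i (av h) p = 0 := dX_of_indep (o3.1.differentiable (by norm_num)) hav i p
    unfold dX at h3 ⊢
    rw [hF, fderiv_fun_sub h1 h2, sub_apply, h3, sub_zero]
  -- the function `g`
  set g : E 1 → ℝ := fun p => l ^ 2 / γ * gs k p + K p with hg
  have hgs2 : ContDiff ℝ 2 (gs k) := contDiff_infty.1 (gs_smooth hk) 2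
  have hgc : ContDiff ℝ 2 g := (contDiff_const.mul hgs2).add hK
  have hgp : Per g := by
    intro p m n
    simp only [hg, gs_per hk p m n, hKp p m n]
  have hgsm : Small g ε := by
    have h1 : Small (fun p => l ^ 2 / γ * gs k p) (l ^ 2 / γ * Cg) :=
      small_cmul hgs2 hgs (by positivity)
    have h2 := RedL.small_add (contDiff_const.mul hgs2) hK (small_mono h1 l2) hKs1
    rw [add_halves] at h2
    exact h2
  set f : E 1 → ℝ := fun p => h p + g p with hf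
  have hh2 : ContDiff ℝ 2 h := contDiff_infty.1 hh.1 2
  have hfc : ContDiff ℝ 2 f := hh2.add hgc
  have hfp : Per f := by
    intro p m n
    simp only [hf, hh.2 p m n, hgp p m n]
  have hdf : ∀ p, dX 0 f p = dX 0 F p + dX 0 K p ∧
      dX 1 f p = dX 1 F p + l ^ 2 / γ * k (p.1 1) * deriv k (p.1 1) + dX 1 K p := by
    intro p
    have h1 : DifferentiableAt ℝ h p := hh.1.differentiable (by norm_num) p
    have h2 : DifferentiableAt ℝ (gs k) p := hgs2.differentiable (by norm_num) p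
    have h3 : DifferentiableAt ℝ K p := hK.differentiable (by norm_num) p
    have h4 : ∀ i, dX i f p = dX i h p + (l ^ 2 / γ * dX i (gs k) p + dX i K p) := by
      intro i
      have k1 : HasFDerivAt f (fderiv ℝ h p + ((l ^ 2 / γ) • fderiv ℝ (gs k) p + fderiv ℝ K p)) p :=
        h1.hasFDerivAt.add ((h2.hasFDerivAt.const_mul _).add h3.hasFDerivAt)
      unfold dX
      rw [k1.fderiv]
      simp
    obtain ⟨g0, g1⟩ := gs_der hk p
    rw [h4, h4, hdF, hdF, g0, g1]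
    constructor <;> ring
  -- dynamics
  obtain ⟨H, hH⟩ := hom e j₀ henv
  obtain ⟨m, C₁, r₀, K₀, hm, hC₁, hr₀, hr₁, hK₀, hstep⟩ := step e j₀ H henv hH
  obtain ⟨Jf, wf, ⟨C', V', hC', hV', hnear⟩, have1⟩ := ave α γ b l c k F α0 γ0 l0 l1 hk hFs hF0
  obtain ⟨C, V₀, hC, hV₀, have2⟩ := have1 (2 * m) (by positivity)
  obtain ⟨i₁, hi₁, hstep2⟩ := hstep C V₀ hC hV₀
  obtain ⟨i₂, hstart⟩ := start e j₀ b C' V' C C₁ r₀ K₀ Jf wf henv hC' hV' hnear hC hC₁ hr₀ hK₀
  set i := max i₁ i₂ with hi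
  obtain ⟨p₀, p₁, v, q, hsol, hcont⟩ := flow α γ b f hfc hfp (fun s => b * s) (fun s => s)
    (fun _ => (i : ℝ) ^ 2 + 1) (fun s => l * s) (by fun_prop) (by fun_prop) (by fun_prop)
    (by fun_prop)
  obtain ⟨a, c', J, ha', hc'', hgood⟩ := hstart i p₀ p₁ v q (le_max_right _ _) fun s =>
    ⟨(hsol s).2.1, (hsol s).2.2.1, (hsol s).2.2.2.1, (hsol s).2.2.2.2⟩
  set G : ℤ → Fam := mkFam b Jf wf p₀ p₁ v q with hG
  have hshf : Shf b G := by
    intro N s t
    refine ⟨?_, ?_, rfl, rfl⟩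
    · change p₀ s t - b * (p₁ s t - ((N + 1 : ℤ) : ℝ)) = p₀ s t - b * (p₁ s t - N) + b
      push_cast
      ring
    · change p₁ s t - ((N + 1 : ℤ) : ℝ) = p₁ s t - N - 1
      push_cast
      ring
  have hAE : ∀ (a₁ a₂ : ℝ) (N : ℤ), AE e (G N) (Pv v q) C V₀ (2 * m) a₁ a₂ := fun a₁ a₂ N =>
    have2 K f χ ps cb hK hKp hKs3 hdf p₀ p₁ v q (fun s => (hsol s).1) hcont N a₁ a₂
  obtain ⟨s, hs1, hs2⟩ := iter
    (fun i N a c T J => Good e (G N) (Pv v q) C C₁ r₀ K₀ i a c T J) (Pv v q) i₁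
    (fun i hi => by
      obtain ⟨κ, hκ, h1⟩ := hstep2 i hi
      refine ⟨κ, hκ, fun N a c T J hg => ⟨hg.box.le, hg.lo, hg.hi, ?_⟩⟩
      exact h1 b G (Pv v q) a c T N J hshf (fun N => hAE a c N) hg)
    i 0 a c' 0 J (le_max_left _ _) hgood
  refine ⟨g, fun t => ![p₀ s t, p₁ s t], hgc, hgp, hgsm, sol_of_tr hA f _ _ _ _ (hsol s).1, ?_⟩
  have hd0 : (deriv fun t => (![p₀ s t, p₁ s t] : Q 1) 0) = fun t => v s t + b * q s t :=
    funext fun t => ((hsol s).1 t).1.deriv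
  rw [hd0, tendsto_atTop]
  intro B
  obtain ⟨T₁, hT₁⟩ := hs2 (B + 2 * |b|)
  filter_upwards [eventually_ge_atTop T₁] with t ht
  obtain ⟨V'', h1, h2, h3⟩ := hT₁ t ht
  have h4 : |b * q s t| ≤ |b| * 2 := by
    rw [abs_mul]
    exact mul_le_mul_of_nonneg_left h3 (abs_nonneg _)
  have h5 := (abs_le.1 h4).1
  linarith

end Pool.Agent.Helper6K9.EH
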