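import Pool.Agent.Helper6K9.EH.Iter

set_option autoImplicit false

/-!
# Orbits which escape to infinity: infinite iteration, with a rate
-/

namespace Pool.Agent.Helper6K9.EH

open Set Filter Topology IterL

/-- infinite iteration, with a rate -/
def S_ITER2 : Prop := ∀ (Q : ℕ → ℤ → ℝ → ℝ → ℕ → ℝ → Prop) (P : ℝ → ℝ → ℝ → Prop) (i₁ : ℕ) (D : ℝ),
  1 ≤ D →
  (∀ i : ℕ, i₁ ≤ i → ∃ κ : ℝ, 0 < κ ∧ ∀ (N : ℤ) (a c : ℝ) (T : ℕ) (J : ℝ), Q i N a c T J →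
    a ≤ c ∧ (i : ℝ) ^ 2 ≤ J ∧ J < ((i : ℝ) + 1) ^ 2 ∧ ∃ (a' c' : ℝ) (T' i' : ℕ) (J' : ℝ),
      a ≤ a' ∧ c' ≤ c ∧ T < T' ∧ (T' : ℝ) - T ≤ D * (i : ℝ) ^ 6 * (J' - J) ∧ i ≤ i' ∧ i' ≤ i + 1 ∧
      J + κ ≤ J' ∧ Q i' (N + 1) a' c' T' J' ∧
      ∀ s ∈ Icc a' c', ∀ t ∈ Icc (T : ℝ) T', P ((i : ℝ) ^ 2 - 3) s t) →
  ∀ (i : ℕ) (N : ℤ) (a c : ℝ) (T : ℕ) (J : ℝ), i₁ ≤ i → Q i N a c T J →
    ∃ s ∈ Icc a c, ∃ T₁ : ℝ, ∀ t : ℝ, T₁ ≤ t → ∃ V' : ℝ, 0 ≤ V' ∧ t ≤ (8 * D * V') ^ 4 ∧ P V' s t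

theorem iter2 : S_ITER2 := by
  intro Q P i₁ D hD hstep i N a c T J hi hQ
  choose! κ hκ hs using hstep
  let G : St → Prop := fun σ => i₁ ≤ σ.i ∧ Q σ.i σ.N σ.a σ.c σ.T σ.J
  have key : ∀ σ : {σ : St // G σ}, ∃ σ' : {σ : St // G σ},
      σ.1.a ≤ σ'.1.a ∧ σ'.1.c ≤ σ.1.c ∧ σ.1.T < σ'.1.T ∧
      (σ'.1.T : ℝ) - σ.1.T ≤ D * (σ.1.i : ℝ) ^ 6 * (σ'.1.J - σ.1.J) ∧ σ.1.i ≤ σ'.1.i ∧
      σ'.1.i ≤ σ.1.i + 1 ∧ σ.1.J + κ σ.1.i ≤ σ'.1.J ∧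
      ∀ s ∈ Icc σ'.1.a σ'.1.c, ∀ t ∈ Icc (σ.1.T : ℝ) σ'.1.T, P ((σ.1.i : ℝ) ^ 2 - 3) s t := by
    rintro ⟨σ, h1, h2⟩
    obtain ⟨_, _, _, a', c', T', i', J', ha, hc, hT, hTT, hi', hi'', hJ, hQ', hP⟩ :=
      hs σ.i h1 σ.N σ.a σ.c σ.T σ.J h2
    exact ⟨⟨⟨i', σ.N + 1, a', c', T', J'⟩, le_trans h1 hi', hQ'⟩, ha, hc, hT, hTT, hi', hi'', hJ,
      hP⟩
  choose nx ha hc hT hTT hi' hi'' hJ hP using key
  let σ₀ : {σ : St // G σ} := ⟨⟨i, N, a, c, T, J⟩, hi, hQ⟩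
  let q : ℕ → {σ : St // G σ} := fun n => nx^[n] σ₀
  have q0 : q 0 = σ₀ := rfl
  have qs : ∀ n, q (n + 1) = nx (q n) := fun n => Function.iterate_succ_apply' nx n σ₀
  have ma : Monotone fun n => (q n).1.a := monotone_nat_of_le_succ fun n => by
    show (q n).1.a ≤ (q (n + 1)).1.a
    rw [qs]
    exact ha _
  have mc : Antitone fun n => (q n).1.c := antitone_nat_of_succ_le fun n => by
    show (q (n + 1)).1.c ≤ (q n).1.c
    rw [qs]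
    exact hc _
  have mi : Monotone fun n => (q n).1.i := monotone_nat_of_le_succ fun n => by
    show (q n).1.i ≤ (q (n + 1)).1.i
    rw [qs]
    exact hi' _
  have mT : StrictMono fun n => (q n).1.T := strictMono_nat_of_lt_succ fun n => by
    show (q n).1.T < (q (n + 1)).1.T
    rw [qs]
    exact hT _
  have fact : ∀ n, (q n).1.a ≤ (q n).1.c ∧ ((q n).1.i : ℝ) ^ 2 ≤ (q n).1.J ∧
      (q n).1.J < (((q n).1.i : ℝ) + 1) ^ 2 := fun n => by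
    have h := hs (q n).1.i (q n).2.1 (q n).1.N (q n).1.a (q n).1.c (q n).1.T (q n).1.J (q n).2.2
    exact ⟨h.1, h.2.1, h.2.2.1⟩
  have hac : ∀ n m, (q n).1.a ≤ (q m).1.c := fun n m =>
    ((ma (le_max_left n m)).trans (fact (max n m)).1).trans (mc (le_max_right n m))
  have hbdd : BddAbove (range fun n => (q n).1.a) := ⟨(q 0).1.c, by
    rintro _ ⟨n, rfl⟩
    exact hac n 0⟩
  have hmem : ∀ n, (⨆ n, (q n).1.a) ∈ Icc (q n).1.a (q n).1.c := fun n =>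
    ⟨le_ciSup hbdd n, ciSup_le fun m => hac m n⟩
  -- the index is unbounded
  have hunb : ∀ M : ℕ, ∃ n, M ≤ (q n).1.i := by
    intro M
    by_contra hcon
    push Not at hcon
    -- the index is bounded, so it is eventually constant
    have hfin : ∃ n₀, ∀ n, n₀ ≤ n → (q n).1.i = (q n₀).1.i := by
      have hb : BddAbove (range fun n => (q n).1.i) := ⟨M, by
        rintro _ ⟨n, rfl⟩
        exact (hcon n).le⟩
      obtain ⟨n₀, hn₀⟩ := Nat.sSup_mem (range_nonempty fun n => (q n).1.i) hb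
      refine ⟨n₀, fun n hn => le_antisymm ?_ (mi hn)⟩
      have h1 : (q n).1.i ≤ sSup (range fun n => (q n).1.i) := le_csSup hb ⟨n, rfl⟩
      have h2 : (q n₀).1.i = sSup (range fun n => (q n).1.i) := hn₀
      rw [h2]
      exact h1
    obtain ⟨n₀, hn₀⟩ := hfin
    have hk : 0 < κ (q n₀).1.i := hκ _ (q n₀).2.1
    have hJn : ∀ m : ℕ, (q n₀).1.J + m * κ (q n₀).1.i ≤ (q (n₀ + m)).1.J := by
      intro m
      induction m with
      | zero => simp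
      | succ m ih =>
        have h1 := hJ (q (n₀ + m))
        rw [← qs, hn₀ (n₀ + m) (by omega)] at h1
        have h2 : n₀ + (m + 1) = n₀ + m + 1 := by ring
        rw [h2]
        push_cast
        linarith
    obtain ⟨m, hm⟩ := exists_nat_gt (((((q n₀).1.i : ℝ) + 1) ^ 2 - (q n₀).1.J) / κ (q n₀).1.i)
    rw [div_lt_iff₀ hk] at hm
    have h1 := (fact (n₀ + m)).2.2
    rw [hn₀ (n₀ + m) (by omega)] at h1
    have := hJn m
    linarith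
  -- the bound for the times
  have hTn : ∀ n, ((q n).1.T : ℝ) ≤ (q 0).1.T + D * (q n).1.J ^ 4 := by
    intro n
    induction n with
    | zero =>
      have : 0 ≤ D * (q 0).1.J ^ 4 := by positivity
      linarith
    | succ n ih =>
      have h1 := hTT (q n)
      rw [← qs] at h1
      obtain ⟨-, h2, -⟩ := fact n
      have h3 : (q n).1.J ≤ (q (n + 1)).1.J := by
        have h4 := hJ (q n)
        rw [← qs] at h4
        have h5 := hκ _ (q n).2.1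
        linarith
      have hi0 : (0 : ℝ) ≤ ((q n).1.i : ℝ) ^ 2 := by positivity
      have hJ0 : 0 ≤ (q n).1.J := hi0.trans h2
      have h6 : ((q n).1.i : ℝ) ^ 6 ≤ (q n).1.J ^ 3 := by
        calc ((q n).1.i : ℝ) ^ 6 = (((q n).1.i : ℝ) ^ 2) ^ 3 := by ring
          _ ≤ (q n).1.J ^ 3 := pow_le_pow_left₀ hi0 h2 3
      have h7 : D * ((q n).1.i : ℝ) ^ 6 * ((q (n + 1)).1.J - (q n).1.J) ≤
          D * ((q n).1.J ^ 3 * ((q (n + 1)).1.J - (q n).1.J)) := by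
        rw [mul_assoc]
        refine mul_le_mul_of_nonneg_left ?_ (by linarith)
        exact mul_le_mul_of_nonneg_right h6 (by linarith)
      have h8 : (q n).1.J ^ 3 * (q (n + 1)).1.J ≤ (q (n + 1)).1.J ^ 4 := by
        calc (q n).1.J ^ 3 * (q (n + 1)).1.J ≤ (q (n + 1)).1.J ^ 3 * (q (n + 1)).1.J :=
              mul_le_mul_of_nonneg_right (pow_le_pow_left₀ hJ0 h3 3) (hJ0.trans h3)
          _ = (q (n + 1)).1.J ^ 4 := by ring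
      have h9 : D * ((q n).1.J ^ 3 * ((q (n + 1)).1.J - (q n).1.J)) ≤
          D * ((q (n + 1)).1.J ^ 4 - (q n).1.J ^ 4) := by
        refine mul_le_mul_of_nonneg_left ?_ (by linarith)
        have : (q n).1.J ^ 3 * ((q (n + 1)).1.J - (q n).1.J) =
          (q n).1.J ^ 3 * (q (n + 1)).1.J - (q n).1.J ^ 4 := by ring
        linarith
      have h10 : D * ((q (n + 1)).1.J ^ 4 - (q n).1.J ^ 4) =
        D * (q (n + 1)).1.J ^ 4 - D * (q n).1.J ^ 4 := by ring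
      linarith
  obtain ⟨M, hM⟩ := exists_nat_gt ((q 0).1.T : ℝ)
  obtain ⟨n₀, hn₀⟩ := hunb (M + 4)
  refine ⟨⨆ n, (q n).1.a, hmem 0, (q n₀).1.T, fun t ht => ?_⟩
  -- the interval of the time t
  have hex : ∃ m, t < (q (n₀ + m)).1.T := by
    obtain ⟨m, hm⟩ := exists_nat_gt t
    refine ⟨m, hm.trans_le ?_⟩
    have : m ≤ (q (n₀ + m)).1.T := le_trans (Nat.le_add_left m n₀) (mT.id_le (n₀ + m))
    exact_mod_cast this
  classical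
  have hf := Nat.find_spec hex
  have hpos : Nat.find hex ≠ 0 := by
    intro h0
    rw [h0] at hf
    simp only [add_zero] at hf
    linarith
  obtain ⟨m, hm⟩ := Nat.exists_eq_succ_of_ne_zero hpos
  have hm' : ¬ t < (q (n₀ + m)).1.T := Nat.find_min hex (by omega)
  push Not at hm'
  rw [hm] at hf
  have hf' : t < (q (n₀ + m + 1)).1.T := by
    have : n₀ + m.succ = n₀ + m + 1 := rfl
    rwa [this] at hf
  have h1 := hP (q (n₀ + m)) (⨆ n, (q n).1.a) (by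
    rw [← qs]
    exact hmem _) t (by
    rw [← qs]
    exact ⟨hm', hf'.le⟩)
  have h2 : M + 4 ≤ (q (n₀ + m)).1.i := hn₀.trans (mi (Nat.le_add_right _ _))
  have h3 : (M : ℝ) + 4 ≤ ((q (n₀ + m)).1.i : ℝ) := by exact_mod_cast h2
  obtain ⟨x, hx⟩ : ∃ x : ℝ, x = ((q (n₀ + m)).1.i : ℝ) := ⟨_, rfl⟩
  rw [← hx] at h1 h3
  have hM0 : (0 : ℝ) ≤ M := Nat.cast_nonneg _
  have hx4 : 4 ≤ x := by linarith
  have hi2 : (((q (n₀ + m + 1)).1.i : ℕ) : ℝ) ≤ x + 1 := by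
    have h4 := hi'' (q (n₀ + m))
    rw [← qs] at h4
    rw [hx]
    exact_mod_cast h4
  have hJ1 : (q (n₀ + m + 1)).1.J ≤ (x + 2) ^ 2 := by
    refine (fact (n₀ + m + 1)).2.2.le.trans ?_
    have h5 : (0 : ℝ) ≤ (((q (n₀ + m + 1)).1.i : ℕ) : ℝ) := Nat.cast_nonneg _
    exact pow_le_pow_left₀ (by linarith) (by linarith) 2
  have hJ10 : 0 ≤ (q (n₀ + m + 1)).1.J := le_trans (by positivity) (fact (n₀ + m + 1)).2.1
  refine ⟨x ^ 2 - 3, by nlinarith, ?_, h1⟩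
  have h6 : (q (n₀ + m + 1)).1.J ^ 4 ≤ (4 * (x ^ 2 - 3)) ^ 4 := by
    refine pow_le_pow_left₀ hJ10 (hJ1.trans ?_) 4
    nlinarith
  have h7 := hTn (n₀ + m + 1)
  have hy : (1 : ℝ) ≤ x ^ 2 - 3 := by nlinarith
  have h8 : ((q 0).1.T : ℝ) ≤ (x ^ 2 - 3) ^ 4 := by
    have h9 : x ≤ x ^ 2 - 3 := by nlinarith
    have h10 : (x ^ 2 - 3) ≤ (x ^ 2 - 3) ^ 4 := by
      calc x ^ 2 - 3 = (x ^ 2 - 3) ^ 1 := (pow_one _).symm
        _ ≤ (x ^ 2 - 3) ^ 4 := pow_le_pow_right₀ hy (by norm_num)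
    linarith
  have h11 : D * (q (n₀ + m + 1)).1.J ^ 4 ≤ D * (4 * (x ^ 2 - 3)) ^ 4 :=
    mul_le_mul_of_nonneg_left h6 (by linarith)
  have h12 : (x ^ 2 - 3) ^ 4 + D * (4 * (x ^ 2 - 3)) ^ 4 ≤ (8 * D * (x ^ 2 - 3)) ^ 4 := by
    have h13 : D ≤ D ^ 4 := by
      calc D = D ^ 1 := (pow_one _).symm
        _ ≤ D ^ 4 := pow_le_pow_right₀ hD (by norm_num)
    have h14 : (1 : ℝ) ≤ D ^ 4 := hD.trans h13
    have h15 : 0 ≤ (x ^ 2 - 3) ^ 4 := by positivity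
    calc (x ^ 2 - 3) ^ 4 + D * (4 * (x ^ 2 - 3)) ^ 4 = (1 + 256 * D) * (x ^ 2 - 3) ^ 4 := by ring
      _ ≤ (4096 * D ^ 4) * (x ^ 2 - 3) ^ 4 := mul_le_mul_of_nonneg_right (by linarith) h15
      _ = (8 * D * (x ^ 2 - 3)) ^ 4 := by ring
  linarith

end Pool.Agent.Helper6K9.EH
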