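import Pool.Agent.Helper6K9.EH.StepB

set_option autoImplicit false

/-!
# One cycle: the numerical conditions
-/

namespace Pool.Agent.Helper6K9.EH

open Set Filter Topology Pool.Agent.Helper6K9.ES
open scoped ContDiff

namespace StepL

/-- powers of `y` are eventually small -/
theorem ev (A δ : ℝ) (p : ℕ) (hp : p ≠ 0) (hδ : 0 < δ) : ∀ᶠ i : ℕ in atTop, A * yy i ^ p ≤ δ := by
  have h1 : Tendsto (fun i : ℕ => A * yy i ^ p) atTop (𝓝 (A * 0 ^ p)) :=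
    (yy_lim.pow p).const_mul A
  rw [zero_pow hp, mul_zero] at h1
  exact (h1.eventually (gt_mem_nhds hδ)).mono fun i hi => le_of_lt hi

/-- facts about `i` and `j` -/
structure Fac (u C : ℝ) (i : ℕ) : Prop where
  i4 : 4 ≤ i
  y0 : 0 < yy i
  y1 : yy i ≤ 1
  eps0 : 0 < C / ((i : ℝ) ^ 2 - 3)
  eps1 : C / ((i : ℝ) ^ 2 - 3) ≤ 2 * C * yy i ^ 16
  jj : ∀ j, j = 2 * i ∨ j = 2 * i + 1 → yy i / 3 ≤ ee j ∧ ee j ≤ yy i ∧
    u / 576 * yy i ^ 12 ≤ ss u j ∧ ss u j ≤ u / 64 * yy i ^ 12 ∧ 0 < tau j ∧ tau j ≤ yy i ^ 4 ∧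
    yy i ^ 41 / 50000 ≤ aa j * dd j ∧ C / ((i : ℝ) ^ 2 - 3) ≤ 8 * C * (j : ℝ) ^ (-2 : ℝ)
  lg : Real.log (1 / (C / ((i : ℝ) ^ 2 - 3))) ≤ 16 / yy i
  td : (2 * i + 3) * |tau (2 * i) - tau (2 * i + 1)| ≤ 4 * yy i ^ 4

theorem fac {u C : ℝ} (hu : 0 < u) (hC : 1 ≤ C) {i : ℕ} (hi : 4 ≤ i) : Fac u C i := by
  have h1 : 1 ≤ i := by omega
  have hi4 : (4 : ℝ) ≤ i := by exact_mod_cast hi
  have hV : 0 < (i : ℝ) ^ 2 - 3 := by nlinarith
  have hy := yy_pos h1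
  have h16 : (i : ℝ) ^ 2 * yy i ^ 16 = 1 := by
    have := yy8 h1
    calc (i : ℝ) ^ 2 * yy i ^ 16 = ((i : ℝ) * yy i ^ 8) ^ 2 := by ring
      _ = 1 := by rw [this]; norm_num
  refine ⟨hi, hy, yy_le h1, by positivity, ?_, ?_, ?_, ?_⟩
  · rw [div_le_iff₀ hV]
    have h2 : (i : ℝ) ^ 2 ≤ 2 * ((i : ℝ) ^ 2 - 3) := by nlinarith
    have h3 : 0 ≤ C * yy i ^ 16 := by positivity
    calc C = C * ((i : ℝ) ^ 2 * yy i ^ 16) := by rw [h16, mul_one]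
      _ = (C * yy i ^ 16) * (i : ℝ) ^ 2 := by ring
      _ ≤ (C * yy i ^ 16) * (2 * ((i : ℝ) ^ 2 - 3)) := mul_le_mul_of_nonneg_left h2 h3
      _ = 2 * C * yy i ^ 16 * ((i : ℝ) ^ 2 - 3) := by ring
  · intro j hj
    have j1 : i ≤ j := by omega
    have j2 : j ≤ 3 * i := by omega
    obtain ⟨a1, a2⟩ := ee_bd h1 j1 j2
    obtain ⟨b1, b2⟩ := ss_bd hu h1 j1 j2
    obtain ⟨c1, c2⟩ := tau_bd h1 j1
    refine ⟨a1, a2, by linarith, b2, c1, c2, ad_bd h1 j1 j2, ?_⟩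
    have hj0 : (0 : ℝ) < j := by exact_mod_cast (h1.trans j1)
    have h2 : (j : ℝ) ^ (-2 : ℝ) = 1 / (j : ℝ) ^ 2 := by
      rw [Real.rpow_neg hj0.le, one_div]
      norm_cast
    rw [h2, mul_one_div, div_le_div_iff₀ hV (by positivity)]
    have h3 : (j : ℝ) ≤ 2 * i + 1 := by
      rcases hj with rfl | rfl <;> push_cast <;> linarith
    have h4 : (j : ℝ) ^ 2 ≤ (2 * i + 1) ^ 2 := pow_le_pow_left₀ hj0.le h3 2
    have h5 : (2 * (i : ℝ) + 1) ^ 2 ≤ 8 * ((i : ℝ) ^ 2 - 3) := by nlinarith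
    nlinarith
  · have h2 : 1 / (C / ((i : ℝ) ^ 2 - 3)) = ((i : ℝ) ^ 2 - 3) / C := by rw [one_div_div]
    rw [h2]
    have h3 : ((i : ℝ) ^ 2 - 3) / C ≤ (i : ℝ) ^ 2 := by
      rw [div_le_iff₀ (by linarith)]
      nlinarith
    have h4 := Real.log_le_log (by positivity) h3
    rw [Real.log_pow] at h4
    have h5 := log_bd h1
    push_cast at h4
    have : (16 : ℝ) / yy i = 2 * (8 / yy i) := by ring
    rw [this]
    linarith
  · have h2 := tau_diff (j := 2 * i) (by omega)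
    have h3 := pow_le h1 (by omega : i ≤ 2 * i) 12
    have h4 : |tau (2 * i) - tau (2 * i + 1)| ≤ yy i ^ 12 := by
      refine h2.trans (le_trans (le_of_eq ?_) h3)
      norm_num
    have h8 := yy8 h1
    have h5 : (2 * (i : ℝ) + 3) ≤ 4 * i := by linarith
    calc (2 * (i : ℝ) + 3) * |tau (2 * i) - tau (2 * i + 1)| ≤ 4 * i * yy i ^ 12 :=
          mul_le_mul h5 h4 (abs_nonneg _) (by positivity)
      _ = 4 * ((i : ℝ) * yy i ^ 8) * yy i ^ 4 := by ring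
      _ = 4 * yy i ^ 4 := by rw [h8]; ring

theorem num {e : Env} {j₀ : ℕ} (he : EnvOK e j₀) {H : ℝ → ℝ} (hH : Hom e H) {m : ℕ}
    {C₁ r₀ r₁ C₃ C₇ c₇ C₈ c₈ c₉ V₀ C : ℝ} (hC : 1 ≤ C) (hC1 : 1 ≤ C₁) (hC3 : 1 ≤ C₃) (hC7 : 1 ≤ C₇)
    (hC8 : 1 ≤ C₈) (hc7 : 0 < c₇) (hc8 : 0 < c₈) (hc9 : 0 < c₉) (hr0 : 0 < r₀) (hr1 : 0 < r₁)
    (hm1 : 7 / 8 < H (m - 1)) (hm2 : 1 - r₀ / (4 * e.l) < H (m - 1)) :
    ∀ᶠ i : ℕ in atTop, ∀ n : ℕ, (n : ℝ) ≤ C₃ * Real.log (1 / (C / ((i : ℝ) ^ 2 - 3))) →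
      Num e H m C₁ r₀ r₁ C₃ C₇ c₇ C₈ c₈ c₉ V₀ (C / ((i : ℝ) ^ 2 - 3)) i n := by
  have hl := he.hl
  have hu : 0 < e.l * e.c := mul_pos hl he.prof.cpos
  set u := e.l * e.c with hudef
  set B : ℝ := 12 * C₈ * C₁ * (2 * C) with hB
  set M : ℝ := 16 * C₃ * C₃ * (2 * C) with hM
  have hB0 : 0 < B := by positivity
  have hM0 : 0 < M := by positivity
  have hdel : 0 < H (m - 1) - 7 / 8 := by linarith
  have hdel2 : 0 < r₀ - 2 * e.l * (1 - H (m - 1)) := by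
    have h1 : 1 - H (m - 1) < r₀ / (4 * e.l) := by linarith
    rw [lt_div_iff₀ (by positivity)] at h1
    nlinarith
  have hV₀ : ∀ᶠ i : ℕ in atTop, V₀ ≤ (i : ℝ) ^ 2 - 3 := by
    have h1 : Tendsto (fun i : ℕ => (i : ℝ) ^ 2 - 3) atTop atTop := by
      refine tendsto_atTop_add_const_right _ _ ?_
      exact (tendsto_pow_atTop two_ne_zero).comp tendsto_natCast_atTop_atTop
    exact h1.eventually (eventually_ge_atTop V₀)
  filter_upwards [eventually_ge_atTop 4, hV₀,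
    ev (M * (2 * C) ^ 2) (1 / 4) 47 (by norm_num) (by norm_num),
    ev (M * (2 * C) ^ 2) (c₉ / 100000) 6 (by norm_num) (by positivity),
    ev B (1 / 4) 15 (by norm_num) (by norm_num),
    ev (C₃ * (6 * C₈ * √(2 * C) + 2 * C)) (1 / 2) 7 (by norm_num) (by norm_num),
    ev (16 * (C₃ * (6 * C₈ * √(2 * C) + 2 * C))) (c₈ / 3) 6 (by norm_num) (by positivity),
    ev (C₃ * (2 * C)) (r₁ / 2) 16 (by norm_num) (by positivity),
    ev 1 (1 / 2) 4 (by norm_num) (by norm_num),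
    ev (4 / e.l * B + 16 * C₃ * B + (m + 1) * (B + M * (2 * C) ^ 2) + M) (1 / 200) 14 (by norm_num)
      (by norm_num),
    ev 4 (1 / 200) 4 (by norm_num) (by norm_num),
    ev (C₁ * (2 * C)) (c₇ * (u / 1728)) 3 (by norm_num) (by positivity),
    ev (C₇ * (u / 64)) ((H (m - 1) - 7 / 8) / 2) 12 (by norm_num) (by positivity),
    ev (C₇ * (u / 64)) (1 / 8) 12 (by norm_num) (by norm_num),
    ev (2 * e.l * (C₇ * (u / 64)) + C₇ * (u / 64)) (r₀ - 2 * e.l * (1 - H (m - 1))) 12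
      (by norm_num) hdel2] with i h4 hV e1 e2 e3 e4 e5 e6 e7 e8 e9 e10 e11 e12 e13 n hn
  have hF := fac (u := u) hu hC h4
  obtain ⟨-, y0, y1, p0, p1, hjj, hlg, htd⟩ := hF
  set y := yy i with hy
  set ε := C / ((i : ℝ) ^ 2 - 3) with hε
  have hn0 : (0 : ℝ) ≤ n := Nat.cast_nonneg _
  have pw : ∀ p q : ℕ, p ≤ q → y ^ q ≤ y ^ p := fun p q hpq =>
    pow_le_pow_of_le_one y0.le y1 hpq
  -- `n ε ≤ ...`
  have hny : (n : ℝ) * y ≤ 16 * C₃ := by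
    have h1 : (n : ℝ) ≤ C₃ * (16 / y) := hn.trans (mul_le_mul_of_nonneg_left hlg (by linarith))
    calc (n : ℝ) * y ≤ C₃ * (16 / y) * y := mul_le_mul_of_nonneg_right h1 y0.le
      _ = 16 * C₃ := by field_simp
  have hnε : C₃ * n * ε ≤ M * y ^ 15 := by
    calc C₃ * n * ε ≤ C₃ * n * (2 * C * y ^ 16) := by gcongr
      _ = C₃ * (n * y) * (2 * C) * y ^ 15 := by ring
      _ ≤ C₃ * (16 * C₃) * (2 * C) * y ^ 15 := by gcongr
      _ = M * y ^ 15 := by rw [hM]; ring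
  have hε2 : ε ^ 2 ≤ (2 * C) ^ 2 * y ^ 32 := by
    calc ε ^ 2 ≤ (2 * C * y ^ 16) ^ 2 := by gcongr
      _ = (2 * C) ^ 2 * y ^ 32 := by ring
  have hnε3 : C₃ * n * ε ^ 3 ≤ M * (2 * C) ^ 2 * y ^ 47 := by
    calc C₃ * n * ε ^ 3 = (C₃ * n * ε) * ε ^ 2 := by ring
      _ ≤ (M * y ^ 15) * ((2 * C) ^ 2 * y ^ 32) := by gcongr
      _ = M * (2 * C) ^ 2 * y ^ 47 := by ring
  have hee := (hjj (2 * i) (Or.inl rfl)).1
  have hee0 : 0 < ee (2 * i) := lt_of_lt_of_le (by positivity) hee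
  have hK : 2 * C₈ / ee (2 * i) ≤ 6 * C₈ / y := by
    rw [div_le_div_iff₀ hee0 y0]
    nlinarith
  have hK0 : 0 ≤ 2 * C₈ / ee (2 * i) := by positivity
  have hD : 2 * C₈ / ee (2 * i) * (2 * (C₁ * ε)) ≤ B * y ^ 15 := by
    calc 2 * C₈ / ee (2 * i) * (2 * (C₁ * ε)) ≤ 6 * C₈ / y * (2 * (C₁ * (2 * C * y ^ 16))) := by
          gcongr
      _ = B * y ^ 15 := by rw [hB]; field_simp; ring
  have hsq : √ε ≤ √(2 * C) * y ^ 8 := by
    have h1 : √ε ≤ √(2 * C * y ^ 16) := Real.sqrt_le_sqrt p1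
    rw [Real.sqrt_mul (by positivity), show y ^ 16 = (y ^ 8) ^ 2 by ring,
      Real.sqrt_sq (by positivity)] at h1
    exact h1
  have hKn : C₃ * (√ε * (2 * C₈ / ee (2 * i)) + ε) ≤ C₃ * (6 * C₈ * √(2 * C) + 2 * C) * y ^ 7 := by
    have h1 : √ε * (2 * C₈ / ee (2 * i)) ≤ 6 * C₈ * √(2 * C) * y ^ 7 := by
      calc √ε * (2 * C₈ / ee (2 * i)) ≤ (√(2 * C) * y ^ 8) * (6 * C₈ / y) := by gcongr
        _ = 6 * C₈ * √(2 * C) * y ^ 7 := by field_simp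
    have h2 : ε ≤ 2 * C * y ^ 7 := p1.trans (by have := pw 7 16 (by norm_num); gcongr)
    calc C₃ * (√ε * (2 * C₈ / ee (2 * i)) + ε) ≤
        C₃ * (6 * C₈ * √(2 * C) * y ^ 7 + 2 * C * y ^ 7) := by gcongr
      _ = C₃ * (6 * C₈ * √(2 * C) + 2 * C) * y ^ 7 := by ring
  have hee_mono : ∀ j j' : ℕ, 1 ≤ j → j ≤ j' → ee j' ≤ ee j := by
    intro j j' h1 h2
    have : (0 : ℝ) < j := by exact_mod_cast h1
    exact Real.rpow_le_rpow_of_nonpos this (by exact_mod_cast h2) (by norm_num)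
  have hee_pos : ∀ j : ℕ, 1 ≤ j → 0 < ee j := by
    intro j h1
    exact Real.rpow_pos_of_pos (by exact_mod_cast h1) _
  refine ⟨p0, h4, hV, hnε3.trans e1, ?_, hD.trans e3, ?_, ?_, ?_, ?_, ?_, ?_, ?_, ?_, ?_, ?_⟩
  · intro j hj
    obtain ⟨-, -, -, -, -, -, g1, -⟩ := hjj j hj
    refine hnε3.trans ?_
    calc M * (2 * C) ^ 2 * y ^ 47 = (M * (2 * C) ^ 2 * y ^ 6) * y ^ 41 := by ring
      _ ≤ (c₉ / 100000) * y ^ 41 := by gcongr
      _ = c₉ / 2 * (y ^ 41 / 50000) := by ring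
      _ ≤ c₉ / 2 * (aa j * dd j) := by gcongr
  · exact hKn.trans e4
  · intro j hj
    obtain ⟨g1, -⟩ := hjj j hj
    calc 16 * (C₃ * (√ε * (2 * C₈ / ee (2 * i)) + ε)) ≤
        16 * (C₃ * (6 * C₈ * √(2 * C) + 2 * C) * y ^ 7) := by gcongr
      _ = (16 * (C₃ * (6 * C₈ * √(2 * C) + 2 * C)) * y ^ 6) * y := by ring
      _ ≤ (c₈ / 3) * y := by gcongr
      _ = c₈ * (y / 3) := by ring
      _ ≤ c₈ * ee j := by gcongr
  · calc C₃ * ε ≤ C₃ * (2 * C * y ^ 16) := by gcongr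
      _ = C₃ * (2 * C) * y ^ 16 := by ring
      _ ≤ r₁ / 2 := e6
  · intro j hj
    obtain ⟨g1, g2, g3, g4, g5, g6, -⟩ := hjj j hj
    have g7 : 0 < ss u j := lt_of_lt_of_le (by positivity) g3
    refine ⟨?_, g5, ?_, g7, lt_of_lt_of_le (by positivity) g1⟩
    · rw [div_le_iff₀ (by positivity)]
      have h1 : y ^ 12 ≤ 1 := pow_le_one₀ y0.le y1
      nlinarith
    · linarith
  · have h1 := pw 14 15 (by norm_num)
    have h2 := pw 14 47 (by norm_num)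
    have t1 : 4 / e.l * (2 * C₈ / ee (2 * i) * (2 * (C₁ * ε))) ≤ 4 / e.l * B * y ^ 14 := by
      calc _ ≤ 4 / e.l * (B * y ^ 15) := by gcongr
        _ ≤ 4 / e.l * (B * y ^ 14) := by gcongr
        _ = _ := by ring
    have t2 : n * (2 * C₈ / ee (2 * i) * (2 * (C₁ * ε))) ≤ 16 * C₃ * B * y ^ 14 := by
      calc _ ≤ n * (B * y ^ 15) := by gcongr
        _ = (n * y) * (B * y ^ 14) := by ring
        _ ≤ (16 * C₃) * (B * y ^ 14) := by gcongr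
        _ = _ := by ring
    have t3 : (m + 1) * (2 * C₈ / ee (2 * i) * (2 * (C₁ * ε)) + C₃ * n * ε ^ 3) ≤
        (m + 1) * (B + M * (2 * C) ^ 2) * y ^ 14 := by
      calc _ ≤ (m + 1) * (B * y ^ 14 + M * (2 * C) ^ 2 * y ^ 14) := by
            have q1 : 2 * C₈ / ee (2 * i) * (2 * (C₁ * ε)) ≤ B * y ^ 14 :=
              hD.trans (by gcongr)
            have q2 : C₃ * n * ε ^ 3 ≤ M * (2 * C) ^ 2 * y ^ 14 := hnε3.trans (by gcongr)
            gcongr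
        _ = _ := by ring
    have t4 : C₃ * n * ε ≤ M * y ^ 14 := hnε.trans (by gcongr)
    calc _ ≤ 4 / e.l * B * y ^ 14 + 16 * C₃ * B * y ^ 14 +
          (m + 1) * (B + M * (2 * C) ^ 2) * y ^ 14 + M * y ^ 14 :=
          add_le_add (add_le_add (add_le_add t1 t2) t3) t4
      _ = (4 / e.l * B + 16 * C₃ * B + (m + 1) * (B + M * (2 * C) ^ 2) + M) * y ^ 14 := by ring
      _ ≤ 1 / 200 := e8
  · exact htd.trans e9
  · intro j hj
    obtain ⟨g1, g2, g3, -⟩ := hjj j hj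
    have g0 : 0 ≤ ee j := (hee_pos j (by omega)).le
    calc C₁ * ε ≤ C₁ * (2 * C * y ^ 16) := by gcongr
      _ = (C₁ * (2 * C) * y ^ 3) * y ^ 13 := by ring
      _ ≤ (c₇ * (u / 1728)) * y ^ 13 := by gcongr
      _ = c₇ * ((y / 3) * (u / 576 * y ^ 12)) := by ring
      _ ≤ c₇ * (ee j * ss u j) := by gcongr
  · intro j hj
    obtain ⟨g1, g2, g3, g4, -⟩ := hjj j hj
    have q1 : C₇ * ss u j ≤ C₇ * (u / 64) * y ^ 12 := by
      calc C₇ * ss u j ≤ C₇ * (u / 64 * y ^ 12) := by gcongr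
        _ = _ := by ring
    have g7 : 0 < ss u j := lt_of_lt_of_le (by positivity) g3
    refine ⟨by linarith, q1.trans e12, ?_⟩
    have q2 : C₇ * (ee j * ss u j) ≤ C₇ * (u / 64) * y ^ 12 := by
      refine le_trans ?_ q1
      have : ee j * ss u j ≤ 1 * ss u j := by gcongr; exact g2.trans y1
      nlinarith
    have q3 : 2 * e.l * (C₇ * ss u j) ≤ 2 * e.l * (C₇ * (u / 64) * y ^ 12) := by gcongr
    have q4 : (2 * e.l * (C₇ * (u / 64)) + C₇ * (u / 64)) * y ^ 12 =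
      2 * e.l * (C₇ * (u / 64) * y ^ 12) + C₇ * (u / 64) * y ^ 12 := by ring
    linarith
  · intro j hj i' hi'
    obtain ⟨g1, g2, -⟩ := hjj j hj
    have w1 : ee (2 * i') ≤ ee (2 * i) := hee_mono _ _ (by omega) (by omega)
    have w2 : 0 < ee (2 * i') := hee_pos _ (by omega)
    have w3 : 0 < ee j := hee_pos _ (by omega)
    have w4 : ee (2 * i) ≤ 2 * ee j := by
      have i0 : (0 : ℝ) < i := by exact_mod_cast (by omega : 0 < i)
      have j0 : (0 : ℝ) < j := by exact_mod_cast (by omega : 0 < j)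
      have z1 : ee j = ee (2 * i) * ((j : ℝ) / ((2 * i : ℕ) : ℝ)) ^ (-(1 / 8) : ℝ) := by
        unfold ee
        rw [← Real.mul_rpow (by positivity) (by positivity)]
        congr 1
        push_cast
        field_simp
      have z2 : (j : ℝ) / ((2 * i : ℕ) : ℝ) ≤ 2 := by
        rw [div_le_iff₀ (by push_cast; positivity)]
        have : j ≤ 2 * (2 * i) := by omega
        exact_mod_cast this
      have z3 : (1 / 2 : ℝ) ≤ ((j : ℝ) / ((2 * i : ℕ) : ℝ)) ^ (-(1 / 8) : ℝ) := by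
        calc (1 / 2 : ℝ) = (2 : ℝ) ^ (-1 : ℝ) := by rw [Real.rpow_neg_one]; norm_num
          _ ≤ (2 : ℝ) ^ (-(1 / 8) : ℝ) :=
            Real.rpow_le_rpow_of_exponent_le (by norm_num) (by norm_num)
          _ ≤ _ := Real.rpow_le_rpow_of_nonpos (by push_cast; positivity) z2 (by norm_num)
      rw [z1]
      nlinarith
    rw [div_le_div_iff₀ w3 w2]
    nlinarith
  · intro i' hi'
    exact hee_pos _ (by omega)

end StepL

end Pool.Agent.Helper6K9.EH
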