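import Pool.Agent.Helper6K9.EH.StepC2
import Pool.Agent.Helper6K9.EH.StepN

set_option autoImplicit false

/-!
# One cycle, with a bound for its duration
-/

namespace Pool.Agent.Helper6K9.EH

open Set Filter Topology Pool.Agent.Helper6K9.ES
open scoped ContDiff

/-- one cycle, its duration is at most `D i ^ 6` times the increase of the adiabatic invariant -/
def S_STEP2 : Prop := ∀ (e : Env) (j₀ : ℕ) (H : ℝ → ℝ), EnvOK e j₀ → Hom e H →
  ∃ (m : ℕ) (C₁ r₀ K₀ : ℝ), 1 ≤ m ∧ 1 ≤ C₁ ∧ 0 < r₀ ∧ r₀ ≤ 1 / 2 ∧ 1 ≤ K₀ ∧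
  ∀ C V₀ : ℝ, 1 ≤ C → 1 ≤ V₀ → ∃ (i₁ : ℕ) (D : ℝ), 2 ≤ i₁ ∧ 1 ≤ D ∧
    ∀ i : ℕ, i₁ ≤ i → ∃ κ : ℝ, 0 < κ ∧
    ∀ (b : ℝ) (G : ℤ → Fam) (P : ℝ → ℝ → ℝ → Prop) (a c : ℝ) (T : ℕ) (N : ℤ) (J : ℝ),
      Shf b G → (∀ N, AE e (G N) P C V₀ (2 * m) a c) →
      Good e (G N) P C C₁ r₀ K₀ i a c T J →
      ∃ (a' c' : ℝ) (T' i' : ℕ) (J' : ℝ), a ≤ a' ∧ c' ≤ c ∧ T < T' ∧
        (T' : ℝ) - T ≤ D * (i : ℝ) ^ 6 * (J' - J) ∧ i ≤ i' ∧ i' ≤ i + 1 ∧ J + κ ≤ J' ∧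
        Good e (G (N + 1)) P C C₁ r₀ K₀ i' a' c' T' J' ∧
        ∀ s ∈ Icc a' c', ∀ t ∈ Icc (T : ℝ) T', P ((i : ℝ) ^ 2 - 3) s t

open StepL in
theorem step2 (wait : S_WAIT) (la : S_LA) (lb : S_LB) (lc : S_LC) : S_STEP2 := by
  intro e j₀ H he hH
  obtain ⟨r₀, r₁, C₁, C₃, ε₀, hr1, hr10, hr0, hr0l, hC1, hC3, hε0, hW⟩ := wait e j₀ he
  have hl := he.hl
  have hr0' : 0 < r₀ := hr1.trans_le hr10
  obtain ⟨m, hm1, hmA, hmB, hmC, hmD⟩ : ∃ m : ℕ, 1 ≤ m ∧ H (-m + 1) < 1 / 8 ∧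
      H (-m + 1) < r₁ / (8 * e.l) ∧ 7 / 8 < H (m - 1) ∧ 1 - r₀ / (4 * e.l) < H (m - 1) := by
    have t1 : Tendsto (fun m : ℕ => H (-(m : ℝ) + 1)) atTop (𝓝 0) := by
      refine hH.bot.comp ?_
      refine tendsto_atBot_add_const_right _ _ ?_
      exact tendsto_neg_atTop_atBot.comp tendsto_natCast_atTop_atTop
    have t2 : Tendsto (fun m : ℕ => H ((m : ℝ) - 1)) atTop (𝓝 1) := by
      refine hH.top.comp ?_
      exact tendsto_atTop_add_const_right _ _ tendsto_natCast_atTop_atTop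
    have e1 := t1.eventually (gt_mem_nhds (by norm_num : (0 : ℝ) < 1 / 8))
    have e2 := t1.eventually (gt_mem_nhds (by positivity : (0 : ℝ) < r₁ / (8 * e.l)))
    have e3 := t2.eventually (lt_mem_nhds (by norm_num : (7 / 8 : ℝ) < 1))
    have e4 := t2.eventually (lt_mem_nhds (by
      have : 0 < r₀ / (4 * e.l) := by positivity
      linarith : 1 - r₀ / (4 * e.l) < 1))
    obtain ⟨m, h1, h2, h3, h4, h5⟩ := (e1.and (e2.and (e3.and (e4.and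
      (eventually_ge_atTop 1))))).exists
    exact ⟨m, h5, h1, h2, h3, h4⟩
  obtain ⟨C₈, c₈, hC8, hc8, hLB⟩ := lb e j₀ H he hH m hmA hmC
  refine ⟨m, C₁, r₀, 2 * C₈, hm1, hC1, hr0', hr0, by linarith, ?_⟩
  intro C V₀ hC hV₀
  obtain ⟨jA, C₇, c₇, hjA, hC7, hc7, hLA⟩ := la e j₀ H he hH m C₃ (8 * C) hC3 (by linarith) hmA hmC
  obtain ⟨jB, hjB, hLB'⟩ := hLB C₃ (8 * C) C₇ hC3 (by linarith) hC7
  obtain ⟨jC, c₉, hjC, hc9, hLC⟩ := lc e j₀ H he hH m C₃ (8 * C) C₇ hC3 (by linarith) hC7 hmA hmC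
  have hu : 0 < e.l * e.c := mul_pos hl he.prof.cpos
  have hnum := num he hH (V₀ := V₀) hC hC1 hC3 hC7 hC8 hc7 hc8 hc9 hr0' hr1 hmC hmD
  have hsm1 : ∀ᶠ i : ℕ in atTop, (2 * C) * yy i ^ 16 ≤ ε₀ := ev _ _ _ (by norm_num) hε0
  have hsm2 : ∀ᶠ i : ℕ in atTop, (2 * C + 6 * C₈ * (2 * C)) * yy i ^ 15 ≤ ε₀ :=
    ev _ _ _ (by norm_num) hε0
  obtain ⟨i₁, hi₁⟩ := eventually_atTop.1 (hnum.and (hsm1.and (hsm2.and
    (eventually_ge_atTop (max 4 (max jA (max jB jC)))))))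
  obtain ⟨D, hDdef⟩ : ∃ D : ℝ, D = (16 * C₃ + 2 * m) * (100000 / c₉) + 1 := ⟨_, rfl⟩
  have hDD : (16 * C₃ + 2 * m) * (100000 / c₉) ≤ D := by rw [hDdef]; linarith
  refine ⟨max i₁ 2, D, le_max_right _ _, by
    rw [hDdef]
    have : 0 ≤ (16 * C₃ + 2 * (m : ℝ)) * (100000 / c₉) := by positivity
    linarith, fun i hi => ?_⟩
  obtain ⟨hn, h1, h2, h3⟩ := hi₁ i ((le_max_left _ _).trans hi)
  have hi4 : 4 ≤ i := (le_max_left _ _).trans h3
  have hij : max jA (max jB jC) ≤ i := (le_max_right _ _).trans h3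
  have hiA : jA ≤ i := (le_max_left _ _).trans hij
  have hiB : jB ≤ i := (le_max_left _ _).trans ((le_max_right _ _).trans hij)
  have hiC : jC ≤ i := (le_max_right _ _).trans ((le_max_right _ _).trans hij)
  obtain ⟨-, y0, y1, p0, p1, hjj, hlg, htd⟩ := fac hu hC hi4
  have hi0 : (0 : ℝ) < i := by
    have : (4 : ℝ) ≤ i := by exact_mod_cast hi4
    linarith
  have hy8 : (i : ℝ) * yy i ^ 8 = 1 := yy8 (by omega)
  set ε := C / ((i : ℝ) ^ 2 - 3) with hε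
  obtain ⟨n, R, hR1, hR2, hnl, hW'⟩ := hW ε p0 (p1.trans h1)
  have hN := hn n hnl
  have hee := (hjj (2 * i) (Or.inl rfl)).1
  have hee0 : 0 < ee (2 * i) := lt_of_lt_of_le (by positivity) hee
  have hKε : 1 / 2 * ε + 2 * C₈ / ee (2 * i) * ε ≤ ε₀ := by
    have q1 : 2 * C₈ / ee (2 * i) ≤ 6 * C₈ / yy i := by
      rw [div_le_div_iff₀ hee0 y0]
      nlinarith
    have q2 : 2 * C₈ / ee (2 * i) * ε ≤ 6 * C₈ * (2 * C) * yy i ^ 15 := by
      calc _ ≤ 6 * C₈ / yy i * (2 * C * yy i ^ 16) := by gcongr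
        _ = 6 * C₈ * (2 * C) * yy i ^ 15 := by field_simp
    have q3 : ε ≤ 2 * C * yy i ^ 15 := by
      refine p1.trans ?_
      have := pow_le_pow_of_le_one y0.le y1 (by norm_num : 15 ≤ 16)
      gcongr
    have q4 : (2 * C + 6 * C₈ * (2 * C)) * yy i ^ 15 =
      2 * C * yy i ^ 15 + 6 * C₈ * (2 * C) * yy i ^ 15 := by ring
    linarith
  refine ⟨min (c₉ / 2 * (aa (2 * i) * dd (2 * i))) (c₉ / 2 * (aa (2 * i + 1) * dd (2 * i + 1))),
    ?_, ?_⟩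
  · refine lt_min ?_ ?_
    · have := (hjj (2 * i) (Or.inl rfl)).2.2.2.2.2.2.1
      have h0 : 0 < yy i ^ 41 / 50000 := by positivity
      have h00 : 0 < aa (2 * i) * dd (2 * i) := h0.trans_le this
      positivity
    · have := (hjj (2 * i + 1) (Or.inr rfl)).2.2.2.2.2.2.1
      have h0 : 0 < yy i ^ 41 / 50000 := by positivity
      have h00 : 0 < aa (2 * i + 1) * dd (2 * i + 1) := h0.trans_le this
      positivity
  · have hij' : ∀ j, j = 2 * i ∨ j = 2 * i + 1 → i ≤ j := fun j hj => by omega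
    intro b G P a c T N J hshf hAE hg
    obtain ⟨a', c', T', i', J', q1, q2, q3, q4, q5, q6, q7, q8, q9⟩ :=
      core2 he hH hN hC rfl hC1 hC3 hC7 hC8 hm1 hr1 hR1 hmB
        (fun F P C V₀ k₂ V a b T K q1 q2 q3 q4 q5 q6 q7 q8 q9 =>
          hW' F P C V₀ k₂ V a b T K q1 q2 q3 q4 q5 q6 q7 (q8.trans hKε) q9)
        (fun j hj F a b T hE =>
          hLA j F a b T ε (hiA.trans (hij' j hj)) p0 (hjj j hj).2.2.2.2.2.2.2 hE)
        (fun j hj F a b T K₁ hE hT k1 k2 k3 =>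
          hLB' j F a b T ε K₁ (hiB.trans (hij' j hj)) p0 (hjj j hj).2.2.2.2.2.2.2 hE hT k1 k2 k3)
        (fun j hj F a b T hE hT k3 =>
          hLC j F a b T ε (hiC.trans (hij' j hj)) p0 (hjj j hj).2.2.2.2.2.2.2 hE hT k3)
        hshf hAE hg
    · refine ⟨a', c', T', i', J', q1, q2, q3, ?_, q5, q6, q7, q8, q9⟩
      have w1 : c₉ / 2 * (yy i ^ 41 / 50000) ≤ J' - J := by
        have w2 : c₉ / 2 * (yy i ^ 41 / 50000) ≤ min (c₉ / 2 * (aa (2 * i) * dd (2 * i)))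
            (c₉ / 2 * (aa (2 * i + 1) * dd (2 * i + 1))) := by
          refine le_min ?_ ?_
          · exact mul_le_mul_of_nonneg_left (hjj (2 * i) (Or.inl rfl)).2.2.2.2.2.2.1 (by positivity)
          · exact mul_le_mul_of_nonneg_left (hjj (2 * i + 1) (Or.inr rfl)).2.2.2.2.2.2.1
              (by positivity)
        linarith
      have w3 : (n : ℝ) ≤ C₃ * (16 / yy i) := hnl.trans (mul_le_mul_of_nonneg_left hlg (by linarith))
      have w4 : (T' : ℝ) - T ≤ (16 * C₃ + 2 * m) / yy i := by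
        have w5 : (T' : ℝ) = T + n + 2 * m := by rw [q4]; push_cast; ring
        have w6 : (2 * m : ℝ) ≤ 2 * m / yy i := by
          rw [le_div_iff₀ y0]
          have : (0 : ℝ) ≤ 2 * m := by positivity
          nlinarith
        rw [w5, add_div]
        have w7 : C₃ * (16 / yy i) = 16 * C₃ / yy i := by ring
        linarith
      refine w4.trans ?_
      have w8 : (i : ℝ) ^ 6 * yy i ^ 48 = 1 := by
        have : (i : ℝ) ^ 6 * yy i ^ 48 = ((i : ℝ) * yy i ^ 8) ^ 6 := by ring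
        rw [this, hy8, one_pow]
      have w9 : (16 * C₃ + 2 * m) / yy i =
          (16 * C₃ + 2 * m) * (100000 / c₉) * (i : ℝ) ^ 6 * (c₉ / 2 * (yy i ^ 41 / 50000)) *
            yy i ^ 6 := by
        have hc9' : c₉ ≠ 0 := hc9.ne'
        have e1 : (16 * C₃ + 2 * m) * (100000 / c₉) * (i : ℝ) ^ 6 * (c₉ / 2 * (yy i ^ 41 / 50000)) *
            yy i ^ 6 = (16 * C₃ + 2 * m) * ((i : ℝ) ^ 6 * yy i ^ 47) := by
          field_simp
          ring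
        have e2 : (i : ℝ) ^ 6 * yy i ^ 47 = 1 / yy i := by
          rw [eq_div_iff y0.ne', ← w8]
          ring
        rw [e1, e2]
        ring
      rw [w9]
      have v1 : yy i ^ 6 ≤ 1 := pow_le_one₀ y0.le y1
      have v2 : 0 ≤ (16 * C₃ + 2 * (m : ℝ)) * (100000 / c₉) * (i : ℝ) ^ 6 *
          (c₉ / 2 * (yy i ^ 41 / 50000)) := by positivity
      have v3 : 0 ≤ J' - J := le_trans (by positivity) w1
      calc (16 * C₃ + 2 * (m : ℝ)) * (100000 / c₉) * (i : ℝ) ^ 6 *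
          (c₉ / 2 * (yy i ^ 41 / 50000)) * yy i ^ 6
          ≤ (16 * C₃ + 2 * (m : ℝ)) * (100000 / c₉) * (i : ℝ) ^ 6 *
          (c₉ / 2 * (yy i ^ 41 / 50000)) := mul_le_of_le_one_right v2 v1
        _ ≤ D * (i : ℝ) ^ 6 * (J' - J) := by
          refine mul_le_mul ?_ w1 (by positivity) ?_
          · exact mul_le_mul_of_nonneg_right hDD (by positivity)
          · refine mul_nonneg (le_trans ?_ hDD) (by positivity)
            positivity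

end Pool.Agent.Helper6K9.EH
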