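import Pool.Agent.Helper6K9.EH.Ct
import Pool.Agent.Helper6K9.EH.Step2
import Pool.Agent.Helper6K9.EH.Iter2

set_option autoImplicit false

/-!
# The theorem in adapted coordinates, with a rate: assembly
-/

namespace Pool.Agent.Helper6K9.EH

open Set Filter Topology Pool.Agent.Helper6K9.ES
open scoped ContDiff

/-- the theorem in adapted coordinates, with a rate -/
def S_CT2 : Prop := ∀ (A : Matrix (Fin (1 + 1)) (Fin (1 + 1)) ℝ) (h : E 1 → ℝ) (ε : ℝ), 0 < ε →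
  A.PosDef → Sm h → (∀ p q : E 1, p.2 = q.2 → av h p = av h q) →
  ∃ (g : E 1 → ℝ) (γ : ℝ → Q 1), ContDiff ℝ 2 g ∧ Per g ∧ Small g ε ∧
    Sol A (fun p => h p + g p) γ univ ∧
    ∃ c : ℝ, 0 < c ∧ ∀ᶠ t : ℝ in atTop, c * t ^ (1 / 4 : ℝ) ≤ deriv (fun s => γ s 0) t

open CtL

theorem ct2 (prof : S_PROF) (hom : S_HOM) (pot : S_POT) (env : S_ENV) (step : S_STEP2)
    (iter : S_ITER2) (flow : S_FLOW) (ave : S_AVE) (start : S_START) (ops : S_OPS) : S_CT2 := by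
  intro A h ε hε hA hh hav
  obtain ⟨ha, hd, hs⟩ := inv_entries hA
  set α : ℝ := 1 / A 0 0 with hα
  set γ : ℝ := A 0 0 / (A 0 0 * A 1 1 - A 0 1 ^ 2) with hγ
  set b : ℝ := -(A 0 1 / A 0 0) with hb
  have α0 : 0 < α := by positivity
  have γ0 : 0 < γ := by positivity
  obtain ⟨k, c, hk⟩ := prof
  have hc1 : c ≤ 1 := by
    have h1 := hk.le_one (1 / 2)
    rw [hk.plat (1 / 2) (by norm_num)] at h1
    exact (le_abs_self c).trans h1
  -- the constant `l`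
  obtain ⟨Cg, hCg, hgs⟩ := small_of_per (gs_smooth hk) (gs_per hk)
  obtain ⟨l, l0, l1, l2⟩ : ∃ l : ℝ, 0 < l ∧ l ≤ 1 / 2 ∧ l ^ 2 / γ * Cg ≤ ε / 2 := by
    have h1 : Tendsto (fun l : ℝ => l ^ 2 / γ * Cg) (𝓝[>] 0) (𝓝 ((0 : ℝ) ^ 2 / γ * Cg)) := by
      refine Tendsto.mono_left (Continuous.tendsto ?_ 0) nhdsWithin_le_nhds
      fun_prop
    have h2 : ∀ᶠ l : ℝ in 𝓝[>] 0, l ^ 2 / γ * Cg < ε / 2 := by
      refine h1.eventually (gt_mem_nhds ?_)
      simp
      exact hε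
    have h3 : ∀ᶠ l : ℝ in 𝓝[>] 0, l < 1 / 2 :=
      mem_nhdsWithin_of_mem_nhds (gt_mem_nhds (by norm_num))
    have h4 : ∀ᶠ l : ℝ in 𝓝[>] 0, 0 < l := self_mem_nhdsWithin
    obtain ⟨l, h5, h6, h7⟩ := (h2.and (h3.and h4)).exists
    exact ⟨l, h7, h6.le, h5.le⟩
  -- the potential
  have hu : 0 < l * c := mul_pos l0 hk.cpos
  have hu1 : l * c ≤ 1 := by nlinarith [hk.cpos]
  have hb2 : 0 < 1 / (4 * (1 + |b|) ^ 2) := by positivity
  obtain ⟨j₀, K, χ, ps, cb, hj0, hshp, hK, hKp, hKs, hvan, htube⟩ :=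
    pot b (l * c) (min (ε / 2) (1 / (4 * (1 + |b|) ^ 2))) hu hu1 (lt_min (half_pos hε) hb2)
  have hKs1 : Small K (ε / 2) := small_mono hKs (min_le_left _ _)
  have hKs2 : Small K (1 / (4 * (1 + |b|) ^ 2)) := small_mono hKs (min_le_right _ _)
  have hKs3 : Small K 1 := by
    refine small_mono hKs2 ?_
    rw [div_le_one (by positivity)]
    nlinarith [abs_nonneg b]
  have henv := env α γ b l c k χ ps cb K j₀ α0 γ0 l0 l1 hk hj0 hshp hK hKp hKs2 hvan htube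
  set e := mkEnv α γ b l c k χ ps cb K with he
  -- the averaged part
  obtain ⟨o1, o2, o3, o4, o5, o6, o7, o8, o9, o10, o11, o12⟩ := ops 1 h hh
  set F : E 1 → ℝ := fun p => h p - av h p with hF
  have hFs : Sm F := ⟨hh.1.sub o3.1, fun p m l => by simp only [hF, hh.2 p m l, o3.2 p m l]⟩
  have hF0 : ∀ p, av F p = 0 := by
    intro p
    have i1 : ∀ G : E 1 → ℝ, Continuous G → IntervalIntegrable
        (fun s : ℝ => G (p.1 + s • Pi.single (0 : Fin (1 + 1)) (1 : ℝ), p.2))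
        MeasureTheory.volume 0 1 := by
      intro G hG
      refine Continuous.intervalIntegrable ?_ _ _
      fun_prop
    have h1 : av F p = av h p - av (av h) p :=
      intervalIntegral.integral_sub (i1 h hh.1.continuous) (i1 (av h) o3.1.continuous)
    rw [h1, o11, sub_self]
  have hdF : ∀ i p, dX i F p = dX i h p := by
    intro i p
    have h1 : DifferentiableAt ℝ h p := hh.1.differentiable (by norm_num) p
    have h2 : DifferentiableAt ℝ (av h) p := o3.1.differentiable (by norm_num) p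
    have h3 : dX i (av h) p = 0 := dX_of_indep (o3.1.differentiable (by norm_num)) hav i p
    unfold dX at h3 ⊢
    rw [hF, fderiv_fun_sub h1 h2, sub_apply, h3, sub_zero]
  -- the function `g`
  set g : E 1 → ℝ := fun p => l ^ 2 / γ * gs k p + K p with hg
  have hgs2 : ContDiff ℝ 2 (gs k) := contDiff_infty.1 (gs_smooth hk) 2
  have hgc : ContDiff ℝ 2 g := (contDiff_const.mul hgs2).add hK
  have hgp : Per g := by
    intro p m n
    simp only [hg, gs_per hk p m n, hKp p m n]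
  have hgsm : Small g ε := by
    have h1 : Small (fun p => l ^ 2 / γ * gs k p) (l ^ 2 / γ * Cg) :=
      small_cmul hgs2 hgs (by positivity)
    have h2 := RedL.small_add (contDiff_const.mul hgs2) hK (small_mono h1 l2) hKs1
    rw [add_halves] at h2
    exact h2
  set f : E 1 → ℝ := fun p => h p + g p with hf
  have hh2 : ContDiff ℝ 2 h := contDiff_infty.1 hh.1 2
  have hfc : ContDiff ℝ 2 f := hh2.add hgc
  have hfp : Per f := by
    intro p m n
    simp only [hf, hh.2 p m n, hgp p m n]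
  have hdf : ∀ p, dX 0 f p = dX 0 F p + dX 0 K p ∧
      dX 1 f p = dX 1 F p + l ^ 2 / γ * k (p.1 1) * deriv k (p.1 1) + dX 1 K p := by
    intro p
    have h1 : DifferentiableAt ℝ h p := hh.1.differentiable (by norm_num) p
    have h2 : DifferentiableAt ℝ (gs k) p := hgs2.differentiable (by norm_num) p
    have h3 : DifferentiableAt ℝ K p := hK.differentiable (by norm_num) p
    have h4 : ∀ i, dX i f p = dX i h p + (l ^ 2 / γ * dX i (gs k) p + dX i K p) := by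
      intro i
      have k1 : HasFDerivAt f (fderiv ℝ h p + ((l ^ 2 / γ) • fderiv ℝ (gs k) p + fderiv ℝ K p)) p :=
        h1.hasFDerivAt.add ((h2.hasFDerivAt.const_mul _).add h3.hasFDerivAt)
      unfold dX
      rw [k1.fderiv]
      simp
    obtain ⟨g0, g1⟩ := gs_der hk p
    rw [h4, h4, hdF, hdF, g0, g1]
    constructor <;> ring
  -- dynamics
  obtain ⟨H, hH⟩ := hom e j₀ henv
  obtain ⟨m, C₁, r₀, K₀, hm, hC₁, hr₀, hr₁, hK₀, hstep⟩ := step e j₀ H henv hH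
  obtain ⟨Jf, wf, ⟨C', V', hC', hV', hnear⟩, have1⟩ := ave α γ b l c k F α0 γ0 l0 l1 hk hFs hF0
  obtain ⟨C, V₀, hC, hV₀, have2⟩ := have1 (2 * m) (by positivity)
  obtain ⟨i₁, D, hi₁, hD, hstep2⟩ := hstep C V₀ hC hV₀
  obtain ⟨i₂, hstart⟩ := start e j₀ b C' V' C C₁ r₀ K₀ Jf wf henv hC' hV' hnear hC hC₁ hr₀ hK₀
  set i := max i₁ i₂ with hi
  obtain ⟨p₀, p₁, v, q, hsol, hcont⟩ := flow α γ b f hfc hfp (fun s => b * s) (fun s => s)
    (fun _ => (i : ℝ) ^ 2 + 1) (fun s => l * s) (by fun_prop) (by fun_prop) (by fun_prop)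
    (by fun_prop)
  obtain ⟨a, c', J, ha', hc'', hgood⟩ := hstart i p₀ p₁ v q (le_max_right _ _) fun s =>
    ⟨(hsol s).2.1, (hsol s).2.2.1, (hsol s).2.2.2.1, (hsol s).2.2.2.2⟩
  set G : ℤ → Fam := mkFam b Jf wf p₀ p₁ v q with hG
  have hshf : Shf b G := by
    intro N s t
    refine ⟨?_, ?_, rfl, rfl⟩
    · change p₀ s t - b * (p₁ s t - ((N + 1 : ℤ) : ℝ)) = p₀ s t - b * (p₁ s t - N) + b
      push_cast
      ring
    · change p₁ s t - ((N + 1 : ℤ) : ℝ) = p₁ s t - N - 1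
      push_cast
      ring
  have hAE : ∀ (a₁ a₂ : ℝ) (N : ℤ), AE e (G N) (Pv v q) C V₀ (2 * m) a₁ a₂ := fun a₁ a₂ N =>
    have2 K f χ ps cb hK hKp hKs3 hdf p₀ p₁ v q (fun s => (hsol s).1) hcont N a₁ a₂
  obtain ⟨s, hs1, T₁, hT₁⟩ := iter
    (fun i N a c T J => Good e (G N) (Pv v q) C C₁ r₀ K₀ i a c T J) (Pv v q) i₁ D hD
    (fun i hi => by
      obtain ⟨κ, hκ, h1⟩ := hstep2 i hi
      refine ⟨κ, hκ, fun N a c T J hg => ⟨hg.box.le, hg.lo, hg.hi, ?_⟩⟩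
      exact h1 b G (Pv v q) a c T N J hshf (fun N => hAE a c N) hg)
    i 0 a c' 0 J (le_max_left _ _) hgood
  refine ⟨g, fun t => ![p₀ s t, p₁ s t], hgc, hgp, hgsm, sol_of_tr hA f _ _ _ _ (hsol s).1, ?_⟩
  have hd0 : (deriv fun t => (![p₀ s t, p₁ s t] : Q 1) 0) = fun t => v s t + b * q s t :=
    funext fun t => ((hsol s).1 t).1.deriv
  rw [hd0]
  refine ⟨1 / (16 * D), by positivity, ?_⟩
  have hlim : ∀ᶠ t : ℝ in atTop, 32 * D * |b| ≤ t ^ (1 / 4 : ℝ) :=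
    (tendsto_rpow_atTop (by norm_num : (0 : ℝ) < 1 / 4)).eventually (eventually_ge_atTop _)
  filter_upwards [eventually_ge_atTop T₁, eventually_gt_atTop (0 : ℝ), hlim] with t ht ht0 ht2
  obtain ⟨V'', h0, h1, h2, h3⟩ := hT₁ t ht
  have h4 : |b * q s t| ≤ |b| * 2 := by
    rw [abs_mul]
    exact mul_le_mul_of_nonneg_left h3 (abs_nonneg _)
  have h5 := (abs_le.1 h4).1
  have h6 : t ^ (1 / 4 : ℝ) ≤ 8 * D * V'' := by
    have h7 : 0 ≤ 8 * D * V'' := by positivity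
    have h8 : t ^ (1 / 4 : ℝ) ≤ ((8 * D * V'') ^ 4) ^ (1 / 4 : ℝ) :=
      Real.rpow_le_rpow ht0.le h1 (by norm_num)
    have h9 : ((8 * D * V'') ^ 4) ^ (1 / 4 : ℝ) = 8 * D * V'' := by
      rw [← Real.rpow_natCast, ← Real.rpow_mul h7]
      norm_num
    rwa [h9] at h8
  have h10 : 1 / (16 * D) * t ^ (1 / 4 : ℝ) + 2 * |b| ≤ 1 / (8 * D) * t ^ (1 / 4 : ℝ) := by
    have h11 : 2 * |b| = 1 / (16 * D) * (32 * D * |b|) := by
      field_simp
      ring
    have h12 : 1 / (16 * D) * (32 * D * |b|) ≤ 1 / (16 * D) * t ^ (1 / 4 : ℝ) :=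
      mul_le_mul_of_nonneg_left ht2 (by positivity)
    have h13 : 1 / (8 * D) * t ^ (1 / 4 : ℝ) =
        1 / (16 * D) * t ^ (1 / 4 : ℝ) + 1 / (16 * D) * t ^ (1 / 4 : ℝ) := by
      field_simp
      ring
    linarith
  have h14 : 1 / (8 * D) * t ^ (1 / 4 : ℝ) ≤ V'' := by
    have h15 := mul_le_mul_of_nonneg_left h6 (by positivity : (0 : ℝ) ≤ 1 / (8 * D))
    have h16 : 1 / (8 * D) * (8 * D * V'') = V'' := by field_simp
    linarith
  linarith

end Pool.Agent.Helper6K9.EH
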