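import Pool.Agent.Helper6K9.ES.Stm

set_option autoImplicit false

/-!
# Orbits which escape to infinity on flat tori of dimension two: definitions

Unsheared coordinates: points `p = (![x₀, x₁], t)` of `E 1`. Sheared coordinates: `x = x₀ - b x₁`
(fast), `y = x₁` (slow). The equations are `x'' = α ∂f/∂x`, `y'' = γ ∂f/∂y` with
`∂/∂x = dX 0`, `∂/∂y = dX 1 + b dX 0`.
-/

namespace Pool.Agent.Helper6K9.EH

open Set Filter Topology Pool.Agent.Helper6K9.ES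
open scoped ContDiff

/-- The profile of the slow potential `l² k² / 2`: `k y = y` near `0`, constant on `[1/4, 3/4]`. -/
structure Prof (k : ℝ → ℝ) (c : ℝ) : Prop where
  smooth : ContDiff ℝ ∞ k
  anti : ∀ y, k (y + 1) = - k y
  lin : ∀ y, |y| ≤ 1 / 8 → k y = y
  plat : ∀ y ∈ Icc (1 / 4 : ℝ) (3 / 4), k y = c
  pos : ∀ y ∈ Ioo (0 : ℝ) 1, 0 < k y
  le_one : ∀ y, |k y| ≤ 1
  cpos : 0 < c

/-- the passing times of the tubes -/
noncomputable def tau (j : ℕ) : ℝ := (j : ℝ) ^ (-(1 / 2) : ℝ)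

/-- the widths of the tubes -/
noncomputable def ss (u : ℝ) (j : ℕ) : ℝ := u / 64 * (j : ℝ) ^ (-(3 / 2) : ℝ)

/-- the sizes of the tube potentials -/
noncomputable def ee (j : ℕ) : ℝ := (j : ℝ) ^ (-(1 / 8) : ℝ)

/-- the sizes of the kicks -/
noncomputable def aa (j : ℕ) : ℝ := ee j * (j : ℝ) ^ (-4 : ℝ)

/-- the durations of the kicks -/
noncomputable def dd (j : ℕ) : ℝ := 1 / (64 * (j : ℝ))

/-- the velocities of the kicks: `i ^ 2` for `j = 2 i` and `j = 2 i + 1` -/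
noncomputable def LL (j : ℕ) : ℝ := ((j / 2 : ℕ) : ℝ) ^ 2

/-- the phase shift of the kicks: `0` for `j = 2 i`, `1/2` for `j = 2 i + 1` -/
noncomputable def hf (j : ℕ) : ℝ := ((j % 2 : ℕ) : ℝ) / 2

/-- the offset from the centre of the tube `j` -/
noncomputable def eta (u : ℝ) (j : ℕ) (y t : ℝ) : ℝ := y - 1 / 2 - u * (t - tau j)

/-- The environment: constants, profile, the functions of the tube potentials, and the partial
derivatives `Kx`, `Ky` (in sheared coordinates, as functions of `x`, `y`, `t`) of the sum of all tube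
potentials. -/
structure Env where
  α : ℝ
  γ : ℝ
  l : ℝ
  c : ℝ
  k : ℝ → ℝ
  χ : ℝ → ℝ
  ps : ℝ → ℝ
  cb : ℝ → ℝ
  Kx : ℝ → ℝ → ℝ → ℝ
  Ky : ℝ → ℝ → ℝ → ℝ

/-- the shapes of the bumps -/
structure Shp (u : ℝ) (χ ps cb : ℝ → ℝ) : Prop where
  chs : ContDiff ℝ ∞ χ
  chn : ∀ y, 0 ≤ χ y
  chp : ∃ y₁ y₂ : ℝ, 1 / 4 ≤ y₁ ∧ y₁ < y₂ ∧ y₂ ≤ 1 / 2 ∧ ∀ y ∈ Icc y₁ y₂, 1 ≤ χ y
  chz : ∀ y, χ y ≠ 0 → 1 / 2 - u / 4 < y ∧ y < 1 / 2
  psc : Continuous ps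
  psp : ∀ (z : ℝ) (n : ℤ), ps (z + n) = ps z
  ps1 : ∀ z ∈ Icc (0 : ℝ) (5 / 8), ps z = 1
  cbc : Continuous cb
  cbn : ∀ z, 0 ≤ cb z ∧ cb z ≤ 1
  cb1 : ∀ z, |z| ≤ 1 / 2 → cb z = 1
  cb0 : ∀ z, 1 ≤ |z| → cb z = 0

/-- the conditions on the environment -/
structure EnvOK (e : Env) (j₀ : ℕ) : Prop where
  hα : 0 < e.α
  hγ : 0 < e.γ
  hl : 0 < e.l
  hl1 : e.l ≤ 1 / 2
  prof : Prof e.k e.c
  shp : Shp (e.l * e.c) e.χ e.ps e.cb
  j0 : 1 ≤ j₀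
  cont : Continuous fun p : ℝ × ℝ × ℝ => (e.Kx p.1 p.2.1 p.2.2, e.Ky p.1 p.2.1 p.2.2)
  bd : ∀ x y t, |e.Kx x y t| ≤ 1 ∧ |e.Ky x y t| ≤ 1
  lip : ∀ x y x' y' t, |e.Kx x y t - e.Kx x' y' t| ≤ |x - x'| + |y - y'| ∧
    |e.Ky x y t - e.Ky x' y' t| ≤ |x - x'| + |y - y'|
  per : ∀ x y t (n : ℤ), e.Kx x y (t + n) = e.Kx x y t ∧ e.Ky x y (t + n) = e.Ky x y t
  van : ∀ x y t, (|y| ≤ 1 / 4 ∨ |y - 1| ≤ 1 / 4) → e.Kx x y t = 0 ∧ e.Ky x y t = 0
  tube : ∀ j, j₀ ≤ j → ∀ x y t, |y - 1 / 2| ≤ 1 / 4 → |eta (e.l * e.c) j y t| ≤ ss (e.l * e.c) j →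
    e.Ky x y t = ee j * (eta (e.l * e.c) j y t * e.χ y +
      eta (e.l * e.c) j y t ^ 2 / 2 * deriv e.χ y) ∧
    e.Kx x y t = aa j * e.cb ((t - tau j) / dd j) * e.ps (x - LL j * t - hf j)

/-- A one parameter family of curves (parameter `s`, time `t`) in the variables `X` (fast angle), `J`
(adiabatic invariant), `Y` (slow position), `w` (corrected slow velocity). -/
structure Fam where
  X : ℝ → ℝ → ℝ
  J : ℝ → ℝ → ℝ
  Y : ℝ → ℝ → ℝ
  w : ℝ → ℝ → ℝ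

noncomputable def eX (F : Fam) (s t : ℝ) : ℝ := deriv (F.X s) t - F.J s t
noncomputable def eY (F : Fam) (s t : ℝ) : ℝ := deriv (F.Y s) t - F.w s t
noncomputable def ew (e : Env) (F : Fam) (s t : ℝ) : ℝ :=
  deriv (F.w s) t - (e.l ^ 2 * e.k (F.Y s t) * deriv e.k (F.Y s t) +
    e.γ * e.Ky (F.X s t) (F.Y s t) t)
noncomputable def eJ (e : Env) (F : Fam) (s t : ℝ) : ℝ :=
  deriv (F.J s) t - e.α * e.Kx (F.X s t) (F.Y s t) t

/-- the distance of two curves of the family at the time `t` -/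
noncomputable def dst (F : Fam) (s s' t : ℝ) : ℝ :=
  |F.X s t - F.X s' t| + |F.J s t - F.J s' t| + |F.Y s t - F.Y s' t| + |F.w s t - F.w s' t|

/-- The curves with parameters in `[a, b]` satisfy, for `t ∈ [t₀, t₁]`, the equations
`X' = J`, `J' = α Kx`, `Y' = w`, `w' = l² k k' + γ Ky` up to errors of size and Lipschitz constant
`ε`; the error of `J'` is much smaller. -/
structure Ctl (e : Env) (F : Fam) (ε a b t₀ t₁ : ℝ) : Prop where
  dif : ∀ s ∈ Icc a b, ∀ t ∈ Icc t₀ t₁, DifferentiableAt ℝ (F.X s) t ∧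
    DifferentiableAt ℝ (F.J s) t ∧ DifferentiableAt ℝ (F.Y s) t ∧ DifferentiableAt ℝ (F.w s) t
  bd : ∀ s ∈ Icc a b, ∀ t ∈ Icc t₀ t₁, |eX F s t| ≤ ε ∧ |eY F s t| ≤ ε ∧ |ew e F s t| ≤ ε ∧
    |eJ e F s t| ≤ ε ^ 3 + ε ^ 2 * (|e.Kx (F.X s t) (F.Y s t) t| + |e.Ky (F.X s t) (F.Y s t) t|)
  lip : ∀ s ∈ Icc a b, ∀ s' ∈ Icc a b, ∀ t ∈ Icc t₀ t₁,
    |eX F s t - eX F s' t| ≤ ε * dst F s s' t ∧ |eY F s t - eY F s' t| ≤ ε * dst F s s' t ∧
    |ew e F s t - ew e F s' t| ≤ ε * dst F s s' t ∧ |eJ e F s t - eJ e F s' t| ≤ ε * dst F s s' t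
  cts : ∀ t ∈ Icc t₀ t₁, ContinuousOn (fun s => F.X s t) (Icc a b) ∧
    ContinuousOn (fun s => F.J s t) (Icc a b) ∧ ContinuousOn (fun s => F.Y s t) (Icc a b) ∧
    ContinuousOn (fun s => F.w s t) (Icc a b)

/-- the unstable coordinate -/
noncomputable def xi (e : Env) (F : Fam) (s t : ℝ) : ℝ := F.w s t + e.l * F.Y s t
/-- the stable coordinate -/
noncomputable def ze (e : Env) (F : Fam) (s t : ℝ) : ℝ := F.w s t - e.l * F.Y s t

/-- At the time `T` the curves with parameters in `[a, b]` form a path across the box near the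
hyperbolic equilibrium, which is a Lipschitz graph (constant `K`) over the unstable coordinate. -/
structure Box (e : Env) (F : Fam) (a b T R Z K : ℝ) : Prop where
  le : a ≤ b
  left : xi e F a T = -R
  right : xi e F b T = R
  bx : ∀ s ∈ Icc a b, |xi e F s T| ≤ R
  bz : ∀ s ∈ Icc a b, |ze e F s T| ≤ Z
  cone : ∀ s ∈ Icc a b, ∀ s' ∈ Icc a b, |ze e F s T - ze e F s' T| +
    e.l / 4 * |F.X s T - F.X s' T| + |F.J s T - F.J s' T| ≤ K * |xi e F s T - xi e F s' T|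

/-- The equations are available as long as the predicate `P V s t` (velocity at least `V`) holds at the
beginning of a time interval of length `k₂`; `P` persists. -/
def AE (e : Env) (F : Fam) (P : ℝ → ℝ → ℝ → Prop) (C V₀ k₂ a b : ℝ) : Prop :=
  ∀ V T a' b' : ℝ, V₀ ≤ V → 0 ≤ T → a ≤ a' → a' ≤ b' → b' ≤ b → (∀ s ∈ Icc a' b', P V s T) →
    Ctl e F (C / V) a' b' T (T + k₂) ∧
    ∀ s ∈ Icc a' b', ∀ t ∈ Icc T (T + k₂), ∀ V', V₀ ≤ V' → V' + 1 ≤ F.J s t → |F.w s t| ≤ 1 →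
      P V' s t

/-- the homoclinic solution -/
structure Hom (e : Env) (H : ℝ → ℝ) : Prop where
  der : ∀ t, HasDerivAt H (e.l * e.k (H t)) t
  pla : ∀ t, |t| * (e.l * e.c) ≤ 1 / 4 → H t = 1 / 2 + e.l * e.c * t
  mon : StrictMono H
  mem : ∀ t, 0 < H t ∧ H t < 1
  bot : Tendsto H atBot (𝓝 0)
  top : Tendsto H atTop (𝓝 1)

/-- Entrance into the loop at the integer time `T`: the path ranges over the positions from which the
tube `j` is passed after a time about `m`. -/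
structure Ent (e : Env) (H : ℝ → ℝ) (m j : ℕ) (F : Fam) (a b : ℝ) (T : ℕ) (ε C : ℝ) : Prop where
  le : a ≤ b
  ctl : Ctl e F ε a b T (T + 2 * m)
  ya : F.Y a T = H (-m - tau j - ss (e.l * e.c) j / (2 * (e.l * e.c)))
  yb : F.Y b T = H (-m - tau j + ss (e.l * e.c) j / (2 * (e.l * e.c)))
  yy : ∀ s ∈ Icc a b, F.Y a T ≤ F.Y s T ∧ F.Y s T ≤ F.Y b T
  zz : ∀ s ∈ Icc a b, |F.w s T - e.l * F.Y s T| ≤ C * ε

/-- the curves stay close to the homoclinic solution and pass through the tube `j` -/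
structure Thr (e : Env) (H : ℝ → ℝ) (m j : ℕ) (F : Fam) (a b : ℝ) (T : ℕ) (C : ℝ) : Prop where
  near : ∀ s ∈ Icc a b, ∀ t ∈ Icc (T : ℝ) (T + 2 * m),
    |F.Y s t - H (t - T - m - tau j)| ≤ C * ss (e.l * e.c) j ∧
    |F.w s t - e.l * e.k (F.Y s t)| ≤ C * (ee j * ss (e.l * e.c) j)
  tube : ∀ s ∈ Icc a b, ∀ t ∈ Icc (T : ℝ) (T + 2 * m), |F.Y s t - 1 / 2| ≤ 1 / 4 →
    |eta (e.l * e.c) j (F.Y s t) (t - T - m)| ≤ ss (e.l * e.c) j

/-- points of `E 1` in unsheared coordinates -/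
def pt (x₀ x₁ t : ℝ) : E 1 := (![x₀, x₁], t)

/-- `p₀, p₁` (positions), `v` (velocity in the direction of the sheared `x`), `q` (slow velocity)
solve the equations of the potential `f`. -/
def Tr (α γ b : ℝ) (f : E 1 → ℝ) (p₀ p₁ v q : ℝ → ℝ) : Prop :=
  ∀ t, HasDerivAt p₀ (v t + b * q t) t ∧ HasDerivAt p₁ (q t) t ∧
    HasDerivAt v (α * dX 0 f (pt (p₀ t) (p₁ t) t)) t ∧
    HasDerivAt q (γ * (dX 1 f (pt (p₀ t) (p₁ t) t) + b * dX 0 f (pt (p₀ t) (p₁ t) t))) t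

/-- the environment of the tube potential `K : E 1 → ℝ` -/
noncomputable def mkEnv (α γ b l c : ℝ) (k χ ps cb : ℝ → ℝ) (K : E 1 → ℝ) : Env where
  α := α
  γ := γ
  l := l
  c := c
  k := k
  χ := χ
  ps := ps
  cb := cb
  Kx := fun x y t => dX 0 K (pt (x + b * y) y t)
  Ky := fun x y t => dX 1 K (pt (x + b * y) y t) + b * dX 0 K (pt (x + b * y) y t)

/-- The family of curves of a family of solutions, after a shift of the slow position by `N`; `Jf` and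
`wf` are the adiabatic invariant and the corrected slow velocity as functions of `v, q` and the
position. -/
def mkFam (b : ℝ) (Jf wf : ℝ → ℝ → E 1 → ℝ) (p₀ p₁ v q : ℝ → ℝ → ℝ) (N : ℤ) : Fam where
  X := fun s t => p₀ s t - b * (p₁ s t - N)
  J := fun s t => Jf (v s t) (q s t) (pt (p₀ s t) (p₁ s t) t)
  Y := fun s t => p₁ s t - N
  w := fun s t => wf (v s t) (q s t) (pt (p₀ s t) (p₁ s t) t)

/-- the velocity is at least `V` -/
def Pv (v q : ℝ → ℝ → ℝ) (V s t : ℝ) : Prop := V ≤ v s t ∧ |q s t| ≤ 2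

/-- a good path at the integer time `T`, in the block `i`; `J₀` is the minimum of the adiabatic
invariant along the path -/
structure Good (e : Env) (F : Fam) (P : ℝ → ℝ → ℝ → Prop) (C C₁ r₀ K₀ : ℝ) (i : ℕ) (a b : ℝ) (T : ℕ)
    (J₀ : ℝ) : Prop where
  box : Box e F a b T (C₁ * (C / ((i : ℝ) ^ 2 - 3))) r₀ (K₀ / ee (2 * i))
  ja : ∃ s ∈ Icc a b, F.J s T = J₀
  jm : ∀ s ∈ Icc a b, J₀ ≤ F.J s T
  lo : (i : ℝ) ^ 2 ≤ J₀
  hi : J₀ < ((i : ℝ) + 1) ^ 2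
  vel : ∀ s ∈ Icc a b, P ((i : ℝ) ^ 2 - 3) s T

/-- `G (N + 1)` is `G N` after a shift of the slow position by one period -/
def Shf (b : ℝ) (G : ℤ → Fam) : Prop := ∀ (N : ℤ) (s t : ℝ),
  (G (N + 1)).X s t = (G N).X s t + b ∧ (G (N + 1)).Y s t = (G N).Y s t - 1 ∧
  (G (N + 1)).J s t = (G N).J s t ∧ (G (N + 1)).w s t = (G N).w s t

/-- `Jf` and `wf` are close to `v` and `q` for large `v`, with small Lipschitz constants -/
def NearId (Jf wf : ℝ → ℝ → E 1 → ℝ) (C V₀ : ℝ) : Prop :=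
  (∀ v q p, V₀ ≤ v → |q| ≤ 2 → |Jf v q p - v| ≤ C / v ∧ |wf v q p - q| ≤ C / v) ∧
  (∀ (V v v' q q' : ℝ) (p p' : E 1), V₀ ≤ V → V ≤ v → V ≤ v' → |q| ≤ 2 → |q'| ≤ 2 → p.2 = p'.2 →
    |(Jf v q p - v) - (Jf v' q' p' - v')| ≤
      C / V * (|v - v'| + |q - q'| + |p.1 0 - p'.1 0| + |p.1 1 - p'.1 1|) ∧
    |(wf v q p - q) - (wf v' q' p' - q')| ≤
      C / V * (|v - v'| + |q - q'| + |p.1 0 - p'.1 0| + |p.1 1 - p'.1 1|)) ∧
  ContinuousOn (fun z : ℝ × ℝ × E 1 => (Jf z.1 z.2.1 z.2.2, wf z.1 z.2.1 z.2.2)) {z | 0 < z.1}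

end Pool.Agent.Helper6K9.EH
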