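import Pool.Agent.Helper6K9.EH.Stm

set_option autoImplicit false

/-! # Leaf ENV: the environment of the tube potentials -/

namespace Pool.Agent.Helper6K9.EH

open Set Filter Topology Pool.Agent.Helper6K9.ES
open scoped ContDiff

namespace EnvL

theorem single_norm (i : Fin (1 + 1)) : ‖((Pi.single i 1, 0) : E 1)‖ = 1 := by
  rw [Prod.norm_def, Pi.norm_single, norm_zero, norm_one]
  exact max_eq_left zero_le_one

theorem dX_le {K : E 1 → ℝ} (i : Fin (1 + 1)) (p : E 1) : |dX i K p| ≤ ‖fderiv ℝ K p‖ := by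
  unfold dX
  have := (fderiv ℝ K p).le_opNorm ((Pi.single i 1, 0) : E 1)
  rwa [single_norm, mul_one, Real.norm_eq_abs] at this

theorem dX_sub {K : E 1 → ℝ} (i : Fin (1 + 1)) (p q : E 1) :
    |dX i K p - dX i K q| ≤ ‖fderiv ℝ K p - fderiv ℝ K q‖ := by
  unfold dX
  have := (fderiv ℝ K p - fderiv ℝ K q).le_opNorm ((Pi.single i 1, 0) : E 1)
  rwa [single_norm, mul_one, Real.norm_eq_abs] at this

theorem fd_lip {K : E 1 → ℝ} {δ : ℝ} (hK : ContDiff ℝ 2 K) (hs : Small K δ) (p q : E 1) :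
    ‖fderiv ℝ K p - fderiv ℝ K q‖ ≤ δ * ‖p - q‖ := by
  have h1 : Differentiable ℝ (fderiv ℝ K) :=
    (hK.fderiv_right (m := 1) (by norm_num)).differentiable (by norm_num)
  exact Convex.norm_image_sub_le_of_norm_fderiv_le (fun x _ => h1 x)
    (fun x _ => (hs x).2.2) convex_univ (mem_univ q) (mem_univ p)

theorem pt_norm (b x y x' y' t : ℝ) :
    ‖pt (x + b * y) y t - pt (x' + b * y') y' t‖ ≤ (1 + |b|) * (|x - x'| + |y - y'|) := by
  have hb := abs_nonneg b
  have hx := abs_nonneg (x - x')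
  have hy := abs_nonneg (y - y')
  rw [Prod.norm_def]
  refine max_le ?_ ?_
  · rw [pi_norm_le_iff_of_nonneg (by positivity)]
    intro i
    fin_cases i
    · show ‖(x + b * y) - (x' + b * y')‖ ≤ _
      rw [show (x + b * y) - (x' + b * y') = (x - x') + b * (y - y') by ring, Real.norm_eq_abs]
      refine (abs_add_le _ _).trans ?_
      rw [abs_mul]
      nlinarith
    · show ‖y - y'‖ ≤ _
      rw [Real.norm_eq_abs]
      nlinarith
  · show ‖t - t‖ ≤ _
    rw [sub_self, norm_zero]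
    positivity

theorem fd_per {K : E 1 → ℝ} (h : Per K) (p : E 1) (n : ℤ) :
    fderiv ℝ K (p.1, p.2 + n) = fderiv ℝ K p := by
  have h2 : (fun q : E 1 => K (q + (0, (n : ℝ)))) = K := by
    funext q
    have := h q (fun _ => 0) n
    simpa [Prod.add_def, Pi.zero_def] using this
  have h3 := fderiv_comp_add_right (𝕜 := ℝ) (f := K) (x := p) ((0, (n : ℝ)) : E 1)
  rw [h2] at h3
  have h4 : p + ((0, (n : ℝ)) : E 1) = (p.1, p.2 + n) := by
    ext i <;> simp
  rw [h3, h4]

theorem pt_cont (b : ℝ) : Continuous fun p : ℝ × ℝ × ℝ => pt (p.1 + b * p.2.1) p.2.1 p.2.2 := by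
  unfold pt
  refine Continuous.prodMk (continuous_pi fun i => ?_) (by fun_prop)
  fin_cases i
  · show Continuous fun p : ℝ × ℝ × ℝ => p.1 + b * p.2.1
    fun_prop
  · show Continuous fun p : ℝ × ℝ × ℝ => p.2.1
    fun_prop

end EnvL

open EnvL

/-- [ENV] -/
theorem env : S_ENV := by
  intro α γ b l c k χ ps cb K j₀ hα hγ hl hl1 hk hj₀ hshp hK hper hsm hvan htube
  set δ : ℝ := 1 / (4 * (1 + |b|) ^ 2) with hδ
  have hb := abs_nonneg b
  have hδ1 : δ * (1 + |b|) ^ 2 = 1 / 4 := by rw [hδ]; field_simp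
  have hδ0 : 0 < δ := by positivity
  have hδ2 : δ * (1 + |b|) ≤ 1 / 4 := by nlinarith [mul_nonneg hδ0.le hb]
  have hδ3 : δ ≤ 1 / 4 := by nlinarith [mul_nonneg hδ0.le hb]
  have h0 : ∀ i p, |dX i K p| ≤ δ := fun i p => (dX_le i p).trans (hsm p).2.1
  have h1 : ∀ i x y x' y' t, |dX i K (pt (x + b * y) y t) - dX i K (pt (x' + b * y') y' t)| ≤
      δ * ((1 + |b|) * (|x - x'| + |y - y'|)) := fun i x y x' y' t =>
    (dX_sub i _ _).trans ((fd_lip hK hsm _ _).trans
      (mul_le_mul_of_nonneg_left (pt_norm b x y x' y' t) hδ0.le))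
  have hfd : Continuous (fderiv ℝ K) := hK.continuous_fderiv (by norm_num)
  have hdc : ∀ i, Continuous (dX i K) := fun i => hfd.clm_apply continuous_const
  refine ⟨hα, hγ, hl, hl1, hk, hshp, hj₀, ?_, ?_, ?_, ?_, ?_, ?_⟩
  · show Continuous fun p : ℝ × ℝ × ℝ => (dX 0 K (pt (p.1 + b * p.2.1) p.2.1 p.2.2),
      dX 1 K (pt (p.1 + b * p.2.1) p.2.1 p.2.2) + b * dX 0 K (pt (p.1 + b * p.2.1) p.2.1 p.2.2))
    exact ((hdc 0).comp (pt_cont b)).prodMk (((hdc 1).comp (pt_cont b)).add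
      (continuous_const.mul ((hdc 0).comp (pt_cont b))))
  · intro x y t
    show |dX 0 K (pt (x + b * y) y t)| ≤ 1 ∧
      |dX 1 K (pt (x + b * y) y t) + b * dX 0 K (pt (x + b * y) y t)| ≤ 1
    refine ⟨(h0 _ _).trans (by linarith), ?_⟩
    refine (abs_add_le _ _).trans ?_
    rw [abs_mul]
    have a1 := h0 1 (pt (x + b * y) y t)
    have a2 := mul_le_mul_of_nonneg_left (h0 0 (pt (x + b * y) y t)) hb
    nlinarith
  · intro x y x' y' t
    have hx := abs_nonneg (x - x')
    have hy := abs_nonneg (y - y')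
    have a0 := h1 0 x y x' y' t
    have a1 := h1 1 x y x' y' t
    show |dX 0 K (pt (x + b * y) y t) - dX 0 K (pt (x' + b * y') y' t)| ≤ _ ∧
      |dX 1 K (pt (x + b * y) y t) + b * dX 0 K (pt (x + b * y) y t) -
        (dX 1 K (pt (x' + b * y') y' t) + b * dX 0 K (pt (x' + b * y') y' t))| ≤ _
    have e1 : δ * ((1 + |b|) * (|x - x'| + |y - y'|)) = δ * (1 + |b|) * (|x - x'| + |y - y'|) := by
      ring
    have e2 : δ * ((1 + |b|) * (|x - x'| + |y - y'|)) * (1 + |b|) =
        δ * (1 + |b|) ^ 2 * (|x - x'| + |y - y'|) := by ring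
    refine ⟨a0.trans ?_, ?_⟩
    · rw [e1]; nlinarith
    · have e : dX 1 K (pt (x + b * y) y t) + b * dX 0 K (pt (x + b * y) y t) -
        (dX 1 K (pt (x' + b * y') y' t) + b * dX 0 K (pt (x' + b * y') y' t)) =
        (dX 1 K (pt (x + b * y) y t) - dX 1 K (pt (x' + b * y') y' t)) +
        b * (dX 0 K (pt (x + b * y) y t) - dX 0 K (pt (x' + b * y') y' t)) := by ring
      rw [e]
      refine (abs_add_le _ _).trans ?_
      rw [abs_mul]
      have a2 := mul_le_mul_of_nonneg_left a0 hb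
      have a3 : δ * ((1 + |b|) * (|x - x'| + |y - y'|)) +
          |b| * (δ * ((1 + |b|) * (|x - x'| + |y - y'|))) = 1 / 4 * (|x - x'| + |y - y'|) := by
        rw [← hδ1]; ring
      linarith
  · intro x y t n
    have e : ∀ i, dX i K (pt (x + b * y) y (t + n)) = dX i K (pt (x + b * y) y t) := by
      intro i
      unfold dX
      have := fd_per hper (pt (x + b * y) y t) n
      have e2 : pt (x + b * y) y (t + n) =
        ((pt (x + b * y) y t).1, (pt (x + b * y) y t).2 + (n : ℝ)) := rfl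
      rw [e2, this]
    show dX 0 K (pt (x + b * y) y (t + n)) = dX 0 K (pt (x + b * y) y t) ∧
      dX 1 K (pt (x + b * y) y (t + n)) + b * dX 0 K (pt (x + b * y) y (t + n)) = _
    rw [e 0, e 1]
    exact ⟨rfl, rfl⟩
  · intro x y t hy
    obtain ⟨a0, a1⟩ := hvan (x + b * y) y t hy
    show dX 0 K (pt (x + b * y) y t) = 0 ∧
      dX 1 K (pt (x + b * y) y t) + b * dX 0 K (pt (x + b * y) y t) = 0
    rw [a0, a1]
    simp
  · intro j hj x y t hy he
    exact htube j hj x y t hy he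

end Pool.Agent.Helper6K9.EH
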