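import Pool.Agent.Helper6K9.EH.Stm
import Pool.Agent.Helper6K9.ES.Ode

set_option autoImplicit false

/-! # Leaf FLOW: families of solutions -/

namespace Pool.Agent.Helper6K9.EH

open Set Filter Topology Pool.Agent.Helper6K9.ES
open scoped ContDiff NNReal

namespace FlowL

/-- the phase space -/
abbrev S := ℝ × ℝ × ℝ × ℝ

/-- dependence on the initial data -/
theorem gron {v : ℝ → S → S} {K : ℝ≥0} (hv : ∀ t, LipschitzWith K (v t)) {f g : ℝ → S}
    (hf : ∀ t, HasDerivAt f (v t (f t)) t) (hg : ∀ t, HasDerivAt g (v t (g t)) t) {t : ℝ}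
    (ht : 0 ≤ t) : dist (f t) (g t) ≤ dist (f 0) (g 0) * Real.exp (K * t) := by
  have h := dist_le_of_trajectories_ODE (v := v) (K := K) (f := f) (g := g) (a := 0) (b := t)
    (δ := dist (f 0) (g 0)) hv (fun t _ => (hf t).continuousAt.continuousWithinAt)
    (fun t _ => (hf t).hasDerivWithinAt) (fun t _ => (hg t).continuousAt.continuousWithinAt)
    (fun t _ => (hg t).hasDerivWithinAt) le_rfl t ⟨ht, le_rfl⟩
  simpa using h

theorem gron' {v : ℝ → S → S} {K : ℝ≥0} (hv : ∀ t, LipschitzWith K (v t)) {f g : ℝ → S}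
    (hf : ∀ t, HasDerivAt f (v t (f t)) t) (hg : ∀ t, HasDerivAt g (v t (g t)) t) (t : ℝ) :
    dist (f t) (g t) ≤ dist (f 0) (g 0) * Real.exp (K * |t|) := by
  rcases le_total 0 t with h | h
  · rw [abs_of_nonneg h]; exact gron hv hf hg h
  · rw [abs_of_nonpos h]
    have hr : ∀ {f : ℝ → S}, (∀ t, HasDerivAt f (v t (f t)) t) →
        ∀ t, HasDerivAt (fun s => f (-s)) ((fun t y => -v (-t) y) t ((fun s => f (-s)) t)) t := by
      intro f hf t
      have h1 := (hf (-t)).scomp t (hasDerivAt_neg t)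
      rw [neg_smul, one_smul] at h1
      exact h1
    have h2 := gron (v := fun t y => -v (-t) y) (K := K) (fun t => (hv (-t)).neg) (hr hf) (hr hg)
      (t := -t) (by linarith)
    simpa using h2

/-- the position -/
noncomputable def P : S →L[ℝ] Q 1 :=
  LinearMap.toContinuousLinearMap
    { toFun := fun y => ![y.1, y.2.1]
      map_add' := fun y z => by
        funext i; fin_cases i <;> simp
      map_smul' := fun c y => by
        funext i; fin_cases i <;> simp }

/-- the vector field as a linear map of the state and the derivative of the potential -/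
noncomputable def L (α γ b : ℝ) : S × (E 1 →L[ℝ] ℝ) →L[ℝ] S :=
  LinearMap.toContinuousLinearMap
    { toFun := fun z => (z.1.2.2.1 + b * z.1.2.2.2, z.1.2.2.2, α * z.2 (Pi.single 0 1, 0),
        γ * (z.2 (Pi.single 1 1, 0) + b * z.2 (Pi.single 0 1, 0)))
      map_add' := fun y z => by
        refine Prod.ext ?_ (Prod.ext ?_ (Prod.ext ?_ ?_)) <;> simp <;> ring
      map_smul' := fun c y => by
        refine Prod.ext ?_ (Prod.ext ?_ (Prod.ext ?_ ?_)) <;> simp <;> ring }

theorem P_apply (y : S) : P y = ![y.1, y.2.1] := rfl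

end FlowL

open FlowL

/-- [FLOW] -/
theorem flow : S_FLOW := by
  intro α γ b f hf hper i₀ i₁ iv iq c₀ c₁ cv cq
  have hf1 : ContDiff ℝ 1 (fderiv ℝ f) := hf.fderiv_right (by norm_num)
  have hcont2 : Continuous (fderiv ℝ (fderiv ℝ f)) := hf1.continuous_fderiv (by norm_num)
  obtain ⟨C, hC⟩ := OdeL.bounded_of_per _ hcont2 (OdeL.fderiv_per _ (OdeL.fderiv_per _ hper))
  have hC0 : 0 ≤ C := (norm_nonneg _).trans (hC 0)
  have hlip : LipschitzWith ⟨C, hC0⟩ (fderiv ℝ f) :=
    lipschitzWith_of_nnnorm_fderiv_le (hf1.differentiable (by norm_num)) fun p => hC p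
  obtain ⟨F, hF⟩ : ∃ F : ℝ → S → S, F = fun t y => L α γ b (y, fderiv ℝ f (P y, t)) := ⟨_, rfl⟩
  obtain ⟨K, hK⟩ : ∃ K : ℝ≥0, ∀ t, LipschitzWith K (F t) := by
    refine ⟨‖L α γ b‖₊ * max 1 (⟨C, hC0⟩ * max ‖P‖₊ 0), fun t => ?_⟩
    rw [hF]
    exact (L α γ b).lipschitz.comp (LipschitzWith.id.prodMk
      (hlip.comp (P.lipschitz.prodMk (LipschitzWith.const t))))
  have hFc : Continuous (Function.uncurry F) := by
    rw [hF]
    exact (L α γ b).continuous.comp (continuous_snd.prodMk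
      (hlip.continuous.comp ((P.continuous.comp continuous_snd).prodMk continuous_fst)))
  choose ξ hξ0 hξ using fun s : ℝ => Haraux.global_ode F K hK hFc (i₀ s, i₁ s, iv s, iq s)
  have hcs : ∀ t, Continuous fun s => ξ s t := by
    intro t
    rw [continuous_iff_continuousAt]
    intro s₀
    rw [ContinuousAt, tendsto_iff_dist_tendsto_zero]
    have h1 : Tendsto (fun s => dist (ξ s 0) (ξ s₀ 0) * Real.exp (K * |t|)) (𝓝 s₀) (𝓝 0) := by
      have h2 : Continuous fun s => ξ s 0 := by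
        have : (fun s => ξ s 0) = fun s => (i₀ s, i₁ s, iv s, iq s) := funext hξ0
        rw [this]
        exact c₀.prodMk (c₁.prodMk (cv.prodMk cq))
      have h3 : Tendsto (fun s => dist (ξ s 0) (ξ s₀ 0)) (𝓝 s₀) (𝓝 0) :=
        tendsto_iff_dist_tendsto_zero.1 h2.continuousAt
      simpa using h3.mul_const (Real.exp (K * |t|))
    exact squeeze_zero (fun _ => dist_nonneg) (fun s => gron' hK (hξ s) (hξ s₀) t) h1
  refine ⟨fun s t => (ξ s t).1, fun s t => (ξ s t).2.1, fun s t => (ξ s t).2.2.1,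
    fun s t => (ξ s t).2.2.2, fun s => ⟨fun t => ?_, ?_, ?_, ?_, ?_⟩, fun t => ?_⟩
  · have h := hξ s t
    rw [hF] at h
    exact ⟨h.fst, h.snd.fst, h.snd.snd.fst, h.snd.snd.snd⟩
  · simp only [hξ0]
  · simp only [hξ0]
  · simp only [hξ0]
  · simp only [hξ0]
  · exact ⟨(hcs t).fst, (hcs t).snd.fst, (hcs t).snd.snd.fst, (hcs t).snd.snd.snd⟩

end Pool.Agent.Helper6K9.EH
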