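import Pool.Agent.Helper6K9.EH.Stm

set_option autoImplicit false

/-! # Leaf HOM: the homoclinic solution -/

namespace Pool.Agent.Helper6K9.EH

open Set Filter Topology Pool.Agent.Helper6K9.ES MeasureTheory
open scoped ContDiff

namespace HomL

/-- the time as a function of the position -/
noncomputable def th (l : ℝ) (k : ℝ → ℝ) (y : ℝ) : ℝ := ∫ s in (1 / 2 : ℝ)..y, 1 / (l * k s)

variable {l c : ℝ} {k : ℝ → ℝ}

theorem cont (hl : 0 < l) (h : Prof k c) : ContinuousOn (fun s => 1 / (l * k s)) (Ioo 0 1) := by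
  refine ContinuousOn.div continuousOn_const (continuousOn_const.mul h.smooth.continuous.continuousOn)
    fun s hs => (mul_pos hl (h.pos s hs)).ne'

theorem intg (hl : 0 < l) (h : Prof k c) {x y : ℝ} (hx : x ∈ Ioo (0 : ℝ) 1) (hy : y ∈ Ioo (0 : ℝ) 1) :
    IntervalIntegrable (fun s => 1 / (l * k s)) volume x y := by
  refine ContinuousOn.intervalIntegrable ((cont hl h).mono ?_)
  exact (ordConnected_Ioo.uIcc_subset hx hy)

theorem half_mem : (1 / 2 : ℝ) ∈ Ioo (0 : ℝ) 1 := by constructor <;> norm_num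

theorem deriv_th (hl : 0 < l) (h : Prof k c) {y : ℝ} (hy : y ∈ Ioo (0 : ℝ) 1) :
    HasDerivAt (th l k) (1 / (l * k y)) y := by
  have hc : ContinuousAt (fun s => 1 / (l * k s)) y :=
    (cont hl h).continuousAt (isOpen_Ioo.mem_nhds hy)
  refine intervalIntegral.integral_hasDerivAt_right (intg hl h half_mem hy) ?_ hc
  exact (cont hl h).stronglyMeasurableAtFilter isOpen_Ioo y hy

theorem th_sub (hl : 0 < l) (h : Prof k c) {x y : ℝ} (hx : x ∈ Ioo (0 : ℝ) 1) (hy : y ∈ Ioo (0 : ℝ) 1) :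
    th l k y - th l k x = ∫ s in x..y, 1 / (l * k s) := by
  unfold th
  rw [intervalIntegral.integral_interval_sub_left (intg hl h half_mem hy) (intg hl h half_mem hx)]

theorem mono (hl : 0 < l) (h : Prof k c) : StrictMonoOn (th l k) (Ioo 0 1) := by
  refine strictMonoOn_of_deriv_pos (convex_Ioo _ _)
    (fun y hy => (deriv_th hl h hy).continuousAt.continuousWithinAt) fun y hy => ?_
  rw [interior_Ioo] at hy
  rw [(deriv_th hl h hy).deriv]
  exact one_div_pos.2 (mul_pos hl (h.pos y hy))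

/-- `k` near `1` -/
theorem k_top (h : Prof k c) {y : ℝ} (hy : |y - 1| ≤ 1 / 8) : k y = 1 - y := by
  have := h.anti (y - 1)
  rw [sub_add_cancel, h.lin _ hy] at this
  linarith

theorem large (hl : 0 < l) (h : Prof k c) (t : ℝ) : ∃ y ∈ Ioo (0 : ℝ) 1, t ≤ th l k y := by
  set T := max 0 (t - th l k (7 / 8)) with hT
  have hT0 : 0 ≤ T := le_max_left _ _
  have hT1 : t - th l k (7 / 8) ≤ T := le_max_right _ _
  set y := 1 - 1 / 8 * Real.exp (-(l * T)) with hy
  have he : 0 < Real.exp (-(l * T)) := Real.exp_pos _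
  have he1 : Real.exp (-(l * T)) ≤ 1 := Real.exp_le_one_iff.2 (by nlinarith)
  have hym : y ∈ Ioo (0 : ℝ) 1 := ⟨by rw [hy]; linarith, by rw [hy]; linarith⟩
  have h78 : (7 / 8 : ℝ) ∈ Ioo (0 : ℝ) 1 := by constructor <;> norm_num
  have h78y : (7 / 8 : ℝ) ≤ y := by rw [hy]; linarith
  refine ⟨y, hym, ?_⟩
  have h1 := th_sub hl h h78 hym
  have h2 : ∫ s in (7 / 8 : ℝ)..y, 1 / (l * k s) =
      (-(1 / l) * Real.log (1 - y)) - (-(1 / l) * Real.log (1 - 7 / 8)) := by
    refine intervalIntegral.integral_eq_sub_of_hasDerivAt (f := fun s => -(1 / l) * Real.log (1 - s))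
      (fun s hs => ?_) (intg hl h h78 hym)
    rw [uIcc_of_le h78y] at hs
    have hs1 : 0 < 1 - s := by linarith [hs.2, hym.2]
    have hk : k s = 1 - s := k_top h (by rw [abs_le]; constructor <;> linarith [hs.1, hs.2, hym.2])
    have d1 : HasDerivAt (fun s : ℝ => 1 - s) (-1) s := by
      simpa using (hasDerivAt_id s).const_sub 1
    have d2 := (d1.log hs1.ne').const_mul (-(1 / l))
    rw [hk]
    refine d2.congr_deriv ?_
    field_simp
  have h3 : Real.log (1 - y) = Real.log (1 / 8) - l * T := by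
    rw [hy, show 1 - (1 - 1 / 8 * Real.exp (-(l * T))) = 1 / 8 * Real.exp (-(l * T)) by ring,
      Real.log_mul (by norm_num) he.ne', Real.log_exp]
    ring
  rw [h2, h3, show (1 : ℝ) - 7 / 8 = 1 / 8 by norm_num] at h1
  have h4 : -(1 / l) * (Real.log (1 / 8) - l * T) - -(1 / l) * Real.log (1 / 8) = T := by
    field_simp
    ring
  rw [h4] at h1
  linarith

theorem small (hl : 0 < l) (h : Prof k c) (t : ℝ) : ∃ y ∈ Ioo (0 : ℝ) 1, th l k y ≤ t := by
  set T := max 0 (th l k (1 / 8) - t) with hT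
  have hT0 : 0 ≤ T := le_max_left _ _
  have hT1 : th l k (1 / 8) - t ≤ T := le_max_right _ _
  set y := 1 / 8 * Real.exp (-(l * T)) with hy
  have he : 0 < Real.exp (-(l * T)) := Real.exp_pos _
  have he1 : Real.exp (-(l * T)) ≤ 1 := Real.exp_le_one_iff.2 (by nlinarith)
  have hym : y ∈ Ioo (0 : ℝ) 1 := ⟨by rw [hy]; linarith, by rw [hy]; linarith⟩
  have h18 : (1 / 8 : ℝ) ∈ Ioo (0 : ℝ) 1 := by constructor <;> norm_num
  have h18y : y ≤ (1 / 8 : ℝ) := by rw [hy]; linarith
  refine ⟨y, hym, ?_⟩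
  have h1 := th_sub hl h hym h18
  have h2 : ∫ s in y..(1 / 8 : ℝ), 1 / (l * k s) =
      ((1 / l) * Real.log (1 / 8)) - ((1 / l) * Real.log y) := by
    refine intervalIntegral.integral_eq_sub_of_hasDerivAt (f := fun s => (1 / l) * Real.log s)
      (fun s hs => ?_) (intg hl h hym h18)
    rw [uIcc_of_le h18y] at hs
    have hs1 : 0 < s := by linarith [hs.1, hym.1]
    have hk : k s = s := h.lin s (by rw [abs_le]; constructor <;> linarith [hs.1, hs.2])
    have d2 := (Real.hasDerivAt_log hs1.ne').const_mul (1 / l)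
    rw [hk]
    refine d2.congr_deriv ?_
    field_simp
  have h3 : Real.log y = Real.log (1 / 8) - l * T := by
    rw [hy, Real.log_mul (by norm_num) he.ne', Real.log_exp]
    ring
  rw [h2, h3] at h1
  have h4 : (1 / l) * Real.log (1 / 8) - (1 / l) * (Real.log (1 / 8) - l * T) = T := by
    field_simp
    ring
  rw [h4] at h1
  linarith

theorem surj (hl : 0 < l) (h : Prof k c) (t : ℝ) : ∃ y ∈ Ioo (0 : ℝ) 1, th l k y = t := by
  obtain ⟨a, ha, h1⟩ := small hl h t
  obtain ⟨b, hb, h2⟩ := large hl h t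
  have hc : ContinuousOn (th l k) (Ioo 0 1) :=
    fun y hy => (deriv_th hl h hy).continuousAt.continuousWithinAt
  exact ((isPreconnected_Ioo.intermediate_value ha hb hc) ⟨h1, h2⟩)

theorem plat (hl : 0 < l) (h : Prof k c) {y : ℝ} (hy : y ∈ Icc (1 / 4 : ℝ) (3 / 4)) :
    th l k y = (y - 1 / 2) / (l * c) := by
  have hlc : 0 < l * c := mul_pos hl h.cpos
  have e : ∀ s ∈ uIcc (1 / 2 : ℝ) y, 1 / (l * k s) = 1 / (l * c) := by
    intro s hs
    have hs' : s ∈ Icc (1 / 4 : ℝ) (3 / 4) :=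
      (ordConnected_Icc.uIcc_subset (by constructor <;> norm_num) hy) hs
    rw [h.plat s hs']
  unfold th
  rw [intervalIntegral.integral_congr e, intervalIntegral.integral_const, smul_eq_mul]
  field_simp

end HomL

open HomL

theorem hom : S_HOM := by
  intro e j₀ h
  have hl := h.hl
  have hp := h.prof
  choose H hH1 hH2 using fun t => HomL.surj hl hp t
  have hmono : StrictMono H := by
    intro s t hst
    by_contra hle
    have := (HomL.mono hl hp).monotoneOn (hH1 t) (hH1 s) (not_lt.1 hle)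
    rw [hH2, hH2] at this
    linarith
  have hrange : range H = Ioo 0 1 := by
    apply Subset.antisymm
    · rintro _ ⟨t, rfl⟩
      exact hH1 t
    · intro y hy
      refine ⟨th e.l e.k y, ?_⟩
      exact (HomL.mono hl hp).injOn (hH1 _) hy (hH2 _)
  have hcont : ∀ t, ContinuousAt H t := by
    intro t
    refine continuousAt_of_monotoneOn_of_image_mem_nhds (s := univ) (hmono.monotone.monotoneOn _)
      univ_mem ?_
    rw [image_univ, hrange]
    exact isOpen_Ioo.mem_nhds (hH1 t)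
  refine ⟨H, ⟨?_, ?_, hmono, hH1, ?_, ?_⟩⟩
  · intro t
    have h1 := HasDerivAt.of_local_left_inverse (hcont t) (deriv_th hl hp (hH1 t))
      (one_div_pos.2 (mul_pos hl (hp.pos _ (hH1 t)))).ne' (Eventually.of_forall fun s => hH2 s)
    simpa using h1
  · intro t ht
    have hlc : 0 < e.l * e.c := mul_pos hl hp.cpos
    have hm : 1 / 2 + e.l * e.c * t ∈ Icc (1 / 4 : ℝ) (3 / 4) := by
      have h1 : |e.l * e.c * t| ≤ 1 / 4 := by
        rw [abs_mul, abs_of_pos hlc, mul_comm]
        exact ht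
      rw [abs_le] at h1
      constructor <;> linarith [h1.1, h1.2]
    have hm' : 1 / 2 + e.l * e.c * t ∈ Ioo (0 : ℝ) 1 := ⟨by linarith [hm.1], by linarith [hm.2]⟩
    apply (HomL.mono hl hp).injOn (hH1 _) hm'
    rw [hH2, plat hl hp hm, eq_div_iff hlc.ne']
    ring
  · have h1 : IsGLB (range H) 0 := by rw [hrange]; exact isGLB_Ioo (by norm_num)
    exact tendsto_atBot_isGLB hmono.monotone h1
  · have h1 : IsLUB (range H) 1 := by rw [hrange]; exact isLUB_Ioo (by norm_num)
    exact tendsto_atTop_isLUB hmono.monotone h1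

end Pool.Agent.Helper6K9.EH
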