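import Pool.Agent.Helper6K9.EH.Stm

set_option autoImplicit false

/-!
# Orbits which escape to infinity: infinite iteration
-/

namespace Pool.Agent.Helper6K9.EH.IterL

open Set Filter Topology

/-- the state of the iteration -/
structure St where
  i : ℕ
  N : ℤ
  a : ℝ
  c : ℝ
  T : ℕ
  J : ℝ

end Pool.Agent.Helper6K9.EH.IterL

namespace Pool.Agent.Helper6K9.EH

open Set Filter Topology IterL

theorem iter : S_ITER := by
  intro Q P i₁ hstep i N a c T J hi hQ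
  choose! κ hκ hs using hstep
  let G : St → Prop := fun σ => i₁ ≤ σ.i ∧ Q σ.i σ.N σ.a σ.c σ.T σ.J
  have key : ∀ σ : {σ : St // G σ}, ∃ σ' : {σ : St // G σ},
      σ.1.a ≤ σ'.1.a ∧ σ'.1.c ≤ σ.1.c ∧ σ.1.T < σ'.1.T ∧ σ.1.i ≤ σ'.1.i ∧
      σ.1.J + κ σ.1.i ≤ σ'.1.J ∧
      ∀ s ∈ Icc σ'.1.a σ'.1.c, ∀ t ∈ Icc (σ.1.T : ℝ) σ'.1.T, P ((σ.1.i : ℝ) ^ 2 - 3) s t := by
    rintro ⟨σ, h1, h2⟩
    obtain ⟨_, _, _, a', c', T', i', J', ha, hc, hT, hi', hJ, hQ', hP⟩ :=
      hs σ.i h1 σ.N σ.a σ.c σ.T σ.J h2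
    exact ⟨⟨⟨i', σ.N + 1, a', c', T', J'⟩, le_trans h1 hi', hQ'⟩, ha, hc, hT, hi', hJ, hP⟩
  choose nx ha hc hT hi' hJ hP using key
  let σ₀ : {σ : St // G σ} := ⟨⟨i, N, a, c, T, J⟩, hi, hQ⟩
  let q : ℕ → {σ : St // G σ} := fun n => nx^[n] σ₀
  have q0 : q 0 = σ₀ := rfl
  have qs : ∀ n, q (n + 1) = nx (q n) := fun n => Function.iterate_succ_apply' nx n σ₀
  have ma : Monotone fun n => (q n).1.a := monotone_nat_of_le_succ fun n => by
    show (q n).1.a ≤ (q (n + 1)).1.a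
    rw [qs]
    exact ha _
  have mc : Antitone fun n => (q n).1.c := antitone_nat_of_succ_le fun n => by
    show (q (n + 1)).1.c ≤ (q n).1.c
    rw [qs]
    exact hc _
  have mi : Monotone fun n => (q n).1.i := monotone_nat_of_le_succ fun n => by
    show (q n).1.i ≤ (q (n + 1)).1.i
    rw [qs]
    exact hi' _
  have mT : StrictMono fun n => (q n).1.T := strictMono_nat_of_lt_succ fun n => by
    show (q n).1.T < (q (n + 1)).1.T
    rw [qs]
    exact hT _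
  have fact : ∀ n, (q n).1.a ≤ (q n).1.c ∧ ((q n).1.i : ℝ) ^ 2 ≤ (q n).1.J ∧
      (q n).1.J < (((q n).1.i : ℝ) + 1) ^ 2 := fun n => by
    have h := hs (q n).1.i (q n).2.1 (q n).1.N (q n).1.a (q n).1.c (q n).1.T (q n).1.J (q n).2.2
    exact ⟨h.1, h.2.1, h.2.2.1⟩
  have hac : ∀ n m, (q n).1.a ≤ (q m).1.c := fun n m =>
    ((ma (le_max_left n m)).trans (fact (max n m)).1).trans (mc (le_max_right n m))
  have hbdd : BddAbove (range fun n => (q n).1.a) := ⟨(q 0).1.c, by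
    rintro _ ⟨n, rfl⟩
    exact hac n 0⟩
  have hmem : ∀ n, (⨆ n, (q n).1.a) ∈ Icc (q n).1.a (q n).1.c := fun n =>
    ⟨le_ciSup hbdd n, ciSup_le fun m => hac m n⟩
  refine ⟨⨆ n, (q n).1.a, hmem 0, fun V => ?_⟩
  -- the index is unbounded
  have hunb : ∀ M : ℕ, ∃ n, M ≤ (q n).1.i := by
    intro M
    by_contra hcon
    push Not at hcon
    -- the index is bounded, so it is eventually constant
    have hfin : ∃ n₀, ∀ n, n₀ ≤ n → (q n).1.i = (q n₀).1.i := by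
      have hb : BddAbove (range fun n => (q n).1.i) := ⟨M, by
        rintro _ ⟨n, rfl⟩
        exact (hcon n).le⟩
      obtain ⟨n₀, hn₀⟩ := Nat.sSup_mem (range_nonempty fun n => (q n).1.i) hb
      refine ⟨n₀, fun n hn => le_antisymm ?_ (mi hn)⟩
      have h1 : (q n).1.i ≤ sSup (range fun n => (q n).1.i) := le_csSup hb ⟨n, rfl⟩
      have h2 : (q n₀).1.i = sSup (range fun n => (q n).1.i) := hn₀
      rw [h2]
      exact h1
    obtain ⟨n₀, hn₀⟩ := hfin
    have hk : 0 < κ (q n₀).1.i := hκ _ (q n₀).2.1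
    have hJn : ∀ m : ℕ, (q n₀).1.J + m * κ (q n₀).1.i ≤ (q (n₀ + m)).1.J := by
      intro m
      induction m with
      | zero => simp
      | succ m ih =>
        have h1 := hJ (q (n₀ + m))
        rw [← qs, hn₀ (n₀ + m) (by omega)] at h1
        have h2 : n₀ + (m + 1) = n₀ + m + 1 := by ring
        rw [h2]
        push_cast
        linarith
    obtain ⟨m, hm⟩ := exists_nat_gt (((((q n₀).1.i : ℝ) + 1) ^ 2 - (q n₀).1.J) / κ (q n₀).1.i)
    rw [div_lt_iff₀ hk] at hm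
    have h1 := (fact (n₀ + m)).2.2
    rw [hn₀ (n₀ + m) (by omega)] at h1
    have := hJn m
    linarith
  obtain ⟨M, hM⟩ := exists_nat_gt (|V| + 3)
  obtain ⟨n₀, hn₀⟩ := hunb (M + 1)
  refine ⟨(q n₀).1.T, fun t ht => ?_⟩
  -- the interval of the time t
  have hex : ∃ m, t < (q (n₀ + m)).1.T := by
    obtain ⟨m, hm⟩ := exists_nat_gt t
    refine ⟨m, hm.trans_le ?_⟩
    have : m ≤ (q (n₀ + m)).1.T := le_trans (Nat.le_add_left m n₀) (mT.id_le (n₀ + m))
    exact_mod_cast this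
  classical
  have hf := Nat.find_spec hex
  have hpos : Nat.find hex ≠ 0 := by
    intro h0
    rw [h0] at hf
    simp only [add_zero] at hf
    linarith
  obtain ⟨m, hm⟩ := Nat.exists_eq_succ_of_ne_zero hpos
  have hm' : ¬ t < (q (n₀ + m)).1.T := Nat.find_min hex (by omega)
  push Not at hm'
  rw [hm] at hf
  have hf' : t < (q (n₀ + m + 1)).1.T := by
    have : n₀ + m.succ = n₀ + m + 1 := rfl
    rwa [this] at hf
  have h1 := hP (q (n₀ + m)) (⨆ n, (q n).1.a) (by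
    rw [← qs]
    exact hmem _) t (by
    rw [← qs]
    exact ⟨hm', hf'.le⟩)
  refine ⟨_, ?_, h1⟩
  have h2 : M + 1 ≤ (q (n₀ + m)).1.i := hn₀.trans (mi (Nat.le_add_right _ _))
  have h3 : (M : ℝ) + 1 ≤ ((q (n₀ + m)).1.i : ℝ) := by exact_mod_cast h2
  have h4 := le_abs_self V
  have h5 := abs_nonneg V
  nlinarith

end Pool.Agent.Helper6K9.EH
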