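import Pool.Agent.Helper6K9.EH.LoopL

set_option autoImplicit false

/-!
# Orbits which escape to infinity on flat tori of dimension two: the kick
-/

namespace Pool.Agent.Helper6K9.EH

open Set Filter Topology
open scoped ContDiff

namespace LcL

open LoopL

theorem Kx_bd {e : Env} {j₀ : ℕ} (ok : EnvOK e j₀) {M : ℝ} (hM : Cst e M) {j : ℕ} (hj : j₀ ≤ j)
    (hj1 : 1 ≤ j) (X Y t : ℝ) (N : ℤ) (h1 : -(1 / 4) ≤ Y) (h2 : Y ≤ 5 / 4)
    (h : |Y - 1 / 2| ≤ 1 / 4 → |eta (e.l * e.c) j Y (t - N)| ≤ ss (e.l * e.c) j) :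
    |e.Kx X Y t| ≤ M * aa j := by
  obtain ⟨-, -, t3, t4⟩ := tubeAt ok hj X Y t N h1 h2 h
  have ha := aa_pos hj1
  by_cases hY : |Y - 1 / 2| ≤ 1 / 4
  · rw [t3 hY, abs_mul, abs_mul, abs_of_pos ha]
    obtain ⟨c1, c2⟩ := ok.shp.cbn ((t - N - tau j) / dd j)
    rw [abs_of_nonneg c1]
    have c3 := hM.ps (X - LL j * (t - N) - hf j)
    have c4 : aa j * e.cb ((t - N - tau j) / dd j) ≤ aa j * 1 := mul_le_mul_of_nonneg_left c2 ha.le
    calc aa j * e.cb ((t - N - tau j) / dd j) * |e.ps (X - LL j * (t - N) - hf j)|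
        ≤ aa j * 1 * M := mul_le_mul c4 c3 (abs_nonneg _) (by linarith)
      _ = M * aa j := by ring
  · rw [t4 (not_le.1 hY), abs_zero]
    exact mul_nonneg (by linarith [hM.one]) ha.le

theorem Ky_bd {e : Env} {j₀ : ℕ} (ok : EnvOK e j₀) {M : ℝ} (hM : Cst e M) {j : ℕ} (hj : j₀ ≤ j)
    (hj1 : 1 ≤ j) (X Y t : ℝ) (N : ℤ) (h1 : -(1 / 4) ≤ Y) (h2 : Y ≤ 5 / 4)
    (hs : ss (e.l * e.c) j ≤ 1)
    (h : |Y - 1 / 2| ≤ 1 / 4 → |eta (e.l * e.c) j Y (t - N)| ≤ ss (e.l * e.c) j) :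
    |e.Ky X Y t| ≤ 2 * M * (ee j * ss (e.l * e.c) j) := by
  obtain ⟨t1, t2, -, -⟩ := tubeAt ok hj X Y t N h1 h2 h
  have he := ee_pos hj1
  have hss := ss_pos (u_pos ok) hj1
  have hM1 := hM.one
  rcases t2 with h3 | ⟨h3, h4⟩
  · rw [t1, abs_mul, abs_of_pos he]
    set η := eta (e.l * e.c) j Y (t - N)
    set σ := ss (e.l * e.c) j
    have c0 := hM.c0 Y
    have c1 := hM.c1 Y
    have d1 : |η * e.χ Y| ≤ σ * M := by
      rw [abs_mul]
      exact mul_le_mul h3 c0 (abs_nonneg _) hss.le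
    have d2 : |η ^ 2 / 2 * deriv e.χ Y| ≤ σ * M := by
      rw [abs_mul]
      have : |η ^ 2 / 2| ≤ σ := by
        rw [abs_of_nonneg (by positivity)]
        have h5 : η ^ 2 ≤ σ ^ 2 := by
          rw [← sq_abs η]
          exact pow_le_pow_left₀ (abs_nonneg _) h3 2
        nlinarith
      exact mul_le_mul this c1 (abs_nonneg _) hss.le
    calc ee j * |η * e.χ Y + η ^ 2 / 2 * deriv e.χ Y| ≤ ee j * (σ * M + σ * M) :=
          mul_le_mul_of_nonneg_left ((abs_add_le _ _).trans (add_le_add d1 d2)) he.le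
      _ = _ := by ring
  · rw [t1, h3, h4]
    simp only [mul_zero, add_zero, abs_zero]
    positivity

theorem main (e : Env) (j₀ : ℕ) (H : ℝ → ℝ) (ok : EnvOK e j₀) (hH : Hom e H)
    (m : ℕ) (C C₁₀ C₇ : ℝ) (_hC : 1 ≤ C) (hC₁₀ : 1 ≤ C₁₀) (hC₇ : 1 ≤ C₇) (hm1 : H (-m + 1) < 1 / 8)
    (_hm2 : 7 / 8 < H (m - 1)) :
    ∃ (j₁ : ℕ) (c₉ : ℝ), j₀ ≤ j₁ ∧ 0 < c₉ ∧
    ∀ (j : ℕ) (F : Fam) (a b : ℝ) (T : ℕ) (ε : ℝ), j₁ ≤ j → 0 < ε → ε ≤ C₁₀ * (j : ℝ) ^ (-2 : ℝ) →
      Ent e H m j F a b T ε C → Thr e H m j F a b T C₇ →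
      (∀ s ∈ Icc a b, |F.J s T - LL j| ≤ j + 3 ∧ ∃ n : ℤ,
        F.X s T + (F.J s T - LL j) * (m + tau j) - hf j - n ∈ Icc (1 / 24 : ℝ) (5 / 8 - 1 / 24)) →
      ∀ s ∈ Icc a b, F.J s T + c₉ * (aa j * dd j) ≤ F.J s (T + 2 * m) ∧
        ∀ t ∈ Icc (T : ℝ) (T + 2 * m), |F.J s t - F.J s T| ≤ 1 ∧ |F.w s t| ≤ 1 := by
  obtain ⟨M, hM⟩ := exists_cst ok
  have hM1 := hM.one
  have hu := u_pos ok
  have hu1 := u_le ok
  have hm : 2 ≤ m := two_le hH hm1
  have hmR : (2 : ℝ) ≤ m := by exact_mod_cast hm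
  have hα := ok.hα
  set u := e.l * e.c with hudef
  set B : ℝ := 2 * m * (M ^ 2 + 3 * C₁₀) with hB
  set B' : ℝ := 2 * m * (B + C₁₀) with hB'
  set A1 : ℝ := 2 * m * C₁₀ ^ 3 * 8 / e.α with hA1
  set A2 : ℝ := 2 * m * C₁₀ ^ 2 * (2 * M) * 8 / e.α with hA2
  have hBpos : 0 < B := by positivity
  have hB'pos : 0 < B' := by positivity
  have ev1 := ev_ss u C₇ (c := 1 / 8) (by norm_num)
  have ev2 := ev_pow (p := 2) (by norm_num) C₁₀ (c := min 1 (e.α / 2)) (by positivity)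
  have ev3 := ev_pow (p := 2) (by norm_num) B (c := 1) (by norm_num)
  have ev4 := ev_pow (p := 2) (by norm_num) B' (c := 1 / 120) (by norm_num)
  have ev5 := ev_kick u A1
  have ev6 := ev_kick u A2
  obtain ⟨j₁, hj₁⟩ := eventually_atTop.1 (((((ev1.and ev2).and ev3).and ev4).and ev5).and ev6)
  refine ⟨max j₀ (max j₁ 45), e.α / 4, le_max_left _ _, by positivity, ?_⟩
  intro j F a b T ε hj hε hεj hE hT hJX s hs
  have hjj₀ : j₀ ≤ j := (le_max_left _ _).trans hj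
  have hjj₁ : j₁ ≤ j := ((le_max_left _ _).trans (le_max_right _ _)).trans hj
  have hj45 : 45 ≤ j := ((le_max_right _ _).trans (le_max_right _ _)).trans hj
  have hj1 : 1 ≤ j := by omega
  obtain ⟨⟨⟨⟨⟨f1, f2⟩, f3⟩, f4⟩, f5⟩, f6⟩ := hj₁ j hjj₁
  set p := (j : ℝ) ^ (-2 : ℝ) with hp
  have hppos : 0 < p := Real.rpow_pos_of_pos (by exact_mod_cast hj1) _
  have he := ee_pos hj1
  have he1 := ee_le hj1
  have hss := ss_pos hu hj1
  have hdd := dd_pos hj1
  have hdd1 := dd_le hj1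
  have htau := tau_pos hj1
  have htau1 := tau_le hj1
  have haa := aa_pos hj1
  have hCs : C₇ * ss u j ≤ 1 / 8 := f1
  have hs1 : ss u j ≤ 1 := by
    have := (le_mul_of_one_le_left hss.le hC₇).trans hCs
    linarith
  have hε1 : ε ≤ 1 := hεj.trans (f2.trans (min_le_left _ _))
  have hεα : ε ≤ e.α / 2 := hεj.trans (f2.trans (min_le_right _ _))
  have haap : aa j ≤ p := by
    have hj0 : (0 : ℝ) < j := by exact_mod_cast hj1
    unfold aa
    have h1 : (j : ℝ) ^ (-4 : ℝ) ≤ p :=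
      Real.rpow_le_rpow_of_exponent_le (by exact_mod_cast hj1) (by norm_num)
    have h2 : 0 < (j : ℝ) ^ (-4 : ℝ) := Real.rpow_pos_of_pos hj0 _
    exact (mul_le_of_le_one_left h2.le he1).trans h1
  have ctl := hE.ctl
  have hTT : (T : ℝ) ≤ T + 2 * m := by linarith
  -- location
  have loc : ∀ t ∈ Icc (T : ℝ) (T + 2 * m), -(1 / 4) ≤ F.Y s t ∧ F.Y s t ≤ 5 / 4 := by
    intro t ht
    have h1 := (hT.near s hs t ht).1
    have h2 := hH.mem (t - T - m - tau j)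
    have h3 := abs_le.1 (h1.trans hCs)
    constructor <;> linarith
  have tub : ∀ t ∈ Icc (T : ℝ) (T + 2 * m), |F.Y s t - 1 / 2| ≤ 1 / 4 →
      |eta u j (F.Y s t) (t - ((T + m : ℤ) : ℝ))| ≤ ss u j := by
    intro t ht h
    have := hT.tube s hs t ht h
    rw [show t - ((T + m : ℤ) : ℝ) = t - T - m by push_cast; ring]
    exact this
  have bx : ∀ t ∈ Icc (T : ℝ) (T + 2 * m), |e.Kx (F.X s t) (F.Y s t) t| ≤ M * aa j := fun t ht =>
    Kx_bd ok hM hjj₀ hj1 _ _ _ (T + m) (loc t ht).1 (loc t ht).2 (tub t ht)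
  have bY : ∀ t ∈ Icc (T : ℝ) (T + 2 * m), |e.Ky (F.X s t) (F.Y s t) t| ≤
      2 * M * (ee j * ss u j) := fun t ht =>
    Ky_bd ok hM hjj₀ hj1 _ _ _ (T + m) (loc t ht).1 (loc t ht).2 hs1 (tub t ht)
  -- the variation of `J`
  have hJ : ∀ t ∈ Icc (T : ℝ) (T + 2 * m), |F.J s t - F.J s T| ≤ B * p := by
    intro t ht
    have hsub : ∀ x ∈ Icc (T : ℝ) t, x ∈ Icc (T : ℝ) (T + 2 * m) := fun x hx =>
      ⟨hx.1, hx.2.trans ht.2⟩
    have h1 := incr_abs (c := (M ^ 2 + 3 * C₁₀) * p) ht.1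
      (fun x hx => der_J ctl hs (hsub x hx)) (fun x hx => by
        obtain ⟨-, -, -, h4⟩ := ctl.bd s hs x (hsub x hx)
        have g1 := bx x (hsub x hx)
        obtain ⟨g2, g3⟩ := ok.bd (F.X s x) (F.Y s x) x
        have g4 : |e.α * e.Kx (F.X s x) (F.Y s x) x| ≤ M * (M * aa j) := by
          rw [abs_mul, abs_of_pos hα]
          exact mul_le_mul hM.al g1 (abs_nonneg _) (by linarith)
        have g5 : ε ^ 3 ≤ ε := by
          have := mul_le_of_le_one_right hε.le (pow_le_one₀ hε.le hε1 : ε ^ 2 ≤ 1)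
          rw [show ε ^ 3 = ε * ε ^ 2 by ring]
          exact this
        have g6 : ε ^ 2 * (|e.Kx (F.X s x) (F.Y s x) x| + |e.Ky (F.X s x) (F.Y s x) x|) ≤
            2 * ε := by
          have g5 : ε ^ 2 ≤ ε := by
            rw [sq]
            exact mul_le_of_le_one_left hε.le hε1
          calc ε ^ 2 * (|e.Kx (F.X s x) (F.Y s x) x| + |e.Ky (F.X s x) (F.Y s x) x|)
              ≤ ε * 2 := mul_le_mul g5 (by linarith) (by positivity) hε.le
            _ = 2 * ε := by ring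
        have g7 : M * (M * aa j) ≤ M ^ 2 * p := by
          rw [← mul_assoc, ← sq]
          exact mul_le_mul_of_nonneg_left haap (sq_nonneg _)
        have g8 := abs_add_le (e.α * e.Kx (F.X s x) (F.Y s x) x) (eJ e F s x)
        have g9 : (M ^ 2 + 3 * C₁₀) * p = M ^ 2 * p + 3 * (C₁₀ * p) := by ring
        linarith)
    refine h1.trans ?_
    have h2 : t - T ≤ 2 * m := by linarith [ht.2]
    have h3 : 0 ≤ (M ^ 2 + 3 * C₁₀) * p := by positivity
    calc (M ^ 2 + 3 * C₁₀) * p * (t - T) ≤ (M ^ 2 + 3 * C₁₀) * p * (2 * m) :=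
          mul_le_mul_of_nonneg_left h2 h3
      _ = B * p := by rw [hB]; ring
  have hX : ∀ t ∈ Icc (T : ℝ) (T + 2 * m), |F.X s t - F.X s T - F.J s T * (t - T)| ≤ B' * p := by
    intro t ht
    have hsub : ∀ x ∈ Icc (T : ℝ) t, x ∈ Icc (T : ℝ) (T + 2 * m) := fun x hx =>
      ⟨hx.1, hx.2.trans ht.2⟩
    have h1 := incr_abs (f := fun x => F.X s x - F.J s T * (x - T))
      (f' := fun x => F.J s x + eX F s x - F.J s T * 1) (c := (B + C₁₀) * p) ht.1
      (fun x hx => (der_X ctl hs (hsub x hx)).sub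
        (((hasDerivAt_id' x).sub_const (T : ℝ)).const_mul (F.J s T))) (fun x hx => by
        obtain ⟨h4, -, -, -⟩ := ctl.bd s hs x (hsub x hx)
        have g1 := hJ x (hsub x hx)
        have g2 := abs_add_le (F.J s x - F.J s T) (eX F s x)
        rw [show F.J s x + eX F s x - F.J s T * 1 = F.J s x - F.J s T + eX F s x by ring]
        have g9 : (B + C₁₀) * p = B * p + C₁₀ * p := by ring
        linarith)
    simp only [sub_self, mul_zero, sub_zero] at h1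
    rw [show F.X s t - F.X s T - F.J s T * (t - T) = F.X s t - F.J s T * (t - T) - F.X s T by ring]
    refine h1.trans ?_
    have h2 : t - T ≤ 2 * m := by linarith [ht.2]
    have h3 : 0 ≤ (B + C₁₀) * p := by positivity
    calc (B + C₁₀) * p * (t - T) ≤ (B + C₁₀) * p * (2 * m) :=
          mul_le_mul_of_nonneg_left h2 h3
      _ = B' * p := by rw [hB']; ring
  -- the kick in the window
  obtain ⟨hJL, n, hn⟩ := hJX s hs
  have win : ∀ t ∈ Icc (T : ℝ) (T + 2 * m), |t - T - m - tau j| ≤ dd j →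
      e.Kx (F.X s t) (F.Y s t) t = aa j * e.cb ((t - T - m - tau j) / dd j) := by
    intro t ht hδ
    set δ := t - T - m - tau j with hδdef
    have hδ2 : |δ| ≤ 1 / 64 := hδ.trans hdd1
    have hδu : |δ| * u ≤ 1 / 128 := by
      have := mul_le_mul hδ2 hu1 hu.le (by norm_num : (0 : ℝ) ≤ 1 / 64)
      linarith
    have hYt := (hT.near s hs t ht).1
    rw [← hδdef, hH.pla δ (by rw [← hudef]; linarith)] at hYt
    have hY4 : |F.Y s t - 1 / 2| ≤ 1 / 4 := by
      have h1 := abs_le.1 (hYt.trans hCs)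
      have h2 : |e.l * e.c * δ| ≤ 1 / 128 := by
        rw [← hudef, abs_mul, abs_of_pos hu, mul_comm]; exact hδu
      have h3 := abs_le.1 h2
      rw [abs_le]
      constructor <;> linarith
    obtain ⟨-, -, t3, -⟩ := tubeAt ok hjj₀ (F.X s t) (F.Y s t) t (T + m) (loc t ht).1
      (loc t ht).2 (tub t ht)
    rw [t3 hY4, show t - ((T + m : ℤ) : ℝ) = t - T - m by push_cast; ring, ← hδdef]
    have hps : e.ps (F.X s t - LL j * (t - T - m) - hf j) = 1 := by
      obtain ⟨q, hq⟩ : ∃ q : ℕ, LL j = (q : ℝ) ^ 2 := ⟨j / 2, rfl⟩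
      have hps2 := ok.shp.psp (F.X s t - LL j * (t - T - m) - hf j)
        (-(n + (q : ℤ) ^ 2 * (m : ℤ)))
      rw [← hps2]
      refine ok.shp.ps1 _ ?_
      have hx := abs_le.1 ((hX t ht).trans f4)
      have hjd : |(F.J s T - LL j) * δ| ≤ 1 / 60 := by
        rw [abs_mul]
        have hj0 : (45 : ℝ) ≤ j := by exact_mod_cast hj45
        have h1 : |F.J s T - LL j| * |δ| ≤ (j + 3) * dd j :=
          mul_le_mul hJL hδ (abs_nonneg _) (by linarith)
        refine h1.trans ?_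
        unfold dd
        rw [mul_one_div, div_le_div_iff₀ (by linarith) (by norm_num)]
        linarith
      have hjd' := abs_le.1 hjd
      have key : F.X s t - LL j * (t - T - m) - hf j +
          ((-(n + (q : ℤ) ^ 2 * (m : ℤ)) : ℤ) : ℝ) =
          (F.X s T + (F.J s T - LL j) * (m + tau j) - hf j - n) + (F.J s T - LL j) * δ +
            (F.X s t - F.X s T - F.J s T * (t - T)) := by
        push_cast
        rw [← hq, hδdef]
        ring
      rw [key]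
      obtain ⟨hn1, hn2⟩ := hn
      constructor <;> linarith
    rw [hps, mul_one]
  have outw : ∀ t ∈ Icc (T : ℝ) (T + 2 * m), dd j < |t - T - m - tau j| →
      e.Kx (F.X s t) (F.Y s t) t = 0 := by
    intro t ht hδ
    obtain ⟨-, -, t3, t4⟩ := tubeAt ok hjj₀ (F.X s t) (F.Y s t) t (T + m) (loc t ht).1
      (loc t ht).2 (tub t ht)
    by_cases hY4 : |F.Y s t - 1 / 2| ≤ 1 / 4
    · rw [t3 hY4, show t - ((T + m : ℤ) : ℝ) = t - T - m by push_cast; ring, ok.shp.cb0]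
      · ring
      · rw [abs_div, abs_of_pos hdd, le_div_iff₀ hdd]
        linarith
    · exact t4 (not_le.1 hY4)
  have Knn : ∀ t ∈ Icc (T : ℝ) (T + 2 * m), 0 ≤ e.Kx (F.X s t) (F.Y s t) t := by
    intro t ht
    by_cases hδ : |t - T - m - tau j| ≤ dd j
    · rw [win t ht hδ]
      exact mul_nonneg haa.le (ok.shp.cbn _).1
    · rw [outw t ht (not_le.1 hδ)]
  have Kcore : ∀ t ∈ Icc (T : ℝ) (T + 2 * m), |t - T - m - tau j| ≤ dd j / 2 →
      e.Kx (F.X s t) (F.Y s t) t = aa j := by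
    intro t ht hδ
    rw [win t ht (by linarith), ok.shp.cb1, mul_one]
    rw [abs_div, abs_of_pos hdd, div_le_iff₀ hdd]
    linarith
  -- lower bound of the derivative
  set η : ℝ := C₁₀ ^ 3 * p ^ 3 + C₁₀ ^ 2 * (2 * M) * (p ^ 2 * (ee j * ss u j)) with hη
  have hηpos : 0 ≤ η := by positivity
  have low : ∀ t ∈ Icc (T : ℝ) (T + 2 * m), e.α / 2 * e.Kx (F.X s t) (F.Y s t) t - η ≤
      e.α * e.Kx (F.X s t) (F.Y s t) t + eJ e F s t := by
    intro t ht
    obtain ⟨-, -, -, h4⟩ := ctl.bd s hs t ht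
    have g1 := Knn t ht
    rw [abs_of_nonneg g1] at h4
    have g2 := bY t ht
    have g3 := (abs_le.1 h4).1
    have g4 : ε ^ 3 ≤ C₁₀ ^ 3 * p ^ 3 := by
      rw [← mul_pow]
      exact pow_le_pow_left₀ hε.le hεj 3
    have g5 : ε ^ 2 ≤ C₁₀ ^ 2 * p ^ 2 := by
      rw [← mul_pow]
      exact pow_le_pow_left₀ hε.le hεj 2
    have g6 : ε ^ 2 * |e.Ky (F.X s t) (F.Y s t) t| ≤
        C₁₀ ^ 2 * p ^ 2 * (2 * M * (ee j * ss u j)) :=
      mul_le_mul g5 g2 (abs_nonneg _) (by positivity)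
    have g7 : ε ^ 2 ≤ e.α / 2 := by
      rw [sq]
      exact (mul_le_of_le_one_left hε.le hε1).trans hεα
    have g8 : ε ^ 2 * e.Kx (F.X s t) (F.Y s t) t ≤ e.α / 2 * e.Kx (F.X s t) (F.Y s t) t :=
      mul_le_mul_of_nonneg_right g7 g1
    have g9 : ε ^ 2 * (e.Kx (F.X s t) (F.Y s t) t + |e.Ky (F.X s t) (F.Y s t) t|) =
        ε ^ 2 * e.Kx (F.X s t) (F.Y s t) t + ε ^ 2 * |e.Ky (F.X s t) (F.Y s t) t| := by ring
    have g10 : η = C₁₀ ^ 3 * p ^ 3 + C₁₀ ^ 2 * p ^ 2 * (2 * M * (ee j * ss u j)) := by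
      rw [hη]; ring
    rw [g9] at g3
    rw [g10]
    have g11 : e.α * e.Kx (F.X s t) (F.Y s t) t = e.α / 2 * e.Kx (F.X s t) (F.Y s t) t +
      e.α / 2 * e.Kx (F.X s t) (F.Y s t) t := by ring
    linarith
  -- the gain
  set ta : ℝ := T + m + tau j - dd j / 2 with hta
  set tb : ℝ := T + m + tau j + dd j / 2 with htb
  have ia : (T : ℝ) ≤ ta := by rw [hta]; linarith
  have iab : ta ≤ tb := by rw [hta, htb]; linarith
  have ib : tb ≤ T + 2 * m := by rw [htb]; linarith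
  have G1 := incr (f := F.J s) (c := -η) ia
    (fun x hx => der_J ctl hs ⟨hx.1, hx.2.trans (iab.trans ib)⟩) (fun x hx => by
      have hx' : x ∈ Icc (T : ℝ) (T + 2 * m) := ⟨hx.1, hx.2.trans (iab.trans ib)⟩
      have g1 := low x hx'
      have g2 := mul_nonneg (half_pos hα).le (Knn x hx')
      linarith)
  have G2 := incr (f := F.J s) (c := e.α / 2 * aa j - η) iab
    (fun x hx => der_J ctl hs ⟨ia.trans hx.1, hx.2.trans ib⟩) (fun x hx => by
      have hx' : x ∈ Icc (T : ℝ) (T + 2 * m) := ⟨ia.trans hx.1, hx.2.trans ib⟩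
      have g1 := low x hx'
      have g2 := Kcore x hx' (by
        rw [abs_le]
        have := hx.1
        have := hx.2
        constructor <;> linarith)
      rw [g2] at g1 ⊢
      linarith)
  have G3 := incr (f := F.J s) (c := -η) ib
    (fun x hx => der_J ctl hs ⟨(ia.trans iab).trans hx.1, hx.2⟩) (fun x hx => by
      have hx' : x ∈ Icc (T : ℝ) (T + 2 * m) := ⟨(ia.trans iab).trans hx.1, hx.2⟩
      have g1 := low x hx'
      have g2 := mul_nonneg (half_pos hα).le (Knn x hx')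
      linarith)
  have hgain : e.α / 2 * (aa j * dd j) - η * (2 * m) ≤ F.J s (T + 2 * m) - F.J s T := by
    have e1 : tb - ta = dd j := by rw [hta, htb]; ring
    rw [e1] at G2
    have e2 : -η * (ta - T) + (e.α / 2 * aa j - η) * dd j + -η * (T + 2 * m - tb) =
        e.α / 2 * (aa j * dd j) - η * (2 * m) := by
      rw [← e1]; ring
    linarith
  have hηs : η * (2 * m) ≤ e.α / 4 * (aa j * dd j) := by
    have h1 := f5.1
    have h2 := f6.2
    have e1 : A1 * p ^ 3 = (8 / e.α) * (2 * m * C₁₀ ^ 3 * p ^ 3) := by rw [hA1]; ring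
    have e2 : A2 * (p ^ 2 * (ee j * ss u j)) =
        (8 / e.α) * (2 * m * (C₁₀ ^ 2 * (2 * M) * (p ^ 2 * (ee j * ss u j)))) := by
      rw [hA2]; ring
    rw [e1] at h1
    rw [e2] at h2
    have h3 : 2 * m * C₁₀ ^ 3 * p ^ 3 ≤ e.α / 8 * (aa j * dd j) := by
      have := mul_le_mul_of_nonneg_left h1 (show 0 ≤ e.α / 8 by positivity)
      rw [← mul_assoc, show e.α / 8 * (8 / e.α) = 1 by field_simp, one_mul] at this
      exact this
    have h4 : 2 * m * (C₁₀ ^ 2 * (2 * M) * (p ^ 2 * (ee j * ss u j))) ≤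
        e.α / 8 * (aa j * dd j) := by
      have := mul_le_mul_of_nonneg_left h2 (show 0 ≤ e.α / 8 by positivity)
      rw [← mul_assoc, show e.α / 8 * (8 / e.α) = 1 by field_simp, one_mul] at this
      exact this
    have e3 : η * (2 * m) = 2 * m * C₁₀ ^ 3 * p ^ 3 +
        2 * m * (C₁₀ ^ 2 * (2 * M) * (p ^ 2 * (ee j * ss u j))) := by
      rw [hη]; ring
    rw [e3]
    linarith
  refine ⟨by linarith, fun t ht => ⟨(hJ t ht).trans f3, ?_⟩⟩
  have h1 := (hT.near s hs t ht).2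
  have h2 : C₇ * (ee j * ss u j) ≤ 1 / 8 := by
    have : C₇ * (ee j * ss u j) = ee j * (C₇ * ss u j) := by ring
    rw [this]
    have h0 : 0 < C₇ * ss u j := by positivity
    exact (mul_le_of_le_one_left h0.le he1).trans f1
  have h3 := abs_le.1 (h1.trans h2)
  have h4 : |e.l * e.k (F.Y s t)| ≤ 1 / 2 := by
    rw [abs_mul, abs_of_pos ok.hl]
    have g1 := ok.prof.le_one (F.Y s t)
    exact (mul_le_of_le_one_right ok.hl.le g1).trans ok.hl1
  have h5 := abs_le.1 h4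
  rw [abs_le]
  constructor <;> linarith

end LcL

theorem lc : S_LC := LcL.main

end Pool.Agent.Helper6K9.EH
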