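import Pool.Agent.Helper6K9.EH.LoopL

set_option autoImplicit false

/-!
# Orbits which escape to infinity on flat tori of dimension two: the path after the passage
-/

namespace Pool.Agent.Helper6K9.EH

open Set Filter Topology
open scoped ContDiff

namespace LbL

open LoopL

/-- the distance of two curves grows at most exponentially -/
theorem D_bd {e : Env} {F : Fam} {ε a b t₀ t₁ M : ℝ} {j₀ : ℕ} (ok : EnvOK e j₀) (hM : Cst e M)
    (ctl : Ctl e F ε a b t₀ t₁) (hε1 : ε ≤ 1) {s s' : ℝ} (hs : s ∈ Icc a b)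
    (hs' : s' ∈ Icc a b) : ∀ t ∈ Icc t₀ t₁,
      dst F s s' t ≤ 4 * Real.exp (4 * (2 * M + 1) * (t₁ - t₀)) * dst F s s' t₀ := by
  intro t ht
  have hM1 := hM.one
  set z : ℝ → ℝ × ℝ × ℝ × ℝ := fun t =>
    (F.X s t - F.X s' t, F.J s t - F.J s' t, F.Y s t - F.Y s' t, F.w s t - F.w s' t) with hz
  set z' : ℝ → ℝ × ℝ × ℝ × ℝ := fun t =>
    ((F.J s t + eX F s t) - (F.J s' t + eX F s' t),
      (e.α * e.Kx (F.X s t) (F.Y s t) t + eJ e F s t) -
        (e.α * e.Kx (F.X s' t) (F.Y s' t) t + eJ e F s' t),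
      (F.w s t + eY F s t) - (F.w s' t + eY F s' t),
      (e.l ^ 2 * e.k (F.Y s t) * deriv e.k (F.Y s t) + e.γ * e.Ky (F.X s t) (F.Y s t) t +
        ew e F s t) - (e.l ^ 2 * e.k (F.Y s' t) * deriv e.k (F.Y s' t) +
        e.γ * e.Ky (F.X s' t) (F.Y s' t) t + ew e F s' t)) with hz'
  have nz : ∀ t, ‖z t‖ ≤ dst F s s' t := by
    intro t
    have h1 := abs_nonneg (F.X s t - F.X s' t)
    have h2 := abs_nonneg (F.J s t - F.J s' t)
    have h3 := abs_nonneg (F.Y s t - F.Y s' t)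
    have h4 := abs_nonneg (F.w s t - F.w s' t)
    unfold dst
    simp only [hz, Prod.norm_def, Real.norm_eq_abs]
    refine max_le (by linarith) (max_le (by linarith) (max_le (by linarith) (by linarith)))
  have nz4 : ∀ t, dst F s s' t ≤ 4 * ‖z t‖ := by
    intro t
    have g1 : |F.X s t - F.X s' t| ≤ ‖z t‖ := by
      simp only [hz, Prod.norm_def, Real.norm_eq_abs]
      exact le_max_left _ _
    have g2 : |F.J s t - F.J s' t| ≤ ‖z t‖ := by
      simp only [hz, Prod.norm_def, Real.norm_eq_abs]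
      exact (le_max_left _ _).trans (le_max_right _ _)
    have g3 : |F.Y s t - F.Y s' t| ≤ ‖z t‖ := by
      simp only [hz, Prod.norm_def, Real.norm_eq_abs]
      exact ((le_max_left _ _).trans (le_max_right _ _)).trans (le_max_right _ _)
    have g4 : |F.w s t - F.w s' t| ≤ ‖z t‖ := by
      simp only [hz, Prod.norm_def, Real.norm_eq_abs]
      exact ((le_max_right _ _).trans (le_max_right _ _)).trans (le_max_right _ _)
    unfold dst
    linarith
  have hder : ∀ t ∈ Icc t₀ t₁, HasDerivAt z (z' t) t := fun t ht =>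
    ((der_X ctl hs ht).sub (der_X ctl hs' ht)).prodMk
      (((der_J ctl hs ht).sub (der_J ctl hs' ht)).prodMk
        (((der_Y ctl hs ht).sub (der_Y ctl hs' ht)).prodMk
          ((der_w ctl hs ht).sub (der_w ctl hs' ht))))
  have hbd : ∀ t ∈ Icc t₀ t₁, ‖z' t‖ ≤ 4 * (2 * M + 1) * ‖z t‖ + 0 := by
    intro t ht
    obtain ⟨l1, l2, l3, l4⟩ := ctl.lip s hs s' hs' t ht
    obtain ⟨k1, k2⟩ := ok.lip (F.X s t) (F.Y s t) (F.X s' t) (F.Y s' t) t
    have k3 := hM.kkl (F.Y s t) (F.Y s' t)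
    have h1 := abs_nonneg (F.X s t - F.X s' t)
    have h2 := abs_nonneg (F.J s t - F.J s' t)
    have h3 := abs_nonneg (F.Y s t - F.Y s' t)
    have h4 := abs_nonneg (F.w s t - F.w s' t)
    have hD0 : 0 ≤ dst F s s' t := by unfold dst; linarith
    have hDX : |F.X s t - F.X s' t| + |F.Y s t - F.Y s' t| ≤ dst F s s' t := by
      unfold dst; linarith
    have hDY : |F.Y s t - F.Y s' t| ≤ dst F s s' t := by unfold dst; linarith
    have hDJ : |F.J s t - F.J s' t| ≤ dst F s s' t := by unfold dst; linarith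
    have hDw : |F.w s t - F.w s' t| ≤ dst F s s' t := by unfold dst; linarith
    have hεD : ε * dst F s s' t ≤ dst F s s' t := mul_le_of_le_one_left hD0 hε1
    have hMD : dst F s s' t ≤ M * dst F s s' t := le_mul_of_one_le_left hD0 hM1
    have hl2 : e.l ^ 2 ≤ 1 := by
      have := ok.hl
      have := ok.hl1
      nlinarith
    have c1 : |(F.J s t + eX F s t) - (F.J s' t + eX F s' t)| ≤
        (2 * M + 1) * dst F s s' t := by
      rw [show (F.J s t + eX F s t) - (F.J s' t + eX F s' t) =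
        (F.J s t - F.J s' t) + (eX F s t - eX F s' t) by ring]
      refine (abs_add_le _ _).trans ?_
      linarith
    have c2 : |(e.α * e.Kx (F.X s t) (F.Y s t) t + eJ e F s t) -
        (e.α * e.Kx (F.X s' t) (F.Y s' t) t + eJ e F s' t)| ≤ (2 * M + 1) * dst F s s' t := by
      rw [show (e.α * e.Kx (F.X s t) (F.Y s t) t + eJ e F s t) -
        (e.α * e.Kx (F.X s' t) (F.Y s' t) t + eJ e F s' t) =
        e.α * (e.Kx (F.X s t) (F.Y s t) t - e.Kx (F.X s' t) (F.Y s' t) t) +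
          (eJ e F s t - eJ e F s' t) by ring]
      refine (abs_add_le _ _).trans ?_
      rw [abs_mul, abs_of_pos ok.hα]
      have : e.α * |e.Kx (F.X s t) (F.Y s t) t - e.Kx (F.X s' t) (F.Y s' t) t| ≤
        M * dst F s s' t := mul_le_mul hM.al (k1.trans hDX) (abs_nonneg _) (by linarith)
      linarith
    have c3 : |(F.w s t + eY F s t) - (F.w s' t + eY F s' t)| ≤ (2 * M + 1) * dst F s s' t := by
      rw [show (F.w s t + eY F s t) - (F.w s' t + eY F s' t) =
        (F.w s t - F.w s' t) + (eY F s t - eY F s' t) by ring]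
      refine (abs_add_le _ _).trans ?_
      linarith
    have c4 : |(e.l ^ 2 * e.k (F.Y s t) * deriv e.k (F.Y s t) +
        e.γ * e.Ky (F.X s t) (F.Y s t) t + ew e F s t) -
        (e.l ^ 2 * e.k (F.Y s' t) * deriv e.k (F.Y s' t) +
        e.γ * e.Ky (F.X s' t) (F.Y s' t) t + ew e F s' t)| ≤ (2 * M + 1) * dst F s s' t := by
      rw [show (e.l ^ 2 * e.k (F.Y s t) * deriv e.k (F.Y s t) +
        e.γ * e.Ky (F.X s t) (F.Y s t) t + ew e F s t) -
        (e.l ^ 2 * e.k (F.Y s' t) * deriv e.k (F.Y s' t) +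
        e.γ * e.Ky (F.X s' t) (F.Y s' t) t + ew e F s' t) =
        (e.l ^ 2 * (e.k (F.Y s t) * deriv e.k (F.Y s t) - e.k (F.Y s' t) * deriv e.k (F.Y s' t)) +
        e.γ * (e.Ky (F.X s t) (F.Y s t) t - e.Ky (F.X s' t) (F.Y s' t) t)) +
        (ew e F s t - ew e F s' t) by ring]
      refine (abs_add_le _ _).trans ?_
      have d1 := abs_add_le
        (e.l ^ 2 * (e.k (F.Y s t) * deriv e.k (F.Y s t) - e.k (F.Y s' t) * deriv e.k (F.Y s' t)))
        (e.γ * (e.Ky (F.X s t) (F.Y s t) t - e.Ky (F.X s' t) (F.Y s' t) t))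
      rw [abs_mul, abs_mul, abs_of_pos ok.hγ, abs_of_nonneg (sq_nonneg e.l)] at d1
      have d2 : e.γ * |e.Ky (F.X s t) (F.Y s t) t - e.Ky (F.X s' t) (F.Y s' t) t| ≤
        M * dst F s s' t := mul_le_mul hM.ga (k2.trans hDX) (abs_nonneg _) (by linarith)
      have d3 : e.l ^ 2 * |e.k (F.Y s t) * deriv e.k (F.Y s t) -
          e.k (F.Y s' t) * deriv e.k (F.Y s' t)| ≤ 1 * (M * dst F s s' t) :=
        mul_le_mul hl2 (k3.trans (mul_le_mul_of_nonneg_left hDY (by linarith)))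
          (abs_nonneg _) zero_le_one
      linarith
    have hfin : (2 * M + 1) * dst F s s' t ≤ 4 * (2 * M + 1) * ‖z t‖ := by
      have := mul_le_mul_of_nonneg_left (nz4 t) (show 0 ≤ 2 * M + 1 by linarith)
      linarith
    rw [add_zero]
    refine le_trans ?_ hfin
    simp only [hz', Prod.norm_def, Real.norm_eq_abs]
    exact max_le c1 (max_le c2 (max_le c3 c4))
  have ht₀ : t₀ ∈ Icc t₀ t₁ := ⟨le_rfl, ht.1.trans ht.2⟩
  have h1 := gron (f := z) (f' := z') (A := 4 * (2 * M + 1)) (B := 0) (by linarith) le_rfl hder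
    hbd t ht t₀ ht₀
  rw [zero_mul, add_zero] at h1
  have h2 := nz4 t
  have h3 := nz t₀
  have hE := Real.exp_pos (4 * (2 * M + 1) * (t₁ - t₀))
  calc dst F s s' t ≤ 4 * ‖z t‖ := h2
    _ ≤ 4 * (‖z t₀‖ * Real.exp (4 * (2 * M + 1) * (t₁ - t₀))) := by linarith
    _ ≤ 4 * (dst F s s' t₀ * Real.exp (4 * (2 * M + 1) * (t₁ - t₀))) := by
      have := mul_le_mul_of_nonneg_right h3 hE.le
      linarith
    _ = _ := by ring

/-- difference of the perturbation along two curves in the tube -/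
theorem dKy {e : Env} {j₀ : ℕ} (ok : EnvOK e j₀) {M : ℝ} (hM : Cst e M) {j : ℕ}
    (hj : j₀ ≤ j) (hj1 : 1 ≤ j) {X Y X' Y' t C : ℝ} (N : ℤ)
    (h1 : -(1 / 4) ≤ Y) (h2 : Y ≤ 5 / 4)
    (h : |Y - 1 / 2| ≤ 1 / 4 → |eta (e.l * e.c) j Y (t - N)| ≤ ss (e.l * e.c) j)
    (h1' : -(1 / 4) ≤ Y') (h2' : Y' ≤ 5 / 4)
    (h' : |Y' - 1 / 2| ≤ 1 / 4 → |eta (e.l * e.c) j Y' (t - N)| ≤ ss (e.l * e.c) j)
    (hs : ss (e.l * e.c) j ≤ 1) (hC : 0 ≤ C) (hYY : |Y - Y'| ≤ C * ss (e.l * e.c) j) :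
    |e.Ky X Y t - e.Ky X' Y' t - ee j * e.χ Y * (Y - Y')| ≤
      ee j * (M * ((3 + C) * ss (e.l * e.c) j) * |Y - Y'|) := by
  obtain ⟨t1, t2, -, -⟩ := tubeAt ok hj X Y t N h1 h2 h
  obtain ⟨t1', t2', -, -⟩ := tubeAt ok hj X' Y' t N h1' h2' h'
  have he := ee_pos hj1
  have hss := ss_pos (u_pos ok) hj1
  have hM1 := hM.one
  have hD := abs_nonneg (Y - Y')
  have hηη : eta (e.l * e.c) j Y (t - N) - eta (e.l * e.c) j Y' (t - N) = Y - Y' := by
    unfold eta; ring
  rw [t1, t1']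
  set η := eta (e.l * e.c) j Y (t - N)
  set η' := eta (e.l * e.c) j Y' (t - N)
  set σ := ss (e.l * e.c) j
  have cl := hM.cl Y Y'
  have cl1 := hM.c1l Y Y'
  have c0 := hM.c0 Y
  have c1 := hM.c1 Y
  rw [show ee j * (η * e.χ Y + η ^ 2 / 2 * deriv e.χ Y) -
    ee j * (η' * e.χ Y' + η' ^ 2 / 2 * deriv e.χ Y') - ee j * e.χ Y * (Y - Y') =
    ee j * ((η * e.χ Y + η ^ 2 / 2 * deriv e.χ Y) - (η' * e.χ Y' + η' ^ 2 / 2 * deriv e.χ Y') -
      e.χ Y * (Y - Y')) by ring, abs_mul, abs_of_pos he]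
  refine mul_le_mul_of_nonneg_left ?_ he.le
  have hCD : 0 ≤ M * (C * σ) * |Y - Y'| := by positivity
  have h3D : 0 ≤ M * σ * |Y - Y'| := by positivity
  have hσ2 : σ ^ 2 ≤ σ := by nlinarith
  have sqb : ∀ x : ℝ, |x| ≤ σ → |x ^ 2 / 2| ≤ σ := by
    intro x hx
    rw [abs_of_nonneg (by positivity)]
    have h5 : x ^ 2 ≤ σ ^ 2 := by
      rw [← sq_abs x]
      exact pow_le_pow_left₀ (abs_nonneg _) hx 2
    linarith [sq_nonneg σ]
  have e0 : M * ((3 + C) * σ) * |Y - Y'| = 3 * (M * σ * |Y - Y'|) + M * (C * σ) * |Y - Y'| := by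
    ring
  rw [e0]
  rcases t2' with h3' | ⟨h3', h4'⟩
  · rcases t2 with h3 | ⟨h3, h4⟩
    · -- both in the tube
      rw [show (η * e.χ Y + η ^ 2 / 2 * deriv e.χ Y) - (η' * e.χ Y' + η' ^ 2 / 2 * deriv e.χ Y') -
        e.χ Y * (Y - Y') = η' * (e.χ Y - e.χ Y') + ((η + η') / 2 * (Y - Y') * deriv e.χ Y +
          η' ^ 2 / 2 * (deriv e.χ Y - deriv e.χ Y')) by
        rw [← hηη]; ring]
      have g1 : |η' * (e.χ Y - e.χ Y')| ≤ σ * (M * |Y - Y'|) := by
        rw [abs_mul]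
        exact mul_le_mul h3' cl (abs_nonneg _) hss.le
      have g2 : |(η + η') / 2 * (Y - Y') * deriv e.χ Y| ≤ σ * |Y - Y'| * M := by
        rw [abs_mul, abs_mul]
        have : |(η + η') / 2| ≤ σ := by
          rw [abs_le] at h3 h3' ⊢
          constructor <;> linarith [h3.1, h3.2, h3'.1, h3'.2]
        exact mul_le_mul (mul_le_mul_of_nonneg_right this hD) c1 (abs_nonneg _) (by positivity)
      have g3 : |η' ^ 2 / 2 * (deriv e.χ Y - deriv e.χ Y')| ≤ σ * (M * |Y - Y'|) := by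
        rw [abs_mul]
        exact mul_le_mul (sqb η' h3') cl1 (abs_nonneg _) hss.le
      refine (abs_add_le _ _).trans ?_
      have := abs_add_le ((η + η') / 2 * (Y - Y') * deriv e.χ Y)
        (η' ^ 2 / 2 * (deriv e.χ Y - deriv e.χ Y'))
      linarith
    · rw [h3, h4]
      rw [show η * 0 + η ^ 2 / 2 * 0 - (η' * e.χ Y' + η' ^ 2 / 2 * deriv e.χ Y') -
        0 * (Y - Y') = -(η' * e.χ Y' + η' ^ 2 / 2 * deriv e.χ Y') by ring, abs_neg]
      rw [h3, zero_sub, abs_neg] at cl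
      rw [h4, zero_sub, abs_neg] at cl1
      have g1 : |η' * e.χ Y'| ≤ σ * (M * |Y - Y'|) := by
        rw [abs_mul]
        exact mul_le_mul h3' cl (abs_nonneg _) hss.le
      have g3 : |η' ^ 2 / 2 * deriv e.χ Y'| ≤ σ * (M * |Y - Y'|) := by
        rw [abs_mul]
        exact mul_le_mul (sqb η' h3') cl1 (abs_nonneg _) hss.le
      refine (abs_add_le _ _).trans ?_
      linarith
  · rw [h3', h4']
    rw [h3', sub_zero] at cl
    rw [h4', sub_zero] at cl1
    rcases t2 with h3 | ⟨h3, h4⟩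
    · rw [show (η * e.χ Y + η ^ 2 / 2 * deriv e.χ Y) - (η' * 0 + η' ^ 2 / 2 * 0) -
        e.χ Y * (Y - Y') = (η * e.χ Y + η ^ 2 / 2 * deriv e.χ Y) + -(e.χ Y * (Y - Y')) by ring]
      have g1 : |η * e.χ Y| ≤ σ * (M * |Y - Y'|) := by
        rw [abs_mul]
        exact mul_le_mul h3 cl (abs_nonneg _) hss.le
      have g3 : |η ^ 2 / 2 * deriv e.χ Y| ≤ σ * (M * |Y - Y'|) := by
        rw [abs_mul]
        exact mul_le_mul (sqb η h3) cl1 (abs_nonneg _) hss.le
      have g4 : |-(e.χ Y * (Y - Y'))| ≤ M * |Y - Y'| * (C * σ) := by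
        rw [abs_neg, abs_mul]
        exact mul_le_mul cl hYY hD (by positivity)
      refine (abs_add_le _ _).trans ?_
      have := abs_add_le (η * e.χ Y) (η ^ 2 / 2 * deriv e.χ Y)
      linarith
    · rw [h3, h4]
      simp only [mul_zero, zero_mul, add_zero, sub_self, abs_zero]
      linarith

theorem k_bot {e : Env} {j₀ : ℕ} (ok : EnvOK e j₀) {F : Fam} {s t : ℝ} (h : |F.Y s t| ≤ 1 / 8) :
    rho e F s t = ze e F s t := by
  unfold rho ze
  rw [ok.prof.lin _ h]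

theorem k_top {e : Env} {j₀ : ℕ} (ok : EnvOK e j₀) {F : Fam} {s t : ℝ}
    (h : |F.Y s t - 1| ≤ 1 / 8) : rho e F s t = xi e F s t - e.l := by
  have h1 := ok.prof.anti (F.Y s t - 1)
  rw [sub_add_cancel, ok.prof.lin _ h] at h1
  unfold rho xi
  rw [h1]
  ring

/-- the error terms in the equation of the difference of `rho` -/
theorem err_bd {l M k1 k2 r w y1 y2 dY ε D R : ℝ} (hl : 0 ≤ l) (hl1 : l ≤ 1 / 2) (hM : 0 ≤ M)
    (_hε : 0 ≤ ε) (hk1 : |k1| ≤ M) (hk : |k1 - k2| ≤ M * dY) (hdY : dY ≤ D) (hdY0 : 0 ≤ dY)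
    (hr : |r| ≤ R) (hw : |w| ≤ ε * D) (hy : |y1 - y2| ≤ ε * D) (hy2 : |y2| ≤ ε) :
    |-(l * (k1 - k2) * r) + w - l * (k1 * y1 - k2 * y2)| ≤ M * D * R + (ε * D + M * ε * D) := by
  have hD : 0 ≤ D := hdY0.trans hdY
  have hR : 0 ≤ R := (abs_nonneg _).trans hr
  have g1 : |-(l * (k1 - k2) * r)| ≤ M * D * R := by
    rw [abs_neg, abs_mul, abs_mul, abs_of_nonneg hl]
    have : l * |k1 - k2| ≤ M * D := by
      calc l * |k1 - k2| ≤ 1 * (M * D) := mul_le_mul (by linarith)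
            (hk.trans (mul_le_mul_of_nonneg_left hdY hM)) (abs_nonneg _) zero_le_one
        _ = M * D := one_mul _
    exact mul_le_mul this hr (abs_nonneg _) (by positivity)
  have g2 : |l * (k1 * y1 - k2 * y2)| ≤ M * ε * D := by
    rw [abs_mul, abs_of_nonneg hl, show k1 * y1 - k2 * y2 = k1 * (y1 - y2) + (k1 - k2) * y2 by ring]
    have h1 : |k1 * (y1 - y2)| ≤ M * (ε * D) := by
      rw [abs_mul]; exact mul_le_mul hk1 hy (abs_nonneg _) hM
    have h2 : |(k1 - k2) * y2| ≤ M * D * ε := by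
      rw [abs_mul]
      exact mul_le_mul (hk.trans (mul_le_mul_of_nonneg_left hdY hM)) hy2 (abs_nonneg _)
        (by positivity)
    have h3 : |k1 * (y1 - y2) + (k1 - k2) * y2| ≤ 2 * (M * ε * D) := by
      refine (abs_add_le _ _).trans ?_
      linarith
    calc l * |k1 * (y1 - y2) + (k1 - k2) * y2| ≤ 1 / 2 * (2 * (M * ε * D)) :=
          mul_le_mul hl1 h3 (abs_nonneg _) (by norm_num)
      _ = M * ε * D := by ring
  have h4 := abs_add_le (-(l * (k1 - k2) * r) + w) (-(l * (k1 * y1 - k2 * y2)))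
  have h5 := abs_add_le (-(l * (k1 - k2) * r)) w
  rw [abs_neg] at h4
  rw [sub_eq_add_neg]
  linarith

theorem core {e : Env} {j₀ : ℕ} {H : ℝ → ℝ} (ok : EnvOK e j₀) (hH : Hom e H) {M : ℝ}
    (hM : Cst e M) {m : ℕ} (hm : 2 ≤ m)
    {z₁ z₂ κ : ℝ} (hz : z₁ < z₂) (hz1 : -(m : ℝ) + 1 ≤ z₁) (hz2 : z₂ ≤ 0)
    (hw : ∀ z ∈ Icc z₁ z₂, ∀ y, |y - H z| ≤ κ → 1 ≤ e.χ y ∧ e.k y = e.c)
    {CD E₁ CR G CT θ c₈ : ℝ} (hCD : CD = 12 * Real.exp (4 * (2 * M + 1) * (2 * m)))
    (hE₁ : E₁ = Real.exp (M * (2 * m))) (hCR : CR = (1 + 8 * m * M ^ 2 * CD) * E₁)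
    (hG : G = (z₂ - z₁) * (e.c * e.γ * (1 / (2 * E₁))))
    (hCT : CT = M * CR + M ^ 2 * CD + 2 * M * CD)
    (hθ1 : θ ≤ 1) (hθ : θ * CT * (2 * m) ≤ G / 4) (hc8 : c₈ ≤ 1) (hc8' : c₈ ≤ G / 4)
    {C C₇ : ℝ} (hC₇ : 1 ≤ C₇) {j : ℕ} (hj : j₀ ≤ j) (hj1 : 1 ≤ j) {F : Fam} {a b : ℝ} {T : ℕ}
    {ε K₁ : ℝ}
    (i1 : C₇ * ss (e.l * e.c) j ≤ 1 / 8) (i1' : C₇ * ss (e.l * e.c) j ≤ κ)
    (i6 : C₇ * ss (e.l * e.c) j ≤ H (m - 1) - 7 / 8)
    (i7 : C₇ * ss (e.l * e.c) j ≤ 1 / 8 - H (-m + 1))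
    (i2 : C₇ * (ee j * ss (e.l * e.c) j) + ε ≤ θ * ee j)
    (i3 : (3 + 2 * C₇) * ss (e.l * e.c) j ≤ θ)
    (i5 : 4 * m * CR * ee j ≤ 1 / (2 * E₁))
    (hE : Ent e H m j F a b T ε C) (hT : Thr e H m j F a b T C₇)
    (hK1 : K₁ ≤ c₈ * ee j)
    (hc : ∀ s ∈ Icc a b, ∀ s' ∈ Icc a b, |ze e F s T - ze e F s' T| + |F.X s T - F.X s' T| +
        |F.J s T - F.J s' T| ≤ K₁ * |F.Y s T - F.Y s' T|)
    {s s' : ℝ} (hs : s ∈ Icc a b) (hs' : s' ∈ Icc a b) (hpos : F.Y s' T ≤ F.Y s T) :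
    dst F s s' (T + 2 * m) ≤ CD * (F.Y s T - F.Y s' T) ∧
    (F.Y s' T < F.Y s T → G / 2 * ee j * (F.Y s T - F.Y s' T) ≤
      |xi e F s (T + 2 * m) - xi e F s' (T + 2 * m)|) := by
  have hM1 := hM.one
  have hM0 : 0 < M := by linarith
  have hmR : (2 : ℝ) ≤ m := by exact_mod_cast hm
  have hu := u_pos ok
  have he := ee_pos hj1
  have he1 := ee_le hj1
  have hss := ss_pos hu hj1
  have htau := tau_pos hj1
  have htau1 := tau_le hj1
  have hl := ok.hl
  have hl1 := ok.hl1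
  have hs1 : ss (e.l * e.c) j ≤ 1 := by
    have := (le_mul_of_one_le_left hss.le hC₇).trans i1
    linarith
  have hθ0 : 0 ≤ θ := le_trans (by positivity) i3
  have hCεσ : 0 ≤ C₇ * (ee j * ss (e.l * e.c) j) := by positivity
  have hε : 0 ≤ ε := by
    have h0 := (hE.ctl.bd a ⟨le_rfl, hE.le⟩ T ⟨le_rfl, by linarith⟩).1
    exact (abs_nonneg _).trans h0
  have hεθ : ε ≤ θ * ee j := by linarith
  have hεe : ε ≤ ee j := hεθ.trans (mul_le_of_le_one_left he.le hθ1)
  have hε1 : ε ≤ 1 := hεe.trans he1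
  have hK1e : K₁ ≤ ee j := hK1.trans (mul_le_of_le_one_left he.le hc8)
  have hE1 : 1 ≤ E₁ := by
    rw [hE₁]; exact Real.one_le_exp (by positivity)
  have hCD12 : 12 ≤ CD := by
    rw [hCD]
    have : 1 ≤ Real.exp (4 * (2 * M + 1) * (2 * m)) := Real.one_le_exp (by positivity)
    linarith
  have hCRD : CD ≤ CR := by
    rw [hCR]
    have g1 : CD ≤ 1 + 8 * m * M ^ 2 * CD := by
      have : 1 ≤ 8 * m * M ^ 2 := by
        have h2 : 1 ≤ M ^ 2 := one_le_pow₀ hM1
        have h3 : (1 : ℝ) ≤ 8 * m := by linarith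
        calc (1 : ℝ) = 1 * 1 := by ring
          _ ≤ 8 * m * M ^ 2 := mul_le_mul h3 h2 zero_le_one (by linarith)
      have := mul_le_mul_of_nonneg_right this (show 0 ≤ CD by linarith)
      linarith
    exact g1.trans (le_mul_of_one_le_right (by linarith) hE1)
  have hCR0 : 0 < CR := by linarith
  set δ : ℝ := F.Y s T - F.Y s' T with hδ
  have hδ0 : 0 ≤ δ := sub_nonneg.2 hpos
  have habsδ : |F.Y s T - F.Y s' T| = δ := abs_of_nonneg hδ0
  have ctl := hE.ctl
  have hTT : (T : ℝ) ≤ T + 2 * m := by linarith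
  have tT : (T : ℝ) ∈ Icc (T : ℝ) (T + 2 * m) := ⟨le_rfl, hTT⟩
  have tL : (T + 2 * m : ℝ) ∈ Icc (T : ℝ) (T + 2 * m) := ⟨hTT, le_rfl⟩
  -- the distance
  have hD0 : dst F s s' T ≤ 3 * δ := by
    have h1 := hc s hs s' hs'
    rw [habsδ] at h1
    have h2 : K₁ * δ ≤ δ := mul_le_of_le_one_left hδ0 (hK1e.trans he1)
    have h3 : |F.w s T - F.w s' T| ≤ |ze e F s T - ze e F s' T| + e.l * δ := by
      have : F.w s T - F.w s' T = (ze e F s T - ze e F s' T) + e.l * δ := by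
        unfold ze; rw [hδ]; ring
      rw [this]
      refine (abs_add_le _ _).trans ?_
      rw [abs_of_nonneg (mul_nonneg hl.le hδ0)]
    have h4 : e.l * δ ≤ δ := mul_le_of_le_one_left hδ0 (by linarith)
    unfold dst
    rw [habsδ]
    linarith
  have hD : ∀ t ∈ Icc (T : ℝ) (T + 2 * m), dst F s s' t ≤ CD * δ := by
    intro t ht
    have h1 := D_bd ok hM ctl hε1 hs hs' t ht
    rw [show (T : ℝ) + 2 * m - T = 2 * m by ring] at h1
    have h2 := mul_le_mul_of_nonneg_left hD0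
      (show 0 ≤ 4 * Real.exp (4 * (2 * M + 1) * (2 * m)) by positivity)
    rw [hCD]
    linarith
  refine ⟨hD _ tL, fun hlt => ?_⟩
  have hδpos : 0 < δ := sub_pos.2 hlt
  have hDY : ∀ t ∈ Icc (T : ℝ) (T + 2 * m), |F.Y s t - F.Y s' t| ≤ CD * δ := by
    intro t ht
    refine le_trans ?_ (hD t ht)
    unfold dst
    have h1 := abs_nonneg (F.X s t - F.X s' t)
    have h2 := abs_nonneg (F.J s t - F.J s' t)
    have h4 := abs_nonneg (F.w s t - F.w s' t)
    linarith
  -- location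
  have loc : ∀ x ∈ Icc a b, ∀ t ∈ Icc (T : ℝ) (T + 2 * m),
      -(1 / 4) ≤ F.Y x t ∧ F.Y x t ≤ 5 / 4 := by
    intro x hx t ht
    have h1 := (hT.near x hx t ht).1
    have h2 := hH.mem (t - T - m - tau j)
    have h3 := abs_le.1 (h1.trans i1)
    constructor <;> linarith
  have tub : ∀ x ∈ Icc a b, ∀ t ∈ Icc (T : ℝ) (T + 2 * m), |F.Y x t - 1 / 2| ≤ 1 / 4 →
      |eta (e.l * e.c) j (F.Y x t) (t - ((T + m : ℤ) : ℝ))| ≤ ss (e.l * e.c) j := by
    intro x hx t ht h
    have := hT.tube x hx t ht h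
    rw [show t - ((T + m : ℤ) : ℝ) = t - T - m by push_cast; ring]
    exact this
  have hK : ∀ t ∈ Icc (T : ℝ) (T + 2 * m), |e.Ky (F.X s t) (F.Y s t) t -
      e.Ky (F.X s' t) (F.Y s' t) t - ee j * e.χ (F.Y s t) * (F.Y s t - F.Y s' t)| ≤
      M * CD * (θ * ee j * δ) := by
    intro t ht
    have h1 := dKy ok hM hj hj1 (X := F.X s t) (X' := F.X s' t) (C := 2 * C₇) (T + m : ℤ)
      (loc s hs t ht).1 (loc s hs t ht).2 (tub s hs t ht) (loc s' hs' t ht).1 (loc s' hs' t ht).2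
      (tub s' hs' t ht) hs1 (by linarith) (by
        have g1 := (hT.near s hs t ht).1
        have g2 := (hT.near s' hs' t ht).1
        rw [abs_sub_comm] at g2
        have g3 := abs_sub_le (F.Y s t) (H (t - T - m - tau j)) (F.Y s' t)
        linarith)
    refine h1.trans ?_
    have h2 : M * ((3 + 2 * C₇) * ss (e.l * e.c) j) * |F.Y s t - F.Y s' t| ≤
        M * θ * (CD * δ) :=
      mul_le_mul (mul_le_mul_of_nonneg_left i3 hM0.le) (hDY t ht) (abs_nonneg _) (by positivity)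
    calc ee j * (M * ((3 + 2 * C₇) * ss (e.l * e.c) j) * |F.Y s t - F.Y s' t|) ≤
          ee j * (M * θ * (CD * δ)) := mul_le_mul_of_nonneg_left h2 he.le
      _ = _ := by ring
  -- the error term
  set err : ℝ → ℝ := fun t => -(e.l * (deriv e.k (F.Y s t) - deriv e.k (F.Y s' t)) *
    rho e F s' t) + (ew e F s t - ew e F s' t) - e.l * (deriv e.k (F.Y s t) * eY F s t -
      deriv e.k (F.Y s' t) * eY F s' t) with herr
  have herrb : ∀ t ∈ Icc (T : ℝ) (T + 2 * m), |err t| ≤ 2 * M * CD * (θ * ee j * δ) := by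
    intro t ht
    obtain ⟨-, l2, l3, -⟩ := ctl.lip s hs s' hs' t ht
    have b2 := (ctl.bd s' hs' t ht).2.1
    have h1 := err_bd (l := e.l) (M := M) (k1 := deriv e.k (F.Y s t))
      (k2 := deriv e.k (F.Y s' t)) (r := rho e F s' t) (w := ew e F s t - ew e F s' t)
      (y1 := eY F s t) (y2 := eY F s' t) (dY := |F.Y s t - F.Y s' t|) (ε := ε) (D := CD * δ)
      (R := C₇ * (ee j * ss (e.l * e.c) j)) hl.le hl1 hM0.le hε (hM.k1 _) (hM.k1l _ _)
      (hDY t ht) (abs_nonneg _) (hT.near s' hs' t ht).2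
      (l3.trans (mul_le_mul_of_nonneg_left (hD t ht) hε))
      (l2.trans (mul_le_mul_of_nonneg_left (hD t ht) hε)) b2
    refine h1.trans ?_
    have hCDδ : 0 ≤ CD * δ := by positivity
    have g1 : ε * (CD * δ) ≤ M * (ε * (CD * δ)) := le_mul_of_one_le_left (by positivity) hM1
    have g2 := mul_le_mul_of_nonneg_left i2 (show 0 ≤ 2 * M * (CD * δ) by positivity)
    have g3 : 0 ≤ M * (CD * δ) * (C₇ * (ee j * ss (e.l * e.c) j)) := by positivity
    have e1 : 2 * M * (CD * δ) * (C₇ * (ee j * ss (e.l * e.c) j) + ε) =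
      2 * (M * (CD * δ) * (C₇ * (ee j * ss (e.l * e.c) j))) + 2 * (M * (ε * (CD * δ))) := by ring
    have e2 : 2 * M * (CD * δ) * (θ * ee j) = 2 * M * CD * (θ * ee j * δ) := by ring
    have e3 : M * ε * (CD * δ) = M * (ε * (CD * δ)) := by ring
    rw [e1, e2] at g2
    rw [e3]
    linarith
  -- the difference of `rho`
  have hθδ : θ * ee j * δ ≤ ee j * δ := by
    rw [mul_assoc]; exact mul_le_of_le_one_left (by positivity) hθ1
  have hder : ∀ t ∈ Icc (T : ℝ) (T + 2 * m), HasDerivAt (fun t => rho e F s t - rho e F s' t)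
      (-(e.l * deriv e.k (F.Y s t)) * (rho e F s t - rho e F s' t) +
        (e.γ * (e.Ky (F.X s t) (F.Y s t) t - e.Ky (F.X s' t) (F.Y s' t) t) + err t)) t := by
    intro t ht
    refine ((der_rho hM ctl hs ht).sub (der_rho hM ctl hs' ht)).congr_deriv ?_
    rw [herr]
    ring
  have hγK : ∀ t ∈ Icc (T : ℝ) (T + 2 * m),
      |e.γ * (e.Ky (F.X s t) (F.Y s t) t - e.Ky (F.X s' t) (F.Y s' t) t)| ≤
      2 * M ^ 2 * CD * (ee j * δ) := by
    intro t ht
    rw [abs_mul, abs_of_pos ok.hγ]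
    have h1 := hK t ht
    have h2 : |ee j * e.χ (F.Y s t) * (F.Y s t - F.Y s' t)| ≤ ee j * M * (CD * δ) := by
      rw [abs_mul, abs_mul, abs_of_pos he]
      exact mul_le_mul (mul_le_mul_of_nonneg_left (hM.c0 _) he.le) (hDY t ht) (abs_nonneg _)
        (by positivity)
    have h3 : |e.Ky (F.X s t) (F.Y s t) t - e.Ky (F.X s' t) (F.Y s' t) t| ≤
        2 * M * CD * (ee j * δ) := by
      have := abs_add_le (e.Ky (F.X s t) (F.Y s t) t - e.Ky (F.X s' t) (F.Y s' t) t -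
        ee j * e.χ (F.Y s t) * (F.Y s t - F.Y s' t))
        (ee j * e.χ (F.Y s t) * (F.Y s t - F.Y s' t))
      rw [sub_add_cancel] at this
      have h4 := mul_le_mul_of_nonneg_left hθδ (show 0 ≤ M * CD by positivity)
      have h5 : ee j * M * (CD * δ) = M * CD * (ee j * δ) := by ring
      linarith
    calc e.γ * |e.Ky (F.X s t) (F.Y s t) t - e.Ky (F.X s' t) (F.Y s' t) t| ≤
          M * (2 * M * CD * (ee j * δ)) := mul_le_mul hM.ga h3 (abs_nonneg _) hM0.le
      _ = _ := by ring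
  have hY0 : ∀ x ∈ Icc a b, |F.Y x T| ≤ 1 / 8 := by
    intro x hx
    have h1 := abs_le.1 (hT.near x hx T tT).1
    have h2 := hH.mem (T - T - m - tau j)
    have h3 : H (T - T - m - tau j) ≤ H (-m + 1) := hH.mon.monotone (by linarith)
    rw [abs_le]
    constructor <;> linarith
  have hr0 : |rho e F s T - rho e F s' T| ≤ K₁ * δ := by
    rw [k_bot ok (hY0 s hs), k_bot ok (hY0 s' hs')]
    have h1 := hc s hs s' hs'
    rw [habsδ] at h1
    have h2 := abs_nonneg (F.X s T - F.X s' T)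
    have h3 := abs_nonneg (F.J s T - F.J s' T)
    linarith
  have hR : ∀ t ∈ Icc (T : ℝ) (T + 2 * m), |rho e F s t - rho e F s' t| ≤
      CR * (ee j * δ) := by
    intro t ht
    have h1 := gron (f := fun t => rho e F s t - rho e F s' t)
      (f' := fun t => -(e.l * deriv e.k (F.Y s t)) * (rho e F s t - rho e F s' t) +
        (e.γ * (e.Ky (F.X s t) (F.Y s t) t - e.Ky (F.X s' t) (F.Y s' t) t) + err t))
      (A := M) (B := 4 * M ^ 2 * CD * (ee j * δ)) hM0 (by positivity) hder (fun t ht => by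
        simp only [Real.norm_eq_abs]
        have g1 : |-(e.l * deriv e.k (F.Y s t)) * (rho e F s t - rho e F s' t)| ≤
            M * |rho e F s t - rho e F s' t| := by
          rw [abs_mul, abs_neg, abs_mul, abs_of_pos hl]
          refine mul_le_mul_of_nonneg_right ?_ (abs_nonneg _)
          calc e.l * |deriv e.k (F.Y s t)| ≤ 1 * M :=
                mul_le_mul (by linarith) (hM.k1 _) (abs_nonneg _) zero_le_one
            _ = M := one_mul _
        have g2 := hγK t ht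
        have g3 := herrb t ht
        have g4 := mul_le_mul_of_nonneg_left hθδ (show 0 ≤ 2 * M * CD by positivity)
        have g5 : 2 * M * CD * (ee j * δ) ≤ 2 * M ^ 2 * CD * (ee j * δ) := by
          have : 2 * M ^ 2 * CD * (ee j * δ) = M * (2 * M * CD * (ee j * δ)) := by ring
          rw [this]
          exact le_mul_of_one_le_left (by positivity) hM1
        have g6 := abs_add_le (-(e.l * deriv e.k (F.Y s t)) * (rho e F s t - rho e F s' t))
          (e.γ * (e.Ky (F.X s t) (F.Y s t) t - e.Ky (F.X s' t) (F.Y s' t) t) + err t)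
        have g7 := abs_add_le
          (e.γ * (e.Ky (F.X s t) (F.Y s t) t - e.Ky (F.X s' t) (F.Y s' t) t)) (err t)
        linarith) t ht T tT
    simp only [Real.norm_eq_abs] at h1
    refine h1.trans ?_
    rw [show (T : ℝ) + 2 * m - T = 2 * m by ring, ← hE₁]
    have h2 : K₁ * δ ≤ ee j * δ := mul_le_mul_of_nonneg_right hK1e hδ0
    have h3 : |rho e F s T - rho e F s' T| + 4 * M ^ 2 * CD * (ee j * δ) * (2 * m) ≤
        (1 + 8 * m * M ^ 2 * CD) * (ee j * δ) := by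
      have : (1 + 8 * m * M ^ 2 * CD) * (ee j * δ) = ee j * δ +
        4 * M ^ 2 * CD * (ee j * δ) * (2 * m) := by ring
      linarith
    calc (|rho e F s T - rho e F s' T| + 4 * M ^ 2 * CD * (ee j * δ) * (2 * m)) * E₁ ≤
          (1 + 8 * m * M ^ 2 * CD) * (ee j * δ) * E₁ := mul_le_mul_of_nonneg_right h3 (by linarith)
      _ = CR * (ee j * δ) := by rw [hCR]; ring
  -- lower bound for the difference of the positions
  have hYd : ∀ t ∈ Icc (T : ℝ) (T + 2 * m), HasDerivAt (fun t => F.Y s t - F.Y s' t)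
      ((F.w s t + eY F s t) - (F.w s' t + eY F s' t)) t := fun t ht =>
    (der_Y ctl hs ht).sub (der_Y ctl hs' ht)
  have hYlow : ∀ t ∈ Icc (T : ℝ) (T + 2 * m), 1 / (2 * E₁) * δ ≤ |F.Y s t - F.Y s' t| := by
    intro t ht
    have h1 := gron (f := fun t => F.Y s t - F.Y s' t)
      (f' := fun t => (F.w s t + eY F s t) - (F.w s' t + eY F s' t))
      (A := M) (B := 2 * CR * (ee j * δ)) hM0 (by positivity) hYd (fun t ht => by
        simp only [Real.norm_eq_abs]
        have e1 : (F.w s t + eY F s t) - (F.w s' t + eY F s' t) =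
            e.l * (e.k (F.Y s t) - e.k (F.Y s' t)) + (rho e F s t - rho e F s' t) +
            (eY F s t - eY F s' t) := by
          unfold rho; ring
        rw [e1]
        obtain ⟨-, l2, -, -⟩ := ctl.lip s hs s' hs' t ht
        have g1 : |e.l * (e.k (F.Y s t) - e.k (F.Y s' t))| ≤ M * |F.Y s t - F.Y s' t| := by
          rw [abs_mul, abs_of_pos hl]
          calc e.l * |e.k (F.Y s t) - e.k (F.Y s' t)| ≤ 1 * (M * |F.Y s t - F.Y s' t|) :=
                mul_le_mul (by linarith) (hM.kl _ _) (abs_nonneg _) zero_le_one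
            _ = _ := one_mul _
        have g2 := hR t ht
        have g3 : ε * dst F s s' t ≤ CR * (ee j * δ) := by
          calc ε * dst F s s' t ≤ ee j * (CR * δ) := mul_le_mul hεe
                ((hD t ht).trans (mul_le_mul_of_nonneg_right hCRD hδ0)) (by
                  unfold dst; positivity) he.le
            _ = _ := by ring
        have g4 := abs_add_le (e.l * (e.k (F.Y s t) - e.k (F.Y s' t)) +
          (rho e F s t - rho e F s' t)) (eY F s t - eY F s' t)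
        have g5 := abs_add_le (e.l * (e.k (F.Y s t) - e.k (F.Y s' t)))
          (rho e F s t - rho e F s' t)
        linarith) T tT t ht
    simp only [Real.norm_eq_abs] at h1
    rw [show (T : ℝ) + 2 * m - T = 2 * m by ring, ← hE₁, habsδ] at h1
    have hE0 : 0 < E₁ := by linarith
    have h2 : δ / E₁ ≤ |F.Y s t - F.Y s' t| + 2 * CR * (ee j * δ) * (2 * m) := by
      rw [div_le_iff₀ hE0]; exact h1
    have h3 : 2 * CR * (ee j * δ) * (2 * m) ≤ 1 / (2 * E₁) * δ := by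
      have := mul_le_mul_of_nonneg_right i5 hδ0
      calc 2 * CR * (ee j * δ) * (2 * m) = 4 * m * CR * ee j * δ := by ring
        _ ≤ _ := this
    have h4 : δ / E₁ = 1 / (2 * E₁) * δ + 1 / (2 * E₁) * δ := by field_simp; norm_num
    linarith
  have hYpos : ∀ t ∈ Icc (T : ℝ) (T + 2 * m), 0 < F.Y s t - F.Y s' t := by
    intro t ht
    by_contra hcon
    push Not at hcon
    have hcont : ContinuousOn (fun t => F.Y s t - F.Y s' t) (Icc (T : ℝ) t) := fun x hx =>
      (hYd x ⟨hx.1, hx.2.trans ht.2⟩).continuousAt.continuousWithinAt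
    obtain ⟨x, hx, hfx⟩ := intermediate_value_Icc' ht.1 hcont ⟨hcon, hδ0⟩
    have h1 := hYlow x ⟨hx.1, hx.2.trans ht.2⟩
    simp only at hfx
    rw [hfx, abs_zero] at h1
    have : 0 < 1 / (2 * E₁) * δ := by positivity
    linarith
  -- the product with the profile
  have hQd : ∀ t ∈ Icc (T : ℝ) (T + 2 * m), HasDerivAt
      (fun t => e.k (F.Y s t) * (rho e F s t - rho e F s' t))
      (deriv e.k (F.Y s t) * (rho e F s t + eY F s t) * (rho e F s t - rho e F s' t) +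
        e.k (F.Y s t) * (e.γ * (e.Ky (F.X s t) (F.Y s t) t - e.Ky (F.X s' t) (F.Y s' t) t) +
          err t)) t := by
    intro t ht
    refine ((der_k hM ctl hs ht).mul (hder t ht)).congr_deriv ?_
    unfold rho
    ring
  have hQlow : ∀ t ∈ Icc (T : ℝ) (T + 2 * m),
      e.k (F.Y s t) * e.χ (F.Y s t) * (e.γ * (1 / (2 * E₁))) * (ee j * δ) -
        CT * (θ * ee j * δ) ≤
      deriv e.k (F.Y s t) * (rho e F s t + eY F s t) * (rho e F s t - rho e F s' t) +
        e.k (F.Y s t) * (e.γ * (e.Ky (F.X s t) (F.Y s t) t - e.Ky (F.X s' t) (F.Y s' t) t) +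
          err t) := by
    intro t ht
    have b2 := (ctl.bd s hs t ht).2.1
    have g1 : |deriv e.k (F.Y s t) * (rho e F s t + eY F s t) *
        (rho e F s t - rho e F s' t)| ≤ M * CR * (θ * ee j * δ) := by
      rw [abs_mul, abs_mul]
      have h1 : |rho e F s t + eY F s t| ≤ θ * ee j :=
        (abs_add_le _ _).trans ((add_le_add (hT.near s hs t ht).2 b2).trans i2)
      have h2 := hR t ht
      have h3 : CR * (ee j * δ) ≤ CR * δ :=
        mul_le_mul_of_nonneg_left (mul_le_of_le_one_left hδ0 he1) hCR0.le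
      calc |deriv e.k (F.Y s t)| * |rho e F s t + eY F s t| * |rho e F s t - rho e F s' t| ≤
            M * (θ * ee j) * (CR * δ) :=
            mul_le_mul (mul_le_mul (hM.k1 _) h1 (abs_nonneg _) hM0.le) (h2.trans h3)
              (abs_nonneg _) (by positivity)
        _ = _ := by ring
    have hk1 := ok.prof.le_one (F.Y s t)
    have g2 : |e.k (F.Y s t) * err t| ≤ 2 * M * CD * (θ * ee j * δ) := by
      rw [abs_mul]
      calc |e.k (F.Y s t)| * |err t| ≤ 1 * (2 * M * CD * (θ * ee j * δ)) :=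
            mul_le_mul hk1 (herrb t ht) (abs_nonneg _) zero_le_one
        _ = _ := one_mul _
    have g3 : |e.k (F.Y s t) * e.γ * (e.Ky (F.X s t) (F.Y s t) t -
        e.Ky (F.X s' t) (F.Y s' t) t - ee j * e.χ (F.Y s t) * (F.Y s t - F.Y s' t))| ≤
        M ^ 2 * CD * (θ * ee j * δ) := by
      rw [abs_mul, abs_mul, abs_of_pos ok.hγ]
      calc |e.k (F.Y s t)| * e.γ * |e.Ky (F.X s t) (F.Y s t) t -
            e.Ky (F.X s' t) (F.Y s' t) t - ee j * e.χ (F.Y s t) * (F.Y s t - F.Y s' t)| ≤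
            1 * M * (M * CD * (θ * ee j * δ)) :=
            mul_le_mul (mul_le_mul hk1 hM.ga ok.hγ.le zero_le_one) (hK t ht) (abs_nonneg _)
              (by positivity)
        _ = _ := by ring
    have g4 : e.k (F.Y s t) * e.χ (F.Y s t) * (e.γ * (1 / (2 * E₁))) * (ee j * δ) ≤
        e.k (F.Y s t) * e.γ * (ee j * e.χ (F.Y s t) * (F.Y s t - F.Y s' t)) := by
      have h1 := hYlow t ht
      rw [abs_of_pos (hYpos t ht)] at h1
      have h2 : 0 ≤ e.k (F.Y s t) * e.χ (F.Y s t) * e.γ * ee j :=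
        mul_nonneg (mul_nonneg (k_chi ok _) ok.hγ.le) he.le
      have h3 := mul_le_mul_of_nonneg_left h1 h2
      calc e.k (F.Y s t) * e.χ (F.Y s t) * (e.γ * (1 / (2 * E₁))) * (ee j * δ) =
            e.k (F.Y s t) * e.χ (F.Y s t) * e.γ * ee j * (1 / (2 * E₁) * δ) := by ring
        _ ≤ _ := h3
        _ = _ := by ring
    have a1 := (abs_le.1 g1).1
    have a2 := (abs_le.1 g2).1
    have a3 := (abs_le.1 g3).1
    have e1 : e.k (F.Y s t) * (e.γ * (e.Ky (F.X s t) (F.Y s t) t -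
        e.Ky (F.X s' t) (F.Y s' t) t) + err t) =
        e.k (F.Y s t) * e.γ * (e.Ky (F.X s t) (F.Y s t) t -
        e.Ky (F.X s' t) (F.Y s' t) t - ee j * e.χ (F.Y s t) * (F.Y s t - F.Y s' t)) +
        e.k (F.Y s t) * e.γ * (ee j * e.χ (F.Y s t) * (F.Y s t - F.Y s' t)) +
        e.k (F.Y s t) * err t := by ring
    rw [e1, hCT]
    have e2 : (M * CR + M ^ 2 * CD + 2 * M * CD) * (θ * ee j * δ) =
      M * CR * (θ * ee j * δ) + M ^ 2 * CD * (θ * ee j * δ) + 2 * M * CD * (θ * ee j * δ) := by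
      ring
    rw [e2]
    linarith
  -- integration
  set ta : ℝ := T + m + tau j + z₁ with hta
  set tb : ℝ := T + m + tau j + z₂ with htb
  have ia : (T : ℝ) ≤ ta := by rw [hta]; linarith
  have iab : ta ≤ tb := by rw [hta, htb]; linarith
  have ib : tb ≤ T + 2 * m := by rw [htb]; linarith
  have hkχ : ∀ t, 0 ≤ e.k (F.Y s t) * e.χ (F.Y s t) * (e.γ * (1 / (2 * E₁))) * (ee j * δ) := by
    intro t
    have h1 := k_chi ok (F.Y s t)
    have h2 : 0 ≤ e.γ * (1 / (2 * E₁)) := mul_nonneg ok.hγ.le (by positivity)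
    positivity
  have G1 := incr (f := fun t => e.k (F.Y s t) * (rho e F s t - rho e F s' t))
    (c := -(CT * (θ * ee j * δ))) ia
    (fun x hx => hQd x ⟨hx.1, hx.2.trans (iab.trans ib)⟩) (fun x hx => by
      have g1 := hQlow x ⟨hx.1, hx.2.trans (iab.trans ib)⟩
      have g2 := hkχ x
      linarith)
  have G2 := incr (f := fun t => e.k (F.Y s t) * (rho e F s t - rho e F s' t))
    (c := e.c * e.γ * (1 / (2 * E₁)) * (ee j * δ) - CT * (θ * ee j * δ)) iab
    (fun x hx => hQd x ⟨ia.trans hx.1, hx.2.trans ib⟩) (fun x hx => by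
      have hx' : x ∈ Icc (T : ℝ) (T + 2 * m) := ⟨ia.trans hx.1, hx.2.trans ib⟩
      have g1 := hQlow x hx'
      obtain ⟨g2, g3⟩ := hw (x - T - m - tau j) ⟨by linarith [hx.1], by linarith [hx.2]⟩ (F.Y s x)
        ((hT.near s hs x hx').1.trans i1')
      rw [g3] at g1 ⊢
      have g4 : e.c * e.γ * (1 / (2 * E₁)) * (ee j * δ) ≤
          e.c * e.χ (F.Y s x) * (e.γ * (1 / (2 * E₁))) * (ee j * δ) := by
        have h2 : 0 ≤ e.c * (e.γ * (1 / (2 * E₁))) * (ee j * δ) := by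
          have := ok.prof.cpos
          have := ok.hγ
          positivity
        calc e.c * e.γ * (1 / (2 * E₁)) * (ee j * δ) =
              e.c * (e.γ * (1 / (2 * E₁))) * (ee j * δ) * 1 := by ring
          _ ≤ e.c * (e.γ * (1 / (2 * E₁))) * (ee j * δ) * e.χ (F.Y s x) :=
            mul_le_mul_of_nonneg_left g2 h2
          _ = _ := by ring
      linarith)
  have G3 := incr (f := fun t => e.k (F.Y s t) * (rho e F s t - rho e F s' t))
    (c := -(CT * (θ * ee j * δ))) ib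
    (fun x hx => hQd x ⟨(ia.trans iab).trans hx.1, hx.2⟩) (fun x hx => by
      have g1 := hQlow x ⟨(ia.trans iab).trans hx.1, hx.2⟩
      have g2 := hkχ x
      linarith)
  have hQ0 : |e.k (F.Y s T) * (rho e F s T - rho e F s' T)| ≤ G / 4 * (ee j * δ) := by
    rw [abs_mul]
    calc |e.k (F.Y s T)| * |rho e F s T - rho e F s' T| ≤ 1 * (G / 4 * (ee j * δ)) := by
          refine mul_le_mul (ok.prof.le_one _) (hr0.trans ?_) (abs_nonneg _) zero_le_one
          have h1 : K₁ ≤ G / 4 * ee j := hK1.trans (mul_le_mul_of_nonneg_right hc8' he.le)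
          calc K₁ * δ ≤ G / 4 * ee j * δ := mul_le_mul_of_nonneg_right h1 hδ0
            _ = _ := by ring
      _ = _ := one_mul _
  have hfinal : G / 2 * (ee j * δ) ≤
      e.k (F.Y s (T + 2 * m)) * (rho e F s (T + 2 * m) - rho e F s' (T + 2 * m)) := by
    have e1 : tb - ta = z₂ - z₁ := by rw [hta, htb]; ring
    have e2 : (e.c * e.γ * (1 / (2 * E₁)) * (ee j * δ) - CT * (θ * ee j * δ)) * (tb - ta) +
        -(CT * (θ * ee j * δ)) * (ta - T) + -(CT * (θ * ee j * δ)) * (T + 2 * m - tb) =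
        G * (ee j * δ) - θ * CT * (2 * m) * (ee j * δ) := by
      rw [hG, ← e1]; ring
    have e3 := mul_le_mul_of_nonneg_right hθ (show 0 ≤ ee j * δ by positivity)
    have e4 := (abs_le.1 hQ0).1
    linarith
  have hY1 : ∀ x ∈ Icc a b, |F.Y x (T + 2 * m) - 1| ≤ 1 / 8 := by
    intro x hx
    have h1 := abs_le.1 (hT.near x hx _ tL).1
    have h2 := hH.mem (T + 2 * m - T - m - tau j)
    have h3 : H (m - 1) ≤ H (T + 2 * m - T - m - tau j) := hH.mon.monotone (by linarith)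
    rw [abs_le]
    constructor <;> linarith
  have hxi : xi e F s (T + 2 * m) - xi e F s' (T + 2 * m) =
      rho e F s (T + 2 * m) - rho e F s' (T + 2 * m) := by
    rw [k_top ok (hY1 s hs), k_top ok (hY1 s' hs')]; ring
  rw [hxi]
  have h5 : e.k (F.Y s (T + 2 * m)) * (rho e F s (T + 2 * m) - rho e F s' (T + 2 * m)) ≤
      |rho e F s (T + 2 * m) - rho e F s' (T + 2 * m)| := by
    refine (le_abs_self _).trans ?_
    rw [abs_mul]
    exact mul_le_of_le_one_left (abs_nonneg _) (ok.prof.le_one _)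
  calc G / 2 * ee j * δ = G / 2 * (ee j * δ) := by ring
    _ ≤ _ := hfinal.trans h5

theorem main (e : Env) (j₀ : ℕ) (H : ℝ → ℝ) (ok : EnvOK e j₀) (hH : Hom e H) (m : ℕ)
    (hm1 : H (-m + 1) < 1 / 8) (hm2 : 7 / 8 < H (m - 1)) : ∃ (C₈ c₈ : ℝ), 1 ≤ C₈ ∧ 0 < c₈ ∧
  ∀ (C C₁₀ C₇ : ℝ), 1 ≤ C → 1 ≤ C₁₀ → 1 ≤ C₇ → ∃ j₁ : ℕ, j₀ ≤ j₁ ∧
    ∀ (j : ℕ) (F : Fam) (a b : ℝ) (T : ℕ) (ε K₁ : ℝ), j₁ ≤ j → 0 < ε →
      ε ≤ C₁₀ * (j : ℝ) ^ (-2 : ℝ) → Ent e H m j F a b T ε C → Thr e H m j F a b T C₇ →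
      0 ≤ K₁ → K₁ ≤ c₈ * ee j →
      (∀ s ∈ Icc a b, ∀ s' ∈ Icc a b, |ze e F s T - ze e F s' T| + |F.X s T - F.X s' T| +
        |F.J s T - F.J s' T| ≤ K₁ * |F.Y s T - F.Y s' T|) →
      ∀ s ∈ Icc a b, ∀ s' ∈ Icc a b,
        |ze e F s (T + 2 * m) - ze e F s' (T + 2 * m)| +
        e.l / 4 * |F.X s (T + 2 * m) - F.X s' (T + 2 * m)| +
        |F.J s (T + 2 * m) - F.J s' (T + 2 * m)| ≤
        C₈ / ee j * |xi e F s (T + 2 * m) - xi e F s' (T + 2 * m)| := by
  obtain ⟨M, hM⟩ := exists_cst ok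
  have hM1 := hM.one
  have hM0 : 0 < M := by linarith
  have hu := u_pos ok
  have hm : 2 ≤ m := two_le hH hm1
  have hmR : (2 : ℝ) ≤ m := by exact_mod_cast hm
  obtain ⟨z₁, z₂, κ, hz, hz1, hz2, hκ, hw⟩ := window ok hH hm1
  set CD : ℝ := 12 * Real.exp (4 * (2 * M + 1) * (2 * m)) with hCD
  set E₁ : ℝ := Real.exp (M * (2 * m)) with hE₁
  set CR : ℝ := (1 + 8 * m * M ^ 2 * CD) * E₁ with hCR
  set G : ℝ := (z₂ - z₁) * (e.c * e.γ * (1 / (2 * E₁))) with hG
  set CT : ℝ := M * CR + M ^ 2 * CD + 2 * M * CD with hCT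
  have hCDpos : 0 < CD := by positivity
  have hE₁pos : 0 < E₁ := Real.exp_pos _
  have hCRpos : 0 < CR := by positivity
  have hCTpos : 0 < CT := by positivity
  have hc := ok.prof.cpos
  have hγ := ok.hγ
  have hGpos : 0 < G := by
    have : 0 < z₂ - z₁ := sub_pos.2 hz
    positivity
  set θ : ℝ := min 1 (G / (8 * m * CT)) with hθdef
  have hθpos : 0 < θ := lt_min one_pos (by positivity)
  have hθ : θ * CT * (2 * m) ≤ G / 4 := by
    have h1 : θ ≤ G / (8 * m * CT) := min_le_right _ _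
    rw [le_div_iff₀ (by positivity)] at h1
    linarith
  refine ⟨max 1 (2 * CD / G), min 1 (G / 4), le_max_left _ _, lt_min one_pos (by positivity), ?_⟩
  intro C C₁₀ C₇ _ hC₁₀ hC₇
  have q1 : 0 < H (m - 1) - 7 / 8 := by linarith
  have q2 : 0 < 1 / 8 - H (-m + 1) := by linarith
  have ev1 := ev_ss (e.l * e.c) C₇ (c := min (min (1 / 8) κ) (min (H (m - 1) - 7 / 8)
    (1 / 8 - H (-m + 1)))) (lt_min (lt_min (by norm_num) hκ) (lt_min q1 q2))
  have ev2 := ev_ss (e.l * e.c) (C₇ + 1) hθpos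
  have ev3 := ev_es hu C₁₀
  have ev4 := ev_ss (e.l * e.c) (3 + 2 * C₇) hθpos
  have ev5 := ev_ee (4 * m * CR) (c := 1 / (2 * E₁)) (by positivity)
  obtain ⟨j₁, hj₁⟩ := eventually_atTop.1 ((((ev1.and ev2).and ev3).and ev4).and ev5)
  refine ⟨max j₀ (max j₁ 1), le_max_left _ _, ?_⟩
  intro j F a b T ε K₁ hj hε hεj hE hT hK0 hK1 hcone
  have hjj₀ : j₀ ≤ j := (le_max_left _ _).trans hj
  have hjj₁ : j₁ ≤ j := ((le_max_left _ _).trans (le_max_right _ _)).trans hj
  have hj1 : 1 ≤ j := ((le_max_right _ _).trans (le_max_right _ _)).trans hj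
  obtain ⟨⟨⟨⟨f1, f2⟩, f3⟩, f4⟩, f5⟩ := hj₁ j hjj₁
  have he := ee_pos hj1
  have hss := ss_pos hu hj1
  have i2 : C₇ * (ee j * ss (e.l * e.c) j) + ε ≤ θ * ee j := by
    have h1 : ε ≤ ee j * ss (e.l * e.c) j := hεj.trans f3
    have h2 := mul_le_mul_of_nonneg_right f2 he.le
    have h3 : (C₇ + 1) * ss (e.l * e.c) j * ee j = C₇ * (ee j * ss (e.l * e.c) j) +
      ee j * ss (e.l * e.c) j := by ring
    linarith
  have key : ∀ s ∈ Icc a b, ∀ s' ∈ Icc a b, F.Y s' T ≤ F.Y s T →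
      |ze e F s (T + 2 * m) - ze e F s' (T + 2 * m)| +
        e.l / 4 * |F.X s (T + 2 * m) - F.X s' (T + 2 * m)| +
        |F.J s (T + 2 * m) - F.J s' (T + 2 * m)| ≤
        max 1 (2 * CD / G) / ee j * |xi e F s (T + 2 * m) - xi e F s' (T + 2 * m)| := by
    intro s hs s' hs' hpos
    obtain ⟨r1, r2⟩ := core ok hH hM hm hz hz1 hz2 hw hCD hE₁ hCR hG hCT (min_le_left _ _) hθ
      (min_le_left _ _) (min_le_right _ _) hC₇ hjj₀ hj1 (f1.trans ((min_le_left _ _).trans
        (min_le_left _ _))) (f1.trans ((min_le_left _ _).trans (min_le_right _ _)))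
      (f1.trans ((min_le_right _ _).trans (min_le_left _ _)))
      (f1.trans ((min_le_right _ _).trans (min_le_right _ _))) i2 f4 f5 hE hT hK1 hcone hs hs'
      hpos
    have hl := ok.hl
    have hl1 := ok.hl1
    have h1 : |ze e F s (T + 2 * m) - ze e F s' (T + 2 * m)| +
        e.l / 4 * |F.X s (T + 2 * m) - F.X s' (T + 2 * m)| +
        |F.J s (T + 2 * m) - F.J s' (T + 2 * m)| ≤ dst F s s' (T + 2 * m) := by
      have g1 : |ze e F s (T + 2 * m) - ze e F s' (T + 2 * m)| ≤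
          |F.w s (T + 2 * m) - F.w s' (T + 2 * m)| +
          |F.Y s (T + 2 * m) - F.Y s' (T + 2 * m)| := by
        have : ze e F s (T + 2 * m) - ze e F s' (T + 2 * m) =
            (F.w s (T + 2 * m) - F.w s' (T + 2 * m)) +
            -(e.l * (F.Y s (T + 2 * m) - F.Y s' (T + 2 * m))) := by
          unfold ze; ring
        rw [this]
        refine (abs_add_le _ _).trans ?_
        rw [abs_neg, abs_mul, abs_of_pos hl]
        have := mul_le_of_le_one_left (abs_nonneg (F.Y s (T + 2 * m) - F.Y s' (T + 2 * m)))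
          (show e.l ≤ 1 by linarith)
        linarith
      have g2 : e.l / 4 * |F.X s (T + 2 * m) - F.X s' (T + 2 * m)| ≤
          |F.X s (T + 2 * m) - F.X s' (T + 2 * m)| :=
        mul_le_of_le_one_left (abs_nonneg _) (by linarith)
      unfold dst
      linarith
    have hR : 0 ≤ |xi e F s (T + 2 * m) - xi e F s' (T + 2 * m)| := abs_nonneg _
    refine h1.trans (r1.trans ?_)
    rcases hpos.lt_or_eq with hlt | heq
    · have h2 := r2 hlt
      have h3 : CD * (F.Y s T - F.Y s' T) =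
          2 * CD / G / ee j * (G / 2 * ee j * (F.Y s T - F.Y s' T)) := by
        field_simp
      rw [h3]
      calc 2 * CD / G / ee j * (G / 2 * ee j * (F.Y s T - F.Y s' T)) ≤
            2 * CD / G / ee j * |xi e F s (T + 2 * m) - xi e F s' (T + 2 * m)| :=
            mul_le_mul_of_nonneg_left h2 (by positivity)
        _ ≤ _ := by
            refine mul_le_mul_of_nonneg_right ?_ hR
            exact div_le_div_of_nonneg_right (le_max_right _ _) he.le
    · rw [heq, sub_self, mul_zero]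
      have : 0 ≤ max 1 (2 * CD / G) := le_max_of_le_left zero_le_one
      positivity
  intro s hs s' hs'
  rcases le_total (F.Y s' T) (F.Y s T) with h | h
  · exact key s hs s' hs' h
  · have h1 := key s' hs' s hs h
    rw [abs_sub_comm (ze e F s' (T + 2 * m)), abs_sub_comm (F.X s' (T + 2 * m)),
      abs_sub_comm (F.J s' (T + 2 * m)), abs_sub_comm (xi e F s' (T + 2 * m))] at h1
    exact h1

end LbL

theorem lb : S_LB := LbL.main

end Pool.Agent.Helper6K9.EH
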