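import Pool.Agent.Helper6K9.EH.Stm

set_option autoImplicit false

/-!
# Orbits which escape to infinity on flat tori of dimension two: common lemmas on the loop
-/

namespace Pool.Agent.Helper6K9.EH.LoopL

open Set Filter Topology
open scoped ContDiff

theorem bdd_of_per {f : ℝ → ℝ} (hf : Continuous f) (hp : ∀ y, |f (y + 1)| = |f y|) :
    ∃ M : ℝ, 1 ≤ M ∧ ∀ y, |f y| ≤ M := by
  obtain ⟨M, hM⟩ := (isCompact_Icc (a := (0 : ℝ)) (b := 1)).exists_bound_of_continuousOn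
    hf.continuousOn
  refine ⟨max M 1, le_max_right _ _, fun y => ?_⟩
  have hper : Function.Periodic (fun y => |f y|) 1 := hp
  obtain ⟨z, hz, e⟩ := hper.exists_mem_Ico₀ one_pos y
  have h1 : |f z| ≤ M := by simpa using hM z ⟨hz.1, hz.2.le⟩
  have e' : |f y| = |f z| := e
  rw [e']
  exact h1.trans (le_max_left _ _)

theorem lip_of_deriv {f : ℝ → ℝ} {M : ℝ} (hf : Differentiable ℝ f) (hM : ∀ y, |deriv f y| ≤ M)
    (x y : ℝ) : |f x - f y| ≤ M * |x - y| := by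
  have h := Convex.norm_image_sub_le_of_norm_deriv_le (s := univ) (f := f) (C := M)
    (fun x _ => hf x) (fun x _ => by simpa using hM x) convex_univ (mem_univ y) (mem_univ x)
  simpa using h

/-- a common bound for all the functions of the environment -/
structure Cst (e : Env) (M : ℝ) : Prop where
  one : 1 ≤ M
  k1 : ∀ y, |deriv e.k y| ≤ M
  kd : ∀ y, HasDerivAt e.k (deriv e.k y) y
  kl : ∀ x y, |e.k x - e.k y| ≤ M * |x - y|
  k1l : ∀ x y, |deriv e.k x - deriv e.k y| ≤ M * |x - y|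
  kkl : ∀ x y, |e.k x * deriv e.k x - e.k y * deriv e.k y| ≤ M * |x - y|
  c0 : ∀ y, |e.χ y| ≤ M
  c1 : ∀ y, |deriv e.χ y| ≤ M
  cl : ∀ x y, |e.χ x - e.χ y| ≤ M * |x - y|
  c1l : ∀ x y, |deriv e.χ x - deriv e.χ y| ≤ M * |x - y|
  ps : ∀ y, |e.ps y| ≤ M
  al : e.α ≤ M
  ga : e.γ ≤ M

theorem prof_c_le {k : ℝ → ℝ} {c : ℝ} (h : Prof k c) : c ≤ 1 := by
  have h1 := h.plat (1 / 2) ⟨by norm_num, by norm_num⟩
  have h2 := h.le_one (1 / 2)
  rw [h1] at h2
  exact (le_abs_self _).trans h2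

theorem u_pos {e : Env} {j₀ : ℕ} (ok : EnvOK e j₀) : 0 < e.l * e.c := mul_pos ok.hl ok.prof.cpos

theorem u_le {e : Env} {j₀ : ℕ} (ok : EnvOK e j₀) : e.l * e.c ≤ 1 / 2 := by
  have h1 := prof_c_le ok.prof
  have h2 := ok.prof.cpos
  have h3 := ok.hl
  have h4 := ok.hl1
  nlinarith

theorem chi_zero {e : Env} {j₀ : ℕ} (ok : EnvOK e j₀) {y : ℝ} (hy : y < 3 / 8 ∨ 1 / 2 < y) :
    e.χ y = 0 ∧ deriv e.χ y = 0 := by
  have hu := u_le ok
  have h0 : ∀ z : ℝ, (z < 3 / 8 ∨ 1 / 2 < z) → e.χ z = 0 := by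
    intro z hz
    by_contra h
    obtain ⟨h1, h2⟩ := ok.shp.chz z h
    rcases hz with hz | hz <;> linarith
  refine ⟨h0 y hy, ?_⟩
  have hop : ∀ᶠ z in 𝓝 y, z < 3 / 8 ∨ 1 / 2 < z := by
    have : IsOpen {z : ℝ | z < 3 / 8 ∨ 1 / 2 < z} := isOpen_Iio.union isOpen_Ioi
    exact this.mem_nhds hy
  have he : e.χ =ᶠ[𝓝 y] fun _ => 0 := hop.mono fun z hz => h0 z hz
  rw [he.deriv_eq]
  simp

theorem exists_cst {e : Env} {j₀ : ℕ} (ok : EnvOK e j₀) : ∃ M : ℝ, Cst e M := by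
  have hk : ContDiff ℝ ∞ e.k := ok.prof.smooth
  have hk' : ContDiff ℝ ∞ (deriv e.k) := by
    have := (contDiff_infty_iff_deriv (f := e.k)).1 hk
    exact this.2
  have hk'' : ContDiff ℝ ∞ (deriv (deriv e.k)) := by
    have := (contDiff_infty_iff_deriv (f := deriv e.k)).1 hk'
    exact this.2
  have hc : ContDiff ℝ ∞ e.χ := ok.shp.chs
  have hc' : ContDiff ℝ ∞ (deriv e.χ) := ((contDiff_infty_iff_deriv (f := e.χ)).1 hc).2
  have hc'' : ContDiff ℝ ∞ (deriv (deriv e.χ)) :=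
    ((contDiff_infty_iff_deriv (f := deriv e.χ)).1 hc').2
  have dk : Differentiable ℝ e.k := ((contDiff_infty_iff_deriv (f := e.k)).1 hk).1
  have dk' : Differentiable ℝ (deriv e.k) := ((contDiff_infty_iff_deriv (f := deriv e.k)).1 hk').1
  have dc : Differentiable ℝ e.χ := ((contDiff_infty_iff_deriv (f := e.χ)).1 hc).1
  have dc' : Differentiable ℝ (deriv e.χ) :=
    ((contDiff_infty_iff_deriv (f := deriv e.χ)).1 hc').1
  have a1 : ∀ y, deriv e.k (y + 1) = - deriv e.k y := by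
    intro y
    have h1 : deriv (fun z => e.k (z + 1)) y = deriv e.k (y + 1) := deriv_comp_add_const _ _ _
    rw [← h1, show (fun z => e.k (z + 1)) = fun z => - e.k z from funext ok.prof.anti]
    exact deriv.fun_neg
  have a2 : ∀ y, deriv (deriv e.k) (y + 1) = - deriv (deriv e.k) y := by
    intro y
    have h1 : deriv (fun z => deriv e.k (z + 1)) y = deriv (deriv e.k) (y + 1) :=
      deriv_comp_add_const _ _ _
    rw [← h1, show (fun z => deriv e.k (z + 1)) = fun z => - deriv e.k z from funext a1]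
    exact deriv.fun_neg
  obtain ⟨M1, h1, b1⟩ := bdd_of_per hk'.continuous fun y => by rw [a1, abs_neg]
  obtain ⟨M2, h2, b2⟩ := bdd_of_per hk''.continuous fun y => by rw [a2, abs_neg]
  obtain ⟨M3, h3, b3⟩ := bdd_of_per ok.shp.psc fun y => by
    have := ok.shp.psp y 1
    rw [Int.cast_one] at this
    rw [this]
  -- bounds for compactly supported functions
  have key : ∀ f : ℝ → ℝ, Continuous f → (∀ y, (y < 3 / 8 ∨ 1 / 2 < y) → f y = 0) →
      ∃ M : ℝ, 1 ≤ M ∧ ∀ y, |f y| ≤ M := by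
    intro f hf h0
    obtain ⟨M, hM⟩ := (isCompact_Icc (a := (3 / 8 : ℝ)) (b := 1 / 2)).exists_bound_of_continuousOn
      hf.continuousOn
    refine ⟨max M 1, le_max_right _ _, fun y => ?_⟩
    by_cases hy : y < 3 / 8 ∨ 1 / 2 < y
    · rw [h0 y hy, abs_zero]
      exact zero_le_one.trans (le_max_right _ _)
    · push Not at hy
      exact (by simpa using hM y ⟨hy.1, hy.2⟩ : |f y| ≤ M).trans (le_max_left _ _)
  obtain ⟨M4, h4, b4⟩ := key e.χ hc.continuous fun y hy => (chi_zero ok hy).1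
  obtain ⟨M5, h5, b5⟩ := key (deriv e.χ) hc'.continuous fun y hy => (chi_zero ok hy).2
  obtain ⟨M6, h6, b6⟩ := key (deriv (deriv e.χ)) hc''.continuous fun y hy => by
    have hop : ∀ᶠ z in 𝓝 y, z < 3 / 8 ∨ 1 / 2 < z := by
      have : IsOpen {z : ℝ | z < 3 / 8 ∨ 1 / 2 < z} := isOpen_Iio.union isOpen_Ioi
      exact this.mem_nhds hy
    have he : deriv e.χ =ᶠ[𝓝 y] fun _ => 0 := hop.mono fun z hz => (chi_zero ok hz).2
    rw [he.deriv_eq]
    simp
  set M := M1 + M2 + M3 + M4 + M5 + M6 + (M1 * M1 + M2) + e.α + e.γ with hM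
  have hα := ok.hα
  have hγ := ok.hγ
  have hmm : 0 ≤ M1 * M1 := mul_self_nonneg _
  have c1 : M1 ≤ M := by rw [hM]; linarith
  have c2 : M2 ≤ M := by rw [hM]; linarith
  have c3 : M3 ≤ M := by rw [hM]; linarith
  have c4 : M4 ≤ M := by rw [hM]; linarith
  have c5 : M5 ≤ M := by rw [hM]; linarith
  have c6 : M6 ≤ M := by rw [hM]; linarith
  have c7 : M1 * M1 + M2 ≤ M := by rw [hM]; linarith
  refine ⟨M, by linarith, fun y => (b1 y).trans c1, fun y => (dk y).hasDerivAt, ?_, ?_, ?_,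
    fun y => (b4 y).trans c4, fun y => (b5 y).trans c5, ?_, ?_, fun y => (b3 y).trans c3, ?_, ?_⟩
  · exact fun x y => lip_of_deriv dk (fun z => (b1 z).trans c1) x y
  · exact fun x y => lip_of_deriv dk' (fun z => (b2 z).trans c2) x y
  · refine fun x y => lip_of_deriv (f := fun z => e.k z * deriv e.k z) (dk.mul dk')
      (fun z => ?_) x y
    have h : deriv (fun z => e.k z * deriv e.k z) z =
        deriv e.k z * deriv e.k z + e.k z * deriv (deriv e.k) z :=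
      ((dk z).hasDerivAt.mul (dk' z).hasDerivAt).deriv
    rw [h]
    refine (abs_add_le _ _).trans ?_
    rw [abs_mul, abs_mul]
    have i1 := b1 z
    have i2 := b2 z
    have i3 := ok.prof.le_one z
    have i4 : |deriv e.k z| * |deriv e.k z| ≤ M1 * M1 :=
      mul_le_mul i1 i1 (abs_nonneg _) (by linarith)
    have i5 : |e.k z| * |deriv (deriv e.k) z| ≤ 1 * M2 :=
      mul_le_mul i3 i2 (abs_nonneg _) (by norm_num)
    linarith
  · exact fun x y => lip_of_deriv dc (fun z => (b5 z).trans c5) x y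
  · exact fun x y => lip_of_deriv dc' (fun z => (b6 z).trans c6) x y
  · rw [hM]; linarith
  · rw [hM]; linarith

/-- the perturbation along curves in the tube -/
theorem tubeAt {e : Env} {j₀ : ℕ} (ok : EnvOK e j₀) {j : ℕ} (hj : j₀ ≤ j) (X Y t : ℝ) (N : ℤ)
    (h1 : -(1 / 4) ≤ Y) (h2 : Y ≤ 5 / 4)
    (h : |Y - 1 / 2| ≤ 1 / 4 → |eta (e.l * e.c) j Y (t - N)| ≤ ss (e.l * e.c) j) :
    e.Ky X Y t = ee j * (eta (e.l * e.c) j Y (t - N) * e.χ Y +
      eta (e.l * e.c) j Y (t - N) ^ 2 / 2 * deriv e.χ Y) ∧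
    (|eta (e.l * e.c) j Y (t - N)| ≤ ss (e.l * e.c) j ∨ (e.χ Y = 0 ∧ deriv e.χ Y = 0)) ∧
    (|Y - 1 / 2| ≤ 1 / 4 → e.Kx X Y t =
      aa j * e.cb ((t - N - tau j) / dd j) * e.ps (X - LL j * (t - N) - hf j)) ∧
    (1 / 4 < |Y - 1 / 2| → e.Kx X Y t = 0) := by
  have hper := ok.per X Y (t - N) N
  rw [sub_add_cancel] at hper
  by_cases hY : |Y - 1 / 2| ≤ 1 / 4
  · obtain ⟨t1, t2⟩ := ok.tube j hj X Y (t - N) hY (h hY)
    refine ⟨by rw [hper.2, t1], Or.inl (h hY), fun _ => by rw [hper.1, t2], fun h' => ?_⟩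
    exact absurd h' (not_lt.2 hY)
  · push Not at hY
    have hv : |Y| ≤ 1 / 4 ∨ |Y - 1| ≤ 1 / 4 := by
      rcases lt_abs.1 hY with h3 | h3
      · right
        rw [abs_le]
        constructor <;> linarith
      · left
        rw [abs_le]
        constructor <;> linarith
    obtain ⟨v1, v2⟩ := ok.van X Y t hv
    have hc : Y < 3 / 8 ∨ 1 / 2 < Y := by
      rcases lt_abs.1 hY with h3 | h3
      · right; linarith
      · left; linarith
    obtain ⟨c1, c2⟩ := chi_zero ok hc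
    refine ⟨by rw [v2, c1, c2]; ring, Or.inr ⟨c1, c2⟩, fun h' => ?_, fun _ => v1⟩
    exact absurd h' (not_le.2 hY)

/-- Gronwall's inequality in both directions of time -/
theorem gron_fwd {E : Type*} [NormedAddCommGroup E] [NormedSpace ℝ E] {f f' : ℝ → E}
    {a b A B : ℝ} (hA : 0 < A) (hB : 0 ≤ B) (hf : ∀ t ∈ Icc a b, HasDerivAt f (f' t) t)
    (h : ∀ t ∈ Icc a b, ‖f' t‖ ≤ A * ‖f t‖ + B) (hab : a ≤ b) :
    ‖f b‖ ≤ (‖f a‖ + B * (b - a)) * Real.exp (A * (b - a)) := by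
  have h1 := norm_le_gronwallBound_of_norm_deriv_right_le (f := f) (f' := f') (δ := ‖f a‖)
    (K := A) (ε := B) (a := a) (b := b)
    (fun t ht => (hf t ht).continuousAt.continuousWithinAt)
    (fun t ht => (hf t ⟨ht.1, ht.2.le⟩).hasDerivWithinAt) le_rfl
    (fun t ht => h t ⟨ht.1, ht.2.le⟩) b ⟨hab, le_rfl⟩
  refine h1.trans ?_
  rw [gronwallBound_of_K_ne_0 hA.ne']
  have hx : 0 ≤ b - a := sub_nonneg.2 hab
  have h2 : Real.exp (A * (b - a)) - 1 ≤ A * (b - a) * Real.exp (A * (b - a)) := by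
    have h3 := Real.add_one_le_exp (-(A * (b - a)))
    rw [Real.exp_neg] at h3
    have h4 := Real.exp_pos (A * (b - a))
    have h5 : (-(A * (b - a)) + 1) * Real.exp (A * (b - a)) ≤ 1 := by
      calc (-(A * (b - a)) + 1) * Real.exp (A * (b - a))
          ≤ (Real.exp (A * (b - a)))⁻¹ * Real.exp (A * (b - a)) :=
            mul_le_mul_of_nonneg_right h3 h4.le
        _ = 1 := inv_mul_cancel₀ h4.ne'
    linarith
  have h6 : B / A * (Real.exp (A * (b - a)) - 1) ≤ B * (b - a) * Real.exp (A * (b - a)) := by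
    calc B / A * (Real.exp (A * (b - a)) - 1) ≤ B / A * (A * (b - a) * Real.exp (A * (b - a))) :=
          mul_le_mul_of_nonneg_left h2 (div_nonneg hB hA.le)
      _ = B * (b - a) * Real.exp (A * (b - a)) := by field_simp
  linarith

theorem gron {E : Type*} [NormedAddCommGroup E] [NormedSpace ℝ E] {f f' : ℝ → E}
    {a b A B : ℝ} (hA : 0 < A) (hB : 0 ≤ B) (hf : ∀ t ∈ Icc a b, HasDerivAt f (f' t) t)
    (h : ∀ t ∈ Icc a b, ‖f' t‖ ≤ A * ‖f t‖ + B) :
    ∀ t ∈ Icc a b, ∀ t' ∈ Icc a b,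
      ‖f t‖ ≤ (‖f t'‖ + B * (b - a)) * Real.exp (A * (b - a)) := by
  intro t ht t' ht'
  rcases le_total t' t with htt | htt
  · have h1 := gron_fwd (f := f) (f' := f') (a := t') (b := t) hA hB
      (fun x hx => hf x ⟨ht'.1.trans hx.1, hx.2.trans ht.2⟩)
      (fun x hx => h x ⟨ht'.1.trans hx.1, hx.2.trans ht.2⟩) htt
    have h2 : t - t' ≤ b - a := by linarith [ht.2, ht'.1]
    refine h1.trans ?_
    have h3 : B * (t - t') ≤ B * (b - a) := mul_le_mul_of_nonneg_left h2 hB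
    have h4 : A * (t - t') ≤ A * (b - a) := mul_le_mul_of_nonneg_left h2 hA.le
    refine mul_le_mul (by linarith) (Real.exp_le_exp.2 h4) (Real.exp_pos _).le ?_
    have : 0 ≤ B * (b - a) := mul_nonneg hB (by linarith [ht.1, ht.2])
    have := norm_nonneg (f t')
    linarith
  · have h1 := gron_fwd (f := fun x => f (-x)) (f' := fun x => - f' (-x)) (a := -t') (b := -t)
      hA hB
      (fun x hx => by
        have hx' : -x ∈ Icc a b := ⟨by linarith [ht.1, hx.2], by linarith [ht'.2, hx.1]⟩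
        have := (hf (-x) hx').scomp x (hasDerivAt_neg x)
        rw [neg_one_smul] at this
        exact this)
      (fun x hx => by
        have hx' : -x ∈ Icc a b := ⟨by linarith [ht.1, hx.2], by linarith [ht'.2, hx.1]⟩
        simpa using h (-x) hx') (by linarith)
    simp only [neg_neg] at h1
    have h2 : -t - -t' ≤ b - a := by linarith [ht.1, ht'.2]
    refine h1.trans ?_
    have h3 : B * (-t - -t') ≤ B * (b - a) := mul_le_mul_of_nonneg_left h2 hB
    have h4 : A * (-t - -t') ≤ A * (b - a) := mul_le_mul_of_nonneg_left h2 hA.le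
    refine mul_le_mul (by linarith) (Real.exp_le_exp.2 h4) (Real.exp_pos _).le ?_
    have : 0 ≤ B * (b - a) := mul_nonneg hB (by linarith [ht.1, ht.2])
    have := norm_nonneg (f t')
    linarith

/-- lower bound for the increment from a lower bound of the derivative -/
theorem incr {f f' : ℝ → ℝ} {a b c : ℝ} (hab : a ≤ b) (hf : ∀ t ∈ Icc a b, HasDerivAt f (f' t) t)
    (h : ∀ t ∈ Icc a b, c ≤ f' t) : c * (b - a) ≤ f b - f a := by
  refine (convex_Icc a b).mul_sub_le_image_sub_of_le_deriv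
    (fun t ht => (hf t ht).continuousAt.continuousWithinAt)
    (fun t ht => (hf t (interior_subset ht)).differentiableAt.differentiableWithinAt)
    (fun t ht => ?_) a ⟨le_rfl, hab⟩ b ⟨hab, le_rfl⟩ hab
  rw [(hf t (interior_subset ht)).deriv]
  exact h t (interior_subset ht)

theorem incr_abs {f f' : ℝ → ℝ} {a b c : ℝ} (hab : a ≤ b)
    (hf : ∀ t ∈ Icc a b, HasDerivAt f (f' t) t)
    (h : ∀ t ∈ Icc a b, |f' t| ≤ c) : |f b - f a| ≤ c * (b - a) := by
  have h1 := incr (f := f) (f' := f') (c := -c) hab hf fun t ht => (abs_le.1 (h t ht)).1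
  have h2 := incr (f := fun t => - f t) (f' := fun t => - f' t) (c := -c) hab
    (fun t ht => (hf t ht).neg) fun t ht => neg_le_neg (abs_le.1 (h t ht)).2
  rw [abs_le]
  constructor <;> linarith

/-- bootstrap -/
theorem boot {f : ℝ → ℝ} {a b κ : ℝ} (hf : ContinuousOn f (Icc a b)) (h0 : f a < κ)
    (h : ∀ t ∈ Icc a b, (∀ x ∈ Icc a t, f x ≤ κ) → f t < κ) : ∀ t ∈ Icc a b, f t < κ := by
  by_contra hcon
  push Not at hcon
  obtain ⟨t, ht, hft⟩ := hcon
  have hcl : IsClosed (Icc a b ∩ f ⁻¹' Ici κ) := hf.preimage_isClosed_of_isClosed isClosed_Icc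
    isClosed_Ici
  have hcp : IsCompact (Icc a b ∩ f ⁻¹' Ici κ) :=
    isCompact_Icc.of_isClosed_subset hcl inter_subset_left
  obtain ⟨t₀, ht₀, hmin⟩ := hcp.exists_isLeast ⟨t, ht, hft⟩
  have hlt : ∀ x ∈ Icc a b, x < t₀ → f x < κ := by
    intro x hx hxt
    by_contra hx'
    push Not at hx'
    exact absurd (hmin ⟨hx, hx'⟩) (not_le.2 hxt)
  have hle : f t₀ ≤ κ := by
    by_contra hx'
    push Not at hx'
    have hsub : Icc a t₀ ⊆ Icc a b := Icc_subset_Icc_right ht₀.1.2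
    have := intermediate_value_Icc ht₀.1.1 (hf.mono hsub)
    obtain ⟨x, hx, hfx⟩ := this ⟨h0.le, hx'.le⟩
    have hne : x ≠ t₀ := by
      rintro rfl
      exact absurd hfx (ne_of_gt hx')
    have := hlt x (hsub hx) (lt_of_le_of_ne hx.2 hne)
    rw [hfx] at this
    exact lt_irrefl _ this
  have hall : ∀ x ∈ Icc a t₀, f x ≤ κ := by
    intro x hx
    rcases hx.2.lt_or_eq with h1 | h1
    · exact (hlt x ⟨hx.1, hx.2.trans ht₀.1.2⟩ h1).le
    · rw [h1]; exact hle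
  exact absurd (h t₀ ht₀.1 hall) (not_lt.2 ht₀.2)

/-! ### The powers -/

theorem ev_pow {p : ℝ} (hp : 0 < p) (A : ℝ) {c : ℝ} (hc : 0 < c) :
    ∀ᶠ j : ℕ in atTop, A * (j : ℝ) ^ (-p) ≤ c := by
  have h1 : Tendsto (fun j : ℕ => (j : ℝ) ^ (-p)) atTop (𝓝 0) :=
    (tendsto_rpow_neg_atTop hp).comp tendsto_natCast_atTop_atTop
  have h2 : Tendsto (fun j : ℕ => A * (j : ℝ) ^ (-p)) atTop (𝓝 (A * 0)) := h1.const_mul A
  rw [mul_zero] at h2
  exact (h2.eventually (gt_mem_nhds hc)).mono fun j hj => le_of_lt hj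

theorem ee_pos {j : ℕ} (hj : 1 ≤ j) : 0 < ee j := by
  unfold ee
  exact Real.rpow_pos_of_pos (by exact_mod_cast hj) _

theorem ee_le {j : ℕ} (hj : 1 ≤ j) : ee j ≤ 1 := by
  unfold ee
  exact Real.rpow_le_one_of_one_le_of_nonpos (by exact_mod_cast hj) (by norm_num)

theorem ss_pos {u : ℝ} (hu : 0 < u) {j : ℕ} (hj : 1 ≤ j) : 0 < ss u j := by
  unfold ss
  have : 0 < (j : ℝ) ^ (-(3 / 2) : ℝ) := Real.rpow_pos_of_pos (by exact_mod_cast hj) _
  positivity

theorem tau_pos {j : ℕ} (hj : 1 ≤ j) : 0 < tau j := by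
  unfold tau
  exact Real.rpow_pos_of_pos (by exact_mod_cast hj) _

theorem tau_le {j : ℕ} (hj : 1 ≤ j) : tau j ≤ 1 := by
  unfold tau
  exact Real.rpow_le_one_of_one_le_of_nonpos (by exact_mod_cast hj) (by norm_num)

theorem dd_pos {j : ℕ} (hj : 1 ≤ j) : 0 < dd j := by
  unfold dd
  have : (0 : ℝ) < j := by exact_mod_cast hj
  positivity

theorem dd_le {j : ℕ} (hj : 1 ≤ j) : dd j ≤ 1 / 64 := by
  unfold dd
  have : (1 : ℝ) ≤ j := by exact_mod_cast hj
  exact one_div_le_one_div_of_le (by norm_num) (by linarith)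

theorem aa_pos {j : ℕ} (hj : 1 ≤ j) : 0 < aa j := by
  unfold aa
  exact mul_pos (ee_pos hj) (Real.rpow_pos_of_pos (by exact_mod_cast hj) _)

theorem ev_ee (A : ℝ) {c : ℝ} (hc : 0 < c) : ∀ᶠ j : ℕ in atTop, A * ee j ≤ c := by
  unfold ee
  exact ev_pow (by norm_num) A hc

theorem ev_ss (u A : ℝ) {c : ℝ} (hc : 0 < c) : ∀ᶠ j : ℕ in atTop, A * ss u j ≤ c := by
  have h := ev_pow (p := 3 / 2) (by norm_num) (A * (u / 64)) hc
  refine h.mono fun j hj => ?_
  unfold ss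
  linarith [hj, mul_assoc A (u / 64) ((j : ℝ) ^ (-(3 / 2) : ℝ))]

theorem ev_tau (A : ℝ) {c : ℝ} (hc : 0 < c) : ∀ᶠ j : ℕ in atTop, A * tau j ≤ c := by
  unfold tau
  exact ev_pow (by norm_num) A hc

/-- `j ^ (-2)` is much smaller than `ee j * ss u j` -/
theorem ev_es {u : ℝ} (hu : 0 < u) (A : ℝ) :
    ∀ᶠ j : ℕ in atTop, A * (j : ℝ) ^ (-2 : ℝ) ≤ ee j * ss u j := by
  have h := ev_pow (p := 3 / 8) (by norm_num) A (c := u / 64) (by positivity)
  refine (h.and (eventually_ge_atTop 1)).mono fun j hj => ?_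
  obtain ⟨h1, h2⟩ := hj
  have hj0 : (0 : ℝ) < j := by exact_mod_cast h2
  unfold ee ss
  have e1 : (j : ℝ) ^ (-2 : ℝ) =
      (j : ℝ) ^ (-(3 / 8) : ℝ) * ((j : ℝ) ^ (-(1 / 8) : ℝ) * (j : ℝ) ^ (-(3 / 2) : ℝ)) := by
    rw [← Real.rpow_add hj0, ← Real.rpow_add hj0]
    norm_num
  rw [e1]
  have hp : 0 < (j : ℝ) ^ (-(1 / 8) : ℝ) * (j : ℝ) ^ (-(3 / 2) : ℝ) := by positivity
  calc A * ((j : ℝ) ^ (-(3 / 8) : ℝ) * ((j : ℝ) ^ (-(1 / 8) : ℝ) * (j : ℝ) ^ (-(3 / 2) : ℝ)))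
      = A * (j : ℝ) ^ (-(3 / 8) : ℝ) * ((j : ℝ) ^ (-(1 / 8) : ℝ) * (j : ℝ) ^ (-(3 / 2) : ℝ)) := by
        ring
    _ ≤ u / 64 * ((j : ℝ) ^ (-(1 / 8) : ℝ) * (j : ℝ) ^ (-(3 / 2) : ℝ)) :=
        mul_le_mul_of_nonneg_right h1 hp.le
    _ = _ := by ring

/-- the errors of the kick -/
theorem ev_kick (u A : ℝ) : ∀ᶠ j : ℕ in atTop,
    A * ((j : ℝ) ^ (-2 : ℝ)) ^ 3 ≤ aa j * dd j ∧
    A * (((j : ℝ) ^ (-2 : ℝ)) ^ 2 * (ee j * ss u j)) ≤ aa j * dd j := by
  have h := ev_pow (p := 7 / 8) (by norm_num) A (c := 1 / 64) (by norm_num)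
  have h' := ev_pow (p := 1 / 2) (by norm_num) (A * (u / 64)) (c := 1 / 64) (by norm_num)
  refine ((h.and h').and (eventually_ge_atTop 1)).mono fun j hj => ?_
  obtain ⟨⟨h1, h1'⟩, h2⟩ := hj
  have hj0 : (0 : ℝ) < j := by exact_mod_cast h2
  have e0 : aa j * dd j = 1 / 64 * (j : ℝ) ^ (-(41 / 8) : ℝ) := by
    unfold aa dd ee
    have e1 : (1 : ℝ) / (64 * (j : ℝ)) = 64⁻¹ * (j : ℝ) ^ (-1 : ℝ) := by
      rw [Real.rpow_neg_one, one_div, mul_inv]
    rw [e1]
    rw [show (j : ℝ) ^ (-(1 / 8) : ℝ) * (j : ℝ) ^ (-4 : ℝ) * (64⁻¹ * (j : ℝ) ^ (-1 : ℝ)) =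
      64⁻¹ * ((j : ℝ) ^ (-(1 / 8) : ℝ) * (j : ℝ) ^ (-4 : ℝ) * (j : ℝ) ^ (-1 : ℝ)) by ring,
      ← Real.rpow_add hj0, ← Real.rpow_add hj0]
    norm_num
  have hp : 0 < (j : ℝ) ^ (-(41 / 8) : ℝ) := by positivity
  constructor
  · have e1 : ((j : ℝ) ^ (-2 : ℝ)) ^ 3 = (j : ℝ) ^ (-(7 / 8) : ℝ) * (j : ℝ) ^ (-(41 / 8) : ℝ) := by
      rw [← Real.rpow_natCast, ← Real.rpow_mul hj0.le, ← Real.rpow_add hj0]
      norm_num
    rw [e1, e0, ← mul_assoc]
    exact mul_le_mul_of_nonneg_right h1 hp.le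
  · have e1 : ((j : ℝ) ^ (-2 : ℝ)) ^ 2 * (ee j * ss u j) =
        u / 64 * ((j : ℝ) ^ (-(1 / 2) : ℝ) * (j : ℝ) ^ (-(41 / 8) : ℝ)) := by
      unfold ee ss
      rw [show ((j : ℝ) ^ (-2 : ℝ)) ^ 2 * ((j : ℝ) ^ (-(1 / 8) : ℝ) *
        (u / 64 * (j : ℝ) ^ (-(3 / 2) : ℝ))) = u / 64 * (((j : ℝ) ^ (-2 : ℝ)) ^ 2 *
          ((j : ℝ) ^ (-(1 / 8) : ℝ) * (j : ℝ) ^ (-(3 / 2) : ℝ))) by ring]
      rw [← Real.rpow_natCast, ← Real.rpow_mul hj0.le, ← Real.rpow_add hj0, ← Real.rpow_add hj0,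
        ← Real.rpow_add hj0]
      norm_num
    rw [e1, e0]
    calc A * (u / 64 * ((j : ℝ) ^ (-(1 / 2) : ℝ) * (j : ℝ) ^ (-(41 / 8) : ℝ)))
        = A * (u / 64) * (j : ℝ) ^ (-(1 / 2) : ℝ) * (j : ℝ) ^ (-(41 / 8) : ℝ) := by ring
      _ ≤ _ := mul_le_mul_of_nonneg_right h1' hp.le

/-! ### The derivatives along the curves -/

/-- distance from the unstable manifold -/
noncomputable def rho (e : Env) (F : Fam) (s t : ℝ) : ℝ := F.w s t - e.l * e.k (F.Y s t)

section der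

variable {e : Env} {F : Fam} {ε a b t₀ t₁ s t : ℝ}

theorem der_X (h : Ctl e F ε a b t₀ t₁) (hs : s ∈ Icc a b) (ht : t ∈ Icc t₀ t₁) :
    HasDerivAt (F.X s) (F.J s t + eX F s t) t :=
  ((h.dif s hs t ht).1.hasDerivAt).congr_deriv (by unfold eX; ring)

theorem der_J (h : Ctl e F ε a b t₀ t₁) (hs : s ∈ Icc a b) (ht : t ∈ Icc t₀ t₁) :
    HasDerivAt (F.J s) (e.α * e.Kx (F.X s t) (F.Y s t) t + eJ e F s t) t :=
  ((h.dif s hs t ht).2.1.hasDerivAt).congr_deriv (by unfold eJ; ring)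

theorem der_Y (h : Ctl e F ε a b t₀ t₁) (hs : s ∈ Icc a b) (ht : t ∈ Icc t₀ t₁) :
    HasDerivAt (F.Y s) (F.w s t + eY F s t) t :=
  ((h.dif s hs t ht).2.2.1.hasDerivAt).congr_deriv (by unfold eY; ring)

theorem der_w (h : Ctl e F ε a b t₀ t₁) (hs : s ∈ Icc a b) (ht : t ∈ Icc t₀ t₁) :
    HasDerivAt (F.w s) (e.l ^ 2 * e.k (F.Y s t) * deriv e.k (F.Y s t) +
      e.γ * e.Ky (F.X s t) (F.Y s t) t + ew e F s t) t :=
  ((h.dif s hs t ht).2.2.2.hasDerivAt).congr_deriv (by unfold ew; ring)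

theorem der_k {M : ℝ} (hM : Cst e M) (h : Ctl e F ε a b t₀ t₁) (hs : s ∈ Icc a b)
    (ht : t ∈ Icc t₀ t₁) : HasDerivAt (fun t => e.k (F.Y s t))
      (deriv e.k (F.Y s t) * (F.w s t + eY F s t)) t :=
  (hM.kd _).comp t (der_Y h hs ht)

theorem der_rho {M : ℝ} (hM : Cst e M) (h : Ctl e F ε a b t₀ t₁) (hs : s ∈ Icc a b)
    (ht : t ∈ Icc t₀ t₁) : HasDerivAt (rho e F s)
      (-(e.l * deriv e.k (F.Y s t)) * rho e F s t + (e.γ * e.Ky (F.X s t) (F.Y s t) t +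
        ew e F s t - e.l * deriv e.k (F.Y s t) * eY F s t)) t := by
  have h1 := (der_w h hs ht).sub ((der_k hM h hs ht).const_mul e.l)
  refine h1.congr_deriv ?_
  unfold rho
  ring

theorem der_P {M : ℝ} (hM : Cst e M) (h : Ctl e F ε a b t₀ t₁) (hs : s ∈ Icc a b)
    (ht : t ∈ Icc t₀ t₁) : HasDerivAt (fun t => e.k (F.Y s t) * rho e F s t)
      (deriv e.k (F.Y s t) * (rho e F s t + eY F s t) * rho e F s t +
        e.k (F.Y s t) * (e.γ * e.Ky (F.X s t) (F.Y s t) t +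
        ew e F s t - e.l * deriv e.k (F.Y s t) * eY F s t)) t := by
  have h1 := (der_k hM h hs ht).mul (der_rho hM h hs ht)
  refine h1.congr_deriv ?_
  unfold rho
  ring

end der

section hom

variable {e : Env} {H : ℝ → ℝ} {j₀ : ℕ}

theorem hom_lip (ok : EnvOK e j₀) (hH : Hom e H) (z z' : ℝ) : |H z - H z'| ≤ |z - z'| := by
  have h := lip_of_deriv (f := H) (M := 1) (fun t => (hH.der t).differentiableAt) (fun t => by
    rw [(hH.der t).deriv, abs_mul, abs_of_pos ok.hl]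
    have h1 := ok.prof.le_one (H t)
    have h2 := ok.hl1
    have h3 := ok.hl
    nlinarith [abs_nonneg (e.k (H t))]) z z'
  linarith

theorem hom_low (ok : EnvOK e j₀) (hH : Hom e H) (R : ℝ) : ∃ c₀ : ℝ, 0 < c₀ ∧
    ∀ z z', -R ≤ z → z ≤ z' → z' ≤ R → c₀ * (z' - z) ≤ H z' - H z := by
  by_cases hR : 0 ≤ R
  · have hcont : Continuous fun t => e.l * e.k (H t) := by
      have h1 : Continuous H := continuous_iff_continuousAt.2 fun t => (hH.der t).continuousAt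
      exact continuous_const.mul (ok.prof.smooth.continuous.comp h1)
    obtain ⟨z₀, hz₀, hmin⟩ := (isCompact_Icc (a := -R) (b := R)).exists_isMinOn
      ⟨0, by constructor <;> linarith⟩ hcont.continuousOn
    refine ⟨e.l * e.k (H z₀), mul_pos ok.hl (ok.prof.pos _ (hH.mem z₀)), ?_⟩
    intro z z' h1 h2 h3
    refine incr h2 (fun t _ => hH.der t) fun t ht => ?_
    exact hmin ⟨h1.trans ht.1, ht.2.trans h3⟩
  · refine ⟨1, one_pos, fun z z' h1 h2 h3 => ?_⟩
    push Not at hR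
    linarith

/-- near the plateau the homoclinic solution is almost linear -/
theorem hom_lin (ok : EnvOK e j₀) (hH : Hom e H) {R c₀ : ℝ} (hR : 1 / (4 * (e.l * e.c)) ≤ R)
    (hc₀ : 0 < c₀)
    (hlow : ∀ z z', -R ≤ z → z ≤ z' → z' ≤ R → c₀ * (z' - z) ≤ H z' - H z) {z κ : ℝ}
    (h1 : -R ≤ z) (h2 : z ≤ R) (hκ : 0 ≤ κ) (h : |H z - 1 / 2| ≤ 1 / 4 + κ) :
    |H z - 1 / 2 - e.l * e.c * z| ≤ (1 + 1 / c₀) * κ := by
  have hu := u_pos ok
  have hu1 := u_le ok
  set u := e.l * e.c with hudef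
  have hc : 0 ≤ 1 / c₀ := by positivity
  have hbig : 0 ≤ (1 + 1 / c₀) * κ := by positivity
  by_cases hz : |z| * u ≤ 1 / 4
  · rw [hH.pla z hz, show 1 / 2 + u * z - 1 / 2 - u * z = 0 by ring, abs_zero]
    exact hbig
  · push Not at hz
    have hz1 : 0 < 1 / (4 * u) := by positivity
    have e1 : 1 / (4 * u) * u = 1 / 4 := by field_simp
    rcases le_total 0 z with hz0 | hz0
    · rw [abs_of_nonneg hz0] at hz
      have h3 : 1 / (4 * u) ≤ z := by
        by_contra hcon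
        push Not at hcon
        have := mul_lt_mul_of_pos_right hcon hu
        rw [e1] at this
        linarith
      have h4 := hlow (1 / (4 * u)) z (by linarith) h3 h2
      have h5 : H (1 / (4 * u)) = 3 / 4 := by
        rw [hH.pla _ (by rw [abs_of_pos hz1, e1])]
        rw [mul_comm, e1]
        norm_num
      rw [h5] at h4
      have h6 := (abs_le.1 h).2
      have h7 : c₀ * (z - 1 / (4 * u)) ≤ κ := by linarith
      have h8 : z - 1 / (4 * u) ≤ 1 / c₀ * κ := by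
        rw [show 1 / c₀ * κ = κ / c₀ by ring, le_div_iff₀ hc₀]
        linarith
      have h9 : 0 ≤ z - 1 / (4 * u) := by linarith
      have h10 : 0 ≤ H z - 3 / 4 := by
        have : 0 ≤ c₀ * (z - 1 / (4 * u)) := mul_nonneg hc₀.le h9
        linarith
      have h11 : H z - 1 / 2 - u * z = (H z - 3 / 4) - u * (z - 1 / (4 * u)) := by
        have : u * (1 / (4 * u)) = 1 / 4 := by rw [mul_comm, e1]
        linear_combination -this
      have h12 : 0 ≤ u * (z - 1 / (4 * u)) := mul_nonneg hu.le h9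
      have h13 : u * (z - 1 / (4 * u)) ≤ 1 / c₀ * κ := by nlinarith
      rw [h11, abs_le]
      constructor <;> nlinarith
    · rw [abs_of_nonpos hz0] at hz
      have h3 : z ≤ -(1 / (4 * u)) := by
        by_contra hcon
        push Not at hcon
        have := mul_lt_mul_of_pos_right hcon hu
        rw [neg_mul, e1] at this
        linarith
      have h4 := hlow z (-(1 / (4 * u))) h1 h3 (by linarith)
      have h5 : H (-(1 / (4 * u))) = 1 / 4 := by
        rw [hH.pla _ (by rw [abs_neg, abs_of_pos hz1, e1])]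
        rw [mul_neg, mul_comm, e1]
        norm_num
      rw [h5] at h4
      have h6 := (abs_le.1 h).1
      have h7 : c₀ * (-(1 / (4 * u)) - z) ≤ κ := by linarith
      have h8 : -(1 / (4 * u)) - z ≤ 1 / c₀ * κ := by
        rw [show 1 / c₀ * κ = κ / c₀ by ring, le_div_iff₀ hc₀]
        linarith
      have h9 : 0 ≤ -(1 / (4 * u)) - z := by linarith
      have h10 : 0 ≤ 1 / 4 - H z := by
        have : 0 ≤ c₀ * (-(1 / (4 * u)) - z) := mul_nonneg hc₀.le h9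
        linarith
      have h11 : H z - 1 / 2 - u * z = -(1 / 4 - H z) + u * (-(1 / (4 * u)) - z) := by
        have : u * (1 / (4 * u)) = 1 / 4 := by rw [mul_comm, e1]
        linear_combination this
      have h12 : 0 ≤ u * (-(1 / (4 * u)) - z) := mul_nonneg hu.le h9
      have h13 : u * (-(1 / (4 * u)) - z) ≤ 1 / c₀ * κ := by nlinarith
      rw [h11, abs_le]
      constructor <;> nlinarith

/-- the number of units of time is at least two -/
theorem two_le (hH : Hom e H) {m : ℕ} (h : H (-m + 1) < 1 / 8) : 2 ≤ m := by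
  by_contra hcon
  have hm : (m : ℝ) ≤ 1 := by
    have : m ≤ 1 := by omega
    exact_mod_cast this
  have h1 := hH.pla 0 (by norm_num)
  have h2 : H 0 ≤ H (-m + 1) := hH.mon.monotone (by linarith)
  rw [h1] at h2
  norm_num at h2
  linarith

theorem quarter_lt (ok : EnvOK e j₀) (hH : Hom e H) {m : ℕ} (h : H (-m + 1) < 1 / 8) :
    1 / (4 * (e.l * e.c)) < (m : ℝ) - 1 := by
  have hu := u_pos ok
  have h1 : 0 < 1 / (4 * (e.l * e.c)) := by positivity
  have e1 : 1 / (4 * (e.l * e.c)) * (e.l * e.c) = 1 / 4 := by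
    have h0 := hu.ne'
    generalize e.l * e.c = u at h0 ⊢
    field_simp
  have h5 : H (-(1 / (4 * (e.l * e.c)))) = 1 / 4 := by
    rw [hH.pla _ (by rw [abs_neg, abs_of_pos h1, e1])]
    rw [mul_neg, mul_comm, e1]
    norm_num
  have h6 : H (-m + 1) < H (-(1 / (4 * (e.l * e.c)))) := by rw [h5]; linarith
  have := hH.mon.lt_iff_lt.1 h6
  linarith

/-- a time window in which the bump is at least one -/
theorem window (ok : EnvOK e j₀) (hH : Hom e H) {m : ℕ} (h : H (-m + 1) < 1 / 8) :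
    ∃ z₁ z₂ κ : ℝ, z₁ < z₂ ∧ -(m : ℝ) + 1 ≤ z₁ ∧ z₂ ≤ 0 ∧ 0 < κ ∧
      ∀ z ∈ Icc z₁ z₂, ∀ y, |y - H z| ≤ κ → 1 ≤ e.χ y ∧ e.k y = e.c := by
  have hu := u_pos ok
  obtain ⟨y₁, y₂, h1, h2, h3, h4⟩ := ok.shp.chp
  have hq := quarter_lt ok hH h
  refine ⟨(y₁ + (y₂ - y₁) / 4 - 1 / 2) / (e.l * e.c), (y₂ - (y₂ - y₁) / 4 - 1 / 2) / (e.l * e.c),
    (y₂ - y₁) / 4, ?_, ?_, ?_, by linarith, ?_⟩
  · exact div_lt_div_of_pos_right (by linarith) hu
  · have e1 : 1 / (4 * (e.l * e.c)) * (e.l * e.c) = 1 / 4 := by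
      have h0 := hu.ne'
      generalize e.l * e.c = u at h0 ⊢
      field_simp
    rw [le_div_iff₀ hu]
    have := mul_lt_mul_of_pos_right hq hu
    rw [e1] at this
    linarith
  · exact div_nonpos_of_nonpos_of_nonneg (by linarith) hu.le
  · intro z hz y hy
    have g1 := (div_le_iff₀ hu).1 hz.1
    have g2 := (le_div_iff₀ hu).1 hz.2
    have g3 : |z| * (e.l * e.c) ≤ 1 / 4 := by
      have : |z| * (e.l * e.c) = |z * (e.l * e.c)| := by rw [abs_mul, abs_of_pos hu]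
      rw [this, abs_le]
      constructor <;> linarith
    have g4 := hH.pla z g3
    rw [g4, mul_comm (e.l * e.c) z] at hy
    have g5 := abs_le.1 hy
    refine ⟨h4 y ⟨by linarith, by linarith⟩, ok.prof.plat y ⟨by linarith, by linarith⟩⟩

end hom

/-- the product of the profile and the bump is nonnegative -/
theorem k_chi {e : Env} {j₀ : ℕ} (ok : EnvOK e j₀) (y : ℝ) : 0 ≤ e.k y * e.χ y := by
  by_cases h : y < 3 / 8 ∨ 1 / 2 < y
  · rw [(chi_zero ok h).1, mul_zero]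
  · push Not at h
    rw [ok.prof.plat y ⟨by linarith, by linarith⟩]
    exact mul_nonneg ok.prof.cpos.le (ok.shp.chn y)

end Pool.Agent.Helper6K9.EH.LoopL
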