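import Pool.Agent.Helper6K9.EH.MainC
import Pool.Agent.Helper6K9.EH.La
import Pool.Agent.Helper6K9.EH.Ave

set_option autoImplicit false

/-!
# The main theorem in dimension two
-/

namespace Pool.Agent.Helper6K9.EH

open Set Filter Topology Pool.Agent.Helper6K9.ES
open scoped ContDiff

theorem main (A : Matrix (Fin (1 + 1)) (Fin (1 + 1)) ℝ) (hA : A.PosDef)
    (f₀ : E 1 → ℝ) (hf : ContDiff ℝ 2 f₀) (hp : Per f₀) (ε : ℝ) (hε : 0 < ε) :
    ∃ f : E 1 → ℝ, ContDiff ℝ 2 f ∧ Per f ∧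
      (∀ (j : ℕ) (p : E 1), j ≤ 2 → ‖iteratedFDeriv ℝ j (fun q => f q - f₀ q) p‖ ≤ ε) ∧
      ∃ γ : ℝ → Q 1, ((∀ t, DifferentiableAt ℝ γ t) ∧ ∀ (t : ℝ) (i : Fin (1 + 1)),
        HasDerivAt (fun s => dv (lag A f) i (γ s) (deriv γ s) s)
          (dx (lag A f) i (γ t) (deriv γ t) t) t) ∧
        Tendsto (fun t => ‖deriv γ t‖) atTop atTop :=
  main_of la ave A hA f₀ hf hp ε hε

end Pool.Agent.Helper6K9.EH
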