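import Pool.Agent.Helper6K9.EH.PotC

set_option autoImplicit false

/-! # Leaf POT: the final assembly -/

namespace Pool.Agent.Helper6K9.EH

open Set Filter Topology Pool.Agent.Helper6K9.ES
open scoped ContDiff

namespace PotL

theorem psi_deriv_add (z : ℝ) (n : ℤ) : deriv psi (z + n) = deriv psi z := by
  have h : (fun w => psi (w + n)) = psi := funext fun w => psi_add w n
  have h1 := deriv_comp_add_const (f := psi) (n : ℝ) z
  rw [h] at h1
  exact h1.symm

/-- the tubes with integer index -/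
noncomputable def VV (b u : ℝ) (χ cb β : ℝ → ℝ) (j₀ : ℕ) (j : ℤ) : E 1 → ℝ :=
  if (j₀ : ℤ) ≤ j then Vn b u χ cb β j.toNat else fun _ => 0

open Classical in
/-- the regions with integer index -/
noncomputable def AA (u : ℝ) (j₀ : ℕ) (j : ℤ) : Set (E 1) := if (j₀ : ℤ) ≤ j then Rg u j.toNat else ∅

variable {b u : ℝ} {χ cb β : ℝ → ℝ} {j₀ : ℕ}

theorem VV_pos {j : ℤ} (h : (j₀ : ℤ) ≤ j) : VV b u χ cb β j₀ j = Vn b u χ cb β j.toNat := if_pos h
theorem VV_neg {j : ℤ} (h : ¬ (j₀ : ℤ) ≤ j) : VV b u χ cb β j₀ j = fun _ => 0 := if_neg h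
theorem AA_pos {j : ℤ} (h : (j₀ : ℤ) ≤ j) : AA u j₀ j = Rg u j.toNat := if_pos h
theorem AA_neg {j : ℤ} (h : ¬ (j₀ : ℤ) ≤ j) : AA u j₀ j = ∅ := if_neg h

theorem mem_AA {j : ℤ} {p : E 1} (h : p ∈ AA u j₀ j) : (j₀ : ℤ) ≤ j ∧ p ∈ Rg u j.toNat := by
  by_cases h1 : (j₀ : ℤ) ≤ j
  · rw [AA_pos h1] at h; exact ⟨h1, h⟩
  · rw [AA_neg h1] at h; exact absurd h (notMem_empty _)

theorem tubes (hu : 0 < u) (hu1 : u ≤ 1) (h : Sh u χ cb β) (hj₀ : 64 ≤ j₀) :
    Tubes (VV b u χ cb β j₀) (AA u j₀) := by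
  obtain ⟨C, -, hC⟩ := bounds (b := b) hu hu1 h
  refine ⟨?_, ?_, ?_, ?_, ?_, ?_⟩
  · intro j
    by_cases h1 : (j₀ : ℤ) ≤ j
    · rw [VV_pos h1]; exact (hC j.toNat (by omega)).1
    · rw [VV_neg h1]; exact contDiff_const
  · intro j p hp
    by_cases h1 : (j₀ : ℤ) ≤ j
    · rw [VV_pos h1] at hp; rw [AA_pos h1]; exact supp hu h (by omega) hp
    · rw [VV_neg h1] at hp; exact absurd rfl hp
  · intro j p hp
    obtain ⟨h1, h2⟩ := mem_AA hp
    exact box hu hu1 (by omega) h2
  · intro j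
    by_cases h1 : (j₀ : ℤ) ≤ j
    · rw [AA_pos h1]; exact closed u _
    · rw [AA_neg h1]; exact isClosed_empty
  · intro j j' p hne hp hp'
    obtain ⟨h1, h2⟩ := mem_AA hp
    obtain ⟨h1', h2'⟩ := mem_AA hp'
    rcases lt_or_gt_of_ne hne with hlt | hlt
    · exact disj hu (i := j.toNat) (j := j'.toNat) (by omega) (by omega) h2 h2'
    · exact disj hu (i := j'.toNat) (j := j.toNat) (by omega) (by omega) h2' h2
  · intro j p n
    by_cases h1 : (j₀ : ℤ) ≤ j
    · rw [VV_pos h1]; exact per _ p n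
    · rw [VV_neg h1]

theorem pt_0 (x y t : ℝ) : (pt x y t).1 0 = x := rfl
theorem pt_1 (x y t : ℝ) : (pt x y t).1 1 = y := rfl
theorem pt_t (x y t : ℝ) : (pt x y t).2 = t := rfl

theorem rp_eq {p : E 1} (h1 : p.1 1 ∈ Icc (1 / 4 : ℝ) (3 / 4)) (h2 : p.2 ∈ Icc (-1 / 4 : ℝ) (3 / 8)) :
    rp p = p := by
  have e1 : ⌊p.1 1⌋ = 0 := Int.floor_eq_iff.2 ⟨by push_cast; linarith [h1.1],
    by push_cast; linarith [h1.2]⟩
  have e2 : ⌊p.2 + 1 / 2⌋ = 0 := Int.floor_eq_iff.2 ⟨by push_cast; linarith [h2.1],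
    by push_cast; linarith [h2.2]⟩
  unfold rp
  rw [e1, e2]
  ext i <;> simp [vv]

theorem shapes (hu : 0 < u) (hu1 : u ≤ 1) : ∃ χ cb β : ℝ → ℝ, Sh u χ cb β ∧ Shp u χ (deriv psi) cb := by
  let fβ : ContDiffBump (0 : ℝ) := ⟨5 / 4, 3 / 2, by norm_num, by norm_num⟩
  let fc : ContDiffBump (0 : ℝ) := ⟨1 / 2, 1, by norm_num, by norm_num⟩
  let fx : ContDiffBump (1 / 2 - u / 8 : ℝ) := ⟨u / 32, u / 16, by positivity, by linarith⟩
  have hx : ∀ y, fx y ≠ 0 → |y - (1 / 2 - u / 8)| < u / 16 := by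
    intro y hy
    by_contra hc
    exact hy (fx.zero_of_le_dist (by rw [Real.dist_eq]; exact not_lt.1 hc))
  have hc0 : ∀ z, 1 ≤ |z| → fc z = 0 := by
    intro z hz
    exact fc.zero_of_le_dist (by rw [Real.dist_eq, sub_zero]; exact hz)
  refine ⟨fx, fc, fβ, ⟨fβ.contDiff, ?_, ?_, fc.contDiff, ?_, fx.contDiff, ?_⟩,
    ⟨fx.contDiff, fun y => fx.nonneg, ?_, ?_, ?_, psi_deriv_add, fun z hz => psi_deriv hz,
      fc.continuous, fun z => ⟨fc.nonneg, fc.le_one⟩, ?_, hc0⟩⟩
  · intro z hz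
    exact fβ.one_of_mem_closedBall (by rw [Metric.mem_closedBall, Real.dist_eq, sub_zero]; exact hz)
  · intro z hz
    by_contra hc
    exact hz (fβ.zero_of_le_dist (by rw [Real.dist_eq, sub_zero]; exact (not_le.1 hc).le))
  · intro z hz
    by_contra hc
    exact hz (hc0 z (not_lt.1 hc))
  · intro y hy
    have h1 := abs_lt.1 (hx y hy)
    rw [abs_le]
    constructor <;> linarith [h1.1, h1.2]
  · refine ⟨1 / 2 - u / 8 - u / 32, 1 / 2 - u / 8 + u / 32, by linarith, by linarith, by linarith,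
      fun y hy => ?_⟩
    rw [fx.one_of_mem_closedBall]
    rw [Metric.mem_closedBall, Real.dist_eq, abs_le]
    constructor
    · show -(u / 32) ≤ _; linarith [hy.1]
    · show _ ≤ u / 32; linarith [hy.2]
  · intro y hy
    have h1 := abs_lt.1 (hx y hy)
    constructor <;> linarith [h1.1, h1.2]
  · exact (psi_smooth.continuous_deriv (by norm_num))
  · intro z hz
    exact fc.one_of_mem_closedBall (by rw [Metric.mem_closedBall, Real.dist_eq, sub_zero]; exact hz)

end PotL

open PotL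

/-- [POT] -/
theorem pot : S_POT := by
  intro b u ε hu hu1 hε
  obtain ⟨χ, cb, β, hS, hP⟩ := shapes hu hu1
  obtain ⟨C, hC0, hC⟩ := bounds (b := b) hu hu1 hS
  -- the choice of `j₀`
  have hlim : Tendsto (fun x : ℝ => C * x ^ (-(1 / 8) : ℝ)) atTop (𝓝 0) := by
    have := (tendsto_rpow_neg_atTop (show (0 : ℝ) < 1 / 8 by norm_num)).const_mul C
    simpa using this
  obtain ⟨x₀, hx₀⟩ := ((hlim.eventually (ge_mem_nhds hε)).and (eventually_ge_atTop 0)).exists_forall_of_atTop
  obtain ⟨j₀, hj₀1, hj₀2⟩ : ∃ j₀ : ℕ, 64 ≤ j₀ ∧ x₀ ≤ (j₀ : ℝ) / 2 := by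
    refine ⟨max 64 ⌈2 * x₀⌉₊, le_max_left _ _, ?_⟩
    have h1 : (2 * x₀ : ℝ) ≤ ⌈2 * x₀⌉₊ := Nat.le_ceil _
    have h2 : ((⌈2 * x₀⌉₊ : ℕ) : ℝ) ≤ ((max 64 ⌈2 * x₀⌉₊ : ℕ) : ℝ) := by
      exact_mod_cast le_max_right _ _
    linarith
  have hj₀' : (64 : ℝ) ≤ j₀ := by exact_mod_cast hj₀1
  have hT := tubes (b := b) (χ := χ) (cb := cb) (β := β) hu hu1 hS hj₀1
  let η : ℝ → ℝ := fun t => C * (max t j₀ / 2) ^ (-(1 / 8) : ℝ)
  have hpos : ∀ t : ℝ, 0 < max t (j₀ : ℝ) / 2 := fun t => by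
    have := le_max_right t (j₀ : ℝ)
    linarith
  have hη0 : ∀ t, 0 ≤ η t := fun t => mul_nonneg hC0 (Real.rpow_nonneg (hpos t).le _)
  obtain ⟨g, g1, g2, g3, g4, g5⟩ := hT.glue η ε
    (by
      intro j hj p
      rw [VV_neg (by omega)])
    (by
      intro s t hst
      refine mul_le_mul_of_nonneg_left ?_ hC0
      refine Real.rpow_le_rpow_of_nonpos (hpos s) ?_ (by norm_num)
      have := max_le_max_right (j₀ : ℝ) hst
      linarith)
    (by
      refine hlim.comp ?_
      have h1 : Tendsto (fun t : ℝ => max t (j₀ : ℝ)) atTop atTop :=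
        tendsto_atTop_mono (fun t => le_max_left _ _) tendsto_id
      exact h1.atTop_div_const (by norm_num))
    (by
      intro t
      refine (hx₀ _ ?_).1
      have := le_max_right t (j₀ : ℝ)
      linarith)
    (by
      intro j p t ht
      by_cases h1 : (j₀ : ℤ) ≤ j
      · rw [VV_pos h1]
        have h2 := (hC j.toNat (by omega)).2 p
        have h3 : ((j.toNat : ℕ) : ℝ) = (j : ℝ) := by
          have : ((j.toNat : ℕ) : ℤ) = j := Int.toNat_of_nonneg (by omega)
          exact_mod_cast this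
        have h4 : (j₀ : ℝ) ≤ j := by exact_mod_cast h1
        have h5 : C * ee j.toNat ≤ η t := by
          refine mul_le_mul_of_nonneg_left ?_ hC0
          unfold ee
          rw [h3]
          refine Real.rpow_le_rpow_of_nonpos (hpos t) ?_ (by norm_num)
          have : max t (j₀ : ℝ) ≤ 2 * j := max_le (by linarith) (by linarith)
          linarith
        exact ⟨h2.1.trans h5, h2.2.1.trans h5, h2.2.2.trans h5⟩
      · rw [VV_neg h1]
        have e : fderiv ℝ (fun _ : E 1 => (0 : ℝ)) = fun _ => 0 := by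
          funext q; exact fderiv_const_apply 0
        have e2 : fderiv ℝ (fun _ : E 1 => (0 : E 1 →L[ℝ] ℝ)) p = 0 := fderiv_const_apply 0
        rw [e, e2]
        refine ⟨by rw [abs_zero]; exact hη0 t, ?_, ?_⟩
        · exact (norm_zero (E := E 1 →L[ℝ] ℝ)).le.trans (hη0 t)
        · exact (norm_zero (E := E 1 →L[ℝ] (E 1 →L[ℝ] ℝ))).le.trans (hη0 t))
  refine ⟨j₀, g, χ, deriv psi, cb, by omega, hP, g1, g2, g3, ?_, ?_⟩
  · intro x y t hy
    have hz : fderiv ℝ g (pt x y t) = 0 := by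
      apply g4
      intro j hj
      obtain ⟨⟨a1, a2⟩, -⟩ := hT.box _ _ hj
      rw [rp, vv_1, pt_1] at a1 a2
      rcases hy with hy | hy
      · rw [abs_le] at hy
        have h1 : (-1 : ℝ) < ⌊y⌋ := by linarith [hy.1]
        have h2 : (⌊y⌋ : ℝ) < 0 := by linarith [hy.2]
        have h3 : (-1 : ℤ) < ⌊y⌋ := by exact_mod_cast h1
        have h4 : ⌊y⌋ < (0 : ℤ) := by exact_mod_cast h2
        omega
      · rw [abs_le] at hy
        have h1 : (0 : ℝ) < ⌊y⌋ := by linarith [hy.1]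
        have h2 : (⌊y⌋ : ℝ) < 1 := by linarith [hy.2]
        have h3 : (0 : ℤ) < ⌊y⌋ := by exact_mod_cast h1
        have h4 : ⌊y⌋ < (1 : ℤ) := by exact_mod_cast h2
        omega
    simp only [dX, hz]
    simp
  · intro j hj x y t hy he
    set p : E 1 := pt (x + b * y) y t with hp
    have hj1 : 1 ≤ j := by omega
    have hyI : p.1 1 ∈ Icc (1 / 4 : ℝ) (3 / 4) := by
      rw [hp, pt_1]
      rw [abs_le] at hy
      constructor <;> linarith [hy.1, hy.2]
    have ex : x + b * y - b * y - LL j * t - hf j = x - LL j * t - hf j := by ring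
    by_cases h1 : |y - 1 / 2| ≤ 3 * u / 16
    · have hs := ss_pos hu hj1
      have hR : p ∈ Rg u j := ⟨by rw [hp, pt_1, pt_t]; linarith, by rw [hp, pt_1]; exact h1⟩
      have hbox := box hu hu1 (by omega) hR
      have hrp : rp p = p := rp_eq hyI hbox.2
      have hmem : rp p ∈ AA u j₀ (j : ℤ) := by
        rw [AA_pos (by exact_mod_cast hj), hrp]
        simpa using hR
      have hfd := g5 p j hmem
      rw [hrp, VV_pos (by exact_mod_cast hj), Int.toNat_natCast] at hfd
      have hV := (hC j hj1).1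
      have he' : |eta u j (p.1 1) p.2| ≤ ss u j := he
      have hx := deriv_x (b := b) hu hS hj1 hV he'
      have hyy := deriv_y (b := b) hu hS hj1 hV he'
      have e0 : dX 0 g p = aa j * cb ((t - tau j) / dd j) * deriv psi (x - LL j * t - hf j) := by
        show fderiv ℝ g p _ = _
        rw [hfd, hx]
        show aa j * cb ((t - tau j) / dd j) * deriv psi (x + b * y - b * y - LL j * t - hf j) = _
        rw [ex]
      have e1 : dX 1 g p = ee j * (eta u j y t * χ y + eta u j y t ^ 2 / 2 * deriv χ y) -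
          b * (aa j * cb ((t - tau j) / dd j) * deriv psi (x - LL j * t - hf j)) := by
        show fderiv ℝ g p _ = _
        rw [hfd, hyy]
        show ee j * (eta u j y t * χ y + eta u j y t ^ 2 / 2 * deriv χ y) -
          b * (aa j * cb ((t - tau j) / dd j) *
            deriv psi (x + b * y - b * y - LL j * t - hf j)) = _
        rw [ex]
      refine ⟨?_, e0⟩
      rw [e1, e0]
      ring
    · have h1' := not_le.1 h1
      have hz : fderiv ℝ g p = 0 := by
        apply g4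
        intro j' hj'
        obtain ⟨-, -, h3⟩ := mem_AA hj'
        have e1 : ⌊p.1 1⌋ = 0 := Int.floor_eq_iff.2 ⟨by push_cast; linarith [hyI.1],
          by push_cast; linarith [hyI.2]⟩
        rw [rp, vv_1, e1, hp, pt_1, Int.cast_zero, sub_zero] at h3
        exact h1 h3
      have hχ0 : ∀ w, 3 * u / 16 < |w - 1 / 2| → χ w = 0 := by
        intro w hw
        by_contra hc
        exact absurd (hS.x0 w hc) (not_le.2 hw)
      have hχ1 : deriv χ y = 0 := by
        have : χ =ᶠ[𝓝 y] fun _ => 0 := by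
          have o : IsOpen {w : ℝ | 3 * u / 16 < |w - 1 / 2|} :=
            isOpen_lt continuous_const (continuous_id.sub continuous_const).abs
          filter_upwards [o.mem_nhds h1'] with w hw
          exact hχ0 w hw
        rw [this.deriv_eq]
        exact deriv_const y 0
      have hcb0 : cb ((t - tau j) / dd j) = 0 := by
        by_contra hc
        have h3 := hS.c0 _ hc
        have hj' : (1 : ℝ) ≤ j := by exact_mod_cast hj1
        have hd : 0 < dd j := by unfold dd; positivity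
        have hd1 : dd j ≤ 1 / 64 := by
          unfold dd
          exact one_div_le_one_div_of_le (by norm_num) (by linarith)
        rw [abs_div, abs_of_pos hd, div_lt_one hd] at h3
        have h4 : y - 1 / 2 = eta u j y t + u * (t - tau j) := by unfold eta; ring
        have h5 : |y - 1 / 2| ≤ |eta u j y t| + u * |t - tau j| := by
          rw [h4]
          refine (abs_add_le _ _).trans ?_
          rw [abs_mul, abs_of_pos hu]
        have h6 := ss_le hu hj1
        nlinarith [abs_nonneg (t - tau j)]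
      simp only [dX, hz]
      rw [hχ0 y h1', hχ1, hcb0]
      simp

end Pool.Agent.Helper6K9.EH
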