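import Pool.Agent.Helper6K9.EH.Stm

set_option autoImplicit false

/-!
# Orbits which escape to infinity: the profile of the slow potential
-/

namespace Pool.Agent.Helper6K9.EH.ProfL

open Set Filter Topology
open scoped ContDiff

/-- the cutoff: `0` where `cos (2 π y) ≥ √2 / 2`, `1` where `cos (2 π y) ≤ 0` -/
noncomputable def S (y : ℝ) : ℝ := Real.smoothTransition (1 - √2 * Real.cos (2 * Real.pi * y))

/-- the inner function -/
noncomputable def A (y : ℝ) : ℝ := Real.sin (Real.pi * y) *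
  ((1 - S y) + S y * (1 / 2) / √(Real.sin (Real.pi * y) ^ 2 + (1 - S y)))

noncomputable def kk (y : ℝ) : ℝ := Real.arcsin (A y) / Real.pi

lemma S_smooth : ContDiff ℝ ∞ S := by
  unfold S
  exact Real.smoothTransition.contDiff.comp (by fun_prop)

lemma S_nonneg (y : ℝ) : 0 ≤ S y := Real.smoothTransition.nonneg _
lemma S_le (y : ℝ) : S y ≤ 1 := Real.smoothTransition.le_one _

lemma sin_sq_eq (y : ℝ) : Real.sin (Real.pi * y) ^ 2 = (1 - Real.cos (2 * Real.pi * y)) / 2 := by
  have h := Real.cos_two_mul (Real.pi * y)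
  have h2 := Real.sin_sq_add_cos_sq (Real.pi * y)
  have h3 : 2 * (Real.pi * y) = 2 * Real.pi * y := by ring
  rw [h3] at h
  linarith

lemma S_one {y : ℝ} (h : Real.cos (2 * Real.pi * y) ≤ 0) : S y = 1 := by
  unfold S
  apply Real.smoothTransition.one_of_one_le
  have : 0 ≤ √2 := Real.sqrt_nonneg _
  nlinarith

lemma S_lt {y : ℝ} (h : S y < 1) : Real.sin (Real.pi * y) ^ 2 < 1 / 2 := by
  rw [sin_sq_eq]
  by_contra hc
  push Not at hc
  have := S_one (y := y) (by linarith)
  linarith

lemma rad_pos (y : ℝ) : 0 < Real.sin (Real.pi * y) ^ 2 + (1 - S y) := by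
  have h1 := S_le y
  rcases h1.lt_or_eq with h | h
  · have := sq_nonneg (Real.sin (Real.pi * y))
    linarith
  · have h0 : Real.sin (Real.pi * y) ≠ 0 := by
      intro h0
      have h2 := sin_sq_eq y
      rw [h0] at h2
      have h3 : Real.cos (2 * Real.pi * y) = 1 := by nlinarith
      have h4 : S y = 0 := by
        unfold S
        apply Real.smoothTransition.zero_of_nonpos
        rw [h3]
        have : (1 : ℝ) ≤ √2 := by
          rw [Real.one_le_sqrt]
          norm_num
        linarith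
      linarith
    have : 0 < Real.sin (Real.pi * y) ^ 2 := by positivity
    linarith

lemma A_smooth : ContDiff ℝ ∞ A := by
  unfold A
  have h1 : ContDiff ℝ ∞ fun y : ℝ => Real.sin (Real.pi * y) := by fun_prop
  have h2 : ContDiff ℝ ∞ fun y : ℝ => √(Real.sin (Real.pi * y) ^ 2 + (1 - S y)) :=
    ContDiff.sqrt ((h1.pow 2).add (contDiff_const.sub S_smooth)) fun y => (rad_pos y).ne'
  refine h1.mul ((contDiff_const.sub S_smooth).add ?_)
  exact (S_smooth.mul contDiff_const).div h2 fun y => (Real.sqrt_pos.2 (rad_pos y)).ne'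

lemma A_lt (y : ℝ) : |A y| < 1 := by
  unfold A
  have hs := S_nonneg y
  have hs1 := S_le y
  have hr := Real.sqrt_pos.2 (rad_pos y)
  have hb : |Real.sin (Real.pi * y)| ≤ √(Real.sin (Real.pi * y) ^ 2 + (1 - S y)) := by
    apply Real.abs_le_sqrt
    linarith
  have hq : |Real.sin (Real.pi * y)| * (1 / √(Real.sin (Real.pi * y) ^ 2 + (1 - S y))) ≤ 1 := by
    rw [mul_one_div]
    exact (div_le_one hr).2 hb
  have hn : 0 ≤ (1 - S y) + S y * (1 / 2) / √(Real.sin (Real.pi * y) ^ 2 + (1 - S y)) := by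
    have : 0 ≤ S y * (1 / 2) / √(Real.sin (Real.pi * y) ^ 2 + (1 - S y)) := by positivity
    linarith
  rw [abs_mul, abs_of_nonneg hn]
  have h1 : |Real.sin (Real.pi * y)| *
      ((1 - S y) + S y * (1 / 2) / √(Real.sin (Real.pi * y) ^ 2 + (1 - S y))) =
      (1 - S y) * |Real.sin (Real.pi * y)| + S y * (1 / 2) *
        (|Real.sin (Real.pi * y)| * (1 / √(Real.sin (Real.pi * y) ^ 2 + (1 - S y)))) := by ring
  rw [h1]
  have h2 : S y * (1 / 2) *
        (|Real.sin (Real.pi * y)| * (1 / √(Real.sin (Real.pi * y) ^ 2 + (1 - S y)))) ≤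
        S y * (1 / 2) * 1 := mul_le_mul_of_nonneg_left hq (by positivity)
  have h3 : |Real.sin (Real.pi * y)| ≤ 1 := Real.abs_sin_le_one _
  have h4 : (1 - S y) * |Real.sin (Real.pi * y)| ≤ (1 - S y) * 1 :=
    mul_le_mul_of_nonneg_left h3 (by linarith)
  rcases hs1.lt_or_eq with h | h
  · rcases hs.lt_or_eq with h' | h'
    · linarith
    · have h5 := S_lt h
      have h6 : |Real.sin (Real.pi * y)| < 1 := by
        rw [← sq_abs] at h5
        nlinarith [abs_nonneg (Real.sin (Real.pi * y))]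
      rw [← h'] at *
      simp at *
      linarith
  · linarith

lemma kk_smooth : ContDiff ℝ ∞ kk := by
  unfold kk
  apply ContDiff.div_const
  rw [contDiff_iff_contDiffAt]
  intro y
  have h := abs_lt.1 (A_lt y)
  exact (Real.contDiffAt_arcsin h.1.ne' h.2.ne).comp y A_smooth.contDiffAt

lemma S_add (y : ℝ) : S (y + 1) = S y := by
  unfold S
  have : 2 * Real.pi * (y + 1) = 2 * Real.pi * y + 2 * Real.pi := by ring
  rw [this, Real.cos_add_two_pi]

lemma kk_anti (y : ℝ) : kk (y + 1) = - kk y := by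
  unfold kk A
  have : Real.pi * (y + 1) = Real.pi * y + Real.pi := by ring
  rw [S_add, this, Real.sin_add_pi, neg_sq, neg_mul, Real.arcsin_neg, neg_div]

lemma S_zero {y : ℝ} (h : |y| ≤ 1 / 8) : S y = 0 := by
  unfold S
  apply Real.smoothTransition.zero_of_nonpos
  have h1 : Real.cos (Real.pi / 4) ≤ Real.cos (2 * Real.pi * y) := by
    rw [← Real.cos_abs (2 * Real.pi * y)]
    apply Real.cos_le_cos_of_nonneg_of_le_pi (abs_nonneg _) (by linarith [Real.pi_pos])
    rw [abs_mul, abs_of_pos Real.two_pi_pos]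
    have := Real.pi_pos
    nlinarith
  rw [Real.cos_pi_div_four] at h1
  have h2 : √2 * √2 = 2 := Real.mul_self_sqrt (by norm_num)
  have h3 : 0 < √2 := by positivity
  nlinarith

lemma kk_lin {y : ℝ} (h : |y| ≤ 1 / 8) : kk y = y := by
  unfold kk A
  rw [S_zero h]
  have h' := abs_le.1 h
  simp only [sub_zero, zero_mul, zero_div, add_zero, mul_one]
  rw [Real.arcsin_sin (by nlinarith [Real.pi_pos]) (by nlinarith [Real.pi_pos])]
  field_simp

lemma kk_plat {y : ℝ} (h : y ∈ Icc (1 / 4 : ℝ) (3 / 4)) : kk y = Real.arcsin (1 / 2) / Real.pi := by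
  have hc : Real.cos (2 * Real.pi * y) ≤ 0 := by
    apply Real.cos_nonpos_of_pi_div_two_le_of_le <;> nlinarith [Real.pi_pos, h.1, h.2]
  have hs : 0 < Real.sin (Real.pi * y) := by
    apply Real.sin_pos_of_pos_of_lt_pi <;> nlinarith [Real.pi_pos, h.1, h.2]
  unfold kk A
  rw [S_one hc]
  simp only [sub_self, add_zero, zero_add, one_mul]
  rw [Real.sqrt_sq hs.le]
  congr 2
  field_simp

lemma kk_pos {y : ℝ} (h : y ∈ Ioo (0 : ℝ) 1) : 0 < kk y := by
  unfold kk
  apply div_pos _ Real.pi_pos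
  rw [Real.arcsin_pos]
  unfold A
  have hs : 0 < Real.sin (Real.pi * y) := by
    apply Real.sin_pos_of_pos_of_lt_pi <;> nlinarith [Real.pi_pos, h.1, h.2]
  apply mul_pos hs
  have h0 := S_nonneg y
  have h1 := S_le y
  have hr := Real.sqrt_pos.2 (rad_pos y)
  rcases h0.lt_or_eq with h | h
  · have : 0 < S y * (1 / 2) / √(Real.sin (Real.pi * y) ^ 2 + (1 - S y)) := by positivity
    linarith
  · rw [← h]
    norm_num

lemma kk_le (y : ℝ) : |kk y| ≤ 1 := by
  unfold kk
  rw [abs_div, abs_of_pos Real.pi_pos, div_le_one Real.pi_pos, abs_le]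
  constructor
  · linarith [Real.neg_pi_div_two_le_arcsin (A y), Real.pi_pos]
  · linarith [Real.arcsin_le_pi_div_two (A y), Real.pi_pos]

end Pool.Agent.Helper6K9.EH.ProfL

namespace Pool.Agent.Helper6K9.EH

open Set Filter Topology ProfL
open scoped ContDiff

theorem prof : S_PROF := ⟨kk, Real.arcsin (1 / 2) / Real.pi,
  { smooth := kk_smooth
    anti := kk_anti
    lin := fun _ h => kk_lin h
    plat := fun _ h => kk_plat h
    pos := fun _ h => kk_pos h
    le_one := kk_le
    cpos := div_pos (Real.arcsin_pos.2 (by norm_num)) Real.pi_pos }⟩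

end Pool.Agent.Helper6K9.EH
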