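import Pool.Agent.Helper6K9.EH.StepA

set_option autoImplicit false

/-!
# The initial path
-/

namespace Pool.Agent.Helper6K9.EH

open Set Filter Topology Pool.Agent.Helper6K9.ES
open scoped ContDiff

theorem start : S_START := by
  intro e j₀ b C' V' C C₁ r₀ K₀ Jf wf he hC' hV' hnear hC hC₁ hr₀ hK₀
  have hl := he.hl
  have hl1 := he.hl1
  obtain ⟨hn1, hn2, hn3⟩ := hnear
  set B : ℝ := V' + C' + 4 * C' * (2 + |b|) / e.l + C' / r₀ + 2 * (C₁ * C) / e.l with hB
  have t0 : 0 ≤ |b| := abs_nonneg b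
  have t1 : 0 ≤ 4 * C' * (2 + |b|) / e.l := by positivity
  have t2 : 0 ≤ C' / r₀ := by positivity
  have t3 : 0 ≤ 2 * (C₁ * C) / e.l := by positivity
  refine ⟨max 4 ⌈B⌉₊, fun i p₀ p₁ v q hi h0 => ?_⟩
  have hi4 : (4 : ℝ) ≤ i := by exact_mod_cast (le_max_left _ _).trans hi
  have hiB : B ≤ i := (Nat.le_ceil B).trans (by exact_mod_cast (le_max_right _ _).trans hi)
  have hi1 : 1 ≤ i := by
    have := (le_max_left _ _).trans hi
    omega
  have hW : (i : ℝ) ≤ (i : ℝ) ^ 2 - 3 := by nlinarith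
  set W : ℝ := (i : ℝ) ^ 2 - 3 with hWd
  have hWB : B ≤ W := hiB.trans hW
  have hW0 : 0 < W := by linarith
  set V : ℝ := (i : ℝ) ^ 2 + 1 with hVd
  have hVW : W ≤ V := by rw [hWd, hVd]; linarith
  have hV0 : 0 < V := hW0.trans_le hVW
  have hV'V : V' ≤ V := by linarith
  have hC'V : C' ≤ V := by linarith
  have q1 : C' / V ≤ 1 := by rw [div_le_one hV0]; exact hC'V
  have q2 : C' / V ≤ r₀ := by
    rw [div_le_iff₀ hV0]
    have : C' / r₀ ≤ V := by linarith
    rw [div_le_iff₀ hr₀] at this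
    linarith
  have q3 : C' / V * (2 + |b|) ≤ e.l / 4 := by
    have : 4 * C' * (2 + |b|) / e.l ≤ V := by linarith
    rw [div_le_iff₀ hl] at this
    rw [div_mul_eq_mul_div, div_le_iff₀ hV0]
    linarith
  have q4 : C₁ * (C / W) ≤ e.l / 2 := by
    have : 2 * (C₁ * C) / e.l ≤ W := by linarith
    rw [div_le_iff₀ hl] at this
    rw [mul_div_assoc', div_le_iff₀ hW0]
    linarith
  have q5 : C' / V ≤ e.l / 4 := by
    refine le_trans ?_ q3
    have : 0 ≤ C' / V := by positivity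
    nlinarith
  set R : ℝ := C₁ * (C / W) with hR
  have hR0 : 0 ≤ R := by positivity
  set F := mkFam b Jf wf p₀ p₁ v q 0 with hF
  -- values at time 0
  set ws : ℝ → ℝ := fun s => wf V (e.l * s) (pt (b * s) s 0) with hws
  set Js : ℝ → ℝ := fun s => Jf V (e.l * s) (pt (b * s) s 0) with hJs
  have v1 : ∀ s, F.w s ((0 : ℕ) : ℝ) = ws s := by
    intro s
    rw [Nat.cast_zero]
    change wf (v s 0) (q s 0) (pt (p₀ s 0) (p₁ s 0) 0) = _
    rw [(h0 s).1, (h0 s).2.1, (h0 s).2.2.1, (h0 s).2.2.2]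
  have v2 : ∀ s, F.J s ((0 : ℕ) : ℝ) = Js s := by
    intro s
    rw [Nat.cast_zero]
    change Jf (v s 0) (q s 0) (pt (p₀ s 0) (p₁ s 0) 0) = _
    rw [(h0 s).1, (h0 s).2.1, (h0 s).2.2.1, (h0 s).2.2.2]
  have v3 : ∀ s, F.Y s ((0 : ℕ) : ℝ) = s := by
    intro s
    rw [Nat.cast_zero]
    change p₁ s 0 - ((0 : ℤ) : ℝ) = s
    rw [(h0 s).2.1]
    simp
  have v4 : ∀ s, F.X s ((0 : ℕ) : ℝ) = 0 := by
    intro s
    rw [Nat.cast_zero]
    change p₀ s 0 - b * (p₁ s 0 - ((0 : ℤ) : ℝ)) = 0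
    rw [(h0 s).1, (h0 s).2.1]
    simp
  have hq : ∀ s ∈ Icc (-1 : ℝ) 1, |e.l * s| ≤ 2 := by
    intro s hs
    rw [abs_mul, abs_of_pos hl]
    have : |s| ≤ 1 := abs_le.2 hs
    nlinarith [abs_nonneg s]
  have n1 : ∀ s ∈ Icc (-1 : ℝ) 1, |Js s - V| ≤ C' / V ∧ |ws s - e.l * s| ≤ C' / V :=
    fun s hs => hn1 V (e.l * s) _ hV'V (hq s hs)
  have n2 : ∀ s ∈ Icc (-1 : ℝ) 1, ∀ s' ∈ Icc (-1 : ℝ) 1,
      |(Js s - V) - (Js s' - V)| ≤ C' / V * (2 + |b|) * |s - s'| ∧
      |(ws s - e.l * s) - (ws s' - e.l * s')| ≤ C' / V * (2 + |b|) * |s - s'| := by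
    intro s hs s' hs'
    have h1 := hn2 V V V (e.l * s) (e.l * s') (pt (b * s) s 0) (pt (b * s') s' 0) hV'V le_rfl le_rfl
      (hq s hs) (hq s' hs') rfl
    have h2 : |V - V| + |e.l * s - e.l * s'| + |(pt (b * s) s 0).1 0 - (pt (b * s') s' 0).1 0| +
        |(pt (b * s) s 0).1 1 - (pt (b * s') s' 0).1 1| ≤ (2 + |b|) * |s - s'| := by
      have e1 : (pt (b * s) s 0).1 0 - (pt (b * s') s' 0).1 0 = b * (s - s') := by
        change b * s - b * s' = _
        ring
      have e2 : (pt (b * s) s 0).1 1 - (pt (b * s') s' 0).1 1 = s - s' := rfl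
      rw [e1, e2, ← mul_sub, abs_mul, abs_mul, abs_of_pos hl, sub_self, abs_zero]
      nlinarith [abs_nonneg (s - s')]
    have h3 : C' / V * (|V - V| + |e.l * s - e.l * s'| +
        |(pt (b * s) s 0).1 0 - (pt (b * s') s' 0).1 0| +
        |(pt (b * s) s 0).1 1 - (pt (b * s') s' 0).1 1|) ≤ C' / V * (2 + |b|) * |s - s'| := by
      rw [mul_assoc]
      exact mul_le_mul_of_nonneg_left h2 (by positivity)
    exact ⟨h1.1.trans h3, h1.2.trans h3⟩
  have hcont : Continuous fun s : ℝ => (V, e.l * s, pt (b * s) s 0) := by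
    unfold pt
    refine continuous_const.prodMk ((continuous_const.mul continuous_id).prodMk
      (Continuous.prodMk ?_ continuous_const))
    refine continuous_pi fun i => ?_
    fin_cases i
    · exact continuous_const.mul continuous_id
    · exact continuous_id
  have hc1 : Continuous fun s => (Js s, ws s) :=
    hn3.comp_continuous hcont fun s => hV0
  have hcJ : Continuous Js := continuous_fst.comp hc1
  have hcw : Continuous ws := continuous_snd.comp hc1
  have hxi : ∀ s, xi e F s ((0 : ℕ) : ℝ) = ws s + e.l * s := by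
    intro s
    unfold xi
    rw [v1, v3]
  have hze : ∀ s, ze e F s ((0 : ℕ) : ℝ) = ws s - e.l * s := by
    intro s
    unfold ze
    rw [v1, v3]
  have m1 : (1 : ℝ) ∈ Icc (-1 : ℝ) 1 := ⟨by norm_num, le_rfl⟩
  have m2 : (-1 : ℝ) ∈ Icc (-1 : ℝ) 1 := ⟨le_rfl, by norm_num⟩
  obtain ⟨a, c, h1, h2, h3, h4, h5, h6⟩ := StepL.cross (f := fun s => ws s + e.l * s)
    (a := -1) (b := 1) (p := -R) (q := R) (by norm_num)
    (hcw.add (continuous_const.mul continuous_id)).continuousOn (by linarith) (by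
      have := abs_le.1 (n1 (-1) m2).2
      linarith [this.2]) (by
      have := abs_le.1 (n1 1 m1).2
      linarith [this.1])
  have hsub : Icc a c ⊆ Icc (-1 : ℝ) 1 := Icc_subset_Icc h1 h3
  obtain ⟨s₀, hs₀, hmin⟩ := isCompact_Icc.exists_isMinOn ⟨a, ⟨le_rfl, h2⟩⟩
    (hcJ.continuousOn (s := Icc a c))
  refine ⟨a, c, Js s₀, h1, h3, ?_⟩
  have hee : 0 < ee (2 * i) ∧ ee (2 * i) ≤ 1 := by
    have := StepL.ee_bd hi1 (by omega : i ≤ 2 * i) (by omega)
    have y0 := StepL.yy_pos hi1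
    exact ⟨lt_of_lt_of_le (by positivity) this.1, this.2.trans (StepL.yy_le hi1)⟩
  have hK1 : 1 ≤ K₀ / ee (2 * i) := by
    rw [le_div_iff₀ hee.1]
    linarith [hee.2]
  constructor
  · refine ⟨h2, ?_, ?_, ?_, ?_, ?_⟩
    · rw [hxi]; exact h4
    · rw [hxi]; exact h5
    · intro s hs
      rw [hxi, abs_le]
      exact h6 s hs
    · intro s hs
      rw [hze]
      exact (n1 s (hsub hs)).2.trans q2
    · intro s hs s' hs'
      rw [hze, hze, hxi, hxi, v2, v2, v4, v4, sub_self, abs_zero, mul_zero, add_zero]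
      obtain ⟨g1, g2⟩ := n2 s (hsub hs) s' (hsub hs')
      have g3 : |Js s - Js s'| ≤ e.l / 4 * |s - s'| := by
        have : Js s - Js s' = (Js s - V) - (Js s' - V) := by ring
        rw [this]
        exact g1.trans (mul_le_mul_of_nonneg_right q3 (abs_nonneg _))
      have g4 := g2.trans (mul_le_mul_of_nonneg_right q3 (abs_nonneg _))
      have g5 : 2 * e.l * |s - s'| ≤ |ws s + e.l * s - (ws s' + e.l * s')| +
          |(ws s - e.l * s) - (ws s' - e.l * s')| := by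
        have e1 : 2 * e.l * |s - s'| = |(ws s + e.l * s - (ws s' + e.l * s')) -
            ((ws s - e.l * s) - (ws s' - e.l * s'))| := by
          have : (ws s + e.l * s - (ws s' + e.l * s')) -
            ((ws s - e.l * s) - (ws s' - e.l * s')) = 2 * e.l * (s - s') := by ring
          rw [this, abs_mul, abs_of_pos (by positivity : (0 : ℝ) < 2 * e.l)]
        rw [e1]
        exact abs_sub _ _
      have g6 : 0 ≤ |s - s'| := abs_nonneg _
      have g7 : |ws s - e.l * s - (ws s' - e.l * s')| + |Js s - Js s'| ≤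
          |ws s + e.l * s - (ws s' + e.l * s')| := by nlinarith
      refine g7.trans (le_mul_of_one_le_left (abs_nonneg _) hK1)
  · refine ⟨s₀, hs₀, v2 s₀⟩
  · intro s hs
    rw [v2]
    exact hmin hs
  · have := (abs_le.1 (n1 s₀ (hsub hs₀)).1).1
    linarith
  · have := (abs_le.1 (n1 s₀ (hsub hs₀)).1).2
    nlinarith
  · intro s hs
    unfold Pv
    rw [Nat.cast_zero, (h0 s).2.2.1, (h0 s).2.2.2]
    exact ⟨by linarith, hq s (hsub hs)⟩

end Pool.Agent.Helper6K9.EH
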