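import Pool.Agent.Helper6K9.EH.Unit

set_option autoImplicit false

/-!
# Orbits which escape to infinity: the waiting time in the box
-/

namespace Pool.Agent.Helper6K9.EH.WaitL

open Set Filter Topology

lemma Ctl_mono {e : Env} {F : Fam} {ε a b t₀ t₁ t₀' t₁' : ℝ} (h : Ctl e F ε a b t₀ t₁)
    (h0 : t₀ ≤ t₀') (h1 : t₁' ≤ t₁) : Ctl e F ε a b t₀' t₁' :=
  have hs : ∀ t ∈ Icc t₀' t₁', t ∈ Icc t₀ t₁ := fun _ ht => ⟨h0.trans ht.1, ht.2.trans h1⟩
  { dif := fun s hs' t ht => h.dif s hs' t (hs t ht)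
    bd := fun s hs' t ht => h.bd s hs' t (hs t ht)
    lip := fun s hs' s' hs'' t ht => h.lip s hs' s' hs'' t (hs t ht)
    cts := fun t ht => h.cts t (hs t ht) }

lemma Box_mono {e : Env} {F : Fam} {a b T R Z K Z' K' : ℝ} (h : Box e F a b T R Z K)
    (hZ : Z ≤ Z') (hK : K ≤ K') : Box e F a b T R Z' K' :=
  { le := h.le
    left := h.left
    right := h.right
    bx := h.bx
    bz := fun s hs => (h.bz s hs).trans hZ
    cone := fun s hs s' hs' => (h.cone s hs s' hs').trans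
      (mul_le_mul_of_nonneg_right hK (abs_nonneg _)) }

/-- the iteration of one unit of time -/
lemma main {e : Env} {r₀ C₁ C₂ ε₁ δ : ℝ} (hl : 0 < e.l) (hC₁ : 1 ≤ C₁)
    (hC₂ : 1 ≤ C₂) (hδ : 0 < δ) (hδe : δ = 1 - Real.exp (-e.l / 4))
    (hU : ∀ (F : Fam) (a b T ε R Z K : ℝ), 0 < ε → ε ≤ ε₁ → Ctl e F ε a b T (T + 1) →
    C₁ * ε ≤ R → R ≤ r₀ → Z ≤ r₀ → 0 ≤ K → K * ε ≤ ε₁ → Box e F a b T R Z K →
    (∃ a' b' : ℝ, a ≤ a' ∧ b' ≤ b ∧ Box e F a' b' (T + 1) (Real.exp (e.l / 2) * R)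
      (Real.exp (-e.l) * Z + C₂ * ε) (Real.exp (-e.l / 4) * K + C₂ * ε)) ∧
    ∀ s ∈ Icc a b, |F.X s (T + 1) - F.X s T - F.J s T| ≤ C₂ * ε ∧
      ∀ t ∈ Icc T (T + 1), |F.w s t| ≤ 1 ∧ |F.J s t - F.J s T| ≤ C₂ * ε ^ 3)
    {ε : ℝ} (hε : 0 < ε) (hε1 : ε ≤ ε₁) {n : ℕ}
    (hn1 : ∀ m : ℕ, m ≤ n → Real.exp (e.l / 2 * m) * (C₁ * ε) ≤ r₀)
    (hn2 : (n : ℝ) * ε ^ 2 ≤ 1) (hn3 : (n : ℝ) * (C₂ * ε ^ 3) ≤ 1)
    (hzr : C₂ * ε / δ ≤ r₀)
    {F : Fam} {P : ℝ → ℝ → ℝ → Prop} {C V₀ k₂ V a b T K : ℝ} (hCV : C / V = ε)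
    (hV : V₀ ≤ V) (hk : 1 ≤ k₂) (hT : 0 ≤ T) (hae : AE e F P C V₀ k₂ a b)
    (hbox : Box e F a b T (C₁ * ε) r₀ K) (hK : 0 ≤ K)
    (hKε : (K + C₂ * ε / δ) * ε ≤ ε₁)
    (hP : ∀ s ∈ Icc a b, P V s T ∧ V + 2 ≤ F.J s T) :
    ∀ m : ℕ, m ≤ n → ∃ a' b' : ℝ, a ≤ a' ∧ b' ≤ b ∧
      Box e F a' b' (T + m) (Real.exp (e.l / 2 * m) * (C₁ * ε))
        (Real.exp (-e.l * m) * r₀ + C₂ * ε / δ * (1 - Real.exp (-e.l * m)))
        (Real.exp (-e.l / 4 * m) * K + C₂ * ε / δ) ∧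
      ∀ s ∈ Icc a' b', |F.X s (T + m) - F.X s T - m * F.J s T| ≤ m * (2 * C₂ * ε) ∧
        ∀ t ∈ Icc T (T + m), |F.J s t - F.J s T| ≤ m * (C₂ * ε ^ 3) ∧ P V s t := by
  have hC₁ε : 0 < C₁ * ε := by positivity
  have hq : 0 < C₂ * ε / δ := by positivity
  intro m
  induction m with
  | zero =>
    intro _
    refine ⟨a, b, le_rfl, le_rfl, ?_, fun s hs => ⟨by simp, fun t ht => ?_⟩⟩
    · have h := Box_mono hbox (le_refl r₀) (show K ≤ K + C₂ * ε / δ by linarith)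
      simpa using h
    · simp only [Nat.cast_zero, add_zero] at ht
      have : t = T := le_antisymm ht.2 ht.1
      rw [this]
      exact ⟨by simp, (hP s hs).1⟩
  | succ m ih =>
    intro hm
    obtain ⟨a', b', ha, hb, hB, hs⟩ := ih (by omega)
    have hTm : T ≤ T + m := by
      have : (0 : ℝ) ≤ m := Nat.cast_nonneg m
      linarith
    have hA := hae V (T + m) a' b' hV (hT.trans hTm) ha hB.le hb
      (fun s hs' => ((hs s hs').2 (T + m) ⟨hTm, le_rfl⟩).2)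
    rw [hCV] at hA
    have hctl := Ctl_mono hA.1 (le_refl (T + m)) (show T + m + 1 ≤ T + m + k₂ by linarith)
    have hE1 : Real.exp (-e.l * m) ≤ 1 := by
      rw [← Real.exp_zero]
      apply Real.exp_le_exp.2
      have : (0 : ℝ) ≤ m := Nat.cast_nonneg m
      nlinarith
    have hE4 : Real.exp (-e.l / 4 * m) ≤ 1 := by
      rw [← Real.exp_zero]
      apply Real.exp_le_exp.2
      have : (0 : ℝ) ≤ m := Nat.cast_nonneg m
      nlinarith
    have hRm : C₁ * ε ≤ Real.exp (e.l / 2 * m) * (C₁ * ε) := by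
      have h1 : 1 ≤ Real.exp (e.l / 2 * m) := by
        rw [← Real.exp_zero]
        apply Real.exp_le_exp.2
        positivity
      nlinarith
    have hZm : Real.exp (-e.l * m) * r₀ + C₂ * ε / δ * (1 - Real.exp (-e.l * m)) ≤ r₀ := by
      have := mul_le_mul_of_nonneg_right hzr (show 0 ≤ 1 - Real.exp (-e.l * m) by linarith)
      linarith
    have hKm : (Real.exp (-e.l / 4 * m) * K + C₂ * ε / δ) * ε ≤ ε₁ := by
      refine le_trans (mul_le_mul_of_nonneg_right ?_ hε.le) hKε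
      have := mul_le_mul_of_nonneg_right hE4 hK
      linarith
    obtain ⟨⟨a'', b'', ha', hb', hB'⟩, hs'⟩ := hU F a' b' (T + m) ε _ _ _ hε hε1 hctl hRm
      (hn1 m (by omega)) hZm (by positivity) hKm hB
    have hcast : T + ((m + 1 : ℕ) : ℝ) = T + m + 1 := by push_cast; ring
    have hmn : (m : ℝ) * ε ^ 2 ≤ 1 := by
      refine le_trans ?_ hn2
      apply mul_le_mul_of_nonneg_right _ (by positivity)
      exact_mod_cast (by omega : m ≤ n)
    have hmn3 : ((m : ℝ) + 1) * (C₂ * ε ^ 3) ≤ 1 := by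
      refine le_trans ?_ hn3
      apply mul_le_mul_of_nonneg_right _ (by positivity)
      exact_mod_cast hm
    refine ⟨a'', b'', ha.trans ha', hb'.trans hb, ?_, fun s hs'' => ?_⟩
    · rw [hcast]
      have e1 : Real.exp (e.l / 2 * ((m + 1 : ℕ) : ℝ)) * (C₁ * ε) =
          Real.exp (e.l / 2) * (Real.exp (e.l / 2 * m) * (C₁ * ε)) := by
        have e0 : Real.exp (e.l / 2 * ((m + 1 : ℕ) : ℝ)) =
            Real.exp (e.l / 2) * Real.exp (e.l / 2 * m) := by
          rw [← Real.exp_add]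
          push_cast
          ring_nf
        rw [e0, mul_assoc]
      rw [e1]
      refine Box_mono hB' ?_ ?_
      · have e2 : Real.exp (-e.l * ((m + 1 : ℕ) : ℝ)) = Real.exp (-e.l) * Real.exp (-e.l * m) := by
          rw [← Real.exp_add]
          push_cast
          ring_nf
        rw [e2]
        have e3 : Real.exp (-e.l) ≤ 1 - δ := by
          rw [hδe]
          have : Real.exp (-e.l) ≤ Real.exp (-e.l / 4) := by
            apply Real.exp_le_exp.2
            linarith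
          linarith
        have e4 : C₂ * ε = C₂ * ε / δ * δ := by field_simp
        have e5 : C₂ * ε / δ * δ ≤ C₂ * ε / δ * (1 - Real.exp (-e.l)) :=
          mul_le_mul_of_nonneg_left (by linarith) hq.le
        nlinarith
      · have e2 : Real.exp (-e.l / 4 * ((m + 1 : ℕ) : ℝ)) =
            Real.exp (-e.l / 4) * Real.exp (-e.l / 4 * m) := by
          rw [← Real.exp_add]
          push_cast
          ring_nf
        rw [e2]
        have e4 : C₂ * ε = C₂ * ε / δ * δ := by field_simp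
        have e3 : Real.exp (-e.l / 4) = 1 - δ := by rw [hδe]; ring
        have : Real.exp (-e.l / 4) * (C₂ * ε / δ) + C₂ * ε / δ * δ = C₂ * ε / δ := by
          rw [e3]; ring
        nlinarith
    · have hsm : s ∈ Icc a' b' := ⟨ha'.trans hs''.1, hs''.2.trans hb'⟩
      have hsab : s ∈ Icc a b := ⟨ha.trans hsm.1, hsm.2.trans hb⟩
      obtain ⟨x1, x2⟩ := hs s hsm
      obtain ⟨y1, y2⟩ := hs' s hsm
      have x3 := (x2 (T + m) ⟨hTm, le_rfl⟩).1
      have hc3 : 0 < C₂ * ε ^ 3 := by positivity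
      refine ⟨?_, fun t ht => ?_⟩
      · rw [hcast]
        have z1 : F.X s (T + m + 1) - F.X s T - ((m + 1 : ℕ) : ℝ) * F.J s T =
            (F.X s (T + m + 1) - F.X s (T + m) - F.J s (T + m)) +
            (F.X s (T + m) - F.X s T - m * F.J s T) + (F.J s (T + m) - F.J s T) := by
          push_cast
          ring
        rw [z1]
        refine (abs_add_three _ _ _).trans ?_
        have z2 : (m : ℝ) * (C₂ * ε ^ 3) ≤ C₂ * ε := by
          have : (m : ℝ) * (C₂ * ε ^ 3) = (m * ε ^ 2) * (C₂ * ε) := by ring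
          rw [this]
          have h0 : 0 < C₂ * ε := by positivity
          nlinarith
        push_cast
        nlinarith
      · rw [hcast] at ht
        have hJ : |F.J s t - F.J s T| ≤ ((m + 1 : ℕ) : ℝ) * (C₂ * ε ^ 3) := by
          push_cast
          rcases le_total t (T + m) with h | h
          · have := (x2 t ⟨ht.1, h⟩).1
            nlinarith
          · have h1 := (y2 t ⟨h, ht.2⟩).2
            have h2 := abs_add_le (F.J s t - F.J s (T + m)) (F.J s (T + m) - F.J s T)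
            rw [sub_add_sub_cancel] at h2
            nlinarith
        refine ⟨hJ, ?_⟩
        rcases le_total t (T + m) with h | h
        · exact (x2 t ⟨ht.1, h⟩).2
        · refine hA.2 s hsm t ⟨h, by linarith [ht.2]⟩ V hV ?_ (y2 t ⟨h, ht.2⟩).1
          push_cast at hJ
          have h1 := (abs_le.1 hJ).1
          have h2 := (hP s hsab).2
          linarith

end Pool.Agent.Helper6K9.EH.WaitL

namespace Pool.Agent.Helper6K9.EH

open Set Filter Topology WaitL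

theorem wait : S_WAIT := by
  intro e j₀ he
  have hl := he.hl
  have hl1 := he.hl1
  obtain ⟨r₀, C₁, C₂, ε₁, hr₀, hr₁, hr₂, hC₁, hC₂, hε₁, hU⟩ := unit e j₀ he
  obtain ⟨δ, hδe⟩ : ∃ δ, δ = 1 - Real.exp (-e.l / 4) := ⟨_, rfl⟩
  have hδ : 0 < δ := by
    rw [hδe]
    have : Real.exp (-e.l / 4) < Real.exp 0 := Real.exp_lt_exp.2 (by linarith)
    rw [Real.exp_zero] at this
    linarith
  obtain ⟨r₁, hr1e⟩ : ∃ r₁, r₁ = Real.exp (-e.l / 2) * r₀ := ⟨_, rfl⟩
  have hr1 : 0 < r₁ := by rw [hr1e]; positivity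
  have hE2 : Real.exp (-e.l / 2) ≤ 1 := by
    rw [← Real.exp_zero]
    apply Real.exp_le_exp.2
    linarith
  have hr1r : r₁ ≤ r₀ := by
    rw [hr1e]
    nlinarith
  -- the smallness of the error
  obtain ⟨ε₀, hε₀, q1, q2, q3, q4, q5, q6, q7⟩ : ∃ ε₀ : ℝ, 0 < ε₀ ∧ ε₀ ≤ ε₁ / 2 ∧ ε₀ ≤ 1 ∧
      ε₀ ≤ δ * r₀ / C₂ ∧ ε₀ ≤ ε₁ * δ / (2 * C₂) ∧ ε₀ ≤ r₀ / C₁ ∧ ε₀ ≤ e.l / 2 ∧
      ε₀ ≤ e.l / (2 * C₂) := by
    refine ⟨min (ε₁ / 2) (min 1 (min (δ * r₀ / C₂) (min (ε₁ * δ / (2 * C₂))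
      (min (r₀ / C₁) (min (e.l / 2) (e.l / (2 * C₂))))))), ?_, ?_, ?_, ?_, ?_, ?_, ?_, ?_⟩
    · have : 0 < C₁ := by linarith
      have : 0 < C₂ := by linarith
      simp only [lt_min_iff]
      refine ⟨by positivity, one_pos, by positivity, by positivity, by positivity, by positivity,
        by positivity⟩
    · exact min_le_left _ _
    · exact (min_le_right _ _).trans (min_le_left _ _)
    · exact (min_le_right _ _).trans ((min_le_right _ _).trans (min_le_left _ _))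
    · exact (min_le_right _ _).trans ((min_le_right _ _).trans ((min_le_right _ _).trans
        (min_le_left _ _)))
    · exact (min_le_right _ _).trans ((min_le_right _ _).trans ((min_le_right _ _).trans
        ((min_le_right _ _).trans (min_le_left _ _))))
    · exact (min_le_right _ _).trans ((min_le_right _ _).trans ((min_le_right _ _).trans
        ((min_le_right _ _).trans ((min_le_right _ _).trans (min_le_left _ _)))))
    · exact (min_le_right _ _).trans ((min_le_right _ _).trans ((min_le_right _ _).trans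
        ((min_le_right _ _).trans ((min_le_right _ _).trans (min_le_right _ _)))))
  have hC₁0 : 0 < C₁ := by linarith
  have hC₂0 : 0 < C₂ := by linarith
  have hcr : 1 ≤ C₁ / r₁ := by
    rw [le_div_iff₀ hr1]
    linarith
  have hC₃a : 0 < 2 / e.l := by positivity
  have hC₃b : 0 < C₁ / r₁ := by positivity
  have hC₃c : 0 < C₂ / δ := by positivity
  refine ⟨r₀, r₁, C₁, 2 / e.l + C₁ / r₁ + C₂ / δ + 2 * C₂, ε₀, hr1, hr1r, hr₁, hr₂, hC₁,
    by linarith, hε₀, ?_⟩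
  obtain ⟨C₃, hC₃⟩ : ∃ C₃, C₃ = 2 / e.l + C₁ / r₁ + C₂ / δ + 2 * C₂ := ⟨_, rfl⟩
  rw [← hC₃]
  intro ε hε hεε
  have hC₁ε : 0 < C₁ * ε := by positivity
  have hrat : 1 ≤ r₀ / (C₁ * ε) := by
    rw [le_div_iff₀ hC₁ε]
    have := hεε.trans q5
    rw [le_div_iff₀ hC₁0] at this
    linarith
  have hrat0 : 0 < r₀ / (C₁ * ε) := by positivity
  have hlog : 0 ≤ Real.log (r₀ / (C₁ * ε)) := Real.log_nonneg hrat
  obtain ⟨n, hn⟩ : ∃ n : ℕ, n = ⌊2 / e.l * Real.log (r₀ / (C₁ * ε))⌋₊ := ⟨_, rfl⟩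
  have hfl : (n : ℝ) ≤ 2 / e.l * Real.log (r₀ / (C₁ * ε)) := by
    rw [hn]
    exact Nat.floor_le (by positivity)
  have hfl' : 2 / e.l * Real.log (r₀ / (C₁ * ε)) < n + 1 := by
    rw [hn]
    exact Nat.lt_floor_add_one _
  have hn1 : ∀ m : ℕ, m ≤ n → Real.exp (e.l / 2 * m) * (C₁ * ε) ≤ r₀ := by
    intro m hm
    rw [← le_div_iff₀ hC₁ε, ← Real.le_log_iff_exp_le hrat0]
    have h1 : (m : ℝ) ≤ 2 / e.l * Real.log (r₀ / (C₁ * ε)) := le_trans (by exact_mod_cast hm) hfl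
    have h2 := mul_le_mul_of_nonneg_left h1 (show 0 ≤ e.l / 2 by positivity)
    have h3 : e.l / 2 * (2 / e.l * Real.log (r₀ / (C₁ * ε))) = Real.log (r₀ / (C₁ * ε)) := by
      field_simp
    rwa [h3] at h2
  have hR1 : r₁ ≤ Real.exp (e.l / 2 * n) * (C₁ * ε) := by
    have h2 := mul_lt_mul_of_pos_left hfl' (show 0 < e.l / 2 by positivity)
    have h3 : e.l / 2 * (2 / e.l * Real.log (r₀ / (C₁ * ε))) = Real.log (r₀ / (C₁ * ε)) := by
      field_simp
    rw [h3, Real.log_lt_iff_lt_exp hrat0, div_lt_iff₀ hC₁ε] at h2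
    have h4 : Real.exp (e.l / 2 * (n + 1)) = Real.exp (e.l / 2) * Real.exp (e.l / 2 * n) := by
      rw [← Real.exp_add]
      ring_nf
    rw [h4] at h2
    have h5 : Real.exp (-e.l / 2) * Real.exp (e.l / 2) = 1 := by
      rw [← Real.exp_add]
      ring_nf
      exact Real.exp_zero
    rw [hr1e]
    calc Real.exp (-e.l / 2) * r₀ ≤ Real.exp (-e.l / 2) *
          (Real.exp (e.l / 2) * Real.exp (e.l / 2 * n) * (C₁ * ε)) :=
          mul_le_mul_of_nonneg_left h2.le (Real.exp_pos _).le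
      _ = (Real.exp (-e.l / 2) * Real.exp (e.l / 2)) * (Real.exp (e.l / 2 * n) * (C₁ * ε)) := by
          ring
      _ = _ := by rw [h5, one_mul]
  have hnlog : (n : ℝ) ≤ 2 / e.l * Real.log (1 / ε) := by
    refine hfl.trans (mul_le_mul_of_nonneg_left ?_ hC₃a.le)
    apply Real.log_le_log hrat0
    rw [div_le_div_iff₀ hC₁ε hε]
    nlinarith
  have hlog0 : 0 ≤ Real.log (1 / ε) := by
    apply Real.log_nonneg
    rw [le_div_iff₀ hε]
    linarith
  have hnε : (n : ℝ) * ε ≤ 2 / e.l := by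
    have h1 : Real.log (1 / ε) ≤ 1 / ε := (Real.log_le_sub_one_of_pos (by positivity)).trans
      (by linarith)
    have h2 := hnlog.trans (mul_le_mul_of_nonneg_left h1 hC₃a.le)
    have h3 := mul_le_mul_of_nonneg_right h2 hε.le
    have h4 : 2 / e.l * (1 / ε) * ε = 2 / e.l := by field_simp
    rwa [h4] at h3
  have hn2 : (n : ℝ) * ε ^ 2 ≤ 1 := by
    have h1 := mul_le_mul_of_nonneg_right hnε hε.le
    have h2 : 2 / e.l * ε ≤ 1 := by
      rw [div_mul_eq_mul_div, div_le_one hl]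
      linarith
    nlinarith
  have hn3 : (n : ℝ) * (C₂ * ε ^ 3) ≤ 1 := by
    have h1 : (n : ℝ) * ε * (C₂ * ε ^ 2) ≤ 2 / e.l * (C₂ * ε ^ 2) :=
      mul_le_mul_of_nonneg_right hnε (by positivity)
    have h2 : 2 / e.l * (C₂ * ε) ≤ 1 := by
      have := hεε.trans q7
      rw [le_div_iff₀ (by positivity)] at this
      rw [div_mul_eq_mul_div, div_le_one hl]
      linarith
    have h3 : 2 / e.l * (C₂ * ε ^ 2) = 2 / e.l * (C₂ * ε) * ε := by ring
    have h4 : 2 / e.l * (C₂ * ε) * ε ≤ 1 * 1 := mul_le_mul h2 (by linarith) hε.le (by norm_num)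
    nlinarith
  have hzr : C₂ * ε / δ ≤ r₀ := by
    have := hεε.trans q3
    rw [le_div_iff₀ hC₂0] at this
    rw [div_le_iff₀ hδ]
    linarith
  refine ⟨n, Real.exp (e.l / 2 * n) * (C₁ * ε), hR1, hn1 n le_rfl, ?_, ?_⟩
  · refine hnlog.trans (mul_le_mul_of_nonneg_right ?_ hlog0)
    rw [hC₃]
    linarith
  intro F P C V₀ k₂ V a b T K hCV hV hk hT hae hbox hK hKε hP
  have hKε' : (K + C₂ * ε / δ) * ε ≤ ε₁ := by
    have h1 : C₂ * ε / δ ≤ ε₁ / 2 := by
      have := hεε.trans q4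
      rw [le_div_iff₀ (by positivity)] at this
      rw [div_le_iff₀ hδ]
      linarith
    have h2 : C₂ * ε / δ * ε ≤ ε₁ / 2 * 1 := mul_le_mul h1 (by linarith) hε.le (by positivity)
    nlinarith
  obtain ⟨a', b', ha, hb, hB, hs⟩ := main hl hC₁ hC₂ hδ hδe hU hε (by linarith) hn1 hn2 hn3 hzr
    hCV hV hk hT hae hbox hK hKε' hP n le_rfl
  have hC₃1 : C₁ / r₁ + C₂ / δ ≤ C₃ := by rw [hC₃]; linarith
  have hC₃2 : 2 * C₂ ≤ C₃ := by rw [hC₃]; linarith
  -- the contraction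
  have hexp2 : Real.exp (-(e.l / 2 * n)) ≤ C₁ / r₁ * ε := by
    have h1 : Real.exp (-(e.l / 2 * n)) * Real.exp (e.l / 2 * n) = 1 := by
      rw [← Real.exp_add, neg_add_cancel, Real.exp_zero]
    have h2 := mul_le_mul_of_nonneg_left hR1 (Real.exp_pos (-(e.l / 2 * n))).le
    rw [← mul_assoc, h1, one_mul] at h2
    have h3 : C₁ / r₁ * ε = C₁ * ε / r₁ := by ring
    rw [h3, le_div_iff₀ hr1]
    exact h2
  have hexp1 : Real.exp (-e.l * n) ≤ C₁ / r₁ * ε := by
    refine le_trans ?_ hexp2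
    apply Real.exp_le_exp.2
    have : 0 ≤ e.l * n := by positivity
    linarith
  have hexp4 : Real.exp (-e.l / 4 * n) ≤ C₁ / r₁ * √ε := by
    have h1 : Real.exp (-e.l / 4 * n) = √(Real.exp (-(e.l / 2 * n))) := by
      have h0 : Real.exp (-(e.l / 2 * n)) = Real.exp (-e.l / 4 * n) ^ 2 := by
        rw [sq, ← Real.exp_add]
        ring_nf
      rw [h0, Real.sqrt_sq (Real.exp_pos _).le]
    rw [h1]
    refine (Real.sqrt_le_sqrt hexp2).trans ?_
    rw [Real.sqrt_mul hC₃b.le]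
    apply mul_le_mul_of_nonneg_right _ (Real.sqrt_nonneg _)
    rw [Real.sqrt_le_left (by positivity)]
    nlinarith
  refine ⟨a', b', ha, hb, Box_mono hB ?_ ?_, fun s hs' => ?_⟩
  · have h1 : Real.exp (-e.l * n) * r₀ ≤ C₁ / r₁ * ε * 1 :=
      mul_le_mul hexp1 (by linarith) hr₀.le (by positivity)
    have h2 : C₂ * ε / δ * (1 - Real.exp (-e.l * n)) ≤ C₂ * ε / δ * 1 :=
      mul_le_mul_of_nonneg_left (by linarith [Real.exp_pos (-e.l * n)]) (by positivity)
    have h3 : C₂ * ε / δ = C₂ / δ * ε := by ring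
    have h4 := mul_le_mul_of_nonneg_right hC₃1 hε.le
    nlinarith
  · have h1 := mul_le_mul_of_nonneg_right hexp4 hK
    have h3 : C₂ * ε / δ = C₂ / δ * ε := by ring
    have h4 : 0 ≤ √ε * K := by positivity
    have h5 : C₁ / r₁ * (√ε * K) ≤ C₃ * (√ε * K) :=
      mul_le_mul_of_nonneg_right (by linarith) h4
    have h6 : C₂ / δ * ε ≤ C₃ * ε := mul_le_mul_of_nonneg_right (by linarith) hε.le
    nlinarith
  · obtain ⟨x1, x2⟩ := hs s hs'
    refine ⟨x1.trans ?_, fun t ht => ⟨((x2 t ht).1).trans ?_, (x2 t ht).2⟩⟩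
    · have : (n : ℝ) * (2 * C₂ * ε) = 2 * C₂ * (n * ε) := by ring
      rw [this, mul_assoc C₃]
      exact mul_le_mul_of_nonneg_right hC₃2 (by positivity)
    · have : (n : ℝ) * (C₂ * ε ^ 3) = C₂ * (n * ε ^ 3) := by ring
      rw [this, mul_assoc C₃]
      exact mul_le_mul_of_nonneg_right (by linarith) (by positivity)

end Pool.Agent.Helper6K9.EH
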