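import Pool.Agent.Helper6K9.EH.StepC
import Pool.Agent.Helper6K9.EH.StepN

set_option autoImplicit false

/-!
# One cycle
-/

namespace Pool.Agent.Helper6K9.EH

open Set Filter Topology Pool.Agent.Helper6K9.ES
open scoped ContDiff

open StepL in
theorem step (wait : S_WAIT) (la : S_LA) (lb : S_LB) (lc : S_LC) : S_STEP := by
  intro e j₀ H he hH
  obtain ⟨r₀, r₁, C₁, C₃, ε₀, hr1, hr10, hr0, hr0l, hC1, hC3, hε0, hW⟩ := wait e j₀ he
  have hl := he.hl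
  have hr0' : 0 < r₀ := hr1.trans_le hr10
  obtain ⟨m, hm1, hmA, hmB, hmC, hmD⟩ : ∃ m : ℕ, 1 ≤ m ∧ H (-m + 1) < 1 / 8 ∧
      H (-m + 1) < r₁ / (8 * e.l) ∧ 7 / 8 < H (m - 1) ∧ 1 - r₀ / (4 * e.l) < H (m - 1) := by
    have t1 : Tendsto (fun m : ℕ => H (-(m : ℝ) + 1)) atTop (𝓝 0) := by
      refine hH.bot.comp ?_
      refine tendsto_atBot_add_const_right _ _ ?_
      exact tendsto_neg_atTop_atBot.comp tendsto_natCast_atTop_atTop
    have t2 : Tendsto (fun m : ℕ => H ((m : ℝ) - 1)) atTop (𝓝 1) := by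
      refine hH.top.comp ?_
      exact tendsto_atTop_add_const_right _ _ tendsto_natCast_atTop_atTop
    have e1 := t1.eventually (gt_mem_nhds (by norm_num : (0 : ℝ) < 1 / 8))
    have e2 := t1.eventually (gt_mem_nhds (by positivity : (0 : ℝ) < r₁ / (8 * e.l)))
    have e3 := t2.eventually (lt_mem_nhds (by norm_num : (7 / 8 : ℝ) < 1))
    have e4 := t2.eventually (lt_mem_nhds (by
      have : 0 < r₀ / (4 * e.l) := by positivity
      linarith : 1 - r₀ / (4 * e.l) < 1))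
    obtain ⟨m, h1, h2, h3, h4, h5⟩ := (e1.and (e2.and (e3.and (e4.and
      (eventually_ge_atTop 1))))).exists
    exact ⟨m, h5, h1, h2, h3, h4⟩
  obtain ⟨C₈, c₈, hC8, hc8, hLB⟩ := lb e j₀ H he hH m hmA hmC
  refine ⟨m, C₁, r₀, 2 * C₈, hm1, hC1, hr0', hr0, by linarith, ?_⟩
  intro C V₀ hC hV₀
  obtain ⟨jA, C₇, c₇, hjA, hC7, hc7, hLA⟩ := la e j₀ H he hH m C₃ (8 * C) hC3 (by linarith) hmA hmC
  obtain ⟨jB, hjB, hLB'⟩ := hLB C₃ (8 * C) C₇ hC3 (by linarith) hC7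
  obtain ⟨jC, c₉, hjC, hc9, hLC⟩ := lc e j₀ H he hH m C₃ (8 * C) C₇ hC3 (by linarith) hC7 hmA hmC
  have hu : 0 < e.l * e.c := mul_pos hl he.prof.cpos
  have hnum := num he hH (V₀ := V₀) hC hC1 hC3 hC7 hC8 hc7 hc8 hc9 hr0' hr1 hmC hmD
  have hsm1 : ∀ᶠ i : ℕ in atTop, (2 * C) * yy i ^ 16 ≤ ε₀ := ev _ _ _ (by norm_num) hε0
  have hsm2 : ∀ᶠ i : ℕ in atTop, (2 * C + 6 * C₈ * (2 * C)) * yy i ^ 15 ≤ ε₀ :=
    ev _ _ _ (by norm_num) hε0
  obtain ⟨i₁, hi₁⟩ := eventually_atTop.1 (hnum.and (hsm1.and (hsm2.and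
    (eventually_ge_atTop (max 4 (max jA (max jB jC)))))))
  refine ⟨max i₁ 2, le_max_right _ _, fun i hi => ?_⟩
  obtain ⟨hn, h1, h2, h3⟩ := hi₁ i ((le_max_left _ _).trans hi)
  have hi4 : 4 ≤ i := (le_max_left _ _).trans h3
  have hij : max jA (max jB jC) ≤ i := (le_max_right _ _).trans h3
  have hiA : jA ≤ i := (le_max_left _ _).trans hij
  have hiB : jB ≤ i := (le_max_left _ _).trans ((le_max_right _ _).trans hij)
  have hiC : jC ≤ i := (le_max_right _ _).trans ((le_max_right _ _).trans hij)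
  obtain ⟨-, y0, y1, p0, p1, hjj, hlg, htd⟩ := fac hu hC hi4
  set ε := C / ((i : ℝ) ^ 2 - 3) with hε
  obtain ⟨n, R, hR1, hR2, hnl, hW'⟩ := hW ε p0 (p1.trans h1)
  have hN := hn n hnl
  have hee := (hjj (2 * i) (Or.inl rfl)).1
  have hee0 : 0 < ee (2 * i) := lt_of_lt_of_le (by positivity) hee
  have hKε : 1 / 2 * ε + 2 * C₈ / ee (2 * i) * ε ≤ ε₀ := by
    have q1 : 2 * C₈ / ee (2 * i) ≤ 6 * C₈ / yy i := by
      rw [div_le_div_iff₀ hee0 y0]
      nlinarith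
    have q2 : 2 * C₈ / ee (2 * i) * ε ≤ 6 * C₈ * (2 * C) * yy i ^ 15 := by
      calc _ ≤ 6 * C₈ / yy i * (2 * C * yy i ^ 16) := by gcongr
        _ = 6 * C₈ * (2 * C) * yy i ^ 15 := by field_simp
    have q3 : ε ≤ 2 * C * yy i ^ 15 := by
      refine p1.trans ?_
      have := pow_le_pow_of_le_one y0.le y1 (by norm_num : 15 ≤ 16)
      gcongr
    have q4 : (2 * C + 6 * C₈ * (2 * C)) * yy i ^ 15 =
      2 * C * yy i ^ 15 + 6 * C₈ * (2 * C) * yy i ^ 15 := by ring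
    linarith
  refine ⟨min (c₉ / 2 * (aa (2 * i) * dd (2 * i))) (c₉ / 2 * (aa (2 * i + 1) * dd (2 * i + 1))),
    ?_, ?_⟩
  · refine lt_min ?_ ?_
    · have := (hjj (2 * i) (Or.inl rfl)).2.2.2.2.2.2.1
      have h0 : 0 < yy i ^ 41 / 50000 := by positivity
      have h00 : 0 < aa (2 * i) * dd (2 * i) := h0.trans_le this
      positivity
    · have := (hjj (2 * i + 1) (Or.inr rfl)).2.2.2.2.2.2.1
      have h0 : 0 < yy i ^ 41 / 50000 := by positivity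
      have h00 : 0 < aa (2 * i + 1) * dd (2 * i + 1) := h0.trans_le this
      positivity
  · intro b G P a c T N J hshf hAE hg
    refine core he hH hN hC rfl hC1 hC3 hC7 hC8 hm1 hr1 hR1 hmB ?_ ?_ ?_ ?_ hshf hAE hg
    · intro F P C V₀ k₂ V a b T K q1 q2 q3 q4 q5 q6 q7 q8 q9
      exact hW' F P C V₀ k₂ V a b T K q1 q2 q3 q4 q5 q6 q7 (q8.trans hKε) q9
    · intro j hj F a b T hE
      have hji : i ≤ j := by omega
      exact hLA j F a b T ε (hiA.trans hji) p0 (hjj j hj).2.2.2.2.2.2.2 hE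
    · intro j hj F a b T K₁ hE hT k1 k2 k3
      have hji : i ≤ j := by omega
      exact hLB' j F a b T ε K₁ (hiB.trans hji) p0 (hjj j hj).2.2.2.2.2.2.2 hE hT k1 k2 k3
    · intro j hj F a b T hE hT k3
      have hji : i ≤ j := by omega
      exact hLC j F a b T ε (hiC.trans hji) p0 (hjj j hj).2.2.2.2.2.2.2 hE hT k3

end Pool.Agent.Helper6K9.EH
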