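import Pool.Agent.Helper6K9.EH.Ct
import Pool.Agent.Helper6K9.EH.Red1
import Pool.Agent.Helper6K9.EH.Start
import Pool.Agent.Helper6K9.EH.Step
import Pool.Agent.Helper6K9.EH.Prof
import Pool.Agent.Helper6K9.EH.Hom
import Pool.Agent.Helper6K9.EH.Pot
import Pool.Agent.Helper6K9.EH.Env
import Pool.Agent.Helper6K9.EH.Flow
import Pool.Agent.Helper6K9.EH.Iter
import Pool.Agent.Helper6K9.EH.Wait
import Pool.Agent.Helper6K9.EH.Lc
import Pool.Agent.Helper6K9.EH.Lb
import Pool.Agent.Helper6K9.ES.Conv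
import Pool.Agent.Helper6K9.ES.Mol
import Pool.Agent.Helper6K9.ES.Avg
import Pool.Agent.Helper6K9.ES.Ops

set_option autoImplicit false

/-!
# The main theorem in dimension two, from the two remaining steps
-/

namespace Pool.Agent.Helper6K9.EH

open Set Filter Topology Pool.Agent.Helper6K9.ES
open scoped ContDiff

theorem fin1_of (la : S_LA) (ave : S_AVE) : S_FIN1 :=
  red1 mol avg (ct1 prof hom pot env (step wait la lb lc) iter flow ave start ops)

theorem main_of (la : S_LA) (ave : S_AVE)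
    (A : Matrix (Fin (1 + 1)) (Fin (1 + 1)) ℝ) (hA : A.PosDef)
    (f₀ : E 1 → ℝ) (hf : ContDiff ℝ 2 f₀) (hp : Per f₀) (ε : ℝ) (hε : 0 < ε) :
    ∃ f : E 1 → ℝ, ContDiff ℝ 2 f ∧ Per f ∧
      (∀ (j : ℕ) (p : E 1), j ≤ 2 → ‖iteratedFDeriv ℝ j (fun q => f q - f₀ q) p‖ ≤ ε) ∧
      ∃ γ : ℝ → Q 1, ((∀ t, DifferentiableAt ℝ γ t) ∧ ∀ (t : ℝ) (i : Fin (1 + 1)),
        HasDerivAt (fun s => dv (lag A f) i (γ s) (deriv γ s) s)
          (dx (lag A f) i (γ t) (deriv γ t) t) t) ∧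
        Tendsto (fun t => ‖deriv γ t‖) atTop atTop := by
  obtain ⟨f, γ, h1, h2, h3, h4, h5⟩ := fin1_of la ave A f₀ ε hε hA hf hp
  have hsym : A.IsSymm := by
    have := hA.isHermitian.eq
    rwa [Matrix.conjTranspose_eq_transpose_of_trivial] at this
  have h6 := orbit_of_sol A hsym f (h1.differentiable (by norm_num)) γ h4
  refine ⟨f, h1, h2, fun j p hj => small_iter h3 p j hj, γ, h6, ?_⟩
  rw [tendsto_atTop]
  intro V
  filter_upwards [h5 V] with t ht
  obtain ⟨i, hi⟩ := ht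
  have e1 : deriv γ t i = deriv (fun s => γ s i) t :=
    ((hasDerivAt_pi.1 (h6.1 t).hasDerivAt) i).deriv.symm
  rw [← e1] at hi
  exact hi.trans (norm_le_pi_norm (deriv γ t) i)

end Pool.Agent.Helper6K9.EH
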