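import Pool.Agent.Helper6K9.EH.Stm

set_option autoImplicit false

/-! # Leaf POT, first part: shapes and a calculus of bounds -/

namespace Pool.Agent.Helper6K9.EH

open Set Filter Topology Pool.Agent.Helper6K9.ES
open scoped ContDiff

namespace PotL

/-! ## bounded functions of one variable -/

/-- the function and its first two derivatives are bounded by `M` -/
def Bd (f : ℝ → ℝ) (M : ℝ) : Prop :=
  ContDiff ℝ 2 f ∧ ∀ i : ℕ, i ≤ 2 → ∀ y, ‖iteratedFDeriv ℝ i f y‖ ≤ M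

theorem bd_compact {g : ℝ → ℝ} (hg : ContDiff ℝ 2 g) (hc : HasCompactSupport g) :
    ∃ M, 0 ≤ M ∧ Bd g M := by
  have h : ∀ i : ℕ, i ≤ 2 → ∃ C, ∀ y, ‖iteratedFDeriv ℝ i g y‖ ≤ C := by
    intro i hi
    have h1 : Continuous (iteratedFDeriv ℝ i g) := hg.continuous_iteratedFDeriv (by exact_mod_cast hi)
    exact (hc.iteratedFDeriv i).exists_bound_of_continuous h1
  obtain ⟨C0, h0⟩ := h 0 (by norm_num)
  obtain ⟨C1, h1⟩ := h 1 (by norm_num)
  obtain ⟨C2, h2⟩ := h 2 le_rfl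
  refine ⟨max C0 (max C1 C2), ?_, hg, ?_⟩
  · exact ((norm_nonneg _).trans (h0 0)).trans (le_max_left _ _)
  · intro i hi y
    interval_cases i
    · exact (h0 y).trans (le_max_left _ _)
    · exact (h1 y).trans ((le_max_left _ _).trans (le_max_right _ _))
    · exact (h2 y).trans ((le_max_right _ _).trans (le_max_right _ _))

theorem bd_periodic {g : ℝ → ℝ} (hg : ContDiff ℝ 2 g) (hp : ∀ z, g (z + 1) = g z) :
    ∃ M, 0 ≤ M ∧ Bd g M := by
  have h : ∀ i : ℕ, i ≤ 2 → ∃ C, ∀ y, ‖iteratedFDeriv ℝ i g y‖ ≤ C := by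
    intro i hi
    have h1 : Continuous (iteratedFDeriv ℝ i g) := hg.continuous_iteratedFDeriv (by exact_mod_cast hi)
    have hper : Function.Periodic (fun y => iteratedFDeriv ℝ i g y) 1 := by
      intro y
      have h2 := iteratedFDeriv_comp_add_right (𝕜 := ℝ) (f := g) i (1 : ℝ) y
      have h3 : (fun z => g (z + 1)) = g := funext hp
      rw [h3] at h2
      exact h2.symm
    obtain ⟨C, hC⟩ := (isCompact_Icc (a := (0 : ℝ)) (b := 1)).exists_bound_of_continuousOn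
      h1.continuousOn
    refine ⟨C, fun y => ?_⟩
    have h4 := hper.sub_int_mul_eq (x := y) ⌊y⌋
    simp only [mul_one] at h4
    rw [← h4]
    exact hC _ ⟨Int.fract_nonneg y, (Int.fract_lt_one y).le⟩
  obtain ⟨C0, h0⟩ := h 0 (by norm_num)
  obtain ⟨C1, h1⟩ := h 1 (by norm_num)
  obtain ⟨C2, h2⟩ := h 2 le_rfl
  refine ⟨max C0 (max C1 C2), ?_, hg, ?_⟩
  · exact ((norm_nonneg _).trans (h0 0)).trans (le_max_left _ _)
  · intro i hi y
    interval_cases i
    · exact (h0 y).trans (le_max_left _ _)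
    · exact (h1 y).trans ((le_max_left _ _).trans (le_max_right _ _))
    · exact (h2 y).trans ((le_max_right _ _).trans (le_max_right _ _))

/-! ## the periodic function `ψ` -/

/-- smooth staircase, constant on `[n - 1/8, n + 11/16]` -/
noncomputable def stair (z : ℝ) : ℝ := ⌊z⌋ + Real.smoothTransition ((Int.fract z - 11 / 16) * 8)

theorem stair_loc (m : ℤ) {z : ℝ} (h1 : (m : ℝ) + 1 / 4 < z) (h2 : z < m + 3 / 2) :
    stair z = m + Real.smoothTransition ((z - m - 11 / 16) * 8) := by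
  unfold stair
  by_cases h : z < m + 1
  · have : ⌊z⌋ = m := Int.floor_eq_iff.2 ⟨by linarith, h⟩
    rw [Int.fract, this]
  · have : ⌊z⌋ = m + 1 := Int.floor_eq_iff.2 ⟨by push_cast; linarith, by push_cast; linarith⟩
    rw [Int.fract, this, Real.smoothTransition.zero_of_nonpos (by push_cast; linarith),
      Real.smoothTransition.one_of_one_le (by linarith)]
    push_cast
    ring

theorem stair_add (z : ℝ) (n : ℤ) : stair (z + n) = stair z + n := by
  unfold stair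
  rw [Int.floor_add_intCast, Int.fract_add_intCast]
  push_cast
  ring

theorem stair_smooth : ContDiff ℝ ∞ stair := by
  rw [contDiff_iff_contDiffAt]
  intro z
  set m : ℤ := ⌊z - 3 / 8⌋ with hm
  have h1 : (m : ℝ) ≤ z - 3 / 8 := Int.floor_le _
  have h2 : z - 3 / 8 < m + 1 := Int.lt_floor_add_one _
  have h3 : ContDiff ℝ ∞ fun z : ℝ => (m : ℝ) + Real.smoothTransition ((z - m - 11 / 16) * 8) := by
    have h4 : ContDiff ℝ ∞ fun z : ℝ => (z - m - 11 / 16) * 8 := by fun_prop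
    exact contDiff_const.add (Real.smoothTransition.contDiff.comp h4)
  refine h3.contDiffAt.congr_of_eventuallyEq ?_
  filter_upwards [isOpen_Ioo.mem_nhds (⟨by linarith, by linarith⟩ :
    z ∈ Ioo ((m : ℝ) + 1 / 4) (m + 3 / 2))] with w hw
  exact stair_loc m hw.1 hw.2

/-- the periodic function with derivative `1` on `[0, 5/8]` -/
noncomputable def psi (z : ℝ) : ℝ := z - stair z

theorem psi_smooth : ContDiff ℝ ∞ psi := contDiff_id.sub stair_smooth

theorem psi_add (z : ℝ) (n : ℤ) : psi (z + n) = psi z := by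
  unfold psi; rw [stair_add]; ring

theorem psi_deriv {z : ℝ} (hz : z ∈ Icc (0 : ℝ) (5 / 8)) : deriv psi z = 1 := by
  have h : psi =ᶠ[𝓝 z] fun w => w := by
    filter_upwards [isOpen_Ioo.mem_nhds (⟨by linarith [hz.1], by linarith [hz.2]⟩ :
      z ∈ Ioo (-(1 / 16) : ℝ) (11 / 16))] with w hw
    unfold psi
    have h1 := stair_loc (-1) (z := w) (by push_cast; linarith [hw.1])
    by_cases h2 : w < 1 / 2
    · rw [h1 (by push_cast; linarith), Real.smoothTransition.one_of_one_le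
        (by push_cast; linarith [hw.1])]
      push_cast
      ring
    · rw [stair_loc 0 (by push_cast; linarith) (by push_cast; linarith [hw.2]),
        Real.smoothTransition.zero_of_nonpos (by push_cast; linarith [hw.2])]
      push_cast
      ring
  rw [h.deriv_eq]
  exact deriv_id z

/-! ## functions of the position -/

/-- the linear functional `a x₀ + b x₁ + c t` -/
noncomputable def lin (a b c : ℝ) : E 1 →L[ℝ] ℝ :=
  a • ((ContinuousLinearMap.proj (R := ℝ) (φ := fun _ : Fin 2 => ℝ) 0).comp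
    (ContinuousLinearMap.fst ℝ (Q 1) ℝ)) +
  b • ((ContinuousLinearMap.proj (R := ℝ) (φ := fun _ : Fin 2 => ℝ) 1).comp
    (ContinuousLinearMap.fst ℝ (Q 1) ℝ)) + c • ContinuousLinearMap.snd ℝ (Q 1) ℝ

theorem lin_apply (a b c : ℝ) (p : E 1) : lin a b c p = a * p.1 0 + b * p.1 1 + c * p.2 := rfl

theorem lin_norm (a b c : ℝ) : ‖lin a b c‖ ≤ |a| + |b| + |c| := by
  refine ContinuousLinearMap.opNorm_le_bound _ (by positivity) fun p => ?_
  have h1 : |p.1 0| ≤ ‖p‖ := (norm_le_pi_norm p.1 0).trans (norm_fst_le p)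
  have h2 : |p.1 1| ≤ ‖p‖ := (norm_le_pi_norm p.1 1).trans (norm_fst_le p)
  have h3 : |p.2| ≤ ‖p‖ := norm_snd_le p
  rw [lin_apply, Real.norm_eq_abs]
  calc |a * p.1 0 + b * p.1 1 + c * p.2| ≤ |a * p.1 0| + |b * p.1 1| + |c * p.2| :=
        abs_add_three _ _ _
    _ = |a| * |p.1 0| + |b| * |p.1 1| + |c| * |p.2| := by rw [abs_mul, abs_mul, abs_mul]
    _ ≤ |a| * ‖p‖ + |b| * ‖p‖ + |c| * ‖p‖ := by gcongr
    _ = _ := by ring

/-- `F` is `C²` and its derivative of order `i` is bounded by `A Λ^i`. -/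
def Nb (F : E 1 → ℝ) (A Λ : ℝ) : Prop :=
  ContDiff ℝ 2 F ∧ ∀ p, ∀ i : ℕ, i ≤ 2 → ‖iteratedFDeriv ℝ i F p‖ ≤ A * Λ ^ i

theorem Nb.comp {f : ℝ → ℝ} {M : ℝ} (hf : Bd f M) {ℓ : E 1 →L[ℝ] ℝ} {Λ : ℝ} (hℓ : ‖ℓ‖ ≤ Λ)
    (d : ℝ) : Nb (fun p => f (ℓ p + d)) M Λ := by
  obtain ⟨h1, h2⟩ := hf
  have h3 : ContDiff ℝ 2 fun z => f (z + d) := h1.comp (contDiff_id.add contDiff_const)
  refine ⟨h3.comp ℓ.contDiff, fun p i hi => ?_⟩
  have e1 : (fun p => f (ℓ p + d)) = (fun z => f (z + d)) ∘ ℓ := rfl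
  rw [e1, ℓ.iteratedFDeriv_comp_right h3 p (by exact_mod_cast hi)]
  refine (ContinuousMultilinearMap.norm_compContinuousLinearMap_le _ _).trans ?_
  rw [iteratedFDeriv_comp_add_right]
  have hM : 0 ≤ M := (norm_nonneg _).trans (h2 i hi (ℓ p + d))
  have h4 : ∏ _j : Fin i, ‖ℓ‖ ≤ Λ ^ i := by
    rw [Finset.prod_const, Finset.card_univ, Fintype.card_fin]
    exact pow_le_pow_left₀ (norm_nonneg _) hℓ i
  exact mul_le_mul (h2 i hi _) h4 (Finset.prod_nonneg fun _ _ => norm_nonneg _) hM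

theorem Nb.nonneg {F : E 1 → ℝ} {A Λ : ℝ} (h : Nb F A Λ) : 0 ≤ A := by
  have := (norm_nonneg _).trans (h.2 0 0 (by norm_num))
  simpa using this

theorem Nb.mul {F G : E 1 → ℝ} {A B Λ : ℝ} (hF : Nb F A Λ) (hG : Nb G B Λ) (hΛ : 0 ≤ Λ) :
    Nb (fun p => F p * G p) (4 * (A * B)) Λ := by
  have hA := hF.nonneg
  have hB := hG.nonneg
  refine ⟨hF.1.mul hG.1, fun p i hi => ?_⟩
  have h := norm_iteratedFDeriv_mul_le (𝕜 := ℝ) (n := i) hF.1 hG.1 p (by exact_mod_cast hi)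
  refine h.trans ?_
  have h2 : ∀ k ∈ Finset.range (i + 1), (i.choose k : ℝ) * ‖iteratedFDeriv ℝ k F p‖ *
      ‖iteratedFDeriv ℝ (i - k) G p‖ ≤ (i.choose k : ℝ) * (A * B * Λ ^ i) := by
    intro k hk
    have hk' : k ≤ i := Nat.lt_succ_iff.1 (Finset.mem_range.1 hk)
    rw [mul_assoc]
    refine mul_le_mul_of_nonneg_left ?_ (Nat.cast_nonneg _)
    calc ‖iteratedFDeriv ℝ k F p‖ * ‖iteratedFDeriv ℝ (i - k) G p‖
        ≤ (A * Λ ^ k) * (B * Λ ^ (i - k)) := mul_le_mul (hF.2 p k (hk'.trans hi))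
          (hG.2 p (i - k) ((Nat.sub_le _ _).trans hi)) (norm_nonneg _) (by positivity)
      _ = A * B * (Λ ^ k * Λ ^ (i - k)) := by ring
      _ = A * B * Λ ^ i := by rw [← pow_add, Nat.add_sub_cancel' hk']
  refine (Finset.sum_le_sum h2).trans ?_
  rw [← Finset.sum_mul]
  have h3 : ∑ k ∈ Finset.range (i + 1), (i.choose k : ℝ) ≤ 4 := by
    have : ∑ k ∈ Finset.range (i + 1), i.choose k = 2 ^ i := Nat.sum_range_choose i
    have h4 : ∑ k ∈ Finset.range (i + 1), (i.choose k : ℝ) = 2 ^ i := by exact_mod_cast this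
    rw [h4]
    interval_cases i <;> norm_num
  calc (∑ k ∈ Finset.range (i + 1), (i.choose k : ℝ)) * (A * B * Λ ^ i) ≤ 4 * (A * B * Λ ^ i) :=
        mul_le_mul_of_nonneg_right h3 (by positivity)
    _ = _ := by ring

theorem Nb.const_mul {F : E 1 → ℝ} {A Λ : ℝ} (hF : Nb F A Λ) {c : ℝ} (hc : 0 ≤ c) :
    Nb (fun p => c * F p) (c * A) Λ := by
  refine ⟨contDiff_const.mul hF.1, fun p i hi => ?_⟩
  have h1 := iteratedFDeriv_const_smul_apply (𝕜 := ℝ) (i := i) (a := c) (f := F) (x := p)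
    ((hF.1.contDiffAt).of_le (by exact_mod_cast hi))
  have e : (fun p => c * F p) = c • F := rfl
  rw [e, h1, norm_smul, Real.norm_of_nonneg hc, mul_assoc]
  exact mul_le_mul_of_nonneg_left (hF.2 p i hi) hc

/-- from `Nb` to bounds of the function and its derivatives -/
theorem Nb.bounds {F : E 1 → ℝ} {A Λ : ℝ} (hF : Nb F A Λ) (hΛ : 1 ≤ Λ) (p : E 1) :
    |F p| ≤ A * Λ ^ 2 ∧ ‖fderiv ℝ F p‖ ≤ A * Λ ^ 2 ∧ ‖fderiv ℝ (fderiv ℝ F) p‖ ≤ A * Λ ^ 2 := by
  have hA := hF.nonneg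
  have h0 := hF.2 p 0 (by norm_num)
  have h1 := hF.2 p 1 (by norm_num)
  have h2 := hF.2 p 2 le_rfl
  rw [norm_iteratedFDeriv_zero, pow_zero, mul_one] at h0
  rw [norm_iteratedFDeriv_one, pow_one] at h1
  have e2 : ‖fderiv ℝ (fderiv ℝ F) p‖ = ‖iteratedFDeriv ℝ 2 F p‖ := by
    rw [← norm_iteratedFDeriv_one, norm_iteratedFDeriv_fderiv]
  have hp1 : (1 : ℝ) ≤ Λ ^ 2 := one_le_pow₀ hΛ
  have hp2 : Λ ≤ Λ ^ 2 := by nlinarith
  refine ⟨h0.trans ?_, h1.trans (mul_le_mul_of_nonneg_left hp2 hA), e2 ▸ h2⟩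
  nlinarith

end PotL

end Pool.Agent.Helper6K9.EH
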