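import Pool.Agent.Helper6K9.EH.Stm
import Pool.Agent.Helper6K9.ES.Lim

set_option autoImplicit false

/-! # Leaf POT, second part: glueing of the tubes -/

namespace Pool.Agent.Helper6K9.EH

open Set Filter Topology Pool.Agent.Helper6K9.ES
open scoped ContDiff

namespace PotL

/-- the translation by `n` in `x₁` and by `j` in `t` -/
noncomputable def vv (n j : ℤ) : E 1 := (Pi.single 1 (n : ℝ), (j : ℝ))

theorem vv_1 (p : E 1) (n j : ℤ) : (p - vv n j).1 1 = p.1 1 - n := by simp [vv]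
theorem vv_0 (p : E 1) (n j : ℤ) : (p - vv n j).1 0 = p.1 0 := by simp [vv]
theorem vv_t (p : E 1) (n j : ℤ) : (p - vv n j).2 = p.2 - j := by simp [vv]

/-- the representative of a point modulo `x₁ → x₁ + 1`, `t → t + 1` -/
noncomputable def rp (p : E 1) : E 1 := p - vv ⌊p.1 1⌋ ⌊p.2 + 1 / 2⌋

/-- the sum of the tubes -/
noncomputable def gl (V : ℤ → E 1 → ℝ) (p : E 1) : ℝ := V ⌊p.2 + 1 / 2⌋ (rp p)

structure Tubes (V : ℤ → E 1 → ℝ) (A : ℤ → Set (E 1)) : Prop where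
  smooth : ∀ j, ContDiff ℝ 2 (V j)
  supp : ∀ j p, V j p ≠ 0 → p ∈ A j
  box : ∀ j p, p ∈ A j → p.1 1 ∈ Icc (5 / 16 : ℝ) (11 / 16) ∧ p.2 ∈ Icc (-1 / 4 : ℝ) (3 / 8)
  closed : ∀ j, IsClosed (A j)
  disj : ∀ j j' p, j ≠ j' → p ∈ A j → p ∉ A j'
  per : ∀ j p (n : ℤ), V j (p + (Pi.single 0 (n : ℝ), 0)) = V j p

variable {V : ℤ → E 1 → ℝ} {A : ℤ → Set (E 1)}

theorem Tubes.loc (h : Tubes V A) (p : E 1) :
    gl V =ᶠ[𝓝 p] fun q => V ⌊p.2 + 1 / 2⌋ (q - vv ⌊p.1 1⌋ ⌊p.2 + 1 / 2⌋) := by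
  have hc1 : Continuous fun q : E 1 => q.1 1 := (continuous_apply 1).comp continuous_fst
  have o : IsOpen {q : E 1 | |q.1 1 - p.1 1| < 1 / 10 ∧ |q.2 - p.2| < 1 / 10} :=
    (isOpen_lt (hc1.sub continuous_const).abs continuous_const).inter
      (isOpen_lt (continuous_snd.sub continuous_const).abs continuous_const)
  filter_upwards [o.mem_nhds (by simp : p ∈ {q : E 1 | |q.1 1 - p.1 1| < 1 / 10 ∧
    |q.2 - p.2| < 1 / 10})] with q hq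
  obtain ⟨hq1, hq2⟩ := hq
  rw [abs_lt] at hq1 hq2
  by_cases hR : V ⌊p.2 + 1 / 2⌋ (q - vv ⌊p.1 1⌋ ⌊p.2 + 1 / 2⌋) = 0
  · rw [hR]
    by_contra hL
    obtain ⟨⟨b1, b2⟩, ⟨b3, b4⟩⟩ := h.box _ _ (h.supp _ _ hL)
    rw [rp, vv_1] at b1 b2
    rw [rp, vv_t] at b3 b4
    have e1 : ⌊p.1 1⌋ = ⌊q.1 1⌋ := by
      rw [Int.floor_eq_iff]
      constructor <;> linarith
    have e2 : ⌊p.2 + 1 / 2⌋ = ⌊q.2 + 1 / 2⌋ := by
      rw [Int.floor_eq_iff]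
      constructor <;> linarith
    rw [e1, e2] at hR
    exact hL hR
  · obtain ⟨⟨b1, b2⟩, ⟨b3, b4⟩⟩ := h.box _ _ (h.supp _ _ hR)
    rw [vv_1] at b1 b2
    rw [vv_t] at b3 b4
    have e1 : ⌊q.1 1⌋ = ⌊p.1 1⌋ := by
      rw [Int.floor_eq_iff]
      constructor <;> linarith
    have e2 : ⌊q.2 + 1 / 2⌋ = ⌊p.2 + 1 / 2⌋ := by
      rw [Int.floor_eq_iff]
      constructor <;> linarith
    rw [gl, rp, e1, e2]

theorem Tubes.zero_near (h : Tubes V A) {j : ℤ} {q : E 1} (hq : q ∉ A j) : V j =ᶠ[𝓝 q] 0 := by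
  filter_upwards [(h.closed j).isOpen_compl.mem_nhds hq] with r hr
  by_contra h0
  exact hr (h.supp j r h0)

theorem Tubes.gl_zero (h : Tubes V A) {p : E 1} (hp : rp p ∉ A ⌊p.2 + 1 / 2⌋) : gl V =ᶠ[𝓝 p] 0 := by
  have h1 : Tendsto (fun q => q - vv ⌊p.1 1⌋ ⌊p.2 + 1 / 2⌋) (𝓝 p) (𝓝 (rp p)) :=
    (continuous_id.sub continuous_const).continuousAt
  exact (h.loc p).trans (h1.eventually (h.zero_near hp))

theorem rp_add (p : E 1) (k : ℤ) : rp (p.1, p.2 + k) = rp p := by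
  have e : ⌊p.2 + k + 1 / 2⌋ = ⌊p.2 + 1 / 2⌋ + k := by
    rw [show p.2 + (k : ℝ) + 1 / 2 = p.2 + 1 / 2 + k by ring, Int.floor_add_intCast]
  unfold rp
  simp only [e]
  ext i
  · simp [vv]
  · simp [vv]

theorem Tubes.gl_zero' (h : Tubes V A) {p : E 1} {k : ℤ} (hp : rp p ∉ A (⌊p.2 + 1 / 2⌋ + k)) :
    gl V =ᶠ[𝓝 ((p.1, p.2 + k) : E 1)] 0 := by
  apply h.gl_zero
  have e : ⌊((p.1, p.2 + k) : E 1).2 + 1 / 2⌋ = ⌊p.2 + 1 / 2⌋ + k := by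
    show ⌊p.2 + (k : ℝ) + 1 / 2⌋ = _
    rw [show p.2 + (k : ℝ) + 1 / 2 = p.2 + 1 / 2 + k by ring, Int.floor_add_intCast]
  rw [rp_add, e]
  exact hp

theorem fderiv_shift (F : E 1 → ℝ) (v p : E 1) :
    fderiv ℝ (fun q => F (q - v)) p = fderiv ℝ F (p - v) := by
  have := fderiv_comp_sub (𝕜 := ℝ) (f := F) (x := p) v
  exact this

theorem Tubes.derivs (h : Tubes V A) (p : E 1) : gl V p = V ⌊p.2 + 1 / 2⌋ (rp p) ∧
    fderiv ℝ (gl V) p = fderiv ℝ (V ⌊p.2 + 1 / 2⌋) (rp p) ∧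
    fderiv ℝ (fderiv ℝ (gl V)) p = fderiv ℝ (fderiv ℝ (V ⌊p.2 + 1 / 2⌋)) (rp p) := by
  have h1 := h.loc p
  refine ⟨rfl, ?_, ?_⟩
  · rw [h1.fderiv_eq, fderiv_shift]; rfl
  · have h2 := h1.fderiv (𝕜 := ℝ)
    rw [h2.fderiv_eq]
    have e : fderiv ℝ (fun q => V ⌊p.2 + 1 / 2⌋ (q - vv ⌊p.1 1⌋ ⌊p.2 + 1 / 2⌋)) =
        fun q => fderiv ℝ (V ⌊p.2 + 1 / 2⌋) (q - vv ⌊p.1 1⌋ ⌊p.2 + 1 / 2⌋) :=
      funext fun q => fderiv_shift _ _ q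
    rw [e]
    have := fderiv_comp_sub (𝕜 := ℝ) (f := fderiv ℝ (V ⌊p.2 + 1 / 2⌋)) (x := p)
      (vv ⌊p.1 1⌋ ⌊p.2 + 1 / 2⌋)
    exact this

theorem Tubes.glue (h : Tubes V A) (η : ℝ → ℝ) (ε : ℝ) (h1 : ∀ j : ℤ, j ≤ 1 → ∀ p, V j p = 0)
    (hη : Antitone η) (h0 : Tendsto η atTop (𝓝 0)) (hε : ∀ t, η t ≤ ε)
    (hb : ∀ (j : ℤ) (p : E 1) (t : ℝ), t ≤ j + 1 / 2 → |V j p| ≤ η t ∧ ‖fderiv ℝ (V j) p‖ ≤ η t ∧
      ‖fderiv ℝ (fderiv ℝ (V j)) p‖ ≤ η t) :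
    ∃ g : E 1 → ℝ, ContDiff ℝ 2 g ∧ Per g ∧ Small g ε ∧
      (∀ p, (∀ j, rp p ∉ A j) → fderiv ℝ g p = 0) ∧
      ∀ p j, rp p ∈ A j → fderiv ℝ g p = fderiv ℝ (V j) (rp p) := by
  have hsm : ContDiff ℝ 2 (gl V) := by
    rw [contDiff_iff_contDiffAt]
    intro p
    exact (((h.smooth _).comp (contDiff_id.sub contDiff_const)).contDiffAt).congr_of_eventuallyEq
      (h.loc p)
  have hz : ∀ p : E 1, p.2 ≤ 1 → gl V p = 0 := by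
    intro p hp
    have : ⌊p.2 + 1 / 2⌋ ≤ 1 := by
      rw [← Int.lt_add_one_iff, Int.floor_lt]
      push_cast
      linarith
    exact h1 _ this _
  have hper : ∀ (p : E 1) (k : Fin (1 + 1) → ℤ),
      gl V (p.1 + (fun i => (k i : ℝ)), p.2) = gl V p := by
    intro p k
    have e1 : ⌊(p.1 + fun i => (k i : ℝ)) 1⌋ = ⌊p.1 1⌋ + k 1 := by
      rw [Pi.add_apply, Int.floor_add_intCast]
    show V ⌊p.2 + 1 / 2⌋ (rp (p.1 + (fun i => (k i : ℝ)), p.2)) = V ⌊p.2 + 1 / 2⌋ (rp p)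
    have e2 : rp (p.1 + (fun i => (k i : ℝ)), p.2) = rp p + (Pi.single 0 ((k 0 : ℤ) : ℝ), 0) := by
      unfold rp
      simp only [e1]
      refine Prod.ext ?_ ?_
      · funext i
        fin_cases i
        · simp [vv]
        · simp [vv]
      · simp [vv]
    rw [e2, h.per]
  have hbd : ∀ p, |gl V p| ≤ η p.2 ∧ ‖fderiv ℝ (gl V) p‖ ≤ η p.2 ∧
      ‖fderiv ℝ (fderiv ℝ (gl V)) p‖ ≤ η p.2 := by
    intro p
    obtain ⟨a1, a2, a3⟩ := h.derivs p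
    rw [a1, a2, a3]
    exact hb _ _ _ (by linarith [Int.lt_floor_add_one (p.2 + 1 / 2)])
  have hdis : ∀ (p : E 1) (k : ℕ), 1 ≤ k → gl V =ᶠ[𝓝 p] 0 ∨ gl V =ᶠ[𝓝 (p.1, p.2 + k)] 0 := by
    intro p k hk
    by_cases hp : rp p ∈ A ⌊p.2 + 1 / 2⌋
    · right
      have := h.gl_zero' (p := p) (k := k) (h.disj _ _ _ (by omega) hp)
      simpa using this
    · exact Or.inl (h.gl_zero hp)
  obtain ⟨g, g1, g2, g3, g4⟩ := lim 1 (gl V) η ε hsm hz hper hη h0 hε hbd hdis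
  refine ⟨g, g1, g2, g3, ?_, ?_⟩
  · intro p hp
    rw [g4 p fun k _ => h.gl_zero' (hp _)]
    have := (h.gl_zero (hp ⌊p.2 + 1 / 2⌋)).fderiv_eq (𝕜 := ℝ)
    rw [this]
    exact fderiv_const_apply 0
  · intro p j hp
    set k : ℤ := j - ⌊p.2 + 1 / 2⌋ with hk
    have e0 : ⌊((p.1, p.2 + k) : E 1).2 + 1 / 2⌋ = j := by
      show ⌊p.2 + (k : ℝ) + 1 / 2⌋ = _
      rw [show p.2 + (k : ℝ) + 1 / 2 = p.2 + 1 / 2 + k by ring, Int.floor_add_intCast]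
      omega
    have e1 : fderiv ℝ g (p.1, p.2 + k) = fderiv ℝ (gl V) (p.1, p.2 + k) := by
      refine g4 _ fun l hl => ?_
      apply h.gl_zero'
      rw [e0, rp_add]
      exact h.disj j (j + l) _ (by omega) hp
    have e2 : fderiv ℝ g (p.1, p.2 + k) = fderiv ℝ g p := by
      have h2 : (fun q : E 1 => g (q + (0, (k : ℝ)))) = g := by
        funext q
        have := g2 q (fun _ => 0) k
        simpa [Prod.add_def, Pi.zero_def] using this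
      have h3 := fderiv_comp_add_right (𝕜 := ℝ) (f := g) (x := p) ((0, (k : ℝ)) : E 1)
      rw [h2] at h3
      have h4 : p + ((0, (k : ℝ)) : E 1) = (p.1, p.2 + k) := by
        ext i <;> simp
      rw [h3, h4]
    rw [← e2, e1, (h.derivs _).2.1, e0, rp_add]

end PotL

end Pool.Agent.Helper6K9.EH
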