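import Pool.Agent.Helper6K9.EH.PotA
import Pool.Agent.Helper6K9.EH.PotB

set_option autoImplicit false

/-! # Leaf POT: the tube potentials -/

namespace Pool.Agent.Helper6K9.EH

open Set Filter Topology Pool.Agent.Helper6K9.ES
open scoped ContDiff

namespace PotL

/-! ## the constants -/

theorem tau_eq (j : ℕ) : tau j = (√(j : ℝ))⁻¹ := by
  unfold tau
  rw [Real.rpow_neg (Nat.cast_nonneg j), ← Real.sqrt_eq_rpow]

theorem pow32 (j : ℕ) : (j : ℝ) ^ (-(3 / 2) : ℝ) = (√(j : ℝ) ^ 3)⁻¹ := by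
  rw [Real.rpow_neg (Nat.cast_nonneg j), Real.sqrt_eq_rpow, ← Real.rpow_natCast,
    ← Real.rpow_mul (Nat.cast_nonneg j)]
  norm_num

theorem sq_one {j : ℕ} (hj : 1 ≤ j) : 1 ≤ √(j : ℝ) := by
  rw [Real.one_le_sqrt]; exact_mod_cast hj

theorem ss_eq (u : ℝ) (j : ℕ) : ss u j = u / 64 * (√(j : ℝ) ^ 3)⁻¹ := by
  unfold ss; rw [pow32]

theorem ss_pos {u : ℝ} (hu : 0 < u) {j : ℕ} (hj : 1 ≤ j) : 0 < ss u j := by
  have := sq_one hj
  rw [ss_eq]; positivity

theorem ss_anti {u : ℝ} (hu : 0 < u) {i j : ℕ} (hi : 1 ≤ i) (hij : i ≤ j) : ss u j ≤ ss u i := by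
  have h1 := sq_one hi
  have h2 : √(i : ℝ) ≤ √(j : ℝ) := Real.sqrt_le_sqrt (by exact_mod_cast hij)
  rw [ss_eq, ss_eq]
  gcongr

theorem ss_le {u : ℝ} (hu : 0 < u) {j : ℕ} (hj : 1 ≤ j) : ss u j ≤ u / 64 := by
  have h1 := sq_one hj
  have h2 : (√(j : ℝ) ^ 3)⁻¹ ≤ 1 := inv_le_one_of_one_le₀ (one_le_pow₀ h1)
  rw [ss_eq]
  nlinarith

theorem tau_pos {j : ℕ} (hj : 1 ≤ j) : 0 < tau j := by
  have := sq_one hj
  rw [tau_eq]; positivity

theorem tau_le {j : ℕ} (hj : 64 ≤ j) : tau j ≤ 1 / 8 := by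
  have h1 : (8 : ℝ) ≤ √(j : ℝ) := by
    rw [Real.le_sqrt (by norm_num) (by positivity)]
    have : (64 : ℝ) ≤ j := by exact_mod_cast hj
    linarith
  rw [tau_eq, inv_eq_one_div]
  exact one_div_le_one_div_of_le (by norm_num) h1

theorem gap {u : ℝ} (hu : 0 < u) {i j : ℕ} (hi : 1 ≤ i) (hij : i < j) :
    3 * ss u i < u * (tau i - tau j) := by
  set a := √(i : ℝ) with ha
  set b := √((i : ℝ) + 1) with hb
  have h1 : 1 ≤ a := sq_one hi
  have h2 : b ≤ √(j : ℝ) := Real.sqrt_le_sqrt (by exact_mod_cast hij)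
  have ha2 : a ^ 2 = i := Real.sq_sqrt (Nat.cast_nonneg i)
  have hb2 : b ^ 2 = i + 1 := Real.sq_sqrt (by positivity)
  have hb0 : 0 < b := Real.sqrt_pos.2 (by positivity)
  have hab : a ≤ b := Real.sqrt_le_sqrt (by linarith)
  have hb3 : b ≤ 2 * a := by
    have : b ^ 2 ≤ (2 * a) ^ 2 := by nlinarith
    exact (abs_le_of_sq_le_sq' this (by positivity)).2
  have h3 : a⁻¹ - b⁻¹ = 1 / (a * b * (a + b)) := by
    have : (b - a) * (a + b) = 1 := by nlinarith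
    rw [eq_div_iff (by positivity)]
    field_simp
    linarith
  have h4 : 1 / (6 * a ^ 3) ≤ a⁻¹ - b⁻¹ := by
    rw [h3]
    apply one_div_le_one_div_of_le (by positivity)
    have h5 : b * (a + b) ≤ 2 * a * (a + 2 * a) := by
      apply mul_le_mul hb3 (by linarith) (by positivity) (by positivity)
    nlinarith
  have h6 : b⁻¹ ≥ tau j := by
    rw [tau_eq]
    exact inv_anti₀ hb0 h2
  have h7 : a⁻¹ = tau i := (tau_eq i).symm
  have h8 : 3 * ss u i = u * (3 / (64 * a ^ 3)) := by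
    rw [ss_eq, ← ha]; field_simp
  rw [h8]
  have h9 : 3 / (64 * a ^ 3) < 1 / (6 * a ^ 3) := by
    rw [div_lt_div_iff₀ (by positivity) (by positivity)]
    have : 0 < a ^ 3 := by positivity
    linarith
  exact mul_lt_mul_of_pos_left (by linarith) hu

theorem aa_eq {j : ℕ} (hj : 1 ≤ j) : aa j = ee j * ((j : ℝ) ^ 4)⁻¹ := by
  unfold aa
  rw [show (-4 : ℝ) = -((4 : ℕ) : ℝ) by norm_num, Real.rpow_neg (Nat.cast_nonneg j),
    Real.rpow_natCast]

theorem ee_pos {j : ℕ} (hj : 1 ≤ j) : 0 < ee j := by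
  unfold ee
  exact Real.rpow_pos_of_pos (by exact_mod_cast hj) _

theorem LL_le (j : ℕ) : LL j ≤ (j : ℝ) ^ 2 := by
  unfold LL
  have : ((j / 2 : ℕ) : ℝ) ≤ j := by exact_mod_cast Nat.div_le_self j 2
  exact pow_le_pow_left₀ (Nat.cast_nonneg _) this 2

theorem LL_nonneg (j : ℕ) : 0 ≤ LL j := by unfold LL; positivity

/-! ## the tubes -/

/-- the shapes -/
structure Sh (u : ℝ) (χ cb β : ℝ → ℝ) : Prop where
  bs : ContDiff ℝ ∞ β
  b1 : ∀ z, |z| ≤ 5 / 4 → β z = 1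
  b0 : ∀ z, β z ≠ 0 → |z| ≤ 3 / 2
  cs : ContDiff ℝ ∞ cb
  c0 : ∀ z, cb z ≠ 0 → |z| < 1
  xs : ContDiff ℝ ∞ χ
  x0 : ∀ y, χ y ≠ 0 → |y - 1 / 2| ≤ 3 * u / 16

/-- the potential of the tube `j` -/
noncomputable def Vn (b u : ℝ) (χ cb β : ℝ → ℝ) (j : ℕ) (p : E 1) : ℝ :=
  ee j * ss u j ^ 2 * (((eta u j (p.1 1) p.2 / ss u j) ^ 2 / 2 * β (eta u j (p.1 1) p.2 / ss u j)) *
    χ (p.1 1)) +
  aa j * (β (eta u j (p.1 1) p.2 / ss u j) * cb ((p.2 - tau j) / dd j) *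
    psi (p.1 0 - b * p.1 1 - LL j * p.2 - hf j))

/-- the region of the tube `j` -/
def Rg (u : ℝ) (j : ℕ) : Set (E 1) :=
  {p | |eta u j (p.1 1) p.2| ≤ 3 / 2 * ss u j ∧ |p.1 1 - 1 / 2| ≤ 3 * u / 16}

variable {b u : ℝ} {χ cb β : ℝ → ℝ}

theorem supp (hu : 0 < u) (h : Sh u χ cb β) {j : ℕ} (hj : 1 ≤ j) {p : E 1}
    (hp : Vn b u χ cb β j p ≠ 0) : p ∈ Rg u j := by
  have hs := ss_pos hu hj
  by_cases h1 : β (eta u j (p.1 1) p.2 / ss u j) = 0
  · exact absurd (by simp [Vn, h1]) hp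
  have h2 := h.b0 _ h1
  rw [abs_div, abs_of_pos hs, div_le_iff₀ hs] at h2
  refine ⟨h2, ?_⟩
  by_cases h3 : χ (p.1 1) = 0
  · by_cases h4 : cb ((p.2 - tau j) / dd j) = 0
    · exact absurd (by simp [Vn, h3, h4]) hp
    have h5 := h.c0 _ h4
    have hj' : (1 : ℝ) ≤ j := by exact_mod_cast hj
    have hd : 0 < dd j := by unfold dd; positivity
    have hd1 : dd j ≤ 1 / 64 := by
      unfold dd
      exact one_div_le_one_div_of_le (by norm_num) (by linarith)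
    rw [abs_div, abs_of_pos hd, div_lt_one hd] at h5
    have h6 : p.1 1 - 1 / 2 = eta u j (p.1 1) p.2 + u * (p.2 - tau j) := by unfold eta; ring
    rw [h6]
    refine (abs_add_le _ _).trans ?_
    rw [abs_mul, abs_of_pos hu]
    have h7 := ss_le hu hj
    nlinarith [abs_nonneg (p.2 - tau j)]
  · exact h.x0 _ h3

theorem box (hu : 0 < u) (hu1 : u ≤ 1) {j : ℕ} (hj : 64 ≤ j) {p : E 1} (hp : p ∈ Rg u j) :
    p.1 1 ∈ Icc (5 / 16 : ℝ) (11 / 16) ∧ p.2 ∈ Icc (-1 / 4 : ℝ) (3 / 8) := by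
  obtain ⟨h1, h2⟩ := hp
  have hs := ss_le hu (show 1 ≤ j by omega)
  have ht := tau_le hj
  have ht0 := tau_pos (show 1 ≤ j by omega)
  have h3 : u * (p.2 - tau j) = (p.1 1 - 1 / 2) - eta u j (p.1 1) p.2 := by unfold eta; ring
  rw [abs_le] at h1 h2
  refine ⟨⟨by linarith [h2.1], by linarith [h2.2]⟩, ?_⟩
  have h4 : p.2 - tau j ≤ 27 / 128 := by
    by_contra hc
    have : u * (27 / 128) < u * (p.2 - tau j) := mul_lt_mul_of_pos_left (not_le.1 hc) hu
    linarith [h1.1, h2.2]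
  have h5 : -(27 / 128) ≤ p.2 - tau j := by
    by_contra hc
    have : u * (p.2 - tau j) < u * (-(27 / 128)) := mul_lt_mul_of_pos_left (not_le.1 hc) hu
    linarith [h1.2, h2.1]
  constructor <;> linarith

theorem closed (u : ℝ) (j : ℕ) : IsClosed (Rg u j) := by
  have hc1 : Continuous fun q : E 1 => q.1 1 := (continuous_apply 1).comp continuous_fst
  have hc2 : Continuous fun q : E 1 => eta u j (q.1 1) q.2 := by
    unfold eta
    exact (hc1.sub continuous_const).sub (continuous_const.mul (continuous_snd.sub continuous_const))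
  exact (isClosed_le hc2.abs continuous_const).inter
    (isClosed_le (hc1.sub continuous_const).abs continuous_const)

theorem disj (hu : 0 < u) {i j : ℕ} (hi : 1 ≤ i) (hij : i < j) {p : E 1} (h1 : p ∈ Rg u i) :
    p ∉ Rg u j := by
  rintro ⟨h2, -⟩
  have h3 := gap hu hi hij
  have h4 := ss_anti hu hi hij.le
  have h5 : u * (tau i - tau j) = eta u i (p.1 1) p.2 - eta u j (p.1 1) p.2 := by unfold eta; ring
  have h1' := abs_le.1 h1.1
  rw [abs_le] at h2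
  linarith [h1'.2, h2.1]

theorem per (j : ℕ) (p : E 1) (n : ℤ) :
    Vn b u χ cb β j (p + (Pi.single 0 (n : ℝ), 0)) = Vn b u χ cb β j p := by
  have e1 : (p + ((Pi.single 0 (n : ℝ), 0) : E 1)).1 1 = p.1 1 := by simp
  have e2 : (p + ((Pi.single 0 (n : ℝ), 0) : E 1)).1 0 = p.1 0 + n := by simp
  have e3 : (p + ((Pi.single 0 (n : ℝ), 0) : E 1)).2 = p.2 := by simp
  unfold Vn
  rw [e1, e2, e3, show p.1 0 + (n : ℝ) - b * p.1 1 - LL j * p.2 - hf j =
    p.1 0 - b * p.1 1 - LL j * p.2 - hf j + n by ring, psi_add]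

theorem Bd.mono {f : ℝ → ℝ} {M M' : ℝ} (h : Bd f M) (hM : M ≤ M') : Bd f M' :=
  ⟨h.1, fun i hi y => (h.2 i hi y).trans hM⟩

theorem Nb.mono {F : E 1 → ℝ} {A Λ Λ' : ℝ} (h : Nb F A Λ) (h0 : 0 ≤ Λ) (hΛ : Λ ≤ Λ') :
    Nb F A Λ' :=
  ⟨h.1, fun p i hi => (h.2 p i hi).trans
    (mul_le_mul_of_nonneg_left (pow_le_pow_left₀ h0 hΛ i) h.nonneg)⟩

theorem hasCompact {g : ℝ → ℝ} {r : ℝ} (h : ∀ z, g z ≠ 0 → |z| ≤ r) : HasCompactSupport g := by
  refine HasCompactSupport.intro (isCompact_Icc (a := -r) (b := r)) fun x hx => ?_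
  by_contra h0
  exact hx (abs_le.1 (h x h0))

/-- the bounds of the tube potentials -/
theorem bounds (hu : 0 < u) (hu1 : u ≤ 1) (h : Sh u χ cb β) : ∃ C : ℝ, 0 ≤ C ∧ ∀ j : ℕ, 1 ≤ j →
    ContDiff ℝ 2 (Vn b u χ cb β j) ∧ ∀ p, |Vn b u χ cb β j p| ≤ C * ee j ∧
      ‖fderiv ℝ (Vn b u χ cb β j) p‖ ≤ C * ee j ∧
      ‖fderiv ℝ (fderiv ℝ (Vn b u χ cb β j)) p‖ ≤ C * ee j := by
  have le2' : (2 : WithTop ℕ∞) ≤ ∞ := ENat.LEInfty.out
  have hβ := h.bs.of_le le2'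
  have hcb := h.cs.of_le le2'
  have hχ := h.xs.of_le le2'
  have hom : ContDiff ℝ 2 fun z => z ^ 2 / 2 * β z := ((contDiff_id.pow 2).div_const 2).mul hβ
  obtain ⟨M1, m1, B1⟩ := bd_compact hom (hasCompact (r := 3 / 2) fun z hz => h.b0 z
    (right_ne_zero_of_mul hz))
  obtain ⟨M2, m2, B2⟩ := bd_compact hβ (hasCompact (r := 3 / 2) h.b0)
  obtain ⟨M3, m3, B3⟩ := bd_compact hχ (hasCompact (r := 2) fun z hz => by
    have := abs_le.1 (h.x0 z hz)
    rw [abs_le]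
    constructor <;> linarith [this.1, this.2])
  obtain ⟨M4, m4, B4⟩ := bd_compact hcb (hasCompact (r := 1) fun z hz => (h.c0 z hz).le)
  obtain ⟨M5, m5, B5⟩ := bd_periodic (psi_smooth.of_le le2') (fun z => by
    have := psi_add z 1
    simpa using this)
  set M := M1 + M2 + M3 + M4 + M5 with hM
  have hM0 : 0 ≤ M := by positivity
  replace B1 := B1.mono (show M1 ≤ M by linarith)
  replace B2 := B2.mono (show M2 ≤ M by linarith)
  replace B3 := B3.mono (show M3 ≤ M by linarith)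
  replace B4 := B4.mono (show M4 ≤ M by linarith)
  replace B5 := B5.mono (show M5 ≤ M by linarith)
  set D := 128 / u + 1 + |b| with hD
  have hD0 : 0 ≤ D := by positivity
  refine ⟨16 * M ^ 2 + 16 * M ^ 3 * D ^ 2, by positivity, fun j hj => ?_⟩
  have hs := ss_pos hu hj
  have hs1 : ss u j ≤ 1 := (ss_le hu hj).trans (by linarith)
  have hj' : (1 : ℝ) ≤ j := by exact_mod_cast hj
  have he := ee_pos hj
  -- the linear functionals
  have n1 : ‖lin 0 (1 / ss u j) (-u / ss u j)‖ ≤ 2 / ss u j := by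
    refine (lin_norm _ _ _).trans ?_
    rw [abs_zero, zero_add, abs_of_pos (by positivity), neg_div, abs_neg,
      abs_of_pos (by positivity), ← add_div]
    gcongr
    linarith
  have n2 : ‖lin 0 1 0‖ ≤ 2 / ss u j := by
    refine (lin_norm _ _ _).trans ?_
    rw [abs_zero, abs_one, zero_add, add_zero, le_div_iff₀ hs]
    linarith
  have n3 : 2 / ss u j ≤ D * (j : ℝ) ^ 2 := by
    have h1 := sq_one hj
    have h2 : (√(j : ℝ)) ^ 3 ≤ (j : ℝ) ^ 2 := by
      have e : (j : ℝ) ^ 2 = (√(j : ℝ)) ^ 4 := by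
        rw [show (4 : ℕ) = 2 * 2 by norm_num, pow_mul, Real.sq_sqrt (Nat.cast_nonneg j)]
      rw [e]
      exact pow_le_pow_right₀ h1 (by norm_num)
    have e1 : 2 / ss u j = 128 / u * (√(j : ℝ)) ^ 3 := by
      rw [ss_eq]
      field_simp
      norm_num
    rw [e1]
    have h3 : 128 / u ≤ D := by rw [hD]; linarith [abs_nonneg b]
    exact mul_le_mul h3 h2 (by positivity) hD0
  have hD64 : 64 ≤ D := by
    have : (128 : ℝ) ≤ 128 / u := by
      rw [le_div_iff₀ hu]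
      linarith
    rw [hD]; linarith [abs_nonneg b]
  have hjj : (j : ℝ) ≤ (j : ℝ) ^ 2 := by nlinarith
  have n4 : ‖lin 0 0 (1 / dd j)‖ ≤ D * (j : ℝ) ^ 2 := by
    refine (lin_norm _ _ _).trans ?_
    have e : 1 / dd j = 64 * j := by unfold dd; field_simp
    rw [e, abs_zero, zero_add, zero_add, abs_of_pos (by positivity)]
    exact mul_le_mul hD64 hjj (by positivity) hD0
  have n5 : ‖lin 1 (-b) (-LL j)‖ ≤ D * (j : ℝ) ^ 2 := by
    refine (lin_norm _ _ _).trans ?_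
    rw [abs_one, abs_neg, abs_neg, abs_of_nonneg (LL_nonneg j)]
    have h1 : (1 : ℝ) ≤ (j : ℝ) ^ 2 := one_le_pow₀ hj'
    have h2 := LL_le j
    have h3 : (1 + |b|) * 1 ≤ (1 + |b|) * (j : ℝ) ^ 2 :=
      mul_le_mul_of_nonneg_left h1 (by positivity)
    have h4 : D * (j : ℝ) ^ 2 = 128 / u * (j : ℝ) ^ 2 + (1 + |b|) * (j : ℝ) ^ 2 := by rw [hD]; ring
    have h5 : (1 : ℝ) * (j : ℝ) ^ 2 ≤ 128 / u * (j : ℝ) ^ 2 := by
      refine mul_le_mul_of_nonneg_right ?_ (by positivity)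
      rw [le_div_iff₀ hu]; linarith
    linarith
  have hΛ1 : 1 ≤ 2 / ss u j := by rw [le_div_iff₀ hs]; linarith
  have hΛ2 : 1 ≤ D * (j : ℝ) ^ 2 := hΛ1.trans n3
  -- first part
  have W1 : Nb (fun p : E 1 => ee j * ss u j ^ 2 * (((eta u j (p.1 1) p.2 / ss u j) ^ 2 / 2 *
      β (eta u j (p.1 1) p.2 / ss u j)) * χ (p.1 1))) (ee j * ss u j ^ 2 * (4 * (M * M)))
      (2 / ss u j) := by
    have a1 := Nb.comp B1 n1 ((-1 / 2 + u * tau j) / ss u j)
    have a2 := Nb.comp B3 n2 0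
    have a3 := (a1.mul a2 (by positivity)).const_mul (c := ee j * ss u j ^ 2) (by positivity)
    convert a3 using 1
    funext p
    have e1 : lin 0 (1 / ss u j) (-u / ss u j) p + (-1 / 2 + u * tau j) / ss u j =
        eta u j (p.1 1) p.2 / ss u j := by
      rw [lin_apply]; unfold eta; field_simp; ring
    have e2 : lin 0 1 0 p + 0 = p.1 1 := by rw [lin_apply]; ring
    simp only [e1, e2]
  have W2 : Nb (fun p : E 1 => aa j * (β (eta u j (p.1 1) p.2 / ss u j) *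
      cb ((p.2 - tau j) / dd j) * psi (p.1 0 - b * p.1 1 - LL j * p.2 - hf j)))
      (aa j * (4 * (4 * (M * M) * M))) (D * (j : ℝ) ^ 2) := by
    have a1 := (Nb.comp B2 n1 ((-1 / 2 + u * tau j) / ss u j)).mono (by positivity) n3
    have a2 := Nb.comp B4 n4 (-tau j / dd j)
    have a3 := Nb.comp B5 n5 (-hf j)
    have haa : 0 ≤ aa j := by rw [aa_eq hj]; positivity
    have a4 := ((a1.mul a2 (by positivity)).mul a3 (by positivity)).const_mul (c := aa j) haa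
    convert a4 using 1
    funext p
    have e1 : lin 0 (1 / ss u j) (-u / ss u j) p + (-1 / 2 + u * tau j) / ss u j =
        eta u j (p.1 1) p.2 / ss u j := by
      rw [lin_apply]; unfold eta; field_simp; ring
    have e2 : lin 0 0 (1 / dd j) p + -tau j / dd j = (p.2 - tau j) / dd j := by
      rw [lin_apply]; ring
    have e3 : lin 1 (-b) (-LL j) p + -hf j = p.1 0 - b * p.1 1 - LL j * p.2 - hf j := by
      rw [lin_apply]; ring
    simp only [e1, e2, e3]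
  have c1 : ee j * ss u j ^ 2 * (4 * (M * M)) * (2 / ss u j) ^ 2 = 16 * M ^ 2 * ee j := by
    field_simp
    ring
  have c2 : aa j * (4 * (4 * (M * M) * M)) * (D * (j : ℝ) ^ 2) ^ 2 = 16 * M ^ 3 * D ^ 2 * ee j := by
    rw [aa_eq hj]
    field_simp
    ring
  refine ⟨W1.1.add W2.1, fun p => ?_⟩
  obtain ⟨x1, x2, x3⟩ := W1.bounds hΛ1 p
  obtain ⟨y1, y2, y3⟩ := W2.bounds hΛ2 p
  rw [c1] at x1 x2 x3
  rw [c2] at y1 y2 y3
  have hsum : (16 * M ^ 2 + 16 * M ^ 3 * D ^ 2) * ee j = 16 * M ^ 2 * ee j + 16 * M ^ 3 * D ^ 2 * ee j := by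
    ring
  rw [hsum]
  have d1 := W1.1.differentiable (by norm_num : (2 : WithTop ℕ∞) ≠ 0)
  have d2 := W2.1.differentiable (by norm_num : (2 : WithTop ℕ∞) ≠ 0)
  have f1 : ContDiff ℝ 1 (fderiv ℝ _) := W1.1.fderiv_right (m := 1) (by norm_num)
  have f2 : ContDiff ℝ 1 (fderiv ℝ _) := W2.1.fderiv_right (m := 1) (by norm_num)
  have g1 := f1.differentiable (by norm_num : (1 : WithTop ℕ∞) ≠ 0)
  have g2 := f2.differentiable (by norm_num : (1 : WithTop ℕ∞) ≠ 0)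
  have hf1 : fderiv ℝ (Vn b u χ cb β j) = fun q =>
      fderiv ℝ (fun p : E 1 => ee j * ss u j ^ 2 * (((eta u j (p.1 1) p.2 / ss u j) ^ 2 / 2 *
        β (eta u j (p.1 1) p.2 / ss u j)) * χ (p.1 1))) q +
      fderiv ℝ (fun p : E 1 => aa j * (β (eta u j (p.1 1) p.2 / ss u j) *
        cb ((p.2 - tau j) / dd j) * psi (p.1 0 - b * p.1 1 - LL j * p.2 - hf j))) q := by
    funext q
    exact fderiv_add (d1 q) (d2 q)
  refine ⟨(abs_add_le _ _).trans (add_le_add x1 y1), ?_, ?_⟩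
  · rw [hf1]
    exact (norm_add_le _ _).trans (add_le_add x2 y2)
  · rw [hf1]
    have := fderiv_add (𝕜 := ℝ) (g1 p) (g2 p)
    refine (le_of_eq (congrArg norm this)).trans ?_
    exact (norm_add_le _ _).trans (add_le_add x3 y3)

/-! ## the derivatives in the tube -/

theorem near_one (hu : 0 < u) (h : Sh u χ cb β) {j : ℕ} (hj : 1 ≤ j) {p : E 1}
    (hp : |eta u j (p.1 1) p.2| ≤ ss u j) : Vn b u χ cb β j =ᶠ[𝓝 p] fun q =>
      ee j * (eta u j (q.1 1) q.2 ^ 2 / 2) * χ (q.1 1) +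
      aa j * (cb ((q.2 - tau j) / dd j) * psi (q.1 0 - b * q.1 1 - LL j * q.2 - hf j)) := by
  have hs := ss_pos hu hj
  have hc1 : Continuous fun q : E 1 => q.1 1 := (continuous_apply 1).comp continuous_fst
  have hc2 : Continuous fun q : E 1 => eta u j (q.1 1) q.2 := by
    unfold eta
    exact (hc1.sub continuous_const).sub (continuous_const.mul (continuous_snd.sub continuous_const))
  have o : IsOpen {q : E 1 | |eta u j (q.1 1) q.2| < 5 / 4 * ss u j} :=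
    isOpen_lt hc2.abs continuous_const
  have hm : |eta u j (p.1 1) p.2| < 5 / 4 * ss u j := by linarith
  filter_upwards [o.mem_nhds hm] with q hq
  have hq : |eta u j (q.1 1) q.2| < 5 / 4 * ss u j := hq
  have h1 : β (eta u j (q.1 1) q.2 / ss u j) = 1 := by
    apply h.b1
    rw [abs_div, abs_of_pos hs, div_le_iff₀ hs]
    exact hq.le
  unfold Vn
  rw [h1]
  field_simp

/-- the derivative along a coordinate axis from a function of one variable -/
theorem dX_line {F G : E 1 → ℝ} {p : E 1} (hF : DifferentiableAt ℝ F p) (hFG : F =ᶠ[𝓝 p] G)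
    (i : Fin (1 + 1)) {c : ℝ}
    (hG : HasDerivAt (fun s : ℝ => G (p + s • (Pi.single i 1, 0))) c 0) :
    fderiv ℝ F p (Pi.single i 1, 0) = c := by
  have h1 : HasFDerivAt F (fderiv ℝ F p) p := hF.hasFDerivAt
  have h2 : HasDerivAt (fun s : ℝ => p + s • ((Pi.single i 1, 0) : E 1)) (Pi.single i 1, 0) 0 := by
    have := ((hasDerivAt_id (0 : ℝ)).smul_const ((Pi.single i 1, 0) : E 1)).const_add p
    simpa using this
  have h3 : HasFDerivAt F (fderiv ℝ F p) (p + (0 : ℝ) • ((Pi.single i 1, 0) : E 1)) := by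
    rw [zero_smul, add_zero]; exact h1
  have h4 := h3.comp_hasDerivAt (0 : ℝ) h2
  have h5 : Tendsto (fun s : ℝ => p + s • ((Pi.single i 1, 0) : E 1)) (𝓝 0) (𝓝 p) := by
    have := h2.continuousAt.tendsto
    rwa [zero_smul, add_zero] at this
  have h6 : (fun s : ℝ => F (p + s • ((Pi.single i 1, 0) : E 1))) =ᶠ[𝓝 0]
      fun s : ℝ => G (p + s • ((Pi.single i 1, 0) : E 1)) := h5.eventually hFG
  exact h4.unique (hG.congr_of_eventuallyEq h6)

theorem deriv_x (hu : 0 < u) (h : Sh u χ cb β) {j : ℕ} (hj : 1 ≤ j) {p : E 1}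
    (hV : ContDiff ℝ 2 (Vn b u χ cb β j)) (hp : |eta u j (p.1 1) p.2| ≤ ss u j) :
    fderiv ℝ (Vn b u χ cb β j) p (Pi.single 0 1, 0) = aa j * cb ((p.2 - tau j) / dd j) *
      deriv psi (p.1 0 - b * p.1 1 - LL j * p.2 - hf j) := by
  refine dX_line ((hV.differentiable (by norm_num)) p) (near_one hu h hj hp) 0 ?_
  have hpsi : HasDerivAt psi (deriv psi (p.1 0 - b * p.1 1 - LL j * p.2 - hf j))
      (p.1 0 - b * p.1 1 - LL j * p.2 - hf j) :=
    ((psi_smooth.differentiable (by norm_num)) _).hasDerivAt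
  have d0 : HasDerivAt (fun s : ℝ => p.1 0 + s - b * p.1 1 - LL j * p.2 - hf j) 1 0 := by
    have := ((((hasDerivAt_id (0 : ℝ)).const_add (p.1 0)).sub_const (b * p.1 1)).sub_const
      (LL j * p.2)).sub_const (hf j)
    simpa using this
  have d1 : HasDerivAt (fun s : ℝ => psi (p.1 0 + s - b * p.1 1 - LL j * p.2 - hf j))
      (deriv psi (p.1 0 - b * p.1 1 - LL j * p.2 - hf j) * 1) 0 := by
    have hpsi' : HasDerivAt psi (deriv psi (p.1 0 - b * p.1 1 - LL j * p.2 - hf j))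
      ((fun s : ℝ => p.1 0 + s - b * p.1 1 - LL j * p.2 - hf j) 0) := by simpa using hpsi
    exact hpsi'.comp (0 : ℝ) d0
  have d2 := ((d1.const_mul (cb ((p.2 - tau j) / dd j))).const_mul (aa j)).const_add
    (ee j * (eta u j (p.1 1) p.2 ^ 2 / 2) * χ (p.1 1))
  have e1 : ∀ s : ℝ, (p + s • ((Pi.single 0 1, 0) : E 1)).1 0 = p.1 0 + s := by intro s; simp
  have e2 : ∀ s : ℝ, (p + s • ((Pi.single 0 1, 0) : E 1)).1 1 = p.1 1 := by intro s; simp
  have e3 : ∀ s : ℝ, (p + s • ((Pi.single 0 1, 0) : E 1)).2 = p.2 := by intro s; simp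
  simp only [e1, e2, e3]
  refine d2.congr_deriv ?_
  ring

theorem deriv_y (hu : 0 < u) (h : Sh u χ cb β) {j : ℕ} (hj : 1 ≤ j) {p : E 1}
    (hV : ContDiff ℝ 2 (Vn b u χ cb β j)) (hp : |eta u j (p.1 1) p.2| ≤ ss u j) :
    fderiv ℝ (Vn b u χ cb β j) p (Pi.single 1 1, 0) =
      ee j * (eta u j (p.1 1) p.2 * χ (p.1 1) + eta u j (p.1 1) p.2 ^ 2 / 2 * deriv χ (p.1 1)) -
      b * (aa j * cb ((p.2 - tau j) / dd j) *
        deriv psi (p.1 0 - b * p.1 1 - LL j * p.2 - hf j)) := by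
  refine dX_line ((hV.differentiable (by norm_num)) p) (near_one hu h hj hp) 1 ?_
  have hpsi : HasDerivAt psi (deriv psi (p.1 0 - b * p.1 1 - LL j * p.2 - hf j))
      (p.1 0 - b * p.1 1 - LL j * p.2 - hf j) :=
    ((psi_smooth.differentiable (by norm_num)) _).hasDerivAt
  have hχ : HasDerivAt χ (deriv χ (p.1 1)) (p.1 1) :=
    ((h.xs.differentiable (by norm_num)) _).hasDerivAt
  have dy : HasDerivAt (fun s : ℝ => p.1 1 + s) 1 0 := by
    simpa using (hasDerivAt_id (0 : ℝ)).const_add (p.1 1)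
  have d0 : HasDerivAt (fun s : ℝ => p.1 0 - b * (p.1 1 + s) - LL j * p.2 - hf j) (-b) 0 := by
    have := ((((dy.const_mul b).const_sub (p.1 0))).sub_const (LL j * p.2)).sub_const (hf j)
    simpa using this
  have d1 : HasDerivAt (fun s : ℝ => psi (p.1 0 - b * (p.1 1 + s) - LL j * p.2 - hf j))
      (deriv psi (p.1 0 - b * p.1 1 - LL j * p.2 - hf j) * (-b)) 0 := by
    have hpsi' : HasDerivAt psi (deriv psi (p.1 0 - b * p.1 1 - LL j * p.2 - hf j))
      ((fun s : ℝ => p.1 0 - b * (p.1 1 + s) - LL j * p.2 - hf j) 0) := by simpa using hpsi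
    exact hpsi'.comp (0 : ℝ) d0
  have d2 := (d1.const_mul (cb ((p.2 - tau j) / dd j))).const_mul (aa j)
  have d3 : HasDerivAt (fun s : ℝ => χ (p.1 1 + s)) (deriv χ (p.1 1) * 1) 0 := by
    have hχ' : HasDerivAt χ (deriv χ (p.1 1)) ((fun s : ℝ => p.1 1 + s) 0) := by simpa using hχ
    exact hχ'.comp (0 : ℝ) dy
  have d4 : HasDerivAt (fun s : ℝ => eta u j (p.1 1 + s) p.2) 1 0 := by
    unfold eta
    simpa using (dy.sub_const (1 / 2)).sub_const (u * (p.2 - tau j))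
  have d5 := ((d4.pow 2).div_const 2).const_mul (ee j)
  have d6 := (d5.mul d3).add d2
  have e1 : ∀ s : ℝ, (p + s • ((Pi.single 1 1, 0) : E 1)).1 0 = p.1 0 := by intro s; simp
  have e2 : ∀ s : ℝ, (p + s • ((Pi.single 1 1, 0) : E 1)).1 1 = p.1 1 + s := by intro s; simp
  have e3 : ∀ s : ℝ, (p + s • ((Pi.single 1 1, 0) : E 1)).2 = p.2 := by intro s; simp
  simp only [e1, e2, e3]
  refine d6.congr_deriv ?_
  simp only [add_zero, Pi.pow_apply]
  push_cast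
  ring

end PotL

end Pool.Agent.Helper6K9.EH
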