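import Pool.Agent.Helper6K9.EH.Stm

set_option autoImplicit false

/-!
# One cycle: preliminaries
-/

namespace Pool.Agent.Helper6K9.EH

open Set Filter Topology Pool.Agent.Helper6K9.ES
open scoped ContDiff

namespace StepL

/-- extraction of a crossing subinterval -/
theorem cross {f : ℝ → ℝ} {a b p q : ℝ} (hab : a ≤ b) (hf : ContinuousOn f (Icc a b)) (hpq : p ≤ q)
    (ha : f a ≤ p) (hb : q ≤ f b) :
    ∃ a' b' : ℝ, a ≤ a' ∧ a' ≤ b' ∧ b' ≤ b ∧ f a' = p ∧ f b' = q ∧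
      ∀ s ∈ Icc a' b', p ≤ f s ∧ f s ≤ q := by
  -- `b'` is the first point with value `q`
  have hc1 : IsCompact (Icc a b ∩ f ⁻¹' (Ici q)) := by
    have := hf.preimage_isClosed_of_isClosed isClosed_Icc (isClosed_Ici (a := q))
    exact isCompact_Icc.of_isClosed_subset this inter_subset_left
  have hn1 : (Icc a b ∩ f ⁻¹' (Ici q)).Nonempty := ⟨b, ⟨hab, le_rfl⟩, hb⟩
  obtain ⟨b', ⟨hb1, hb2⟩, hb3⟩ := hc1.exists_isLeast hn1
  have hb2' : q ≤ f b' := hb2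
  have hfb : f b' = q := by
    refine le_antisymm ?_ hb2'
    by_contra hlt
    push Not at hlt
    have h1 : q ∈ Icc (f a) (f b') := ⟨ha.trans hpq, hlt.le⟩
    obtain ⟨s, hs1, hs2⟩ := intermediate_value_Icc hb1.1
      (hf.mono (Icc_subset_Icc_right hb1.2)) h1
    have h2 : b' ≤ s := hb3 ⟨⟨hs1.1, hs1.2.trans hb1.2⟩, hs2.ge⟩
    have h3 : s = b' := le_antisymm hs1.2 h2
    rw [← hs2, h3] at hlt
    exact lt_irrefl _ hlt
  have hf' : ContinuousOn f (Icc a b') := hf.mono (Icc_subset_Icc_right hb1.2)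
  have hc2 : IsCompact (Icc a b' ∩ f ⁻¹' (Iic p)) := by
    have := hf'.preimage_isClosed_of_isClosed isClosed_Icc (isClosed_Iic (a := p))
    exact isCompact_Icc.of_isClosed_subset this inter_subset_left
  have hn2 : (Icc a b' ∩ f ⁻¹' (Iic p)).Nonempty := ⟨a, ⟨le_rfl, hb1.1⟩, ha⟩
  obtain ⟨a', ⟨ha1, ha2⟩, ha3⟩ := hc2.exists_isGreatest hn2
  have ha2' : f a' ≤ p := ha2
  have hfa : f a' = p := by
    refine le_antisymm ha2' ?_
    by_contra hlt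
    push Not at hlt
    have h1 : p ∈ Icc (f a') (f b') := ⟨hlt.le, by rw [hfb]; exact hpq⟩
    obtain ⟨s, hs1, hs2⟩ := intermediate_value_Icc ha1.2
      (hf'.mono (Icc_subset_Icc_left ha1.1)) h1
    have h2 : s ≤ a' := ha3 ⟨⟨ha1.1.trans hs1.1, hs1.2⟩, hs2.le⟩
    have h3 : s = a' := le_antisymm h2 hs1.1
    rw [← hs2, h3] at hlt
    exact lt_irrefl _ hlt
  refine ⟨a', b', ha1.1, ha1.2, hb1.2, hfa, hfb, fun s hs => ⟨?_, ?_⟩⟩
  · by_contra hlt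
    push Not at hlt
    have h2 : s ≤ a' := ha3 ⟨⟨ha1.1.trans hs.1, hs.2⟩, hlt.le⟩
    have h3 : s = a' := le_antisymm h2 hs.1
    rw [h3, hfa] at hlt
    exact lt_irrefl _ hlt
  · by_contra hlt
    push Not at hlt
    have h2 : b' ≤ s := hb3 ⟨⟨ha1.1.trans hs.1, hs.2.trans hb1.2⟩, hlt.le⟩
    have h3 : s = b' := le_antisymm hs.2 h2
    rw [h3, hfb] at hlt
    exact lt_irrefl _ hlt

/-- `y = i^(-1/8)` -/
noncomputable def yy (i : ℕ) : ℝ := (i : ℝ) ^ (-(1 / 8) : ℝ)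

theorem yy_pos {i : ℕ} (hi : 1 ≤ i) : 0 < yy i := by
  have : (0 : ℝ) < i := by exact_mod_cast hi
  exact Real.rpow_pos_of_pos this _

theorem yy_le {i : ℕ} (hi : 1 ≤ i) : yy i ≤ 1 := by
  have : (1 : ℝ) ≤ i := by exact_mod_cast hi
  exact Real.rpow_le_one_of_one_le_of_nonpos this (by norm_num)

theorem yy_pow {i : ℕ} (hi : 1 ≤ i) (n : ℕ) : yy i ^ n = (i : ℝ) ^ (-(n : ℝ) / 8) := by
  have : (0 : ℝ) < i := by exact_mod_cast hi
  unfold yy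
  rw [← Real.rpow_natCast, ← Real.rpow_mul this.le]
  congr 1
  ring

theorem yy8 {i : ℕ} (hi : 1 ≤ i) : (i : ℝ) * yy i ^ 8 = 1 := by
  have : (0 : ℝ) < i := by exact_mod_cast hi
  rw [yy_pow hi]
  norm_num
  rw [Real.rpow_neg_one]
  field_simp

theorem yy_lim : Tendsto yy atTop (𝓝 0) := by
  have h1 : Tendsto (fun x : ℝ => x ^ (-(1 / 8) : ℝ)) atTop (𝓝 0) :=
    tendsto_rpow_neg_atTop (by norm_num)
  exact h1.comp tendsto_natCast_atTop_atTop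

/-- powers of `j` for `j = 2 i` or `2 i + 1` -/
theorem pow_le {i j : ℕ} (hi : 1 ≤ i) (h1 : i ≤ j) (n : ℕ) :
    (j : ℝ) ^ (-(n : ℝ) / 8) ≤ yy i ^ n := by
  have : (0 : ℝ) < i := by exact_mod_cast hi
  rw [yy_pow hi]
  refine Real.rpow_le_rpow_of_nonpos this (by exact_mod_cast h1) ?_
  have : (0 : ℝ) ≤ n := Nat.cast_nonneg n
  linarith

theorem pow_ge {i j : ℕ} (hi : 1 ≤ i) (h1 : i ≤ j) (h2 : j ≤ 3 * i) (n k : ℕ) (hk : n ≤ 8 * k) :
    (1 / 3 : ℝ) ^ k * yy i ^ n ≤ (j : ℝ) ^ (-(n : ℝ) / 8) := by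
  have hi' : (0 : ℝ) < i := by exact_mod_cast hi
  have hj' : (0 : ℝ) < j := by exact_mod_cast (hi.trans h1)
  have h3 : ((3 * i : ℕ) : ℝ) ^ (-(n : ℝ) / 8) ≤ (j : ℝ) ^ (-(n : ℝ) / 8) := by
    refine Real.rpow_le_rpow_of_nonpos hj' (by exact_mod_cast h2) ?_
    have : (0 : ℝ) ≤ n := Nat.cast_nonneg n
    linarith
  refine le_trans ?_ h3
  rw [yy_pow hi]
  push_cast
  rw [Real.mul_rpow (by norm_num) hi'.le]
  refine mul_le_mul_of_nonneg_right ?_ (Real.rpow_nonneg hi'.le _)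
  have h4 : (1 / 3 : ℝ) ^ k = (3 : ℝ) ^ (-(k : ℝ)) := by
    rw [Real.rpow_neg (by norm_num), Real.rpow_natCast, one_div, inv_pow]
  rw [h4]
  refine Real.rpow_le_rpow_of_exponent_le (by norm_num) ?_
  have : (n : ℝ) ≤ 8 * k := by exact_mod_cast hk
  linarith

theorem ee_bd {i j : ℕ} (hi : 1 ≤ i) (h1 : i ≤ j) (h2 : j ≤ 3 * i) :
    yy i / 3 ≤ ee j ∧ ee j ≤ yy i := by
  have e1 := pow_ge hi h1 h2 1 1 (by norm_num)
  have e2 := pow_le hi h1 1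
  have e3 : ee j = (j : ℝ) ^ (-((1 : ℕ) : ℝ) / 8) := by
    unfold ee
    norm_num
  rw [e3]
  simp only [pow_one] at e1 e2
  exact ⟨by linarith, e2⟩

theorem ss_bd {u : ℝ} (hu : 0 < u) {i j : ℕ} (hi : 1 ≤ i) (h1 : i ≤ j) (h2 : j ≤ 3 * i) :
    u / 64 * (yy i ^ 12 / 9) ≤ ss u j ∧ ss u j ≤ u / 64 * yy i ^ 12 := by
  have e1 := pow_ge hi h1 h2 12 2 (by norm_num)
  have e2 := pow_le hi h1 12
  have e3 : ss u j = u / 64 * (j : ℝ) ^ (-((12 : ℕ) : ℝ) / 8) := by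
    unfold ss
    norm_num
  rw [e3]
  refine ⟨mul_le_mul_of_nonneg_left ?_ (by positivity), mul_le_mul_of_nonneg_left e2 (by positivity)⟩
  norm_num at e1 ⊢
  linarith

theorem tau_bd {i j : ℕ} (hi : 1 ≤ i) (h1 : i ≤ j) : 0 < tau j ∧ tau j ≤ yy i ^ 4 := by
  have e2 := pow_le hi h1 4
  have e3 : tau j = (j : ℝ) ^ (-((4 : ℕ) : ℝ) / 8) := by
    unfold tau
    norm_num
  rw [e3]
  exact ⟨Real.rpow_pos_of_pos (by exact_mod_cast (hi.trans h1)) _, e2⟩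

/-- consecutive passing times -/
theorem tau_diff {j : ℕ} (hj : 1 ≤ j) :
    |tau j - tau (j + 1)| ≤ (j : ℝ) ^ (-(12 : ℝ) / 8) := by
  have h0 : (0 : ℝ) < j := by exact_mod_cast hj
  have h01 : (0 : ℝ) < j + 1 := by linarith
  have e1 : tau j = 1 / √(j : ℝ) := by
    unfold tau
    rw [Real.rpow_neg h0.le, ← Real.sqrt_eq_rpow, one_div]
  have e2 : tau (j + 1) = 1 / √((j : ℝ) + 1) := by
    unfold tau
    push_cast
    rw [Real.rpow_neg h01.le, ← Real.sqrt_eq_rpow, one_div]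
  have e3 : (j : ℝ) ^ (-(12 : ℝ) / 8) = 1 / ((j : ℝ) * √(j : ℝ)) := by
    rw [show (-(12 : ℝ) / 8) = -(1 + 1 / 2) by norm_num, Real.rpow_neg h0.le,
      Real.rpow_add h0, Real.rpow_one, ← Real.sqrt_eq_rpow, one_div]
  have s1 : 0 < √(j : ℝ) := Real.sqrt_pos.2 h0
  have s2 : 0 < √((j : ℝ) + 1) := Real.sqrt_pos.2 h01
  have s3 : √(j : ℝ) ≤ √((j : ℝ) + 1) := Real.sqrt_le_sqrt (by linarith)
  have q1 : √(j : ℝ) ^ 2 = j := Real.sq_sqrt h0.le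
  have q2 : √((j : ℝ) + 1) ^ 2 = j + 1 := Real.sq_sqrt h01.le
  rw [e1, e2, e3, abs_of_nonneg (by
    rw [sub_nonneg]
    exact one_div_le_one_div_of_le s1 s3)]
  have h3 : 1 / √(j : ℝ) - 1 / √((j : ℝ) + 1) =
      (√((j : ℝ) + 1) - √(j : ℝ)) / (√(j : ℝ) * √((j : ℝ) + 1)) := by
    field_simp
  have h4 : √((j : ℝ) + 1) - √(j : ℝ) ≤ 1 / √(j : ℝ) := by
    rw [le_div_iff₀ s1]
    nlinarith
  rw [h3, div_le_div_iff₀ (by positivity) (by positivity)]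
  have h5 : (√((j : ℝ) + 1) - √(j : ℝ)) * (j * √(j : ℝ)) ≤ 1 / √(j : ℝ) * (j * √(j : ℝ)) :=
    mul_le_mul_of_nonneg_right h4 (by positivity)
  have h6 : 1 / √(j : ℝ) * (j * √(j : ℝ)) = j := by field_simp
  rw [h6] at h5
  nlinarith

theorem ad_bd {i j : ℕ} (hi : 1 ≤ i) (h1 : i ≤ j) (h2 : j ≤ 3 * i) :
    yy i ^ 41 / 50000 ≤ aa j * dd j := by
  have hj' : (0 : ℝ) < j := by exact_mod_cast (hi.trans h1)
  have e1 := pow_ge hi h1 h2 41 6 (by norm_num)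
  have e3 : aa j * dd j = (j : ℝ) ^ (-((41 : ℕ) : ℝ) / 8) / 64 := by
    unfold aa dd ee
    have : (1 : ℝ) / (64 * j) = (j : ℝ) ^ (-1 : ℝ) / 64 := by
      rw [Real.rpow_neg_one]
      field_simp
    rw [this, mul_div_assoc', ← Real.rpow_add hj', ← Real.rpow_add hj']
    norm_num
  rw [e3]
  have hy : 0 ≤ yy i ^ 41 := pow_nonneg (yy_pos hi).le _
  norm_num at e1 ⊢
  linarith

theorem log_bd {i : ℕ} (hi : 1 ≤ i) : Real.log (i : ℝ) ≤ 8 / yy i := by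
  have h0 : (0 : ℝ) < i := by exact_mod_cast hi
  have hy := yy_pos hi
  have h1 : (i : ℝ) = (1 / yy i) ^ 8 := by
    have := yy8 hi
    field_simp
    linarith
  rw [h1, Real.log_pow]
  have h2 : Real.log (1 / yy i) ≤ 1 / yy i - 1 := Real.log_le_sub_one_of_pos (by positivity)
  have h3 : (8 : ℝ) / yy i = 8 * (1 / yy i) := by ring
  rw [h3]
  push_cast
  have : (0 : ℝ) < 1 / yy i := by positivity
  linarith

end StepL

end Pool.Agent.Helper6K9.EH
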