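import Pool.Agent.Helper6K9.EH.StepA

set_option autoImplicit false

/-!
# One cycle: the dynamical part
-/

namespace Pool.Agent.Helper6K9.EH

open Set Filter Topology Pool.Agent.Helper6K9.ES
open scoped ContDiff

theorem Ctl.mono {e : Env} {F : Fam} {ε a b t₀ t₁ a' b' : ℝ} (h : Ctl e F ε a b t₀ t₁)
    (ha : a ≤ a') (hb : b' ≤ b) : Ctl e F ε a' b' t₀ t₁ := by
  have hs : Icc a' b' ⊆ Icc a b := Icc_subset_Icc ha hb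
  exact ⟨fun s hs' => h.dif s (hs hs'), fun s hs' => h.bd s (hs hs'),
    fun s h1 s' h2 => h.lip s (hs h1) s' (hs h2), fun t ht =>
    ⟨(h.cts t ht).1.mono hs, (h.cts t ht).2.1.mono hs, (h.cts t ht).2.2.1.mono hs,
      (h.cts t ht).2.2.2.mono hs⟩⟩

namespace StepL

/-- the numerical conditions in the block `i` -/
structure Num (e : Env) (H : ℝ → ℝ) (m : ℕ) (C₁ r₀ r₁ C₃ C₇ c₇ C₈ c₈ c₉ V₀ ε : ℝ) (i n : ℕ) :
    Prop where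
  eps : 0 < ε
  i4 : 4 ≤ i
  hV : V₀ ≤ (i : ℝ) ^ 2 - 3
  n0 : C₃ * n * ε ^ 3 ≤ 1 / 4
  n1 : ∀ j, j = 2 * i ∨ j = 2 * i + 1 → C₃ * n * ε ^ 3 ≤ c₉ / 2 * (aa j * dd j)
  n2 : 2 * C₈ / ee (2 * i) * (2 * (C₁ * ε)) ≤ 1 / 4
  n3 : C₃ * (√ε * (2 * C₈ / ee (2 * i)) + ε) ≤ 1 / 2
  n3' : ∀ j, j = 2 * i ∨ j = 2 * i + 1 →
    16 * (C₃ * (√ε * (2 * C₈ / ee (2 * i)) + ε)) ≤ c₈ * ee j
  n4 : C₃ * ε ≤ r₁ / 2
  n5 : ∀ j, j = 2 * i ∨ j = 2 * i + 1 →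
    ss (e.l * e.c) j / (2 * (e.l * e.c)) ≤ 1 / 4 ∧ 0 < tau j ∧ tau j ≤ 1 / 2 ∧
      0 < ss (e.l * e.c) j ∧ 0 < ee j
  n6 : 4 / e.l * (2 * C₈ / ee (2 * i) * (2 * (C₁ * ε))) +
    n * (2 * C₈ / ee (2 * i) * (2 * (C₁ * ε))) +
    (m + 1) * (2 * C₈ / ee (2 * i) * (2 * (C₁ * ε)) + C₃ * n * ε ^ 3) + C₃ * n * ε ≤ 1 / 200
  n6' : (2 * i + 3) * |tau (2 * i) - tau (2 * i + 1)| ≤ 1 / 200
  n7 : ∀ j, j = 2 * i ∨ j = 2 * i + 1 → C₁ * ε ≤ c₇ * (ee j * ss (e.l * e.c) j)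
  n8 : ∀ j, j = 2 * i ∨ j = 2 * i + 1 → C₇ * ss (e.l * e.c) j < H (m - 1) - 7 / 8 ∧
    C₇ * ss (e.l * e.c) j ≤ 1 / 8 ∧ 2 * e.l * (1 - H (m - 1)) + 2 * e.l * (C₇ * ss (e.l * e.c) j) +
    C₇ * (ee j * ss (e.l * e.c) j) ≤ r₀
  n9 : ∀ j, j = 2 * i ∨ j = 2 * i + 1 → ∀ i', i ≤ i' → C₈ / ee j ≤ 2 * C₈ / ee (2 * i')
  n10 : ∀ i', i ≤ i' → 0 < ee (2 * i')

/-- choice of the tube according to the phase -/
theorem phase (x : ℝ) : (∃ n : ℤ, x - n ∈ Icc (1 / 16 : ℝ) (9 / 16)) ∨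
    ∃ n : ℤ, x - 1 / 2 - n ∈ Icc (1 / 16 : ℝ) (9 / 16) := by
  have h1 := Int.floor_le x
  have h2 := Int.lt_floor_add_one x
  by_cases c1 : x - ⌊x⌋ < 1 / 16
  · right
    refine ⟨⌊x⌋ - 1, ?_⟩
    push_cast
    constructor <;> linarith
  · push Not at c1
    by_cases c2 : x - ⌊x⌋ ≤ 9 / 16
    · left
      exact ⟨⌊x⌋, c1, c2⟩
    · right
      push Not at c2
      refine ⟨⌊x⌋, ?_⟩
      constructor <;> linarith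

theorem LL0 (i : ℕ) : LL (2 * i) = (i : ℝ) ^ 2 ∧ hf (2 * i) = 0 := by
  unfold LL hf
  constructor
  · congr 2
    omega
  · have : 2 * i % 2 = 0 := by omega
    rw [this]
    simp

theorem LL1 (i : ℕ) : LL (2 * i + 1) = (i : ℝ) ^ 2 ∧ hf (2 * i + 1) = 1 / 2 := by
  unfold LL hf
  constructor
  · congr 2
    omega
  · have : (2 * i + 1) % 2 = 1 := by omega
    rw [this]
    simp

/-- the new good path -/
theorem finish {e : Env} {j₀ : ℕ} (he : EnvOK e j₀) {H : ℝ → ℝ} (hH : Hom e H) {m : ℕ}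
    {C₁ r₀ r₁ C₃ C₇ c₇ C₈ c₈ c₉ C V₀ ε : ℝ} {i n : ℕ}
    (hN : Num e H m C₁ r₀ r₁ C₃ C₇ c₇ C₈ c₈ c₉ V₀ ε i n) {j : ℕ} (hj : j = 2 * i ∨ j = 2 * i + 1)
    (hC7 : 1 ≤ C₇) (hm : 1 ≤ m)
    {b : ℝ} {G : ℤ → Fam} (hshf : Shf b G) {N : ℤ} {P : ℝ → ℝ → ℝ → Prop} {a₂ b₂ : ℝ} {T₁ : ℕ}
    (hctl : Ctl e (G N) ε a₂ b₂ T₁ (T₁ + 2 * m))
    (hthr : Thr e H m j (G N) a₂ b₂ T₁ C₇)
    (hcone : ∀ s ∈ Icc a₂ b₂, ∀ s' ∈ Icc a₂ b₂,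
        |ze e (G N) s (T₁ + 2 * m) - ze e (G N) s' (T₁ + 2 * m)| +
        e.l / 4 * |(G N).X s (T₁ + 2 * m) - (G N).X s' (T₁ + 2 * m)| +
        |(G N).J s (T₁ + 2 * m) - (G N).J s' (T₁ + 2 * m)| ≤
        C₈ / ee j * |xi e (G N) s (T₁ + 2 * m) - xi e (G N) s' (T₁ + 2 * m)|)
    {A B R : ℝ} (hA : a₂ ≤ A) (hAB : A ≤ B) (hB : B ≤ b₂) (hR : 0 ≤ R)
    (hfA : (G N).w A (T₁ + 2 * m) + e.l * ((G N).Y A (T₁ + 2 * m) - 1) ≤ -R)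
    (hfB : R ≤ (G N).w B (T₁ + 2 * m) + e.l * ((G N).Y B (T₁ + 2 * m) - 1)) :
    ∃ a₃ b₃ J' : ℝ, A ≤ a₃ ∧ a₃ ≤ b₃ ∧ b₃ ≤ B ∧
      (G N).w a₃ (T₁ + 2 * m) + e.l * ((G N).Y a₃ (T₁ + 2 * m) - 1) = -R ∧
      (G N).w b₃ (T₁ + 2 * m) + e.l * ((G N).Y b₃ (T₁ + 2 * m) - 1) = R ∧
      (∃ s ∈ Icc a₃ b₃, (G N).J s (T₁ + 2 * m) = J') ∧
      (∀ s ∈ Icc a₃ b₃, J' ≤ (G N).J s (T₁ + 2 * m)) ∧
      ∀ i', i ≤ i' → R = C₁ * (C / ((i' : ℝ) ^ 2 - 3)) → (i' : ℝ) ^ 2 ≤ J' →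
        J' < ((i' : ℝ) + 1) ^ 2 → (∀ s ∈ Icc a₃ b₃, P ((i' : ℝ) ^ 2 - 3) s (T₁ + 2 * m)) →
        Good e (G (N + 1)) P C C₁ r₀ (2 * C₈) i' a₃ b₃ (T₁ + 2 * m) J' := by
  have hl := he.hl
  set T₂ : ℝ := (T₁ : ℝ) + 2 * m with hT₂
  have hm' : (1 : ℝ) ≤ m := by exact_mod_cast hm
  have hmem : T₂ ∈ Icc (T₁ : ℝ) T₂ := ⟨by rw [hT₂]; linarith, le_rfl⟩
  obtain ⟨c1, c2, c3, c4⟩ := hctl.cts T₂ hmem
  have hsub : Icc A B ⊆ Icc a₂ b₂ := Icc_subset_Icc hA hB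
  have hcf : ContinuousOn (fun s => (G N).w s T₂ + e.l * ((G N).Y s T₂ - 1)) (Icc A B) :=
    (c4.mono hsub).add (continuousOn_const.mul ((c3.mono hsub).sub continuousOn_const))
  obtain ⟨a₃, b₃, h1, h2, h3, h4, h5, h6⟩ := cross hAB hcf (by linarith : -R ≤ R) hfA hfB
  have hsub3 : Icc a₃ b₃ ⊆ Icc a₂ b₂ := Icc_subset_Icc (hA.trans h1) (h3.trans hB)
  obtain ⟨s₀, hs₀, hmin⟩ := isCompact_Icc.exists_isMinOn ⟨a₃, ⟨le_rfl, h2⟩⟩ (c2.mono hsub3)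
  refine ⟨a₃, b₃, (G N).J s₀ T₂, h1, h2, h3, h4, h5, ⟨s₀, hs₀, rfl⟩, fun s hs => hmin hs, ?_⟩
  intro i' hi' hRi hlo hhi hP
  have hxi : ∀ s, xi e (G (N + 1)) s T₂ = (G N).w s T₂ + e.l * ((G N).Y s T₂ - 1) := by
    intro s
    unfold xi
    rw [(hshf N s T₂).2.1, (hshf N s T₂).2.2.2]
  have hze : ∀ s, ze e (G (N + 1)) s T₂ = (G N).w s T₂ - e.l * ((G N).Y s T₂ - 1) := by
    intro s
    unfold ze
    rw [(hshf N s T₂).2.1, (hshf N s T₂).2.2.2]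
  have hcast : ((T₁ + 2 * m : ℕ) : ℝ) = T₂ := by
    rw [hT₂]
    push_cast
    ring
  obtain ⟨k1, k2, k3⟩ := hN.n8 j hj
  obtain ⟨l1, l2, l3, l4, l5⟩ := hN.n5 j hj
  have hbz : ∀ s ∈ Icc a₂ b₂, |(G N).w s T₂ - e.l * ((G N).Y s T₂ - 1)| ≤ r₀ := by
    intro s hs
    obtain ⟨q1, q2⟩ := hthr.near s hs T₂ hmem
    have e1 : T₂ - T₁ - m - tau j = m - tau j := by rw [hT₂]; ring
    rw [e1] at q1
    have q3 : H (m - 1) ≤ H (m - tau j) := hH.mon.monotone (by linarith)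
    have q4 := (hH.mem (m - tau j)).2
    rw [abs_le] at q1
    have y1 : |(G N).Y s T₂ - 1| ≤ 1 / 8 := by
      rw [abs_le]
      constructor <;> linarith [q1.1, q1.2]
    have y2 : e.k ((G N).Y s T₂) = 1 - (G N).Y s T₂ := by
      have := he.prof.anti ((G N).Y s T₂ - 1)
      rw [sub_add_cancel, he.prof.lin _ y1] at this
      rw [this]
      ring
    rw [y2, abs_le] at q2
    rw [abs_le]
    have q5 : e.l * (1 - (G N).Y s T₂) ≤ e.l * (1 - H (m - 1) + C₇ * ss (e.l * e.c) j) :=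
      mul_le_mul_of_nonneg_left (by linarith [q1.1]) hl.le
    have q6 : -(e.l * (C₇ * ss (e.l * e.c) j)) ≤ e.l * (1 - (G N).Y s T₂) := by
      have : e.l * (-(C₇ * ss (e.l * e.c) j)) ≤ e.l * (1 - (G N).Y s T₂) :=
        mul_le_mul_of_nonneg_left (by linarith [q1.2]) hl.le
      linarith
    have q7 : 0 < e.l * (1 - H (m - 1)) := mul_pos hl (by linarith [(hH.mem (m - 1)).2])
    constructor <;> nlinarith [q2.1, q2.2]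
  constructor
  · rw [hcast]
    refine ⟨h2, ?_, ?_, ?_, ?_, ?_⟩
    · rw [hxi, ← hRi]
      exact h4
    · rw [hxi, ← hRi]
      exact h5
    · intro s hs
      rw [hxi, ← hRi, abs_le]
      exact h6 s hs
    · intro s hs
      rw [hze]
      exact hbz s (hsub3 hs)
    · intro s hs s' hs'
      have h7 := hcone s (hsub3 hs) s' (hsub3 hs')
      have d1 : ze e (G (N + 1)) s T₂ - ze e (G (N + 1)) s' T₂ =
          ze e (G N) s T₂ - ze e (G N) s' T₂ := by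
        rw [hze, hze]
        unfold ze
        ring
      have d2 : xi e (G (N + 1)) s T₂ - xi e (G (N + 1)) s' T₂ =
          xi e (G N) s T₂ - xi e (G N) s' T₂ := by
        rw [hxi, hxi]
        unfold xi
        ring
      have d3 : (G (N + 1)).X s T₂ - (G (N + 1)).X s' T₂ = (G N).X s T₂ - (G N).X s' T₂ := by
        rw [(hshf N s T₂).1, (hshf N s' T₂).1]
        ring
      rw [d1, d2, d3, (hshf N s T₂).2.2.1, (hshf N s' T₂).2.2.1]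
      exact h7.trans (mul_le_mul_of_nonneg_right (hN.n9 j hj i' hi') (abs_nonneg _))
  · refine ⟨s₀, hs₀, ?_⟩
    rw [hcast, (hshf N s₀ T₂).2.2.1]
  · intro s hs
    rw [hcast, (hshf N s T₂).2.2.1]
    exact hmin hs
  · exact hlo
  · exact hhi
  · intro s hs
    rw [hcast]
    exact hP s hs

end StepL

end Pool.Agent.Helper6K9.EH
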