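import Pool.Agent.Helper6K9.EH.StepC

set_option autoImplicit false

/-!
# One cycle, with a bound for its duration
-/

namespace Pool.Agent.Helper6K9.EH

open Set Filter Topology Pool.Agent.Helper6K9.ES
open scoped ContDiff

namespace StepL

theorem core2 {e : Env} {j₀ : ℕ} (he : EnvOK e j₀) {H : ℝ → ℝ} (hH : Hom e H) {m : ℕ}
    {C₁ r₀ r₁ C₃ C₇ c₇ C₈ c₈ c₉ C V₀ ε : ℝ} {i n : ℕ} {R : ℝ}
    (hN : Num e H m C₁ r₀ r₁ C₃ C₇ c₇ C₈ c₈ c₉ V₀ ε i n) (hC : 1 ≤ C)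
    (hεi : C / ((i : ℝ) ^ 2 - 3) = ε)
    (hC1 : 1 ≤ C₁) (hC3 : 1 ≤ C₃) (hC7 : 1 ≤ C₇) (hC8 : 1 ≤ C₈) (hm : 1 ≤ m)
    (hr1 : 0 < r₁) (hR1 : r₁ ≤ R)
    (hmB : H (-m + 1) < r₁ / (8 * e.l))
    (hW : ∀ (F : Fam) (P : ℝ → ℝ → ℝ → Prop) (C V₀ k₂ V a b T K : ℝ), C / V = ε → V₀ ≤ V →
      1 ≤ k₂ → 0 ≤ T → AE e F P C V₀ k₂ a b → Box e F a b T (C₁ * ε) r₀ K → 0 ≤ K →
      K * ε ≤ 1 / 2 * ε + 2 * C₈ / ee (2 * i) * ε →
      (∀ s ∈ Icc a b, P V s T ∧ V + 2 ≤ F.J s T) →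
      ∃ a' b' : ℝ, a ≤ a' ∧ b' ≤ b ∧ Box e F a' b' (T + n) R (C₃ * ε) (C₃ * (√ε * K + ε)) ∧
        ∀ s ∈ Icc a' b', |F.X s (T + n) - F.X s T - n * F.J s T| ≤ C₃ * n * ε ∧
          ∀ t ∈ Icc T (T + n), |F.J s t - F.J s T| ≤ C₃ * n * ε ^ 3 ∧ P V s t)
    (hLA : ∀ j, j = 2 * i ∨ j = 2 * i + 1 → ∀ (F : Fam) (a b : ℝ) (T : ℕ),
      Ent e H m j F a b T ε C₃ → Thr e H m j F a b T C₇ ∧
      F.w a (T + 2 * m) + e.l * (F.Y a (T + 2 * m) - 1) ≤ -(c₇ * (ee j * ss (e.l * e.c) j)) ∧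
      c₇ * (ee j * ss (e.l * e.c) j) ≤ F.w b (T + 2 * m) + e.l * (F.Y b (T + 2 * m) - 1))
    (hLB : ∀ j, j = 2 * i ∨ j = 2 * i + 1 → ∀ (F : Fam) (a b : ℝ) (T : ℕ) (K₁ : ℝ),
      Ent e H m j F a b T ε C₃ → Thr e H m j F a b T C₇ →
      0 ≤ K₁ → K₁ ≤ c₈ * ee j →
      (∀ s ∈ Icc a b, ∀ s' ∈ Icc a b, |ze e F s T - ze e F s' T| + |F.X s T - F.X s' T| +
        |F.J s T - F.J s' T| ≤ K₁ * |F.Y s T - F.Y s' T|) →
      ∀ s ∈ Icc a b, ∀ s' ∈ Icc a b,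
        |ze e F s (T + 2 * m) - ze e F s' (T + 2 * m)| +
        e.l / 4 * |F.X s (T + 2 * m) - F.X s' (T + 2 * m)| +
        |F.J s (T + 2 * m) - F.J s' (T + 2 * m)| ≤
        C₈ / ee j * |xi e F s (T + 2 * m) - xi e F s' (T + 2 * m)|)
    (hLC : ∀ j, j = 2 * i ∨ j = 2 * i + 1 → ∀ (F : Fam) (a b : ℝ) (T : ℕ),
      Ent e H m j F a b T ε C₃ → Thr e H m j F a b T C₇ →
      (∀ s ∈ Icc a b, |F.J s T - LL j| ≤ j + 3 ∧ ∃ n : ℤ,
        F.X s T + (F.J s T - LL j) * (m + tau j) - hf j - n ∈ Icc (1 / 24 : ℝ) (5 / 8 - 1 / 24)) →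
      ∀ s ∈ Icc a b, F.J s T + c₉ * (aa j * dd j) ≤ F.J s (T + 2 * m) ∧
        ∀ t ∈ Icc (T : ℝ) (T + 2 * m), |F.J s t - F.J s T| ≤ 1 ∧ |F.w s t| ≤ 1)
    {b : ℝ} {G : ℤ → Fam} {P : ℝ → ℝ → ℝ → Prop} {a c : ℝ} {T : ℕ} {N : ℤ} {J : ℝ}
    (hshf : Shf b G) (hAE : ∀ N, AE e (G N) P C V₀ (2 * m) a c)
    (hg : Good e (G N) P C C₁ r₀ (2 * C₈) i a c T J) :
    ∃ (a' c' : ℝ) (T' i' : ℕ) (J' : ℝ), a ≤ a' ∧ c' ≤ c ∧ T < T' ∧ T' = T + n + 2 * m ∧ i ≤ i' ∧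
      i' ≤ i + 1 ∧ J + min (c₉ / 2 * (aa (2 * i) * dd (2 * i))) (c₉ / 2 * (aa (2 * i + 1) * dd (2 * i + 1))) ≤ J' ∧
      Good e (G (N + 1)) P C C₁ r₀ (2 * C₈) i' a' c' T' J' ∧
      ∀ s ∈ Icc a' c', ∀ t ∈ Icc (T : ℝ) T', P ((i : ℝ) ^ 2 - 3) s t := by
  have hl := he.hl
  have hm' : (1 : ℝ) ≤ m := by exact_mod_cast hm
  have hε := hN.eps
  have hi4 : (4 : ℝ) ≤ i := by exact_mod_cast hN.i4
  have hii : (i : ℝ) ^ 2 - 3 ≤ ((i : ℝ) + 1) ^ 2 - 3 := by ring_nf; linarith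
  have hii2 : ((i : ℝ) + 1) ^ 2 + 2 ≤ ((i : ℝ) + 1 + 1) ^ 2 := by ring_nf; linarith
  set F := G N with hF
  set V : ℝ := (i : ℝ) ^ 2 - 3 with hV
  have hV0 : 0 < V := by rw [hV]; nlinarith
  set K₀ : ℝ := 2 * C₈ / ee (2 * i) with hK₀
  have hee : 0 < ee (2 * i) := (hN.n5 _ (Or.inl rfl)).2.2.2.2
  have hK₀p : 0 ≤ K₀ := by positivity
  set D : ℝ := K₀ * (2 * (C₁ * ε)) with hD
  have hD0 : 0 ≤ D := by positivity
  -- the old path
  have hbox : Box e F a c T (C₁ * ε) r₀ K₀ := by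
    have := hg.box
    rw [hεi] at this
    exact this
  have hac := hbox.le
  have haI : a ∈ Icc a c := ⟨le_rfl, hac⟩
  have hcone : ∀ s ∈ Icc a c, |F.X s T - F.X a T| ≤ 4 / e.l * D ∧ |F.J s T - F.J a T| ≤ D := by
    intro s hs
    have h1 := hbox.cone s hs a haI
    have h2 : |xi e F s T - xi e F a T| ≤ 2 * (C₁ * ε) := by
      have h3 := abs_le.1 (hbox.bx s hs)
      have h4 := abs_le.1 (hbox.bx a haI)
      rw [abs_le]
      constructor <;> linarith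
    have h3 : K₀ * |xi e F s T - xi e F a T| ≤ D := mul_le_mul_of_nonneg_left h2 hK₀p
    have h4 : 0 ≤ |ze e F s T - ze e F a T| := abs_nonneg _
    have h5 : 0 ≤ |F.J s T - F.J a T| := abs_nonneg _
    have h6 : 0 ≤ e.l / 4 * |F.X s T - F.X a T| := by positivity
    refine ⟨?_, by linarith⟩
    have h7 : e.l / 4 * |F.X s T - F.X a T| ≤ D := by linarith
    have h8 : |F.X s T - F.X a T| = 4 / e.l * (e.l / 4 * |F.X s T - F.X a T|) := by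
      field_simp
    rw [h8]
    exact mul_le_mul_of_nonneg_left h7 (by positivity)
  have hJlo : ∀ s ∈ Icc a c, J ≤ F.J s T := hg.jm
  have hJhi : ∀ s ∈ Icc a c, F.J s T ≤ J + 2 * D := by
    intro s hs
    obtain ⟨s₁, hs₁, h1⟩ := hg.ja
    have h2 := (abs_le.1 (hcone s hs).2).2
    have h3 := (abs_le.1 (hcone s₁ hs₁).2).1
    linarith
  have hD4 : D ≤ 1 / 4 := hN.n2
  have hlo := hg.lo
  have hhi := hg.hi
  -- waiting
  obtain ⟨a₁, b₁, ha₁, hb₁, hbox₁, hw₁⟩ := hW F P C V₀ (2 * m) V a c T K₀ hεi hN.hV (by linarith)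
    (Nat.cast_nonneg _) (hAE N) hbox hK₀p (by nlinarith) (fun s hs =>
      ⟨hg.vel s hs, by have := hJlo s hs; rw [hV]; linarith⟩)
  have hle₁ := hbox₁.le
  set T₁ : ℕ := T + n with hT₁
  have hT₁c : (T₁ : ℝ) = T + n := by rw [hT₁]; push_cast; ring
  have hn0 : (0 : ℝ) ≤ n := Nat.cast_nonneg _
  have hT1m : (T₁ : ℝ) ∈ Icc (T : ℝ) (T + n) := ⟨by rw [hT₁c]; linarith, hT₁c.le⟩
  rw [← hT₁c] at hbox₁ hw₁
  have hsub₁ : Icc a₁ b₁ ⊆ Icc a c := Icc_subset_Icc ha₁ hb₁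
  have hT1m' : (T₁ : ℝ) ∈ Icc (T : ℝ) T₁ := ⟨hT1m.1, le_rfl⟩
  have hAE₁ := hAE N V T₁ a₁ b₁ hN.hV (Nat.cast_nonneg _) ha₁ hle₁ hb₁
    (fun s hs => ((hw₁ s hs).2 _ hT1m').2)
  rw [hεi] at hAE₁
  obtain ⟨hctl₁, hpers⟩ := hAE₁
  -- drift of J
  set dJ : ℝ := C₃ * n * ε ^ 3 with hdJ
  have hdJ0 : 0 ≤ dJ := by positivity
  have hdJ4 : dJ ≤ 1 / 4 := hN.n0
  have hJ₁ : ∀ s ∈ Icc a₁ b₁, |F.J s T₁ - F.J s T| ≤ dJ := fun s hs =>
    ((hw₁ s hs).2 _ hT1m').1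
  -- the choice of j
  have hKn : C₃ * (√ε * K₀ + ε) ≤ 1 / 2 := hN.n3
  set Kn : ℝ := C₃ * (√ε * K₀ + ε) with hKnd
  have hKn0 : 0 ≤ Kn := by positivity
  set xa := F.X a T with hxa
  set Ja := F.J a T with hJa
  have hJa1 : (i : ℝ) ^ 2 ≤ Ja := hlo.trans (hJlo a haI)
  have hJa2 : Ja ≤ ((i : ℝ) + 1) ^ 2 + 1 / 2 := by have := hJhi a haI; linarith
  obtain ⟨j, hj, hjph⟩ : ∃ j, (j = 2 * i ∨ j = 2 * i + 1) ∧ ∃ n' : ℤ,
      xa + n * Ja + (Ja - LL j) * (m + tau j) - hf j - n' ∈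
        Icc (1 / 16 - 1 / 200 : ℝ) (9 / 16 + 1 / 200) := by
    rcases phase (xa + n * Ja + (Ja - (i : ℝ) ^ 2) * (m + tau (2 * i))) with ⟨n', h1, h2⟩ | ⟨n', h1, h2⟩
    · refine ⟨2 * i, Or.inl rfl, n', ?_⟩
      rw [(LL0 i).1, (LL0 i).2]
      constructor <;> linarith
    · refine ⟨2 * i + 1, Or.inr rfl, n', ?_⟩
      rw [(LL1 i).1, (LL1 i).2]
      have h3 : |(Ja - (i : ℝ) ^ 2) * (tau (2 * i) - tau (2 * i + 1))| ≤ 1 / 200 := by
        rw [abs_mul]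
        refine le_trans ?_ hN.n6'
        refine mul_le_mul_of_nonneg_right ?_ (abs_nonneg _)
        rw [abs_of_nonneg (by linarith)]
        nlinarith
      rw [abs_le] at h3
      constructor <;> nlinarith [h3.1, h3.2]
  obtain ⟨p1, p2, p3, p4, p5⟩ := hN.n5 j hj
  have hu : 0 < e.l * e.c := mul_pos hl he.prof.cpos
  -- restriction of the positions
  have hT1mem : (T₁ : ℝ) ∈ Icc (T₁ : ℝ) (T₁ + 2 * m) := ⟨le_rfl, by linarith⟩
  have hYc : ContinuousOn (fun s => F.Y s T₁) (Icc a₁ b₁) := (hctl₁.cts T₁ hT1mem).2.2.1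
  have hp0 : 0 < ss (e.l * e.c) j / (2 * (e.l * e.c)) := by positivity
  have hq1 : H (-m - tau j + ss (e.l * e.c) j / (2 * (e.l * e.c))) < r₁ / (8 * e.l) :=
    lt_of_le_of_lt (hH.mon.monotone (by linarith)) hmB
  have hYeq : ∀ s t, 2 * e.l * F.Y s t = xi e F s t - ze e F s t := by
    intro s t
    unfold xi ze
    ring
  have hn4 := hN.n4
  have hYa : F.Y a₁ T₁ ≤ H (-m - tau j - ss (e.l * e.c) j / (2 * (e.l * e.c))) := by
    refine le_trans ?_ (hH.mem _).1.le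
    have h1 := hYeq a₁ T₁
    rw [hbox₁.left] at h1
    have h2 := (abs_le.1 (hbox₁.bz a₁ ⟨le_rfl, hle₁⟩)).1
    by_contra h3
    push Not at h3
    have : 0 < 2 * e.l * F.Y a₁ T₁ := by positivity
    linarith
  have hYb : H (-m - tau j + ss (e.l * e.c) j / (2 * (e.l * e.c))) ≤ F.Y b₁ T₁ := by
    refine hq1.le.trans ?_
    have h1 := hYeq b₁ T₁
    rw [hbox₁.right] at h1
    have h2 := (abs_le.1 (hbox₁.bz b₁ ⟨hle₁, le_rfl⟩)).2
    rw [div_le_iff₀ (by positivity)]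
    nlinarith
  obtain ⟨a₂, b₂, h1, h2, h3, h4, h5, h6⟩ := cross hle₁ hYc
    (hH.mon.monotone (by linarith)) hYa hYb
  have hsub₂ : Icc a₂ b₂ ⊆ Icc a₁ b₁ := Icc_subset_Icc h1 h3
  have hctl₂ : Ctl e F ε a₂ b₂ T₁ (T₁ + 2 * m) := hctl₁.mono h1 h3
  have hEnt : Ent e H m j F a₂ b₂ T₁ ε C₃ :=
    ⟨h2, hctl₂, h4, h5, fun s hs => ⟨(show F.Y a₂ T₁ = _ from h4).le.trans (h6 s hs).1,
      (h6 s hs).2.trans (show F.Y b₂ T₁ = _ from h5).ge⟩, fun s hs => hbox₁.bz s (hsub₂ hs)⟩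
  obtain ⟨hThr, hendA, hendB⟩ := hLA j hj F a₂ b₂ T₁ hEnt
  -- the cone
  have hcone₂ := hLB j hj F a₂ b₂ T₁ (16 * Kn) hEnt hThr (by positivity) (hN.n3' j hj) (by
    intro s hs s' hs'
    have h7 := hbox₁.cone s (hsub₂ hs) s' (hsub₂ hs')
    have e1 : xi e F s T₁ - xi e F s' T₁ =
        2 * e.l * (F.Y s T₁ - F.Y s' T₁) + (ze e F s T₁ - ze e F s' T₁) := by
      unfold xi ze
      ring
    have e2 : |xi e F s T₁ - xi e F s' T₁| ≤ 2 * e.l * |F.Y s T₁ - F.Y s' T₁| +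
        |ze e F s T₁ - ze e F s' T₁| := by
      rw [e1]
      refine (abs_add_le _ _).trans ?_
      rw [abs_mul, abs_of_pos (by positivity : (0 : ℝ) < 2 * e.l)]
    set dx := |F.X s T₁ - F.X s' T₁| with hdx
    set dj := |F.J s T₁ - F.J s' T₁| with hdj
    set dz := |ze e F s T₁ - ze e F s' T₁| with hdz
    set dy := |F.Y s T₁ - F.Y s' T₁| with hdy
    set dxi := |xi e F s T₁ - xi e F s' T₁| with hdxi
    have n1 : 0 ≤ dx := abs_nonneg _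
    have n2 : 0 ≤ dj := abs_nonneg _
    have n3 : 0 ≤ dz := abs_nonneg _
    have n4 : 0 ≤ dy := abs_nonneg _
    have n5 : 0 ≤ dxi := abs_nonneg _
    have n6 : 0 ≤ e.l / 4 * dx := by positivity
    have e3 : dz ≤ 1 / 2 * dxi := by
      have : Kn * dxi ≤ 1 / 2 * dxi := mul_le_mul_of_nonneg_right hKn n5
      linarith
    have e4 : dxi ≤ 4 * e.l * dy := by linarith
    have e5 : Kn * dxi ≤ Kn * (4 * e.l * dy) := mul_le_mul_of_nonneg_left e4 hKn0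
    have hl1 := he.hl1
    have e6 : e.l / 4 * (dz + dx + dj) ≤ Kn * (4 * e.l * dy) := by nlinarith
    have e7 : dz + dx + dj = 4 / e.l * (e.l / 4 * (dz + dx + dj)) := by field_simp
    rw [e7]
    refine (mul_le_mul_of_nonneg_left e6 (by positivity)).trans (le_of_eq ?_)
    field_simp
    ring)
  -- the kick
  have hkick := hLC j hj F a₂ b₂ T₁ hEnt hThr (by
    intro s hs
    have hs1 := hsub₂ hs
    have hs0 := hsub₁ hs1
    have k1 := abs_le.1 (hJ₁ s hs1)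
    have k2 := abs_le.1 (hcone s hs0).2
    have k3 := abs_le.1 (hcone s hs0).1
    have k4 := abs_le.1 (hw₁ s hs1).1
    have hLL : LL j = (i : ℝ) ^ 2 := by
      rcases hj with rfl | rfl
      · exact (LL0 i).1
      · exact (LL1 i).1
    have hji : (2 * i : ℝ) ≤ j := by
      rcases hj with rfl | rfl
      · push_cast; linarith
      · push_cast; linarith
    refine ⟨?_, ?_⟩
    · rw [hLL, abs_le]
      have := hJhi s hs0
      have := hJlo s hs0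
      constructor <;> nlinarith [k1.1, k1.2]
    · obtain ⟨n', hn'⟩ := hjph
      refine ⟨n', ?_⟩
      have e1 : F.X s T₁ + (F.J s T₁ - LL j) * (m + tau j) - hf j - n' =
          (xa + n * Ja + (Ja - LL j) * (m + tau j) - hf j - n') +
          ((F.X s T₁ - F.X s T - n * F.J s T) + (F.X s T - xa) + n * (F.J s T - Ja) +
          ((F.J s T₁ - F.J s T) + (F.J s T - Ja)) * (m + tau j)) := by ring
      have e2 : |(F.X s T₁ - F.X s T - n * F.J s T) + (F.X s T - xa) + n * (F.J s T - Ja) +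
          ((F.J s T₁ - F.J s T) + (F.J s T - Ja)) * (m + tau j)| ≤ 1 / 200 := by
        refine le_trans ?_ hN.n6
        have q1 : |n * (F.J s T - Ja)| ≤ n * D := by
          rw [abs_mul, abs_of_nonneg hn0]
          exact mul_le_mul_of_nonneg_left (hcone s hs0).2 hn0
        have q2 : |((F.J s T₁ - F.J s T) + (F.J s T - Ja)) * (m + tau j)| ≤
            (m + 1) * (D + dJ) := by
          rw [abs_mul, abs_of_nonneg (by positivity : (0 : ℝ) ≤ m + tau j), mul_comm]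
          refine mul_le_mul (by linarith) ?_ (abs_nonneg _) (by positivity)
          refine (abs_add_le _ _).trans ?_
          linarith [(hcone s hs0).2, hJ₁ s hs1]
        refine (abs_add_le _ _).trans ?_
        refine (add_le_add ((abs_add_le _ _).trans (add_le_add ((abs_add_le _ _).trans
          (add_le_add (hw₁ s hs1).1 (hcone s hs0).1)) q1)) q2).trans (le_of_eq ?_)
        ring
      rw [e1]
      rw [abs_le] at e2
      constructor <;> linarith [hn'.1, hn'.2, e2.1, e2.2])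
  -- the new path
  set T₂ : ℝ := (T₁ : ℝ) + 2 * m with hT₂
  have hT2c : ((T₁ + 2 * m : ℕ) : ℝ) = T₂ := by rw [hT₂]; push_cast; ring
  have hT2mem : T₂ ∈ Icc (T₁ : ℝ) T₂ := ⟨by rw [hT₂]; linarith, le_rfl⟩
  have hgain : ∀ s ∈ Icc a₂ b₂, J + c₉ / 2 * (aa j * dd j) ≤ F.J s T₂ ∧ F.J s T₂ ≤ J + 2 := by
    intro s hs
    have hs1 := hsub₂ hs
    have hs0 := hsub₁ hs1
    have k0 := hkick s hs
    have k1 := abs_le.1 (hJ₁ s hs1)
    have k2 := hJlo s hs0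
    have k3 := hJhi s hs0
    have k4 := abs_le.1 (k0.2 T₂ hT2mem).1
    have k5 : dJ ≤ c₉ / 2 * (aa j * dd j) := hN.n1 j hj
    constructor
    · linarith [k0.1, k1.1]
    · linarith [k4.2, k1.2]
  have hP2 : ∀ s ∈ Icc a₂ b₂, ∀ t ∈ Icc (T₁ : ℝ) T₂, ∀ V', V₀ ≤ V' → V' + 1 ≤ F.J s t → P V' s t :=
    fun s hs t ht V' hV' hJ' => hpers s (hsub₂ hs) t ht V' hV' hJ' ((hkick s hs).2 t ht).2
  have hallP : ∀ s ∈ Icc a₂ b₂, ∀ t ∈ Icc (T : ℝ) ((T₁ + 2 * m : ℕ) : ℝ),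
      P ((i : ℝ) ^ 2 - 3) s t := by
    intro s hs t ht
    rw [hT2c] at ht
    by_cases hc : t ≤ T₁
    · exact ((hw₁ s (hsub₂ hs)).2 t ⟨ht.1, hc⟩).2
    · push Not at hc
      refine hP2 s hs t ⟨hc.le, ht.2⟩ _ hN.hV ?_
      have k1 := abs_le.1 ((hkick s hs).2 t ⟨hc.le, ht.2⟩).1
      have k2 := abs_le.1 (hJ₁ s (hsub₂ hs))
      have k3 := hJlo s (hsub₁ (hsub₂ hs))
      linarith [k1.1, k2.1]
  have hR' : ∀ i' : ℕ, i ≤ i' → 0 ≤ C₁ * (C / ((i' : ℝ) ^ 2 - 3)) ∧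
      C₁ * (C / ((i' : ℝ) ^ 2 - 3)) ≤ C₁ * ε := by
    intro i' hi'
    have h7 : (i : ℝ) ≤ i' := by exact_mod_cast hi'
    have h8 : 0 < (i' : ℝ) ^ 2 - 3 := by nlinarith
    refine ⟨by positivity, ?_⟩
    rw [← hεi]
    refine mul_le_mul_of_nonneg_left ?_ (by linarith)
    refine div_le_div_of_nonneg_left (by linarith) hV0 ?_
    nlinarith
  obtain ⟨a₃, b₃, J₃, u1, u2, u3, u4, u5, ⟨s₃, hs₃, u6⟩, u7, u8⟩ :=
    finish (C := C) he hH hN hj hC7 hm hshf (P := P) hctl₂ hThr hcone₂ le_rfl h2 le_rfl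
      (hR' i le_rfl).1 (hendA.trans (neg_le_neg ((hR' i le_rfl).2.trans (hN.n7 j hj))))
      (((hR' i le_rfl).2.trans (hN.n7 j hj)).trans hendB)
  have hsub₃ : Icc a₃ b₃ ⊆ Icc a₂ b₂ := Icc_subset_Icc u1 u3
  have hmin : min (c₉ / 2 * (aa (2 * i) * dd (2 * i)))
      (c₉ / 2 * (aa (2 * i + 1) * dd (2 * i + 1))) ≤ c₉ / 2 * (aa j * dd j) := by
    rcases hj with rfl | rfl
    · exact min_le_left _ _
    · exact min_le_right _ _
  have hTlt : T < T₁ + 2 * m := by omega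
  have hJ₃ := hgain s₃ (hsub₃ hs₃)
  have u6' : F.J s₃ T₂ = J₃ := u6
  rw [u6'] at hJ₃
  by_cases hcase : J₃ < ((i : ℝ) + 1) ^ 2
  · refine ⟨a₃, b₃, T₁ + 2 * m, i, J₃, (ha₁.trans h1).trans u1, (u3.trans h3).trans hb₁, hTlt, rfl,
      le_rfl, by omega, by linarith [hJ₃.1], ?_, fun s hs => hallP s (hsub₃ hs)⟩
    refine u8 i le_rfl rfl ?_ hcase ?_
    · have : 0 ≤ c₉ / 2 * (aa j * dd j) := hdJ0.trans (hN.n1 j hj)
      linarith [hJ₃.1]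
    · intro s hs
      exact hallP s (hsub₃ hs) T₂ ⟨by rw [hT₂, hT₁c]; linarith, hT2c.ge⟩
  · push Not at hcase
    obtain ⟨a₄, b₄, J₄, v1, v2, v3, v4, v5, ⟨s₄, hs₄, v6⟩, v7, v8⟩ :=
      finish (C := C) he hH hN hj hC7 hm hshf (P := P) hctl₂ hThr hcone₂ u1 u2 u3
        (hR' (i + 1) (by omega)).1 (by
          refine u4.le.trans (neg_le_neg ?_)
          refine mul_le_mul_of_nonneg_left ?_ (by linarith)
          refine div_le_div_of_nonneg_left (by linarith) hV0 ?_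
          push_cast
          exact hii) (by
          refine le_trans ?_ u5.ge
          refine mul_le_mul_of_nonneg_left ?_ (by linarith)
          refine div_le_div_of_nonneg_left (by linarith) hV0 ?_
          push_cast
          exact hii)
    have hsub₄ : Icc a₄ b₄ ⊆ Icc a₃ b₃ := Icc_subset_Icc v1 v3
    have v6' : F.J s₄ T₂ = J₄ := v6
    have hJ₄ := hgain s₄ (hsub₃ (hsub₄ hs₄))
    have hJ₃₄ : J₃ ≤ J₄ := by rw [← v6']; exact u7 s₄ (hsub₄ hs₄)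
    rw [v6'] at hJ₄
    have hlo4 : (((i + 1 : ℕ) : ℝ)) ^ 2 ≤ J₄ := by push_cast; linarith
    refine ⟨a₄, b₄, T₁ + 2 * m, i + 1, J₄, ((ha₁.trans h1).trans u1).trans v1,
      ((v3.trans u3).trans h3).trans hb₁, hTlt, rfl, by omega, le_rfl,
      by linarith [hJ₄.1], ?_, fun s hs => hallP s (hsub₃ (hsub₄ hs))⟩
    refine v8 (i + 1) (by omega) rfl hlo4 ?_ ?_
    · push_cast
      linarith [hJ₄.2]
    · intro s hs
      have hs2 := hsub₃ (hsub₄ hs)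
      refine hP2 s hs2 T₂ hT2mem _ ?_ ?_
      · refine hN.hV.trans ?_
        push_cast
        exact hii
      · have := v7 s hs
        have v7' : J₄ ≤ F.J s T₂ := this
        linarith

end StepL

end Pool.Agent.Helper6K9.EH
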