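import Pool.Agent.Helper6K9.EH.Defs

set_option autoImplicit false

/-!
# Orbits which escape to infinity on flat tori of dimension two: the statements of the parts
-/

namespace Pool.Agent.Helper6K9.EH

open Set Filter Topology Pool.Agent.Helper6K9.ES
open scoped ContDiff

/-- the profile -/
def S_PROF : Prop := ∃ (k : ℝ → ℝ) (c : ℝ), Prof k c

/-- the homoclinic solution -/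
def S_HOM : Prop := ∀ (e : Env) (j₀ : ℕ), EnvOK e j₀ → ∃ H : ℝ → ℝ, Hom e H

/-- the tube potentials -/
def S_POT : Prop := ∀ (b u ε : ℝ), 0 < u → u ≤ 1 → 0 < ε →
  ∃ (j₀ : ℕ) (K : E 1 → ℝ) (χ ps cb : ℝ → ℝ), 1 ≤ j₀ ∧ Shp u χ ps cb ∧
    ContDiff ℝ 2 K ∧ Per K ∧ Small K ε ∧
    (∀ x y t : ℝ, (|y| ≤ 1 / 4 ∨ |y - 1| ≤ 1 / 4) → dX 0 K (pt x y t) = 0 ∧ dX 1 K (pt x y t) = 0) ∧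
    ∀ j, j₀ ≤ j → ∀ x y t : ℝ, |y - 1 / 2| ≤ 1 / 4 → |eta u j y t| ≤ ss u j →
      dX 1 K (pt (x + b * y) y t) + b * dX 0 K (pt (x + b * y) y t) =
        ee j * (eta u j y t * χ y + eta u j y t ^ 2 / 2 * deriv χ y) ∧
      dX 0 K (pt (x + b * y) y t) =
        aa j * cb ((t - tau j) / dd j) * ps (x - LL j * t - hf j)

/-- the environment of the tube potentials -/
def S_ENV : Prop := ∀ (α γ b l c : ℝ) (k χ ps cb : ℝ → ℝ) (K : E 1 → ℝ) (j₀ : ℕ),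
  0 < α → 0 < γ → 0 < l → l ≤ 1 / 2 → Prof k c → 1 ≤ j₀ → Shp (l * c) χ ps cb →
  ContDiff ℝ 2 K → Per K → Small K (1 / (4 * (1 + |b|) ^ 2)) →
  (∀ x y t : ℝ, (|y| ≤ 1 / 4 ∨ |y - 1| ≤ 1 / 4) → dX 0 K (pt x y t) = 0 ∧ dX 1 K (pt x y t) = 0) →
  (∀ j, j₀ ≤ j → ∀ x y t : ℝ, |y - 1 / 2| ≤ 1 / 4 → |eta (l * c) j y t| ≤ ss (l * c) j →
      dX 1 K (pt (x + b * y) y t) + b * dX 0 K (pt (x + b * y) y t) =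
        ee j * (eta (l * c) j y t * χ y + eta (l * c) j y t ^ 2 / 2 * deriv χ y) ∧
      dX 0 K (pt (x + b * y) y t) =
        aa j * cb ((t - tau j) / dd j) * ps (x - LL j * t - hf j)) →
  EnvOK (mkEnv α γ b l c k χ ps cb K) j₀

/-- one unit of time in the box near the hyperbolic equilibrium -/
def S_UNIT : Prop := ∀ (e : Env) (j₀ : ℕ), EnvOK e j₀ → ∃ r₀ C₁ C₂ ε₀ : ℝ,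
  0 < r₀ ∧ r₀ ≤ 1 / 2 ∧ r₀ ≤ e.l / 32 ∧ 1 ≤ C₁ ∧ 1 ≤ C₂ ∧ 0 < ε₀ ∧
  ∀ (F : Fam) (a b T ε R Z K : ℝ), 0 < ε → ε ≤ ε₀ → Ctl e F ε a b T (T + 1) →
    C₁ * ε ≤ R → R ≤ r₀ → Z ≤ r₀ → 0 ≤ K → K * ε ≤ ε₀ → Box e F a b T R Z K →
    (∃ a' b' : ℝ, a ≤ a' ∧ b' ≤ b ∧ Box e F a' b' (T + 1) (Real.exp (e.l / 2) * R)
      (Real.exp (-e.l) * Z + C₂ * ε) (Real.exp (-e.l / 4) * K + C₂ * ε)) ∧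
    ∀ s ∈ Icc a b, |F.X s (T + 1) - F.X s T - F.J s T| ≤ C₂ * ε ∧
      ∀ t ∈ Icc T (T + 1), |F.w s t| ≤ 1 ∧ |F.J s t - F.J s T| ≤ C₂ * ε ^ 3

/-- the waiting time in the box -/
def S_WAIT : Prop := ∀ (e : Env) (j₀ : ℕ), EnvOK e j₀ → ∃ r₀ r₁ C₁ C₃ ε₀ : ℝ,
  0 < r₁ ∧ r₁ ≤ r₀ ∧ r₀ ≤ 1 / 2 ∧ r₀ ≤ e.l / 32 ∧ 1 ≤ C₁ ∧ 1 ≤ C₃ ∧ 0 < ε₀ ∧
  ∀ ε : ℝ, 0 < ε → ε ≤ ε₀ → ∃ (n : ℕ) (R : ℝ), r₁ ≤ R ∧ R ≤ r₀ ∧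
    (n : ℝ) ≤ C₃ * Real.log (1 / ε) ∧
    ∀ (F : Fam) (P : ℝ → ℝ → ℝ → Prop) (C V₀ k₂ V a b T K : ℝ), C / V = ε → V₀ ≤ V → 1 ≤ k₂ →
      0 ≤ T → AE e F P C V₀ k₂ a b → Box e F a b T (C₁ * ε) r₀ K → 0 ≤ K → K * ε ≤ ε₀ →
      (∀ s ∈ Icc a b, P V s T ∧ V + 2 ≤ F.J s T) →
      ∃ a' b' : ℝ, a ≤ a' ∧ b' ≤ b ∧ Box e F a' b' (T + n) R (C₃ * ε) (C₃ * (√ε * K + ε)) ∧
        ∀ s ∈ Icc a' b', |F.X s (T + n) - F.X s T - n * F.J s T| ≤ C₃ * n * ε ∧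
          ∀ t ∈ Icc T (T + n), |F.J s t - F.J s T| ≤ C₃ * n * ε ^ 3 ∧ P V s t

/-- the loop: the path passes through the tube `j`, and its ends are driven to different sides of the
stable manifold -/
def S_LA : Prop := ∀ (e : Env) (j₀ : ℕ) (H : ℝ → ℝ), EnvOK e j₀ → Hom e H →
  ∀ (m : ℕ) (C C₁₀ : ℝ), 1 ≤ C → 1 ≤ C₁₀ → H (-m + 1) < 1 / 8 → 7 / 8 < H (m - 1) →
  ∃ (j₁ : ℕ) (C₇ c₇ : ℝ), j₀ ≤ j₁ ∧ 1 ≤ C₇ ∧ 0 < c₇ ∧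
    ∀ (j : ℕ) (F : Fam) (a b : ℝ) (T : ℕ) (ε : ℝ), j₁ ≤ j → 0 < ε → ε ≤ C₁₀ * (j : ℝ) ^ (-2 : ℝ) →
      Ent e H m j F a b T ε C → Thr e H m j F a b T C₇ ∧
      F.w a (T + 2 * m) + e.l * (F.Y a (T + 2 * m) - 1) ≤ -(c₇ * (ee j * ss (e.l * e.c) j)) ∧
      c₇ * (ee j * ss (e.l * e.c) j) ≤ F.w b (T + 2 * m) + e.l * (F.Y b (T + 2 * m) - 1)

/-- the loop: after the passage through the tube the path is a Lipschitz graph over the unstable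
coordinate -/
def S_LB : Prop := ∀ (e : Env) (j₀ : ℕ) (H : ℝ → ℝ), EnvOK e j₀ → Hom e H →
  ∀ m : ℕ, H (-m + 1) < 1 / 8 → 7 / 8 < H (m - 1) → ∃ (C₈ c₈ : ℝ), 1 ≤ C₈ ∧ 0 < c₈ ∧
  ∀ (C C₁₀ C₇ : ℝ), 1 ≤ C → 1 ≤ C₁₀ → 1 ≤ C₇ → ∃ j₁ : ℕ, j₀ ≤ j₁ ∧
    ∀ (j : ℕ) (F : Fam) (a b : ℝ) (T : ℕ) (ε K₁ : ℝ), j₁ ≤ j → 0 < ε →
      ε ≤ C₁₀ * (j : ℝ) ^ (-2 : ℝ) → Ent e H m j F a b T ε C → Thr e H m j F a b T C₇ →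
      0 ≤ K₁ → K₁ ≤ c₈ * ee j →
      (∀ s ∈ Icc a b, ∀ s' ∈ Icc a b, |ze e F s T - ze e F s' T| + |F.X s T - F.X s' T| +
        |F.J s T - F.J s' T| ≤ K₁ * |F.Y s T - F.Y s' T|) →
      ∀ s ∈ Icc a b, ∀ s' ∈ Icc a b,
        |ze e F s (T + 2 * m) - ze e F s' (T + 2 * m)| +
        e.l / 4 * |F.X s (T + 2 * m) - F.X s' (T + 2 * m)| +
        |F.J s (T + 2 * m) - F.J s' (T + 2 * m)| ≤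
        C₈ / ee j * |xi e F s (T + 2 * m) - xi e F s' (T + 2 * m)|

/-- the loop: the kick -/
def S_LC : Prop := ∀ (e : Env) (j₀ : ℕ) (H : ℝ → ℝ), EnvOK e j₀ → Hom e H →
  ∀ (m : ℕ) (C C₁₀ C₇ : ℝ), 1 ≤ C → 1 ≤ C₁₀ → 1 ≤ C₇ → H (-m + 1) < 1 / 8 → 7 / 8 < H (m - 1) →
  ∃ (j₁ : ℕ) (c₉ : ℝ), j₀ ≤ j₁ ∧ 0 < c₉ ∧
    ∀ (j : ℕ) (F : Fam) (a b : ℝ) (T : ℕ) (ε : ℝ), j₁ ≤ j → 0 < ε → ε ≤ C₁₀ * (j : ℝ) ^ (-2 : ℝ) →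
      Ent e H m j F a b T ε C → Thr e H m j F a b T C₇ →
      (∀ s ∈ Icc a b, |F.J s T - LL j| ≤ j + 3 ∧ ∃ n : ℤ,
        F.X s T + (F.J s T - LL j) * (m + tau j) - hf j - n ∈ Icc (1 / 24 : ℝ) (5 / 8 - 1 / 24)) →
      ∀ s ∈ Icc a b, F.J s T + c₉ * (aa j * dd j) ≤ F.J s (T + 2 * m) ∧
        ∀ t ∈ Icc (T : ℝ) (T + 2 * m), |F.J s t - F.J s T| ≤ 1 ∧ |F.w s t| ≤ 1

/-- one cycle: waiting, choice of the tube according to the phase, loop, restriction of the path -/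
def S_STEP : Prop := ∀ (e : Env) (j₀ : ℕ) (H : ℝ → ℝ), EnvOK e j₀ → Hom e H →
  ∃ (m : ℕ) (C₁ r₀ K₀ : ℝ), 1 ≤ m ∧ 1 ≤ C₁ ∧ 0 < r₀ ∧ r₀ ≤ 1 / 2 ∧ 1 ≤ K₀ ∧
  ∀ C V₀ : ℝ, 1 ≤ C → 1 ≤ V₀ → ∃ i₁ : ℕ, 2 ≤ i₁ ∧ ∀ i : ℕ, i₁ ≤ i → ∃ κ : ℝ, 0 < κ ∧
    ∀ (b : ℝ) (G : ℤ → Fam) (P : ℝ → ℝ → ℝ → Prop) (a c : ℝ) (T : ℕ) (N : ℤ) (J : ℝ),
      Shf b G → (∀ N, AE e (G N) P C V₀ (2 * m) a c) →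
      Good e (G N) P C C₁ r₀ K₀ i a c T J →
      ∃ (a' c' : ℝ) (T' i' : ℕ) (J' : ℝ), a ≤ a' ∧ c' ≤ c ∧ T < T' ∧ i ≤ i' ∧ J + κ ≤ J' ∧
        Good e (G (N + 1)) P C C₁ r₀ K₀ i' a' c' T' J' ∧
        ∀ s ∈ Icc a' c', ∀ t ∈ Icc (T : ℝ) T', P ((i : ℝ) ^ 2 - 3) s t

/-- infinite iteration -/
def S_ITER : Prop := ∀ (Q : ℕ → ℤ → ℝ → ℝ → ℕ → ℝ → Prop) (P : ℝ → ℝ → ℝ → Prop) (i₁ : ℕ),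
  (∀ i : ℕ, i₁ ≤ i → ∃ κ : ℝ, 0 < κ ∧ ∀ (N : ℤ) (a c : ℝ) (T : ℕ) (J : ℝ), Q i N a c T J →
    a ≤ c ∧ (i : ℝ) ^ 2 ≤ J ∧ J < ((i : ℝ) + 1) ^ 2 ∧ ∃ (a' c' : ℝ) (T' i' : ℕ) (J' : ℝ),
      a ≤ a' ∧ c' ≤ c ∧ T < T' ∧ i ≤ i' ∧ J + κ ≤ J' ∧ Q i' (N + 1) a' c' T' J' ∧
      ∀ s ∈ Icc a' c', ∀ t ∈ Icc (T : ℝ) T', P ((i : ℝ) ^ 2 - 3) s t) →
  ∀ (i : ℕ) (N : ℤ) (a c : ℝ) (T : ℕ) (J : ℝ), i₁ ≤ i → Q i N a c T J →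
    ∃ s ∈ Icc a c, ∀ V : ℝ, ∃ T₁ : ℝ, ∀ t : ℝ, T₁ ≤ t → ∃ V' : ℝ, V ≤ V' ∧ P V' s t

/-- families of solutions -/
def S_FLOW : Prop := ∀ (α γ b : ℝ) (f : E 1 → ℝ), ContDiff ℝ 2 f → Per f →
  ∀ i₀ i₁ iv iq : ℝ → ℝ, Continuous i₀ → Continuous i₁ → Continuous iv → Continuous iq →
  ∃ p₀ p₁ v q : ℝ → ℝ → ℝ, (∀ s, Tr α γ b f (p₀ s) (p₁ s) (v s) (q s) ∧ p₀ s 0 = i₀ s ∧
    p₁ s 0 = i₁ s ∧ v s 0 = iv s ∧ q s 0 = iq s) ∧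
    ∀ t, Continuous (fun s => p₀ s t) ∧ Continuous (fun s => p₁ s t) ∧
      Continuous (fun s => v s t) ∧ Continuous (fun s => q s t)

/-- averaging: the adiabatic invariant up to the third order and the corrected slow velocity -/
def S_AVE : Prop := ∀ (α γ b l c : ℝ) (k : ℝ → ℝ) (F : E 1 → ℝ), 0 < α → 0 < γ → 0 < l → l ≤ 1 / 2 →
  Prof k c → Sm F → (∀ p, av F p = 0) →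
  ∃ Jf wf : ℝ → ℝ → E 1 → ℝ, (∃ C V₀ : ℝ, 1 ≤ C ∧ 1 ≤ V₀ ∧ NearId Jf wf C V₀) ∧
  ∀ k₂ : ℝ, 0 ≤ k₂ → ∃ C V₀ : ℝ, 1 ≤ C ∧ 1 ≤ V₀ ∧
    ∀ (K f : E 1 → ℝ) (χ ps cb : ℝ → ℝ), ContDiff ℝ 2 K → Per K → Small K 1 →
      (∀ p, dX 0 f p = dX 0 F p + dX 0 K p ∧
        dX 1 f p = dX 1 F p + l ^ 2 / γ * k (p.1 1) * deriv k (p.1 1) + dX 1 K p) →
      ∀ p₀ p₁ v q : ℝ → ℝ → ℝ, (∀ s, Tr α γ b f (p₀ s) (p₁ s) (v s) (q s)) →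
        (∀ t, Continuous (fun s => p₀ s t) ∧ Continuous (fun s => p₁ s t) ∧
          Continuous (fun s => v s t) ∧ Continuous (fun s => q s t)) →
        ∀ (N : ℤ) (a₁ a₂ : ℝ), AE (mkEnv α γ b l c k χ ps cb K) (mkFam b Jf wf p₀ p₁ v q N)
          (Pv v q) C V₀ k₂ a₁ a₂

/-- the initial path -/
def S_START : Prop := ∀ (e : Env) (j₀ : ℕ) (b C' V' C C₁ r₀ K₀ : ℝ) (Jf wf : ℝ → ℝ → E 1 → ℝ),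
  EnvOK e j₀ → 1 ≤ C' → 1 ≤ V' → NearId Jf wf C' V' → 1 ≤ C → 1 ≤ C₁ → 0 < r₀ → 1 ≤ K₀ →
  ∃ i₂ : ℕ, ∀ (i : ℕ) (p₀ p₁ v q : ℝ → ℝ → ℝ), i₂ ≤ i →
    (∀ s, p₀ s 0 = b * s ∧ p₁ s 0 = s ∧ v s 0 = (i : ℝ) ^ 2 + 1 ∧ q s 0 = e.l * s) →
    ∃ a c J : ℝ, -1 ≤ a ∧ c ≤ 1 ∧
      Good e (mkFam b Jf wf p₀ p₁ v q 0) (Pv v q) C C₁ r₀ K₀ i a c 0 J

/-- the theorem in adapted coordinates -/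
def S_CT1 : Prop := ∀ (A : Matrix (Fin (1 + 1)) (Fin (1 + 1)) ℝ) (h : E 1 → ℝ) (ε : ℝ), 0 < ε →
  A.PosDef → Sm h → (∀ p q : E 1, p.2 = q.2 → av h p = av h q) →
  ∃ (g : E 1 → ℝ) (γ : ℝ → Q 1), ContDiff ℝ 2 g ∧ Per g ∧ Small g ε ∧
    Sol A (fun p => h p + g p) γ univ ∧ Tendsto (deriv fun s => γ s 0) atTop atTop

/-- the theorem -/
def S_FIN1 : Prop := ∀ (A : Matrix (Fin (1 + 1)) (Fin (1 + 1)) ℝ) (f₀ : E 1 → ℝ) (ε : ℝ), 0 < ε →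
  A.PosDef → ContDiff ℝ 2 f₀ → Per f₀ →
  ∃ (f : E 1 → ℝ) (γ : ℝ → Q 1), ContDiff ℝ 2 f ∧ Per f ∧ Small (fun p => f p - f₀ p) ε ∧
    Sol A f γ univ ∧ ∀ V : ℝ, ∀ᶠ t : ℝ in atTop, ∃ i, V ≤ |deriv (fun s => γ s i) t|

/-- reduction to adapted coordinates -/
def S_RED1 : Prop := S_MOL → S_AVG → S_CT1 → S_FIN1

end Pool.Agent.Helper6K9.EH
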