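import Pool.Agent.Helper6K9.EH.Stm

set_option autoImplicit false

/-!
# Orbits which escape to infinity: one unit of time in the box
-/

namespace Pool.Agent.Helper6K9.EH.UnitL

open Set Filter Topology

/-- restriction of a path to a piece which crosses `[-r, r]` and stays in it -/
lemma path_cut {g : ℝ → ℝ} {a b r : ℝ} (hab : a ≤ b) (hg : ContinuousOn g (Icc a b)) (hr : 0 < r)
    (ha : g a ≤ -r) (hb : r ≤ g b) : ∃ a' b' : ℝ, a ≤ a' ∧ a' ≤ b' ∧ b' ≤ b ∧ g a' = -r ∧
      g b' = r ∧ ∀ s ∈ Icc a' b', |g s| ≤ r := by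
  have hS : IsCompact (Icc a b ∩ g ⁻¹' Ici r) :=
    isCompact_Icc.of_isClosed_subset
      (hg.preimage_isClosed_of_isClosed isClosed_Icc isClosed_Ici) inter_subset_left
  obtain ⟨b', ⟨hb1, hb2⟩, hb3⟩ := hS.exists_isLeast ⟨b, right_mem_Icc.2 hab, hb⟩
  have hgb' : g b' = r := by
    obtain ⟨s, hs1, hs2⟩ := intermediate_value_Icc hb1.1 (hg.mono (Icc_subset_Icc_right hb1.2))
      (show r ∈ Icc (g a) (g b') from ⟨by linarith, hb2⟩)
    have h1 : b' ≤ s := hb3 ⟨⟨hs1.1, hs1.2.trans hb1.2⟩, hs2.ge⟩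
    have h2 : s = b' := le_antisymm hs1.2 h1
    rw [← h2]
    exact hs2
  have hg' := hg.mono (Icc_subset_Icc_right hb1.2)
  have hS' : IsCompact (Icc a b' ∩ g ⁻¹' Iic (-r)) :=
    isCompact_Icc.of_isClosed_subset
      (hg'.preimage_isClosed_of_isClosed isClosed_Icc isClosed_Iic) inter_subset_left
  obtain ⟨a', ⟨ha1, ha2⟩, ha3⟩ := hS'.exists_isGreatest ⟨a, left_mem_Icc.2 hb1.1, ha⟩
  have hga' : g a' = -r := by
    obtain ⟨s, hs1, hs2⟩ := intermediate_value_Icc ha1.2 (hg'.mono (Icc_subset_Icc_left ha1.1))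
      (show -r ∈ Icc (g a') (g b') from ⟨ha2, by linarith⟩)
    have h1 : s ≤ a' := ha3 ⟨⟨ha1.1.trans hs1.1, hs1.2⟩, hs2.le⟩
    have h2 : s = a' := le_antisymm h1 hs1.1
    rw [← h2]
    exact hs2
  refine ⟨a', b', ha1.1, ha1.2, hb1.2, hga', hgb', fun s hs => abs_le.2 ⟨?_, ?_⟩⟩
  · rcases hs.1.eq_or_lt with h | h
    · rw [← h, hga']
    · by_contra hc
      push Not at hc
      exact absurd (ha3 ⟨⟨ha1.1.trans hs.1, hs.2⟩, hc.le⟩) (not_le.2 h)
  · rcases hs.2.eq_or_lt with h | h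
    · rw [h, hgb']
    · by_contra hc
      push Not at hc
      exact absurd (hb3 ⟨⟨ha1.1.trans hs.1, hs.2.trans hb1.2⟩, hc.le⟩) (not_le.2 h)

lemma mv1 {f f' : ℝ → ℝ} {T C : ℝ} (hf : ∀ t ∈ Icc T (T + 1), HasDerivAt f (f' t) t)
    (hb : ∀ t ∈ Icc T (T + 1), |f' t| ≤ C) : ∀ t ∈ Icc T (T + 1), |f t - f T| ≤ C := by
  intro t ht
  have h := (convex_Icc T (T + 1)).norm_image_sub_le_of_norm_hasDerivWithin_le
    (fun x hx => (hf x hx).hasDerivWithinAt) hb (left_mem_Icc.2 (by linarith)) ht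
  rw [Real.norm_eq_abs, Real.norm_eq_abs, abs_of_nonneg (sub_nonneg.2 ht.1)] at h
  have hC : 0 ≤ C := (abs_nonneg _).trans (hb t ht)
  have h2 := ht.2
  nlinarith

lemma lin1 {u g : ℝ → ℝ} {lam T δ : ℝ} (hl : |lam| ≤ 1 / 2)
    (hu : ∀ t ∈ Icc T (T + 1), HasDerivAt u (lam * u t + g t) t)
    (hg : ∀ t ∈ Icc T (T + 1), |g t| ≤ δ) : |u (T + 1) - Real.exp lam * u T| ≤ 3 * δ := by
  have hδ : 0 ≤ δ := (abs_nonneg _).trans (hg T (left_mem_Icc.2 (by linarith)))
  have he : Real.exp (1 / 2) * Real.exp (1 / 2) ≤ 3 := by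
    rw [← Real.exp_add]
    norm_num
    linarith [Real.exp_one_lt_d9]
  have hv : ∀ t ∈ Icc T (T + 1), HasDerivAt (fun t => Real.exp (-lam * (t - T)) * u t)
      (Real.exp (-lam * (t - T)) * g t) t := by
    intro t ht
    have h1 : HasDerivAt (fun t : ℝ => -lam * (t - T)) (-lam) t := by
      have := ((hasDerivAt_id t).sub_const T).const_mul (-lam)
      simpa using this
    have h2 := h1.exp.mul (hu t ht)
    convert! h2 using 1
    ring
  have hb : ∀ t ∈ Icc T (T + 1), |Real.exp (-lam * (t - T)) * g t| ≤ Real.exp (1 / 2) * δ := by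
    intro t ht
    rw [abs_mul, abs_of_pos (Real.exp_pos _)]
    apply mul_le_mul _ (hg t ht) (abs_nonneg _) (Real.exp_pos _).le
    apply Real.exp_le_exp.2
    have h1 := neg_abs_le lam
    have h2 := ht.1
    have h3 := ht.2
    have h4 : -lam ≤ |lam| := neg_le_abs lam
    nlinarith [abs_nonneg lam]
  have h := mv1 hv hb (T + 1) (right_mem_Icc.2 (by linarith))
  have h1 : u (T + 1) - Real.exp lam * u T = Real.exp lam *
      ((fun t => Real.exp (-lam * (t - T)) * u t) (T + 1) -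
        (fun t => Real.exp (-lam * (t - T)) * u t) T) := by
    have h2 : Real.exp lam * Real.exp (-lam) = 1 := by
      rw [← Real.exp_add, add_neg_cancel, Real.exp_zero]
    simp only [add_sub_cancel_left, sub_self, mul_one, mul_zero, Real.exp_zero, one_mul]
    linear_combination -h2 * u (T + 1)
  rw [h1, abs_mul, abs_of_pos (Real.exp_pos _)]
  have h3 : Real.exp lam ≤ Real.exp (1 / 2) := Real.exp_le_exp.2 ((le_abs_self _).trans hl)
  calc Real.exp lam * _ ≤ Real.exp (1 / 2) * (Real.exp (1 / 2) * δ) :=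
        mul_le_mul h3 h (abs_nonneg _) (Real.exp_pos _).le
    _ ≤ 3 * δ := by nlinarith

lemma gro {E : Type*} [NormedAddCommGroup E] [NormedSpace ℝ E] {f f' : ℝ → E} {K ε T T₁ : ℝ}
    (hf : ∀ t ∈ Icc T T₁, HasDerivAt f (f' t) t)
    (hb : ∀ t ∈ Ico T T₁, ‖f' t‖ ≤ K * ‖f t‖ + ε) :
    ∀ t ∈ Icc T T₁, ‖f t‖ ≤ gronwallBound ‖f T‖ K ε (t - T) :=
  norm_le_gronwallBound_of_norm_deriv_right_le
    (fun t ht => (hf t ht).continuousAt.continuousWithinAt)
    (fun t ht => (hf t ⟨ht.1, ht.2.le⟩).hasDerivWithinAt) le_rfl hb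

/-- an orbit which begins near the equilibrium stays in the region where the potential is quadratic -/
lemma stay {Y w g h : ℝ → ℝ} {l ε T : ℝ} (hl : 0 < l) (hl1 : l ≤ 1 / 2) (hε : 0 < ε)
    (hε1 : ε ≤ 1 / 200)
    (hY : ∀ t ∈ Icc T (T + 1), HasDerivAt Y (w t + g t) t)
    (hw : ∀ t ∈ Icc T (T + 1), HasDerivAt w (h t) t)
    (hg : ∀ t ∈ Icc T (T + 1), |g t| ≤ ε)
    (hh : ∀ t ∈ Icc T (T + 1), |Y t| < 1 / 8 → |h t - l ^ 2 * Y t| ≤ ε)
    (h0 : |Y T| ≤ 1 / 64) (h1 : |w T| ≤ 1 / 64) :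
    ∀ t ∈ Icc T (T + 1), |Y t| < 1 / 8 ∧ |w t| ≤ 1 := by
  have key : ∀ T₁ ∈ Icc T (T + 1), (∀ t ∈ Ico T T₁, |Y t| < 1 / 8) →
      ∀ t ∈ Icc T T₁, ‖((Y t, w t) : ℝ × ℝ)‖ < 1 / 8 := by
    intro T₁ hT₁ hlt t ht
    have hsub : ∀ t ∈ Icc T T₁, t ∈ Icc T (T + 1) := fun t ht => ⟨ht.1, ht.2.trans hT₁.2⟩
    have h2 := gro (f := fun t => ((Y t, w t) : ℝ × ℝ)) (f' := fun t => (w t + g t, h t))
      (K := 1) (ε := ε) (T := T) (T₁ := T₁)
      (fun t ht => (hY t (hsub t ht)).prodMk (hw t (hsub t ht))) (by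
        intro t ht
        have hm := hsub t ⟨ht.1, ht.2.le⟩
        have a1 := hg t hm
        have a2 := hh t hm (hlt t ht)
        rw [one_mul, Prod.norm_def, Prod.norm_def]
        simp only [Real.norm_eq_abs]
        have b1 := le_max_left |Y t| |w t|
        have b2 := le_max_right |Y t| |w t|
        apply max_le
        · have := abs_add_le (w t) (g t)
          linarith
        · have c1 : h t = l ^ 2 * Y t + (h t - l ^ 2 * Y t) := by ring
          have c2 := abs_add_le (l ^ 2 * Y t) (h t - l ^ 2 * Y t)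
          rw [← c1, abs_mul, abs_of_nonneg (sq_nonneg l)] at c2
          have c3 : l ^ 2 ≤ 1 := by nlinarith
          have c4 := mul_le_mul_of_nonneg_right c3 (abs_nonneg (Y t))
          linarith) t ht
    have h3 : ‖((Y T, w T) : ℝ × ℝ)‖ ≤ 1 / 64 := by
      rw [Prod.norm_def]
      exact max_le h0 h1
    have h4 : gronwallBound ‖((Y T, w T) : ℝ × ℝ)‖ 1 ε (t - T) < 1 / 8 := by
      rw [gronwallBound_of_K_ne_0 one_ne_zero]
      have h5 : Real.exp (1 * (t - T)) ≤ Real.exp 1 := by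
        apply Real.exp_le_exp.2
        have := (hsub t ht).2
        linarith
      have h6 := Real.exp_one_lt_d9
      have h7 := Real.exp_pos (1 * (t - T))
      have h8 := norm_nonneg ((Y T, w T) : ℝ × ℝ)
      simp only [div_one]
      nlinarith
    exact h2.trans_lt h4
  have hY8 : ∀ t ∈ Icc T (T + 1), |Y t| < 1 / 8 := by
    by_contra hc
    push Not at hc
    obtain ⟨t₁, ht₁, ht₂⟩ := hc
    have hcont : ContinuousOn (fun t => |Y t|) (Icc T (T + 1)) := fun t ht =>
      ((hY t ht).continuousAt.abs).continuousWithinAt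
    have hS : IsCompact (Icc T (T + 1) ∩ (fun t => |Y t|) ⁻¹' Ici (1 / 8)) :=
      isCompact_Icc.of_isClosed_subset
        (hcont.preimage_isClosed_of_isClosed isClosed_Icc isClosed_Ici) inter_subset_left
    obtain ⟨t₀, ⟨h1', h2'⟩, h3'⟩ := hS.exists_isLeast ⟨t₁, ht₁, ht₂⟩
    have h4 := key t₀ h1' (fun t ht => by
      by_contra hc
      push Not at hc
      exact absurd (h3' ⟨⟨ht.1, ht.2.le.trans h1'.2⟩, hc⟩) (not_le.2 ht.2)) t₀
        (right_mem_Icc.2 h1'.1)
    rw [Prod.norm_def] at h4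
    have h5 := (le_max_left ‖Y t₀‖ ‖w t₀‖).trans_lt h4
    rw [Real.norm_eq_abs] at h5
    exact absurd h2' (not_le.2 h5)
  intro t ht
  have h2 := key (T + 1) (right_mem_Icc.2 (by linarith)) (fun t ht => hY8 t ⟨ht.1, ht.2.le⟩) t ht
  rw [Prod.norm_def] at h2
  have h3 := (le_max_right ‖Y t‖ ‖w t‖).trans_lt h2
  rw [Real.norm_eq_abs] at h3
  exact ⟨hY8 t ht, by linarith⟩

lemma comp4 (x j y w : ℝ) : |x| ≤ ‖((x, j, y, w) : ℝ × ℝ × ℝ × ℝ)‖ ∧
    |j| ≤ ‖((x, j, y, w) : ℝ × ℝ × ℝ × ℝ)‖ ∧ |y| ≤ ‖((x, j, y, w) : ℝ × ℝ × ℝ × ℝ)‖ ∧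
    |w| ≤ ‖((x, j, y, w) : ℝ × ℝ × ℝ × ℝ)‖ := by
  simp only [Prod.norm_def, Real.norm_eq_abs]
  refine ⟨le_max_left _ _, (le_max_left _ _).trans (le_max_right _ _), ?_, ?_⟩
  · exact (le_max_left _ _).trans ((le_max_right _ _).trans (le_max_right _ _))
  · exact (le_max_right _ _).trans ((le_max_right _ _).trans (le_max_right _ _))

/-- the distance of two orbits grows by a bounded factor -/
lemma two {x j y w gx gj gy gw : ℝ → ℝ} {l ε T : ℝ} (hl : 0 < l) (hl1 : l ≤ 1 / 2) (hε : 0 < ε)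
    (hε1 : ε ≤ 1 / 200)
    (hx : ∀ t ∈ Icc T (T + 1), HasDerivAt x (j t + gx t) t)
    (hj : ∀ t ∈ Icc T (T + 1), HasDerivAt j (gj t) t)
    (hy : ∀ t ∈ Icc T (T + 1), HasDerivAt y (w t + gy t) t)
    (hw : ∀ t ∈ Icc T (T + 1), HasDerivAt w (l ^ 2 * y t + gw t) t)
    (hg : ∀ t ∈ Icc T (T + 1), |gx t| ≤ ε * (|x t| + |j t| + |y t| + |w t|) ∧
      |gj t| ≤ ε * (|x t| + |j t| + |y t| + |w t|) ∧ |gy t| ≤ ε * (|x t| + |j t| + |y t| + |w t|) ∧
      |gw t| ≤ ε * (|x t| + |j t| + |y t| + |w t|)) :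
    ∀ t ∈ Icc T (T + 1), |x t| + |j t| + |y t| + |w t| ≤
      32 * (|x T| + |j T| + |y T| + |w T|) := by
  intro t ht
  have h2 := gro (f := fun t => ((x t, j t, y t, w t) : ℝ × ℝ × ℝ × ℝ))
      (f' := fun t => (j t + gx t, gj t, w t + gy t, l ^ 2 * y t + gw t))
      (K := 2) (ε := 0) (T := T) (T₁ := T + 1)
      (fun t ht => (hx t ht).prodMk ((hj t ht).prodMk ((hy t ht).prodMk (hw t ht)))) (by
        intro t ht
        obtain ⟨a1, a2, a3, a4⟩ := hg t ⟨ht.1, ht.2.le⟩
        obtain ⟨n1, n2, n3, n4⟩ := comp4 (x t) (j t) (y t) (w t)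
        set n := ‖((x t, j t, y t, w t) : ℝ × ℝ × ℝ × ℝ)‖ with hn
        have hn0 : 0 ≤ n := norm_nonneg _
        have hD : ε * (|x t| + |j t| + |y t| + |w t|) ≤ n := by
          have : ε * (|x t| + |j t| + |y t| + |w t|) ≤ ε * (4 * n) :=
            mul_le_mul_of_nonneg_left (by linarith) hε.le
          nlinarith
        have e1 := abs_add_le (j t) (gx t)
        have e3 := abs_add_le (w t) (gy t)
        have e4 := abs_add_le (l ^ 2 * y t) (gw t)
        rw [abs_mul, abs_of_nonneg (sq_nonneg l)] at e4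
        have c3 : l ^ 2 ≤ 1 := by nlinarith
        have c4 := mul_le_mul_of_nonneg_right c3 (abs_nonneg (y t))
        have k1 : ‖j t + gx t‖ ≤ 2 * n := by rw [Real.norm_eq_abs]; linarith
        have k2 : ‖gj t‖ ≤ 2 * n := by rw [Real.norm_eq_abs]; linarith
        have k3 : ‖w t + gy t‖ ≤ 2 * n := by rw [Real.norm_eq_abs]; linarith
        have k4 : ‖l ^ 2 * y t + gw t‖ ≤ 2 * n := by rw [Real.norm_eq_abs]; linarith
        rw [add_zero]
        exact norm_prod_le_iff.2 ⟨k1, norm_prod_le_iff.2 ⟨k2, norm_prod_le_iff.2 ⟨k3, k4⟩⟩⟩)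
      t ht
  rw [gronwallBound_ε0] at h2
  obtain ⟨n1, n2, n3, n4⟩ := comp4 (x t) (j t) (y t) (w t)
  have hT : ‖((x T, j T, y T, w T) : ℝ × ℝ × ℝ × ℝ)‖ ≤ |x T| + |j T| + |y T| + |w T| := by
    have p1 := abs_nonneg (x T)
    have p2 := abs_nonneg (j T)
    have p3 := abs_nonneg (y T)
    have p4 := abs_nonneg (w T)
    refine norm_prod_le_iff.2 ⟨?_, norm_prod_le_iff.2 ⟨?_, norm_prod_le_iff.2 ⟨?_, ?_⟩⟩⟩ <;>
      rw [Real.norm_eq_abs] <;> linarith
  have h5 : Real.exp (2 * (t - T)) ≤ 8 := by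
    have : Real.exp (2 * (t - T)) ≤ Real.exp (1 + 1) := by
      apply Real.exp_le_exp.2
      have := ht.2
      linarith
    rw [Real.exp_add] at this
    have h6 := Real.exp_one_lt_d9
    have h7 := Real.exp_pos 1
    nlinarith
  have h8 := norm_nonneg ((x T, j T, y T, w T) : ℝ × ℝ × ℝ × ℝ)
  have h9 : ‖((x T, j T, y T, w T) : ℝ × ℝ × ℝ × ℝ)‖ * Real.exp (2 * (t - T)) ≤
      (|x T| + |j T| + |y T| + |w T|) * 8 := by
    apply mul_le_mul hT h5 (Real.exp_pos _).le
    positivity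
  linarith

/-- the final arithmetic of the cone condition -/
lemma arith {l ε K A C₂ p q m m₁ d d₁ : ℝ} (hl : 0 < l) (hl1 : l ≤ 1 / 2) (hε : 0 < ε)
    (hK : 0 ≤ K) (hA : 0 < A) (hC : C₂ = 2 * A) (hd : 0 ≤ d)
    (hth : A * (ε * (1 + K)) ≤ l / 8) (hAε : A * ε ≤ l / 16)
    (hp : 0 < p) (hp1 : p ≤ 1) (hq : 1 ≤ q) (hpq : 1 + 3 * l / 4 ≤ p * q)
    (hm : m ≤ K * d) (hm1 : m₁ ≤ (1 + l / 4) * m + A * (ε * (1 + K)) * d)
    (hd1 : (q - A * (ε * (1 + K))) * d ≤ d₁) :
    m₁ ≤ (p * K + C₂ * ε) * d₁ := by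
  subst hC
  have h1 : 0 ≤ p * K + 2 * A * ε := by positivity
  have h2 := mul_le_mul_of_nonneg_left hd1 h1
  refine le_trans ?_ h2
  have h3 : m₁ ≤ ((1 + l / 4) * K + A * (ε * (1 + K))) * d := by
    have := mul_le_mul_of_nonneg_left hm (show 0 ≤ 1 + l / 4 by linarith)
    nlinarith
  refine h3.trans ?_
  rw [← mul_assoc (p * K + 2 * A * ε)]
  apply mul_le_mul_of_nonneg_right _ hd
  set θ := A * (ε * (1 + K)) with hθ
  have hθe : θ = A * ε + A * ε * K := by rw [hθ]; ring
  have h4 : (p * K + 2 * A * ε) * (q - θ) = (p * q) * K + 2 * A * ε * q - p * K * θ -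
      2 * A * ε * θ := by ring
  rw [h4]
  have h5 : (1 + 3 * l / 4) * K ≤ (p * q) * K := mul_le_mul_of_nonneg_right hpq hK
  have hAe : 0 < A * ε := by positivity
  have h6 : 2 * A * ε ≤ 2 * A * ε * q := by nlinarith
  have hθ0 : 0 ≤ θ := by rw [hθ]; positivity
  have h7 : p * K * θ ≤ K * (l / 8) := by
    have : p * K ≤ K := by nlinarith
    exact mul_le_mul this hth hθ0 hK
  have h8 : 2 * A * ε * θ ≤ 2 * A * ε * (l / 8) := mul_le_mul_of_nonneg_left hth (by positivity)
  have h9 : A * ε * K ≤ l / 16 * K := mul_le_mul_of_nonneg_right hAε hK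
  have h10 : 0 ≤ A * ε * (1 / 2 - l) := mul_nonneg hAe.le (by linarith)
  have h11 : 0 ≤ l * K := by positivity
  nlinarith

end Pool.Agent.Helper6K9.EH.UnitL

namespace Pool.Agent.Helper6K9.EH.UnitL

open Set Filter Topology

lemma kk1 {k : ℝ → ℝ} {c : ℝ} (hk : Prof k c) {y : ℝ} (hy : |y| < 1 / 8) :
    k y = y ∧ deriv k y = 1 := by
  refine ⟨hk.lin y hy.le, ?_⟩
  have : k =ᶠ[𝓝 y] id := by
    have h1 : ∀ᶠ z in 𝓝 y, |z| < 1 / 8 := (isOpen_lt continuous_abs continuous_const).mem_nhds hy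
    filter_upwards [h1] with z hz
    exact hk.lin z hz.le
  rw [this.deriv_eq, deriv_id]

/-- the equations in the box -/
structure Lin (e : Env) (F : Fam) (ε a b T : ℝ) : Prop where
  hX : ∀ s ∈ Icc a b, ∀ t ∈ Icc T (T + 1), HasDerivAt (F.X s) (F.J s t + eX F s t) t
  hJ : ∀ s ∈ Icc a b, ∀ t ∈ Icc T (T + 1), HasDerivAt (F.J s) (eJ e F s t) t
  hY : ∀ s ∈ Icc a b, ∀ t ∈ Icc T (T + 1), HasDerivAt (F.Y s) (F.w s t + eY F s t) t
  hw : ∀ s ∈ Icc a b, ∀ t ∈ Icc T (T + 1),
    HasDerivAt (F.w s) (e.l ^ 2 * F.Y s t + ew e F s t) t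
  bJ : ∀ s ∈ Icc a b, ∀ t ∈ Icc T (T + 1), |eJ e F s t| ≤ ε ^ 3
  w1 : ∀ s ∈ Icc a b, ∀ t ∈ Icc T (T + 1), |F.w s t| ≤ 1

lemma lin_of {e : Env} {j₀ : ℕ} (he : EnvOK e j₀) {F : Fam} {ε a b T : ℝ} (hε : 0 < ε)
    (hε1 : ε ≤ 1 / 200) (hctl : Ctl e F ε a b T (T + 1))
    (hT : ∀ s ∈ Icc a b, |F.Y s T| ≤ 1 / 64 ∧ |F.w s T| ≤ 1 / 64) : Lin e F ε a b T := by
  have hvan : ∀ s t, |F.Y s t| < 1 / 8 → e.Kx (F.X s t) (F.Y s t) t = 0 ∧
      e.Ky (F.X s t) (F.Y s t) t = 0 := fun s t h => he.van _ _ _ (Or.inl (by linarith))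
  have hX : ∀ s ∈ Icc a b, ∀ t ∈ Icc T (T + 1), HasDerivAt (F.X s) (F.J s t + eX F s t) t := by
    intro s hs t ht
    have h := (hctl.dif s hs t ht).1.hasDerivAt
    have h2 : F.J s t + eX F s t = deriv (F.X s) t := by unfold eX; ring
    rwa [h2]
  have hY : ∀ s ∈ Icc a b, ∀ t ∈ Icc T (T + 1), HasDerivAt (F.Y s) (F.w s t + eY F s t) t := by
    intro s hs t ht
    have h := (hctl.dif s hs t ht).2.2.1.hasDerivAt
    have h2 : F.w s t + eY F s t = deriv (F.Y s) t := by unfold eY; ring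
    rwa [h2]
  have hst : ∀ s ∈ Icc a b, ∀ t ∈ Icc T (T + 1), |F.Y s t| < 1 / 8 ∧ |F.w s t| ≤ 1 := by
    intro s hs
    refine stay (Y := F.Y s) (w := F.w s) (g := eY F s) (h := deriv (F.w s)) he.hl he.hl1 hε hε1
      (hY s hs) (fun t ht => (hctl.dif s hs t ht).2.2.2.hasDerivAt)
      (fun t ht => (hctl.bd s hs t ht).2.1) (fun t ht hlt => ?_) (hT s hs).1 (hT s hs).2
    have h1 := (hctl.bd s hs t ht).2.2.1
    unfold ew at h1
    rw [(kk1 he.prof hlt).1, (kk1 he.prof hlt).2, (hvan s t hlt).2] at h1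
    simpa using h1
  refine ⟨hX, fun s hs t ht => ?_, hY, fun s hs t ht => ?_, fun s hs t ht => ?_,
    fun s hs t ht => (hst s hs t ht).2⟩
  · have h := (hctl.dif s hs t ht).2.1.hasDerivAt
    have h2 : eJ e F s t = deriv (F.J s) t := by
      unfold eJ
      rw [(hvan s t (hst s hs t ht).1).1]
      ring
    rwa [h2]
  · have h := (hctl.dif s hs t ht).2.2.2.hasDerivAt
    have h2 : e.l ^ 2 * F.Y s t + ew e F s t = deriv (F.w s) t := by
      unfold ew
      have hlt := (hst s hs t ht).1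
      rw [(kk1 he.prof hlt).1, (kk1 he.prof hlt).2, (hvan s t hlt).2]
      ring
    rwa [h2]
  · have h1 := (hctl.bd s hs t ht).2.2.2
    rw [(hvan s t (hst s hs t ht).1).1, (hvan s t (hst s hs t ht).1).2] at h1
    simpa using h1

lemma dxi {e : Env} {F : Fam} {ε a b T : ℝ} (hL : Lin e F ε a b T) {s : ℝ} (hs : s ∈ Icc a b)
    {t : ℝ} (ht : t ∈ Icc T (T + 1)) : HasDerivAt (fun t => xi e F s t)
      (e.l * xi e F s t + (ew e F s t + e.l * eY F s t)) t := by
  have h := (hL.hw s hs t ht).add ((hL.hY s hs t ht).const_mul e.l)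
  convert! h using 1
  unfold xi
  ring

lemma dze {e : Env} {F : Fam} {ε a b T : ℝ} (hL : Lin e F ε a b T) {s : ℝ} (hs : s ∈ Icc a b)
    {t : ℝ} (ht : t ∈ Icc T (T + 1)) : HasDerivAt (fun t => ze e F s t)
      (-e.l * ze e F s t + (ew e F s t - e.l * eY F s t)) t := by
  have h := (hL.hw s hs t ht).sub ((hL.hY s hs t ht).const_mul e.l)
  convert! h using 1
  unfold ze
  ring

/-- differences of two orbits -/
lemma diff {e : Env} {F : Fam} {ε a b T : ℝ} (hl : 0 < e.l) (hl1 : e.l ≤ 1 / 2) (hε : 0 < ε)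
    (hε1 : ε ≤ 1 / 200) (hctl : Ctl e F ε a b T (T + 1)) (hL : Lin e F ε a b T) {s s' : ℝ}
    (hs : s ∈ Icc a b) (hs' : s' ∈ Icc a b) :
    |(xi e F s (T + 1) - xi e F s' (T + 1)) - Real.exp e.l * (xi e F s T - xi e F s' T)| ≤
        192 * (ε * dst F s s' T) ∧
    |(ze e F s (T + 1) - ze e F s' (T + 1)) - Real.exp (-e.l) * (ze e F s T - ze e F s' T)| ≤
        192 * (ε * dst F s s' T) ∧
    |(F.J s (T + 1) - F.J s' (T + 1)) - (F.J s T - F.J s' T)| ≤ 32 * (ε * dst F s s' T) ∧
    |(F.X s (T + 1) - F.X s' (T + 1)) - (F.X s T - F.X s' T) - (F.J s T - F.J s' T)| ≤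
        64 * (ε * dst F s s' T) := by
  have hD : ∀ t ∈ Icc T (T + 1), dst F s s' t ≤ 32 * dst F s s' T := by
    intro t ht
    have h := two (x := fun t => F.X s t - F.X s' t) (j := fun t => F.J s t - F.J s' t)
      (y := fun t => F.Y s t - F.Y s' t) (w := fun t => F.w s t - F.w s' t)
      (gx := fun t => eX F s t - eX F s' t) (gj := fun t => eJ e F s t - eJ e F s' t)
      (gy := fun t => eY F s t - eY F s' t) (gw := fun t => ew e F s t - ew e F s' t)
      hl hl1 hε hε1
      (fun t ht => by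
        have := (hL.hX s hs t ht).sub (hL.hX s' hs' t ht)
        convert! this using 1
        ring)
      (fun t ht => (hL.hJ s hs t ht).sub (hL.hJ s' hs' t ht))
      (fun t ht => by
        have := (hL.hY s hs t ht).sub (hL.hY s' hs' t ht)
        convert! this using 1
        ring)
      (fun t ht => by
        have := (hL.hw s hs t ht).sub (hL.hw s' hs' t ht)
        convert! this using 1
        ring)
      (fun t ht => by
        obtain ⟨a1, a2, a3, a4⟩ := hctl.lip s hs s' hs' t ht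
        exact ⟨a1, a4, a2, a3⟩) t ht
    exact h
  have hD0 : 0 ≤ dst F s s' T := by unfold dst; positivity
  have hlip : ∀ t ∈ Icc T (T + 1), |eX F s t - eX F s' t| ≤ 32 * (ε * dst F s s' T) ∧
      |eY F s t - eY F s' t| ≤ 32 * (ε * dst F s s' T) ∧
      |ew e F s t - ew e F s' t| ≤ 32 * (ε * dst F s s' T) ∧
      |eJ e F s t - eJ e F s' t| ≤ 32 * (ε * dst F s s' T) := by
    intro t ht
    obtain ⟨a1, a2, a3, a4⟩ := hctl.lip s hs s' hs' t ht
    have h1 := mul_le_mul_of_nonneg_left (hD t ht) hε.le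
    exact ⟨by linarith, by linarith, by linarith, by linarith⟩
  have hl' : |e.l| ≤ 1 / 2 := by rwa [abs_of_pos hl]
  have hl'' : |-e.l| ≤ 1 / 2 := by rwa [abs_neg]
  have hJ : ∀ t ∈ Icc T (T + 1), |(F.J s t - F.J s' t) - (F.J s T - F.J s' T)| ≤
      32 * (ε * dst F s s' T) :=
    mv1 (f := fun t => F.J s t - F.J s' t) (f' := fun t => eJ e F s t - eJ e F s' t)
      (fun t ht => (hL.hJ s hs t ht).sub (hL.hJ s' hs' t ht)) fun t ht => (hlip t ht).2.2.2
  refine ⟨?_, ?_, hJ (T + 1) (right_mem_Icc.2 (by linarith)), ?_⟩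
  · have h := lin1 (u := fun t => xi e F s t - xi e F s' t)
      (g := fun t => (ew e F s t + e.l * eY F s t) - (ew e F s' t + e.l * eY F s' t))
      (lam := e.l) (T := T) (δ := 64 * (ε * dst F s s' T)) hl' (fun t ht => by
        have := (dxi hL hs ht).sub (dxi hL hs' ht)
        convert! this using 1
        ring) (fun t ht => by
        obtain ⟨-, a2, a3, -⟩ := hlip t ht
        have h1 : (ew e F s t + e.l * eY F s t) - (ew e F s' t + e.l * eY F s' t) =
          (ew e F s t - ew e F s' t) + e.l * (eY F s t - eY F s' t) := by ring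
        have h2 := abs_add_le (ew e F s t - ew e F s' t) (e.l * (eY F s t - eY F s' t))
        rw [abs_mul, abs_of_pos hl] at h2
        show |(ew e F s t + e.l * eY F s t) - (ew e F s' t + e.l * eY F s' t)| ≤ _
        rw [h1]
        have h3 : e.l * |eY F s t - eY F s' t| ≤ 1 * (32 * (ε * dst F s s' T)) :=
          mul_le_mul (by linarith) a2 (abs_nonneg _) (by norm_num)
        linarith)
    calc _ ≤ 3 * (64 * (ε * dst F s s' T)) := h
      _ = _ := by ring
  · have h := lin1 (u := fun t => ze e F s t - ze e F s' t)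
      (g := fun t => (ew e F s t - e.l * eY F s t) - (ew e F s' t - e.l * eY F s' t))
      (lam := -e.l) (T := T) (δ := 64 * (ε * dst F s s' T)) hl'' (fun t ht => by
        have := (dze hL hs ht).sub (dze hL hs' ht)
        convert! this using 1
        ring) (fun t ht => by
        obtain ⟨-, a2, a3, -⟩ := hlip t ht
        have h1 : (ew e F s t - e.l * eY F s t) - (ew e F s' t - e.l * eY F s' t) =
          (ew e F s t - ew e F s' t) - e.l * (eY F s t - eY F s' t) := by ring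
        have h2 := abs_sub (ew e F s t - ew e F s' t) (e.l * (eY F s t - eY F s' t))
        rw [abs_mul, abs_of_pos hl] at h2
        show |(ew e F s t - e.l * eY F s t) - (ew e F s' t - e.l * eY F s' t)| ≤ _
        rw [h1]
        have h3 : e.l * |eY F s t - eY F s' t| ≤ 1 * (32 * (ε * dst F s s' T)) :=
          mul_le_mul (by linarith) a2 (abs_nonneg _) (by norm_num)
        linarith)
    calc _ ≤ 3 * (64 * (ε * dst F s s' T)) := h
      _ = _ := by ring
  · have h := mv1 (f := fun t => (F.X s t - F.X s' t) - (t - T) * (F.J s T - F.J s' T))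
      (f' := fun t => (F.J s t - F.J s' t) - (F.J s T - F.J s' T) + (eX F s t - eX F s' t))
      (C := 64 * (ε * dst F s s' T)) (T := T) (fun t ht => by
        have h1 := (hL.hX s hs t ht).sub (hL.hX s' hs' t ht)
        have h2 := ((hasDerivAt_id t).sub_const T).mul_const (F.J s T - F.J s' T)
        have h3 := h1.sub h2
        convert! h3 using 1
        ring) (fun t ht => by
        have h1 := abs_add_le ((F.J s t - F.J s' t) - (F.J s T - F.J s' T))
          (eX F s t - eX F s' t)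
        have h2 := hJ t ht
        have h3 := (hlip t ht).1
        linarith) (T + 1) (right_mem_Icc.2 (by linarith))
    simp only [add_sub_cancel_left, one_mul, sub_self, zero_mul, sub_zero] at h
    calc _ = |(F.X s (T + 1) - F.X s' (T + 1)) - (F.J s T - F.J s' T) -
          (F.X s T - F.X s' T)| := by congr 1; ring
      _ ≤ _ := h

lemma dst_le {e : Env} {F : Fam} (hl : 0 < e.l) (hl1 : e.l ≤ 1 / 2) (s s' T : ℝ) :
    dst F s s' T ≤ 4 / e.l * (|xi e F s T - xi e F s' T| + (|ze e F s T - ze e F s' T| +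
      e.l / 4 * |F.X s T - F.X s' T| + |F.J s T - F.J s' T|)) := by
  rw [div_mul_eq_mul_div, le_div_iff₀ hl]
  unfold dst
  have h1 : F.w s T - F.w s' T = ((xi e F s T - xi e F s' T) + (ze e F s T - ze e F s' T)) / 2 := by
    unfold xi ze; ring
  have h2 : e.l * (F.Y s T - F.Y s' T) =
      ((xi e F s T - xi e F s' T) - (ze e F s T - ze e F s' T)) / 2 := by
    unfold xi ze; ring
  have h3 : |F.w s T - F.w s' T| ≤ (|xi e F s T - xi e F s' T| + |ze e F s T - ze e F s' T|) / 2 := by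
    rw [h1, abs_div, abs_two]
    linarith [abs_add_le (xi e F s T - xi e F s' T) (ze e F s T - ze e F s' T)]
  have h4 : e.l * |F.Y s T - F.Y s' T| ≤
      (|xi e F s T - xi e F s' T| + |ze e F s T - ze e F s' T|) / 2 := by
    have : e.l * |F.Y s T - F.Y s' T| = |e.l * (F.Y s T - F.Y s' T)| := by
      rw [abs_mul, abs_of_pos hl]
    rw [this, h2, abs_div, abs_two]
    linarith [abs_sub (xi e F s T - xi e F s' T) (ze e F s T - ze e F s' T)]
  have h5 := abs_nonneg (F.w s T - F.w s' T)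
  have h6 := abs_nonneg (F.J s T - F.J s' T)
  have h7 := abs_nonneg (xi e F s T - xi e F s' T)
  have h8 := abs_nonneg (ze e F s T - ze e F s' T)
  nlinarith

end Pool.Agent.Helper6K9.EH.UnitL

namespace Pool.Agent.Helper6K9.EH

open Set Filter Topology UnitL

theorem unit : S_UNIT := by
  intro e j₀ he
  have hl := he.hl
  have hl1 := he.hl1
  refine ⟨e.l / 64, 12 / e.l, 2400 / e.l, e.l ^ 2 / 19200, by positivity, by linarith, by linarith,
    ?_, ?_, by positivity, ?_⟩
  · rw [le_div_iff₀ hl]; linarith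
  · rw [le_div_iff₀ hl]; linarith
  intro F a b T ε R Z K hε hε0 hctl hR hRr hZ hK hKε hbox
  have hε1 : ε ≤ 1 / 200 := by nlinarith
  have hR0 : 0 < R := lt_of_lt_of_le (by positivity) hR
  have hT : ∀ s ∈ Icc a b, |F.Y s T| ≤ 1 / 64 ∧ |F.w s T| ≤ 1 / 64 := by
    intro s hs
    have h1 := abs_le.1 (hbox.bx s hs)
    have h2 := abs_le.1 (hbox.bz s hs)
    unfold xi at h1
    unfold ze at h2
    constructor
    · have h3 : |e.l * F.Y s T| ≤ e.l / 64 := abs_le.2 ⟨by linarith, by linarith⟩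
      rw [abs_mul, abs_of_pos hl] at h3
      have h4 : e.l * |F.Y s T| ≤ e.l * (1 / 64) := by linarith
      exact le_of_mul_le_mul_left h4 hl
    · exact abs_le.2 ⟨by linarith, by linarith⟩
  have hL := lin_of he hε hε1 hctl hT
  have hmem : T + 1 ∈ Icc T (T + 1) := right_mem_Icc.2 (by linarith)
  have hJt : ∀ s ∈ Icc a b, ∀ t ∈ Icc T (T + 1), |F.J s t - F.J s T| ≤ ε ^ 3 := fun s hs =>
    mv1 (fun t ht => hL.hJ s hs t ht) fun t ht => hL.bJ s hs t ht
  have hε3 : 0 < ε ^ 3 := by positivity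
  have hC1 : 1 ≤ 2400 / e.l := by rw [le_div_iff₀ hl]; linarith
  have hC2 : 6 ≤ 2400 / e.l := by rw [le_div_iff₀ hl]; linarith
  refine ⟨?_, fun s hs => ⟨?_, fun t ht => ⟨hL.w1 s hs t ht, ?_⟩⟩⟩
  · -- the new box
    have hxi : ∀ s ∈ Icc a b, |xi e F s (T + 1) - Real.exp e.l * xi e F s T| ≤ 6 * ε := by
      intro s hs
      have h := lin1 (u := fun t => xi e F s t) (g := fun t => ew e F s t + e.l * eY F s t)
        (lam := e.l) (T := T) (δ := 2 * ε) (by rwa [abs_of_pos hl]) (fun t ht => dxi hL hs ht)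
        (fun t ht => by
          obtain ⟨-, a2, a3, -⟩ := hctl.bd s hs t ht
          have h2 := abs_add_le (ew e F s t) (e.l * eY F s t)
          rw [abs_mul, abs_of_pos hl] at h2
          have h3 : e.l * |eY F s t| ≤ 1 * ε := mul_le_mul (by linarith) a2 (abs_nonneg _)
            (by norm_num)
          linarith)
      calc _ ≤ 3 * (2 * ε) := h
        _ = _ := by ring
    have hze : ∀ s ∈ Icc a b, |ze e F s (T + 1) - Real.exp (-e.l) * ze e F s T| ≤ 6 * ε := by
      intro s hs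
      have h := lin1 (u := fun t => ze e F s t) (g := fun t => ew e F s t - e.l * eY F s t)
        (lam := -e.l) (T := T) (δ := 2 * ε) (by rwa [abs_neg, abs_of_pos hl])
        (fun t ht => dze hL hs ht)
        (fun t ht => by
          obtain ⟨-, a2, a3, -⟩ := hctl.bd s hs t ht
          have h2 := abs_sub (ew e F s t) (e.l * eY F s t)
          rw [abs_mul, abs_of_pos hl] at h2
          have h3 : e.l * |eY F s t| ≤ 1 * ε := mul_le_mul (by linarith) a2 (abs_nonneg _)
            (by norm_num)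
          linarith)
      calc _ ≤ 3 * (2 * ε) := h
        _ = _ := by ring
    have hexp : Real.exp (e.l / 2) * R ≤ Real.exp e.l * R - 6 * ε := by
      have h1 : Real.exp e.l = Real.exp (e.l / 2) * Real.exp (e.l / 2) := by
        rw [← Real.exp_add]
        ring_nf
      have h2 := Real.add_one_le_exp (e.l / 2)
      have h3 : 12 * ε ≤ e.l * R := by
        rw [div_mul_eq_mul_div, div_le_iff₀ hl] at hR
        linarith
      have h4 : Real.exp (e.l / 2) * R * (e.l / 2) ≤
          Real.exp (e.l / 2) * R * (Real.exp (e.l / 2) - 1) := by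
        apply mul_le_mul_of_nonneg_left (by linarith)
        positivity
      have h5 : R * (e.l / 2) ≤ Real.exp (e.l / 2) * (R * (e.l / 2)) := by
        have : 0 ≤ R * (e.l / 2) := by positivity
        nlinarith
      rw [h1]
      nlinarith
    have hR' : 0 < Real.exp (e.l / 2) * R := by positivity
    have hcont : ContinuousOn (fun s => xi e F s (T + 1)) (Icc a b) := by
      obtain ⟨-, -, c3, c4⟩ := hctl.cts (T + 1) hmem
      exact c4.add (continuousOn_const.mul c3)
    obtain ⟨a', b', h1, h2, h3, h4, h5, h6⟩ := path_cut hbox.le hcont hR' (by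
        have := abs_le.1 (hxi a (left_mem_Icc.2 hbox.le))
        rw [hbox.left] at this
        show xi e F a (T + 1) ≤ _
        linarith [this.2]) (by
        have := abs_le.1 (hxi b (right_mem_Icc.2 hbox.le))
        rw [hbox.right] at this
        show _ ≤ xi e F b (T + 1)
        linarith [this.1])
    have hsub : ∀ s ∈ Icc a' b', s ∈ Icc a b := fun s hs => ⟨h1.trans hs.1, hs.2.trans h3⟩
    refine ⟨a', b', h1, h3, ⟨h2, h4, h5, h6, fun s hs => ?_, fun s hs s' hs' => ?_⟩⟩
    · have h7 := hze s (hsub s hs)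
      have h8 := hbox.bz s (hsub s hs)
      have h9 : |ze e F s (T + 1)| ≤ |ze e F s (T + 1) - Real.exp (-e.l) * ze e F s T| +
          |Real.exp (-e.l) * ze e F s T| := by
        have := abs_add_le (ze e F s (T + 1) - Real.exp (-e.l) * ze e F s T)
          (Real.exp (-e.l) * ze e F s T)
        rwa [sub_add_cancel] at this
      rw [abs_mul, abs_of_pos (Real.exp_pos _)] at h9
      have h10 := mul_le_mul_of_nonneg_left h8 (Real.exp_pos (-e.l)).le
      have h11 : 6 * ε ≤ 2400 / e.l * ε := mul_le_mul_of_nonneg_right hC2 hε.le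
      linarith
    · obtain ⟨d1, d2, d3, d4⟩ := diff hl hl1 hε hε1 hctl hL (hsub s hs) (hsub s' hs')
      have hcone := hbox.cone s (hsub s hs) s' (hsub s' hs')
      have hD := dst_le (F := F) hl hl1 s s' T
      set D := dst F s s' T with hDd
      set m := |ze e F s T - ze e F s' T| + e.l / 4 * |F.X s T - F.X s' T| +
        |F.J s T - F.J s' T| with hm
      set d := |xi e F s T - xi e F s' T| with hd
      have hd0 : 0 ≤ d := abs_nonneg _
      have hD2 : D ≤ 4 / e.l * ((1 + K) * d) := by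
        refine hD.trans ?_
        apply mul_le_mul_of_nonneg_left _ (by positivity)
        linarith
      have hD0 : 0 ≤ D := by rw [hDd]; unfold dst; positivity
      have hD3 : 300 * (ε * D) ≤ 1200 / e.l * (ε * (1 + K)) * d := by
        have := mul_le_mul_of_nonneg_left hD2 (show 0 ≤ 300 * ε by positivity)
        calc 300 * (ε * D) = 300 * ε * D := by ring
          _ ≤ _ := this
          _ = _ := by ring
      have hεD : 0 ≤ ε * D := by positivity
      have hab1 : Real.exp (-e.l) * Real.exp (e.l) = 1 := by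
        rw [← Real.exp_add, neg_add_cancel, Real.exp_zero]
      refine arith (A := 1200 / e.l) (q := Real.exp e.l) (m := m) (d := d) (l := e.l) hl hl1 hε hK
        (by positivity) (by ring) hd0 ?_ ?_ (Real.exp_pos _) ?_ ?_ ?_ hcone ?_ ?_
      · rw [div_mul_eq_mul_div, div_le_iff₀ hl]
        nlinarith
      · rw [div_mul_eq_mul_div, div_le_iff₀ hl]
        nlinarith
      · rw [← Real.exp_zero]
        apply Real.exp_le_exp.2
        linarith
      · rw [← Real.exp_zero]
        apply Real.exp_le_exp.2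
        linarith
      · rw [← Real.exp_add]
        have := Real.add_one_le_exp (-e.l / 4 + e.l)
        linarith
      · have e1 : |ze e F s (T + 1) - ze e F s' (T + 1)| ≤ |ze e F s T - ze e F s' T| +
            192 * (ε * D) := by
          have g1 := abs_add_le ((ze e F s (T + 1) - ze e F s' (T + 1)) -
            Real.exp (-e.l) * (ze e F s T - ze e F s' T))
            (Real.exp (-e.l) * (ze e F s T - ze e F s' T))
          rw [sub_add_cancel, abs_mul, abs_of_pos (Real.exp_pos _)] at g1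
          have g2 : Real.exp (-e.l) ≤ 1 := by
            rw [← Real.exp_zero]
            apply Real.exp_le_exp.2
            linarith
          have g3 := mul_le_mul_of_nonneg_right g2 (abs_nonneg (ze e F s T - ze e F s' T))
          linarith
        have e2 : |F.J s (T + 1) - F.J s' (T + 1)| ≤ |F.J s T - F.J s' T| + 32 * (ε * D) := by
          have g1 := abs_add_le ((F.J s (T + 1) - F.J s' (T + 1)) - (F.J s T - F.J s' T))
            (F.J s T - F.J s' T)
          rw [sub_add_cancel] at g1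
          linarith
        have e3 : |F.X s (T + 1) - F.X s' (T + 1)| ≤ |F.X s T - F.X s' T| +
            |F.J s T - F.J s' T| + 64 * (ε * D) := by
          have g1 := abs_add_le ((F.X s (T + 1) - F.X s' (T + 1)) - (F.X s T - F.X s' T) -
            (F.J s T - F.J s' T)) ((F.X s T - F.X s' T) + (F.J s T - F.J s' T))
          have g2 := abs_add_le (F.X s T - F.X s' T) (F.J s T - F.J s' T)
          have g3 : (F.X s (T + 1) - F.X s' (T + 1)) - (F.X s T - F.X s' T) -
            (F.J s T - F.J s' T) + ((F.X s T - F.X s' T) + (F.J s T - F.J s' T)) =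
            F.X s (T + 1) - F.X s' (T + 1) := by ring
          rw [g3] at g1
          linarith
        have e4 := mul_le_mul_of_nonneg_left e3 (show 0 ≤ e.l / 4 by positivity)
        have e5 : 0 ≤ |ze e F s T - ze e F s' T| := abs_nonneg _
        have e6 : 0 ≤ |F.X s T - F.X s' T| := abs_nonneg _
        have e7 : e.l / 4 * (64 * (ε * D)) ≤ 8 * (ε * D) := by nlinarith
        have e8 : 0 ≤ e.l / 4 * |ze e F s T - ze e F s' T| := by positivity
        have e9 : 0 ≤ e.l / 4 * (e.l / 4 * |F.X s T - F.X s' T|) := by positivity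
        have e10 : (1 + e.l / 4) * m = m + e.l / 4 * |ze e F s T - ze e F s' T| +
          e.l / 4 * (e.l / 4 * |F.X s T - F.X s' T|) + e.l / 4 * |F.J s T - F.J s' T| := by
          rw [hm]; ring
        have e11 : e.l / 4 * (|F.X s T - F.X s' T| + |F.J s T - F.J s' T| + 64 * (ε * D)) =
          e.l / 4 * |F.X s T - F.X s' T| + e.l / 4 * |F.J s T - F.J s' T| +
            e.l / 4 * (64 * (ε * D)) := by ring
        rw [e11] at e4
        linarith
      · have g1 := abs_sub_abs_le_abs_sub (Real.exp e.l * (xi e F s T - xi e F s' T))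
          (xi e F s (T + 1) - xi e F s' (T + 1))
        have g2 := abs_sub_comm (Real.exp e.l * (xi e F s T - xi e F s' T))
          (xi e F s (T + 1) - xi e F s' (T + 1))
        rw [g2, abs_mul, abs_of_pos (Real.exp_pos e.l)] at g1
        have g3 : (Real.exp e.l - 1200 / e.l * (ε * (1 + K))) * d = Real.exp e.l * d -
          1200 / e.l * (ε * (1 + K)) * d := by ring
        rw [g3]
        linarith
  · have h := mv1 (f := fun t => F.X s t - (t - T) * F.J s T)
      (f' := fun t => (F.J s t - F.J s T) + eX F s t) (C := 2 * ε) (T := T) (fun t ht => by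
        have h1 := (hL.hX s hs t ht)
        have h2 := ((hasDerivAt_id t).sub_const T).mul_const (F.J s T)
        have h3 := h1.sub h2
        convert! h3 using 1
        ring) (fun t ht => by
        have h1 := abs_add_le (F.J s t - F.J s T) (eX F s t)
        have h2 := hJt s hs t ht
        have h3 := (hctl.bd s hs t ht).1
        have h4 : ε ^ 3 ≤ ε := by
          have : ε ^ 2 ≤ 1 := by nlinarith
          calc ε ^ 3 = ε ^ 2 * ε := by ring
            _ ≤ 1 * ε := mul_le_mul_of_nonneg_right this hε.le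
            _ = ε := one_mul _
        linarith) (T + 1) hmem
    simp only [add_sub_cancel_left, one_mul, sub_self, zero_mul, sub_zero] at h
    have h1 : 2 * ε ≤ 2400 / e.l * ε := mul_le_mul_of_nonneg_right (by linarith) hε.le
    calc _ = |F.X s (T + 1) - F.J s T - F.X s T| := by congr 1; ring
      _ ≤ 2 * ε := h
      _ ≤ _ := h1
  · have h := hJt s hs t ht
    have h1 : 1 * ε ^ 3 ≤ 2400 / e.l * ε ^ 3 := mul_le_mul_of_nonneg_right hC1 hε3.le
    linarith

end Pool.Agent.Helper6K9.EH
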